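import Pool.Agent.Lib.SX.Blue

/-! Block AVOID: prime avoidance with small natural coefficients. -/

namespace Pool.Agent.SX

open Finset Polynomial

namespace Avoid

variable {R : Type} [CommRing R] [IsDomain R] [CharZero R]

lemma not_dvd_nat {g : R[X]} (hg : 0 < g.natDegree) {c : ℕ} (hc : c ≠ 0) : ¬g ∣ (c : R[X]) := fun h => by
  have h0 : (c : R[X]) ≠ 0 := Nat.cast_ne_zero.2 hc
  have := natDegree_le_of_dvd h h0
  rw [natDegree_natCast] at this
  omega

lemma two {g G F : R[X]} (hp : Prime g) (hg : 0 < g.natDegree) (hG : ¬g ∣ G) {c c' : ℕ} (hc : c < c')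
    (h : g ∣ G + (c : R[X]) * F) (h' : g ∣ G + (c' : R[X]) * F) : False := by
  obtain ⟨e, rfl⟩ := Nat.exists_eq_add_of_lt hc
  have h2 : g ∣ ((e + 1 : ℕ) : R[X]) * F := by
    have := dvd_sub h' h
    have e1 : G + ((c + e + 1 : ℕ) : R[X]) * F - (G + (c : R[X]) * F) = ((e + 1 : ℕ) : R[X]) * F := by
      push_cast; ring
    rwa [e1] at this
  rcases hp.dvd_or_dvd h2 with h3 | h3
  · exact not_dvd_nat hg (Nat.succ_ne_zero e) h3
  · exact hG ((dvd_add_left (h3.mul_left _)).1 h)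

lemma pick (S : Finset R[X]) (G F : R[X]) (hS : ∀ g ∈ S, Prime g ∧ 0 < g.natDegree ∧ ¬g ∣ G) :
    ∃ c ≤ S.card, ∀ g ∈ S, ¬g ∣ G + ((c + 1 : ℕ) : R[X]) * F := by
  by_contra hcon
  have h1 : ∀ c : ℕ, ∃ g, c ∈ range (S.card + 1) → g ∈ S ∧ g ∣ G + ((c + 1 : ℕ) : R[X]) * F := by
    intro c
    by_cases hc : c ∈ range (S.card + 1)
    · by_contra h2
      refine hcon ⟨c, Nat.lt_succ_iff.1 (mem_range.1 hc), fun g hg hd => h2 ⟨g, fun _ => ⟨hg, hd⟩⟩⟩
    · exact ⟨0, fun h => absurd h hc⟩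
  choose φ hφ using h1
  obtain ⟨c, hc, c', hc', hne, he⟩ := exists_ne_map_eq_of_card_lt_of_maps_to
    (s := range (S.card + 1)) (t := S) (f := φ) (by simp) fun c hc => (hφ c hc).1
  obtain ⟨hm, hd⟩ := hφ c hc
  have hd' := (hφ c' hc').2
  rw [← he] at hd'
  obtain ⟨hp, hg, hG⟩ := hS _ hm
  rcases lt_or_gt_of_ne hne with h | h
  · exact two hp hg hG (Nat.succ_lt_succ h) hd hd'
  · exact two hp hg hG (Nat.succ_lt_succ h) hd' hd

lemma main (j0 : ℕ) (F : ℕ → R[X]) (Good : ℕ → R[X] → Prop) (h0 : Good 0 0)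
    (hs : ∀ (B c j : ℕ) (G : R[X]), j ≤ j0 → Good B G → Good (B + c) (G + (c : R[X]) * F j)) (S : Finset R[X]) :
    (∀ g ∈ S, Prime g ∧ 0 < g.natDegree ∧ ∃ j ≤ j0, ¬g ∣ F j) →
      ∃ B G, B ≤ S.card ^ 2 ∧ Good B G ∧ ∀ g ∈ S, ¬g ∣ G := by
  classical
  induction S using Finset.induction_on with
  | empty => exact fun _ => ⟨0, 0, Nat.zero_le _, h0, fun g hg => absurd hg (notMem_empty g)⟩
  | insert g S hgS ih =>
    intro hS
    obtain ⟨B, G, hB, hG, hA⟩ := ih fun g' hg' => hS g' (mem_insert_of_mem hg')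
    rw [card_insert_of_notMem hgS]
    by_cases hd : g ∣ G
    · obtain ⟨hp, hg, j, hj, hF⟩ := hS g (mem_insert_self _ _)
      obtain ⟨c, hc, hav⟩ := pick S G (F j) fun g' hg' =>
        ⟨(hS g' (mem_insert_of_mem hg')).1, (hS g' (mem_insert_of_mem hg')).2.1, hA g' hg'⟩
      refine ⟨B + (c + 1), _, by nlinarith, hs B (c + 1) j G hj hG, fun g' hg' => ?_⟩
      rcases mem_insert.1 hg' with rfl | hg'
      · intro h
        rcases hp.dvd_or_dvd ((dvd_add_right hd).1 h) with h3 | h3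
        · exact not_dvd_nat hg (Nat.succ_ne_zero c) h3
        · exact hF h3
      · exact hav g' hg'
    · refine ⟨B, G, hB.trans (Nat.pow_le_pow_left (Nat.le_succ _) 2), hG, fun g' hg' => ?_⟩
      rcases mem_insert.1 hg' with rfl | hg'
      exacts [hd, hA g' hg']

end Avoid

theorem st_avoid : St_AVOID := by
  classical
  intro R _ _ _ _ f j0 F Good hf h0 hs hF
  set t := (UniqueFactorizationMonoid.factors f).filter fun g => 0 < g.natDegree with ht
  have hmem : ∀ g ∈ t, Prime g ∧ 0 < g.natDegree ∧ g ∣ f := fun g hg => by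
    obtain ⟨h1, h2⟩ := Multiset.mem_filter.1 hg
    exact ⟨UniqueFactorizationMonoid.prime_of_factor g h1, h2, UniqueFactorizationMonoid.dvd_of_mem_factors h1⟩
  have hdvd : t.prod ∣ f :=
    (Multiset.prod_dvd_prod_of_le (Multiset.filter_le _ _)).trans (UniqueFactorizationMonoid.factors_prod hf).dvd
  have hcard : t.toFinset.card ≤ f.natDegree := by
    refine (Multiset.toFinset_card_le t).trans (le_trans ?_ (natDegree_le_of_dvd hdvd hf))
    rw [natDegree_multiset_prod _ fun h => (hmem 0 h).1.ne_zero rfl]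
    have := Multiset.card_nsmul_le_sum (s := t.map natDegree) (a := 1) fun x hx => by
      obtain ⟨g, hg, rfl⟩ := Multiset.mem_map.1 hx
      exact (hmem g hg).2.1
    simpa using this
  obtain ⟨B, G, hB, hG, hA⟩ := Avoid.main j0 F Good h0 hs t.toFinset fun g hg => by
    obtain ⟨h1, h2, h3⟩ := hmem g (Multiset.mem_toFinset.1 hg)
    exact ⟨h1, h2, hF g h1 h2 h3⟩
  refine ⟨B, G, hB.trans (Nat.pow_le_pow_left hcard 2), hG, fun g hp hg hd h => ?_⟩
  obtain ⟨q, hq, ha⟩ := UniqueFactorizationMonoid.exists_mem_factors_of_dvd hf hp.irreducible hd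
  have hq0 : q ≠ 0 := (UniqueFactorizationMonoid.prime_of_factor q hq).ne_zero
  refine hA q (Multiset.mem_toFinset.2 (Multiset.mem_filter.2 ⟨hq, ?_⟩)) (ha.symm.dvd.trans h)
  exact hg.trans_le (natDegree_le_of_dvd ha.dvd hq0)

end Pool.Agent.SX
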