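import Pool.Agent.Lib.SX.Blue

/-! Subexponential abc: the pigeonhole block. -/

namespace Pool.Agent.SX

open Finset

namespace Cell

/-- product of prime powers over the primes of `R` -/
def pw (R : ℕ) (e : ℕ → ℕ) : ℕ := ∏ q ∈ R.primeFactors, q ^ e q

lemma pw_ne (R : ℕ) (e : ℕ → ℕ) : pw R e ≠ 0 :=
  prod_ne_zero_iff.2 fun _ hq => pow_ne_zero _ (Nat.prime_of_mem_primeFactors hq).ne_zero

lemma pw_fact (R : ℕ) (e : ℕ → ℕ) (p : ℕ) :
    (pw R e).factorization p = if p ∈ R.primeFactors then e p else 0 := by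
  rw [pw, Nat.factorization_prod fun _ hq => pow_ne_zero _ (Nat.prime_of_mem_primeFactors hq).ne_zero,
    Finsupp.finsetSum_apply, ← sum_ite_eq' R.primeFactors p e]
  refine sum_congr rfl fun q hq => ?_
  rw [(Nat.prime_of_mem_primeFactors hq).factorization_pow, Finsupp.single_apply]

lemma pw_cop {R P : ℕ} (h : R.Coprime P) (e : ℕ → ℕ) : (pw R e).Coprime P :=
  Nat.Coprime.prod_left fun _ hq => (h.coprime_dvd_left (Nat.dvd_of_mem_primeFactors hq)).pow_left _

lemma pw_mul (R : ℕ) (e e' : ℕ → ℕ) : pw R e * pw R e' = pw R fun q => e q + e' q := by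
  simp only [pw, pow_add, prod_mul_distrib]

/-- the approximate root -/
def rt (R n j : ℕ) : ℕ := pw R fun q => j * R.factorization q / n

/-- quotient of two approximate roots -/
def qt (R n j J : ℕ) : ℕ := pw R fun q => (j + J) * R.factorization q / n - j * R.factorization q / n

lemma rt_add (R n j J : ℕ) : rt R n (j + J) = rt R n j * qt R n j J := by
  rw [rt, rt, qt, pw_mul]
  refine congrArg _ (funext fun q => ?_)
  have : j * R.factorization q / n ≤ (j + J) * R.factorization q / n :=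
    Nat.div_le_div_right (Nat.mul_le_mul_right _ (Nat.le_add_right _ _))
  omega

lemma arith {n Q j J v : ℕ} (hn : 1 ≤ n) (h : Q * ((j + J) * v % n) / n = Q * (j * v % n) / n) :
    (Q : ℤ) * |(n : ℤ) * ((j + J) * v / n - j * v / n : ℕ) - J * v| ≤ n := by
  have h0 : j * v / n ≤ (j + J) * v / n := Nat.div_le_div_right (Nat.mul_le_mul_right _ (Nat.le_add_right _ _))
  have h1 := Nat.div_add_mod ((j + J) * v) n
  have h2 := Nat.div_add_mod (j * v) n
  have h3 := Nat.div_add_mod (Q * ((j + J) * v % n)) n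
  have h4 := Nat.div_add_mod (Q * (j * v % n)) n
  have h5 := Nat.mod_lt (Q * ((j + J) * v % n)) hn
  have h6 := Nat.mod_lt (Q * (j * v % n)) hn
  rw [h] at h3
  rw [Nat.cast_sub h0]
  generalize (j + J) * v / n = A at *
  generalize j * v / n = B at *
  generalize (j + J) * v % n = a at *
  generalize j * v % n = b at *
  generalize Q * a % n = c at *
  generalize Q * b % n = d at *
  generalize Q * b / n = m at *
  have e : (n : ℤ) * (A - B) - J * v = b - a := by
    zify at h1 h2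
    linarith
  zify at h3 h4 h5 h6
  have hc : (0 : ℤ) ≤ c := Int.natCast_nonneg c
  have hd : (0 : ℤ) ≤ d := Int.natCast_nonneg d
  rw [e, ← abs_of_nonneg (Int.natCast_nonneg Q), ← abs_mul, abs_le]
  constructor <;> linarith

lemma apx {R n Q j J : ℕ} (hn : 1 ≤ n)
    (h : ∀ q ∈ R.primeFactors, Q * ((j + J) * R.factorization q % n) / n = Q * (j * R.factorization q % n) / n) :
    Apx R n Q J (qt R n j J) := by
  refine ⟨pw_ne _ _, fun q => ?_⟩
  rw [qt, pw_fact]
  by_cases hq : q ∈ R.primeFactors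
  · rw [if_pos hq]
    exact ⟨arith hn (h q hq), fun e => by simp [e]⟩
  · have e : R.factorization q = 0 := by
      rwa [← Nat.support_factorization, Finsupp.notMem_support_iff] at hq
    rw [if_neg hq, e]
    simp

lemma fact_left {R S q : ℕ} (h : R.Coprime S) (hq : q ∈ R.primeFactors) :
    (R * S).factorization q = R.factorization q :=
  Nat.factorization_eq_of_coprime_left h (by simpa using hq)

lemma cong {P u u0 r s ρ ς : ℕ} (hr : r.Coprime P) (hs : s.Coprime P) (hς : ς.Coprime P)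
    (h : (u : ZMod P) * (r * ρ : ℕ) * ((s * ς : ℕ) : ZMod P)⁻¹ = u0 * r * (s : ZMod P)⁻¹) :
    u * ρ ≡ u0 * ς [MOD P] := by
  have h1 := ZMod.coe_mul_inv_eq_one _ (hs.mul_left hς)
  have h2 := ZMod.coe_mul_inv_eq_one _ hs
  have h3 := ZMod.coe_mul_inv_eq_one _ hr
  rw [← ZMod.natCast_eq_natCast_iff]
  generalize ((s * ς : ℕ) : ZMod P)⁻¹ = x at h h1
  generalize (s : ZMod P)⁻¹ = y at h h2
  generalize (r : ZMod P)⁻¹ = z at h3
  push_cast at h h1 ⊢
  linear_combination (s * ς * z : ZMod P) * h - (u * ρ * (r * z) : ZMod P) * h1 - (u * ρ - u0 * ς : ZMod P) * h3 +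
    (u0 * ς * (r * z) : ZMod P) * h2

lemma fiber {α β : Type*} {s : Finset α} {t : Finset β} {f : α → β} {M : ℕ} (h : ∀ a ∈ s, f a ∈ t)
    (hM : t.card * M < s.card) : ∃ A : Finset α, M < A.card ∧ ∀ a ∈ A, a ∈ s ∧ ∀ b ∈ A, f a = f b := by
  classical
  obtain ⟨y, -, hy⟩ := exists_lt_card_fiber_of_mul_lt_card_of_maps_to h hM
  exact ⟨_, hy, fun a ha => ⟨(mem_filter.1 ha).1, fun b hb => (mem_filter.1 ha).2.trans (mem_filter.1 hb).2.symm⟩⟩

end Cell

open Cell in
theorem st_cell : St_CELL := by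
  classical
  intro R S P T Q n M hR hS hRS hP hT hQ hn hM
  have : NeZero P := ⟨by omega⟩
  have hRP : R.Coprime P := hP.coprime_mul_right
  have hSP : S.Coprime P := hP.coprime_mul_left
  obtain ⟨A, hy, hA⟩ := fiber (s := range n ×ˢ Icc 1 T)
    (t := (Fintype.piFinset fun _ : (R * S).primeFactors => range Q) ×ˢ (univ : Finset (ZMod P)))
    (f := fun p => (fun q => Q * (p.1 * (R * S).factorization q % n) / n,
      (p.2 : ZMod P) * (rt R n p.1 : ℕ) * ((rt S n p.1 : ℕ) : ZMod P)⁻¹)) (M := M)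
    (fun p _ => by
      refine mem_product.2 ⟨Fintype.mem_piFinset.2 fun q => mem_range.2 ?_, mem_univ _⟩
      exact Nat.div_lt_of_lt_mul (by rw [mul_comm n]; exact Nat.mul_lt_mul_of_pos_left (Nat.mod_lt _ hn) hQ))
    (by
      rw [card_product, card_product, Fintype.card_piFinset, prod_const, card_range, card_range, card_univ, card_univ,
        ZMod.card, Nat.card_Icc, Nat.add_sub_cancel, Fintype.card_coe]
      linarith)
  obtain ⟨⟨j0, u0⟩, h0, hmin⟩ := exists_min_image A Prod.fst (card_pos.1 (by omega))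
  have key : ∀ J w, (j0 + J, w) ∈ A → J ≤ n ∧ 1 ≤ w ∧ w ≤ T ∧ Apx R n Q J (qt R n j0 J) ∧
      Apx S n Q J (qt S n j0 J) ∧ w * qt R n j0 J ≡ u0 * qt S n j0 J [MOD P] := fun J w hw => by
    obtain ⟨m1, e1⟩ := hA _ hw
    obtain ⟨m2, m3⟩ := mem_product.1 m1
    obtain ⟨e2, e3⟩ := Prod.ext_iff.1 (e1 _ h0)
    have m4 := mem_range.1 m2
    refine ⟨by omega, (mem_Icc.1 m3).1, (mem_Icc.1 m3).2, apx hn fun q hq => ?_, apx hn fun q hq => ?_, ?_⟩
    · have := congrFun e2 ⟨q, Nat.primeFactors_mono (Dvd.intro _ rfl) (by positivity) hq⟩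
      simpa only [fact_left hRS hq] using this
    · have := congrFun e2 ⟨q, Nat.primeFactors_mono (Dvd.intro_left _ rfl) (by positivity) hq⟩
      simpa only [mul_comm R S, fact_left hRS.symm hq] using this
    · refine cong (pw_cop hRP _) (pw_cop hSP _) (pw_cop hSP _) (r := rt R n j0) (s := rt S n j0) ?_
      simpa only [rt_add] using e3
  have h00 := key 0 u0 h0
  refine ⟨A.image fun p => p.1 - j0, u0, fun J => if h : ∃ w, (j0 + J, w) ∈ A then h.choose else 0,
    qt R n j0, qt S n j0, ?_, h00.2.1, h00.2.2.1, fun J hJ => ?_⟩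
  · rw [card_image_of_injOn]
    · exact hy.le
    rintro ⟨j, w⟩ h1 ⟨j', w'⟩ h2 e
    obtain ⟨J, rfl⟩ := Nat.exists_eq_add_of_le (hmin _ h1)
    obtain ⟨J', rfl⟩ := Nat.exists_eq_add_of_le (hmin _ h2)
    obtain rfl : J = J' := by simpa using e
    obtain ⟨-, a1, a2, -, -, a3⟩ := key J w h1
    obtain ⟨-, b1, b2, -, -, b3⟩ := key J w' h2
    have := Nat.ModEq.cancel_right_of_coprime (pw_cop hRP _).symm (a3.trans b3.symm)
    rw [Nat.ModEq.eq_of_lt_of_lt this (by omega) (by omega)]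
  · obtain ⟨⟨j, w⟩, h1, rfl⟩ := mem_image.1 hJ
    obtain ⟨J, rfl⟩ := Nat.exists_eq_add_of_le (hmin _ h1)
    have h : ∃ w, (j0 + (j0 + J - j0), w) ∈ A := ⟨w, by rwa [Nat.add_sub_cancel_left]⟩
    simp only [dif_pos h]
    exact key _ _ h.choose_spec

end Pool.Agent.SX
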