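import Pool.Agent.Lib.SX.Blue

/-! Block DIV: division by the power of the first variable. -/

namespace Pool.Agent.SX

open Finset Polynomial

namespace Div

lemma plow_divX {σ R : Type*} [CommRing R] {w : σ → ℤ} {w0 a : ℤ} {f : (MvPolynomial σ R)[X]}
    (h : PLow w w0 a f) : PLow w w0 (a - w0) f.divX := fun c => by
  rw [coeff_divX]
  refine (h (c + 1)).mono (le_of_eq ?_)
  push_cast; ring

lemma plow_mono {σ R : Type*} [CommRing R] {w : σ → ℤ} {w0 a b : ℤ} {f : (MvPolynomial σ R)[X]}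
    (h : PLow w w0 a f) (hb : b ≤ a) : PLow w w0 b f := fun c => (h c).mono (by omega)

lemma pl1_divX {σ : Type*} (f : (MvPolynomial σ ℤ)[X]) : pl1 f.divX ≤ pl1 f := by
  refine le_trans (le_of_eq ?_) (sum_le_pl1 f (f.divX.support.map ⟨fun c => c + 1, add_left_injective 1⟩))
  rw [pl1, sum_map]
  exact sum_congr rfl fun c _ => by rw [coeff_divX]; rfl

lemma step (hF : St_FS) (hO : St_OPS) {K : Type} [Field K] {n : ℕ} {wt ow : Fin (n + 1) → ℤ} {pt : Fin (n + 1) → K}
    {D om H α : ℕ} {F : MP (n + 1)} (h1 : ow 0 = 1) (h0 : pt 0 ≠ 0) (h : St wt ow pt D om H α F)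
    (hc : (MvPolynomial.finSuccEquiv ℤ n F).coeff 0 = 0) :
    St wt ow pt D om H α ((MvPolynomial.finSuccEquiv ℤ n).symm (MvPolynomial.finSuccEquiv ℤ n F).divX) := by
  obtain ⟨hA, hB, hC, -⟩ := hF
  set f := MvPolynomial.finSuccEquiv ℤ n F with hf
  have hX : X * f.divX = f := by
    have := X_mul_divX_add f
    rwa [hc, map_zero, add_zero] at this
  have he : MvPolynomial.finSuccEquiv ℤ n ((MvPolynomial.finSuccEquiv ℤ n).symm f.divX) = f.divX :=
    AlgEquiv.apply_symm_apply _ _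
  refine ⟨fun hz => h.ne ?_, ?_, ?_, ?_, ?_⟩
  · rw [hz, map_zero] at he
    rw [← he, mul_zero] at hX
    exact (MvPolynomial.finSuccEquiv ℤ n).injective (by rw [map_zero, ← hf, hX])
  · rw [hA, he]
    exact plow_mono (plow_divX ((hA ℤ n _ _ F).1 h.deg)) (by omega)
  · obtain ⟨E, hE, hE'⟩ := h.win
    refine ⟨E - wt 0, ?_, ?_⟩
    · rw [hA, he]
      exact plow_divX ((hA ℤ n _ _ F).1 hE)
    · rw [hA, he]
      refine plow_mono (plow_divX ((hA ℤ n _ _ F).1 hE')) (le_of_eq ?_)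
      rw [Pi.neg_apply]; ring
  · rw [← hB, he]
    refine (pl1_divX f).trans ?_
    rw [hf, hB]
    exact h.ht
  · have h2 := (hA K n _ _ _).1 h.ord
    rw [hC, ← hf, ← hX, Polynomial.map_mul, map_X, h1] at h2
    rw [hA, hC, he, h1]
    exact hO.2.2.2.1 K n _ _ _ _ h0 h2

end Div

theorem st_div (hF : St_FS) (hO : St_OPS) : St_DIV := by
  intro K _ n wt ow pt D om H α F h1 h0 h
  induction hN : (MvPolynomial.finSuccEquiv ℤ n F).natDegree using Nat.strong_induction_on generalizing F with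
  | _ N ih =>
    by_cases hc : (MvPolynomial.finSuccEquiv ℤ n F).coeff 0 = 0
    · refine ih _ ?_ _ (Div.step hF hO h1 h0 h hc) rfl
      rw [AlgEquiv.apply_symm_apply, natDegree_divX_eq_natDegree_tsub_one, hN]
      refine Nat.sub_lt (Nat.pos_of_ne_zero fun hz => h.ne ?_) one_pos
      have := eq_C_of_natDegree_eq_zero (hN.trans hz)
      rw [hc, map_zero] at this
      exact (MvPolynomial.finSuccEquiv ℤ n).injective (by rw [map_zero, this])
    · exact ⟨F, h, hc⟩

end Pool.Agent.SX
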