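import Pool.Agent.Lib.SX.Blue
import Pool.Agent.Lib.Szpiro98.Cond

/-! Block ELL: from subexponential abc to curves with full rational 2-torsion. -/

namespace Pool.Agent.SX

open Finset Pool.Agent.Lib.MP_cafdd5_nt

namespace Ell

lemma minP {a b : ℤ} (hD : disc a b ≠ 0) (h : IsMinimalShort a b) (p : ℕ) (hp : p.Prime) :
    ¬((p : ℤ) ^ 4 ∣ a ∧ (p : ℤ) ^ 6 ∣ b) := by
  rintro ⟨⟨a', rfl⟩, ⟨b', rfl⟩⟩
  have p0 : (p : ℚ) ≠ 0 := by exact_mod_cast hp.ne_zero
  have := h a' b' ⟨⟨Units.mk0 p p0, 0, 0, 0⟩, by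
    ext <;> simp [shortModel, WeierstrassCurve.variableChange_def] <;> field_simp⟩
  have e : disc (p ^ 4 * a') (p ^ 6 * b') = p ^ 12 * disc a' b' := by unfold disc; ring
  rw [e] at this hD
  rw [abs_mul] at this
  have h1 : 0 < |disc a' b'| := abs_pos.2 (right_ne_zero_of_mul hD)
  have h2 : (1 : ℤ) < |(p : ℤ) ^ 12| := by
    rw [abs_pow, Nat.abs_cast]; exact one_lt_pow₀ (by exact_mod_cast hp.one_lt) (by norm_num)
  nlinarith

lemma int_root {a b : ℤ} {x : ℚ} (h : x ^ 3 - a * x - b = 0) : ∃ e : ℤ, x = e ∧ e ^ 3 - a * e - b = 0 := by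
  have hi : IsIntegral ℤ x := by
    refine ⟨Polynomial.X ^ 3 - (Polynomial.C a * Polynomial.X + Polynomial.C b), ?_, ?_⟩
    · exact Polynomial.monic_X_pow_sub ((Polynomial.degree_linear_le).trans_lt (by norm_num))
    · rw [Polynomial.eval₂_sub, Polynomial.eval₂_add, Polynomial.eval₂_mul, Polynomial.eval₂_X_pow,
        Polynomial.eval₂_C, Polynomial.eval₂_C, Polynomial.eval₂_X, eq_intCast, eq_intCast]
      linear_combination h
  obtain ⟨e, rfl⟩ := IsIntegrallyClosed.isIntegral_iff.1 hi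
  simp only [eq_intCast] at h ⊢
  exact ⟨e, rfl, by exact_mod_cast h⟩

lemma rad_le (a b : ℤ) (hD : disc a b ≠ 0) {n : ℕ} (h : (n : ℤ) ∣ disc a b) : rad n ≤ 6 * Szpiro98.cond a b := by
  set P := (disc a b).natAbs.primeFactors
  have hP : ∀ q ∈ P, q.Prime := fun q hq => Nat.prime_of_mem_primeFactors hq
  have e : n.primeFactors ⊆ insert 2 (insert 3 (P.filter (5 ≤ ·))) := by
    intro q hq
    have h : q ∈ P := Nat.primeFactors_mono (Int.natCast_dvd.1 h) (Int.natAbs_ne_zero.2 hD) hq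
    simp only [mem_insert, mem_filter]
    have h2 := (hP q h).two_le
    have h4 : q ≠ 4 := fun e => by have := hP q h; rw [e] at this; exact absurd this (by norm_num)
    by_cases h5 : 5 ≤ q
    · exact .inr (.inr ⟨h, h5⟩)
    · omega
  refine (prod_le_prod_of_subset_of_one_le' e fun q hq _ => ?_).trans ?_
  · simp only [mem_insert, mem_filter] at hq
    omega
  rw [prod_insert (by simp), prod_insert (by simp), ← mul_assoc]
  refine Nat.mul_le_mul_left _ (prod_le_prod' fun q hq => ?_)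
  exact Nat.le_self_pow (by split_ifs <;> norm_num) q

lemma gcd_le {a b e f : ℤ} (hD : disc a b ≠ 0) (hm : ∀ p : ℕ, p.Prime → ¬((p : ℤ) ^ 2 ∣ e ∧ (p : ℤ) ^ 2 ∣ f))
    {g : ℕ} (hg : g ≠ 0) (h1 : (g : ℤ) ∣ 3 * e) (h2 : (g : ℤ) ∣ 3 * f) (h3 : (g : ℤ) ∣ disc a b) :
    g ≤ 54 * Szpiro98.cond a b := by
  obtain ⟨w, u, rfl, hw⟩ := Nat.sq_mul_squarefree g
  have hu : u ≠ 0 := by rintro rfl; simp at hg
  have hsq : ∀ n : ℕ, n ∣ u → (n : ℤ) ^ 2 ∣ 3 * e ∧ (n : ℤ) ^ 2 ∣ 3 * f := by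
    intro n hn
    have : (n : ℤ) ^ 2 ∣ ((u ^ 2 * w : ℕ) : ℤ) := by
      exact_mod_cast (pow_dvd_pow_of_dvd hn 2).mul_right w
    exact ⟨this.trans h1, this.trans h2⟩
  obtain ⟨k, hk⟩ : ∃ k, u = 3 ^ k := ⟨_, Nat.eq_prime_pow_of_unique_prime_dvd hu fun {p} hp hd => by
    by_contra hne
    have hc : IsCoprime ((p : ℤ) ^ 2) 3 := IsCoprime.pow_left (by
      exact_mod_cast Nat.isCoprime_iff_coprime.2 ((Nat.coprime_primes hp Nat.prime_three).2 hne))
    exact hm p hp ⟨hc.dvd_of_dvd_mul_left (hsq p hd).1, hc.dvd_of_dvd_mul_left (hsq p hd).2⟩⟩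
  have hk1 : k ≤ 1 := by
    by_contra h
    have := hsq 9 (hk ▸ pow_dvd_pow 3 (show 2 ≤ k by omega))
    refine hm 3 Nat.prime_three ?_
    push_cast at this ⊢
    omega
  have hu3 : u ≤ 3 := hk ▸ (Nat.pow_le_pow_right (by norm_num) hk1)
  have hw6 : w ≤ 6 * Szpiro98.cond a b := by
    rw [← Nat.prod_primeFactors_of_squarefree hw]
    exact rad_le a b hD ((Int.natCast_dvd_natCast.2 (dvd_mul_left w _)).trans h3)
  calc u ^ 2 * w ≤ 3 ^ 2 * (6 * Szpiro98.cond a b) := by gcongr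
    _ = _ := by ring

/-- the abc bound for coprime integers of any sign -/
lemma abc_int (h : St_ABC) (ε : ℝ) (hε : 0 < ε) : ∃ K : ℝ, 0 ≤ K ∧ ∀ A B : ℤ, A * B * (A + B) ≠ 0 → IsCoprime A B →
    Real.log (max |(A : ℝ)| |(B : ℝ)|) ≤ K * (rad (A * B * (A + B)).natAbs : ℝ) ^ ε := by
  obtain ⟨C, hC⟩ := h ε hε
  refine ⟨max C 0, le_max_right _ _, fun A B hP hc => ?_⟩
  have hA : A ≠ 0 := left_ne_zero_of_mul (left_ne_zero_of_mul hP)
  have hB : B ≠ 0 := right_ne_zero_of_mul (left_ne_zero_of_mul hP)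
  have hS : A + B ≠ 0 := right_ne_zero_of_mul hP
  have key : ∀ x y : ℤ, x ≠ 0 → y ≠ 0 → IsCoprime x y → A.natAbs ≤ x.natAbs + y.natAbs →
      B.natAbs ≤ x.natAbs + y.natAbs → x.natAbs * y.natAbs * (x.natAbs + y.natAbs) = (A * B * (A + B)).natAbs →
      Real.log (max |(A : ℝ)| |(B : ℝ)|) ≤ max C 0 * (rad (A * B * (A + B)).natAbs : ℝ) ^ ε := by
    intro x y hx hy hxy h1 h2 h3
    have := hC _ _ (Int.natAbs_pos.2 hx) (Int.natAbs_pos.2 hy) (Int.isCoprime_iff_gcd_eq_one.1 hxy)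
    rw [h3] at this
    refine le_trans (Real.log_le_log (lt_max_of_lt_left (abs_pos.2 (by exact_mod_cast hA))) (max_le ?_ ?_))
      (this.trans (mul_le_mul_of_nonneg_right (le_max_left _ _) (by positivity)))
    · rw [← Int.cast_abs, ← Int.natCast_natAbs, Int.cast_natCast]; exact Nat.cast_le.2 h1
    · rw [← Int.cast_abs, ← Int.natCast_natAbs, Int.cast_natCast]; exact Nat.cast_le.2 h2
  have h3 : (A + B).natAbs = A.natAbs + B.natAbs ∨ A.natAbs = (A + B).natAbs + B.natAbs ∨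
      B.natAbs = A.natAbs + (A + B).natAbs := by omega
  rcases h3 with h3 | h3 | h3
  · exact key A B hA hB hc (by omega) (by omega) (by rw [← h3, Int.natAbs_mul, Int.natAbs_mul])
  · refine key (A + B) B hS hB (by simpa using hc.add_mul_left_left 1) (by omega) (by omega) ?_
    rw [← h3, Int.natAbs_mul, Int.natAbs_mul]; ring
  · refine key A (A + B) hA hS (by simpa [add_comm] using hc.add_mul_left_right 1) (by omega) (by omega) ?_
    rw [← h3, Int.natAbs_mul, Int.natAbs_mul]; ring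

end Ell

open Ell in
theorem ell (habc : St_ABC) (ε : ℝ) (hε : 0 < ε) : ∃ C : ℝ, ∀ a b : ℤ, disc a b ≠ 0 → IsMinimalShort a b →
    (∃ x y : ℚ, x ≠ y ∧ x ^ 3 - a * x - b = 0 ∧ y ^ 3 - a * y - b = 0) →
    Real.log (max (|(a : ℝ)| ^ 3) ((b : ℝ) ^ 2)) ≤ C * (Szpiro98.cond a b : ℝ) ^ ε := by
  obtain ⟨K, K0, habc⟩ := abc_int habc ε hε
  refine ⟨27 + 6 * (K * 6 ^ ε) + 6 * (54 + 1 / ε), fun a b hD hmin ⟨x, y, ne, hx, hy⟩ => ?_⟩
  obtain ⟨e, rfl, he⟩ := int_root hx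
  obtain ⟨f, rfl, hf⟩ := int_root hy
  have hef : e ≠ f := fun h => ne (by rw [h])
  have hm := minP hD hmin
  obtain rfl : a = e ^ 2 + e * f + f ^ 2 :=
    mul_left_cancel₀ (sub_ne_zero.2 hef) (by linear_combination hf - he)
  obtain rfl : b = -(e * f * (e + f)) := by linear_combination -he
  set a := e ^ 2 + e * f + f ^ 2 with ha
  set b := -(e * f * (e + f)) with hb
  have hg0 : 0 < Int.gcd (e - f) (e + 2 * f) := Int.gcd_pos_of_ne_zero_left _ (sub_ne_zero.2 hef)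
  obtain ⟨A, B, hAB, hA, hB⟩ := Int.exists_gcd_one hg0
  set g := Int.gcd (e - f) (e + 2 * f)
  have hd : disc a b = ((g : ℤ) ^ 3 * (A * B * (A + B))) ^ 2 := by
    have : disc a b = ((e - f) * (e + 2 * f) * ((e - f) + (e + 2 * f))) ^ 2 := by rw [disc, ha, hb]; ring
    rw [this, hA, hB]; ring
  have e3 : 3 * e = (2 * A + B) * g := by linear_combination 2 * hA + hB
  have f3 : 3 * f = (B - A) * g := by linear_combination hB - hA
  have hP : A * B * (A + B) ≠ 0 := fun h => hD (by rw [hd, h]; simp)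
  have hgN : g ≤ 54 * Szpiro98.cond a b := by
    refine gcd_le (e := e) (f := f) hD (fun p hp h => hm p hp ?_) hg0.ne' ⟨_, by rw [e3, mul_comm]⟩
      ⟨_, by rw [f3, mul_comm]⟩ ⟨(g : ℤ) ^ 5 * (A * B * (A + B)) ^ 2, by rw [hd]; ring⟩
    obtain ⟨⟨u, rfl⟩, v, rfl⟩ := h
    exact ⟨⟨u ^ 2 + u * v + v ^ 2, by rw [ha]; ring⟩, ⟨-(u * v * (u + v)), by rw [hb]; ring⟩⟩
  have hR := rad_le a b hD (n := (A * B * (A + B)).natAbs)
    (Int.natAbs_dvd.2 ⟨(g : ℤ) ^ 6 * (A * B * (A + B)), by rw [hd]; ring⟩)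
  have key := habc A B hP (Int.isCoprime_iff_gcd_eq_one.2 hAB)
  have hN : (1 : ℝ) ≤ Szpiro98.cond a b := by
    have : 0 < Szpiro98.cond a b := by omega
    exact_mod_cast this
  set N : ℝ := (Szpiro98.cond a b : ℝ)
  set m : ℝ := max |(A : ℝ)| |(B : ℝ)|
  have hm1 : 1 ≤ m := le_max_of_le_left (by
    exact_mod_cast Int.one_le_abs (left_ne_zero_of_mul (left_ne_zero_of_mul hP)))
  have hg1 : (1 : ℝ) ≤ g := by exact_mod_cast hg0
  have hN1 : 1 ≤ N ^ ε := Real.one_le_rpow hN hε.le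
  have k1 : Real.log m ≤ K * 6 ^ ε * N ^ ε := by
    refine key.trans ?_
    rw [mul_assoc K, ← Real.mul_rpow (by norm_num) (by linarith)]
    exact mul_le_mul_of_nonneg_left
      (Real.rpow_le_rpow (by positivity) (by simp only [N]; exact_mod_cast hR) hε.le) K0
  have k2 : Real.log g ≤ (54 + 1 / ε) * N ^ ε := by
    have h1 : Real.log g ≤ Real.log (54 * N) := Real.log_le_log (by linarith) (by simp only [N]; exact_mod_cast hgN)
    have h2 := Real.log_le_rpow_div (by linarith : 0 ≤ N) hε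
    rw [Real.log_mul (by norm_num) (by linarith)] at h1
    rw [add_mul, one_div_mul_eq_div]
    linarith [Real.log_le_sub_one_of_pos (by norm_num : (0 : ℝ) < 54)]
  have hA' := abs_le.1 (le_max_left |(A : ℝ)| |(B : ℝ)|)
  have hB' := abs_le.1 (le_max_right |(A : ℝ)| |(B : ℝ)|)
  have e3' : 3 * (e : ℝ) = (2 * A + B) * g := by exact_mod_cast e3
  have f3' : 3 * (f : ℝ) = (B - A) * g := by exact_mod_cast f3
  have he' : |(e : ℝ)| ≤ m * g := abs_le.2 ⟨by nlinarith, by nlinarith⟩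
  have hf' : |(f : ℝ)| ≤ m * g := abs_le.2 ⟨by nlinarith, by nlinarith⟩
  have hM : 1 ≤ m * g := one_le_mul_of_one_le_of_one_le hm1 hg1
  set M := m * g with hMd
  have ha' : |(a : ℝ)| ≤ 3 * M ^ 2 := by
    rw [ha]
    push_cast
    calc _ ≤ |(e : ℝ)| ^ 2 + |(e : ℝ)| * |(f : ℝ)| + |(f : ℝ)| ^ 2 := by
          rw [← abs_pow, ← abs_pow, ← abs_mul]; exact abs_add_three _ _ _
      _ ≤ M ^ 2 + M * M + M ^ 2 := by gcongr
      _ = _ := by ring
  have hb' : |(b : ℝ)| ≤ 2 * M ^ 3 := by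
    rw [hb]
    push_cast
    rw [abs_neg, abs_mul, abs_mul]
    calc _ ≤ M * M * (M + M) := by
          gcongr
          exact (abs_add_le _ _).trans (add_le_add he' hf')
      _ = _ := by ring
  have hmax : max (|(a : ℝ)| ^ 3) ((b : ℝ) ^ 2) ≤ 27 * M ^ 6 := by
    refine max_le ?_ ?_
    · calc _ ≤ (3 * M ^ 2) ^ 3 := by gcongr
        _ = _ := by ring
    · calc _ = |(b : ℝ)| ^ 2 := (sq_abs _).symm
        _ ≤ (2 * M ^ 3) ^ 2 := by gcongr
        _ ≤ _ := by nlinarith [pow_pos (by linarith : 0 < M) 6]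
  have hlog : Real.log (max (|(a : ℝ)| ^ 3) ((b : ℝ) ^ 2)) ≤ Real.log (27 * M ^ 6) := by
    rcases (le_max_of_le_right (sq_nonneg (b : ℝ)) : 0 ≤ max (|(a : ℝ)| ^ 3) ((b : ℝ) ^ 2)).eq_or_lt with h | h
    · rw [← h, Real.log_zero]
      exact Real.log_nonneg (by nlinarith [one_le_pow₀ (n := 6) hM])
    · exact Real.log_le_log h hmax
  rw [Real.log_mul (by norm_num) (by positivity), Real.log_pow, hMd, Real.log_mul (by linarith) (by linarith)] at hlog
  push_cast at hlog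
  nlinarith [Real.log_le_sub_one_of_pos (by norm_num : (0 : ℝ) < 27)]

end Pool.Agent.SX
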