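import Pool.Agent.Lib.SX.Blue

/-! Block END: end of the zero lemma at a rational point. -/

namespace Pool.Agent.SX

open Polynomial

namespace Endl

lemma sh_eq (a : ℚ) (G : MP 1) : MvPolynomial.uniqueAlgEquiv ℚ (Fin 1) (sh (fun _ => a) G) =
    taylor a ((MvPolynomial.uniqueAlgEquiv ℤ (Fin 1) G).map (Int.castRingHom ℚ)) := by
  induction G using MvPolynomial.induction_on with
  | C r =>
    have h : MvPolynomial.uniqueAlgEquiv ℤ (Fin 1) (MvPolynomial.C r) = C r := by simp
    rw [h, map_C, taylor_C]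
    simp [sh]
  | add p q hp hq => rw [map_add, map_add, map_add, Polynomial.map_add, map_add, hp, hq]
  | mul_X p i hp =>
    rw [map_mul, map_mul, map_mul, Polynomial.map_mul, taylor_mul, hp]
    simp [sh]

lemma prim {R S : ℕ} (h : R.Coprime S) (v : ℕ) : ((C (S : ℤ) * X + C (-(R : ℤ))) ^ v).IsPrimitive := by
  have h1 : (C (S : ℤ) * X + C (-(R : ℤ))).IsPrimitive := by
    intro r hr
    rw [C_dvd_iff_dvd_coeff] at hr
    have h0 := hr 0
    have h1 := hr 1
    simp only [coeff_add, coeff_C_mul, coeff_X_zero, coeff_X_one, coeff_C_zero, coeff_C_succ, mul_zero, mul_one,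
      zero_add, add_zero, dvd_neg] at h0 h1
    exact (Nat.isCoprime_iff_coprime.2 h).isUnit_of_dvd' h0 h1
  induction v with
  | zero => rw [pow_zero]; exact isPrimitive_one
  | succ v ih => rw [pow_succ]; exact ih.mul h1

end Endl

theorem st_end (_hF : St_FS) : St_END := by
  intro R S x α G hR hS hRS hG hL
  set g := MvPolynomial.uniqueAlgEquiv ℤ (Fin 1) G with hg
  have hg0 : g ≠ 0 := (map_ne_zero_iff _ (MvPolynomial.uniqueAlgEquiv ℤ (Fin 1)).injective).2 hG
  have hc : ∀ n, (g.coeff n).natAbs ≤ l1 G := fun n => by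
    rw [hg, MvPolynomial.coeff_uniqueAlgEquiv]
    exact coeff_le_l1 _ _
  set q := taylor ((R : ℚ) / S) (g.map (Int.castRingHom ℚ)) with hq
  have hq0 : q ≠ 0 := by
    rw [hq, Ne, taylor_eq_zero]
    exact (Polynomial.map_ne_zero_iff (Int.castRingHom ℚ).injective_int).2 hg0
  set v := q.natTrailingDegree with hv
  have hα : α ≤ v * x := by
    have h1 : q.coeff v ≠ 0 := mt trailingCoeff_eq_zero.1 hq0
    rw [hq, ← Endl.sh_eq, MvPolynomial.coeff_uniqueAlgEquiv] at h1
    have h2 := hL _ (MvPolynomial.mem_support_iff.2 h1)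
    rw [Finsupp.weight_single, nsmul_eq_mul] at h2
    exact_mod_cast h2
  have h1 : (X - C ((R : ℚ) / S)) ^ v ∣ g.map (Int.castRingHom ℚ) := by
    rw [X_sub_C_pow_dvd_iff, X_pow_dvd_iff]
    exact fun d hd => coeff_eq_zero_of_lt_natTrailingDegree hd
  have hS0 : (S : ℚ) ≠ 0 := by positivity
  have h2 : (C (S : ℤ) * X + C (-(R : ℤ))) ^ v ∣ g := by
    rw [IsPrimitive.Int.dvd_iff_map_cast_dvd_map_cast _ _ (Endl.prim hRS v), Polynomial.map_pow]
    have h3 : (C (S : ℤ) * X + C (-(R : ℤ))).map (Int.castRingHom ℚ) = C (S : ℚ) * (X - C ((R : ℚ) / S)) := by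
      rw [mul_sub, ← C_mul, mul_div_cancel₀ _ hS0, Polynomial.map_add, Polynomial.map_mul, map_C, map_C, map_X,
        sub_eq_add_neg, ← C_neg]
      simp only [eq_intCast, Int.cast_natCast, Int.cast_neg]
    rw [h3, mul_pow, ← C_pow]
    exact (isUnit_C.2 (pow_ne_zero v hS0).isUnit).mul_left_dvd.2 h1
  obtain ⟨h, hh⟩ := h2
  have hh0 : h ≠ 0 := by
    rintro rfl
    exact hg0 (by rw [hh, mul_zero])
  have h4 : S ^ v ≤ l1 G := by
    have h5 := hc g.natDegree
    rw [coeff_natDegree, hh, leadingCoeff_mul, leadingCoeff_pow, leadingCoeff_linear (by positivity),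
      Int.natAbs_mul, Int.natAbs_pow, Int.natAbs_natCast] at h5
    exact (Nat.le_mul_of_pos_right _ (Int.natAbs_pos.2 (leadingCoeff_ne_zero.2 hh0))).trans h5
  have h6 : R ^ v ≤ l1 G := by
    have h5 : g.trailingCoeff.natAbs ≤ l1 G := hc g.natTrailingDegree
    have h7 : ((C (S : ℤ) * X + C (-(R : ℤ))) ^ v).coeff 0 = (-(R : ℤ)) ^ v := by
      rw [coeff_zero_eq_eval_zero]
      simp
    rw [hh, trailingCoeff_mul, trailingCoeff_eq_coeff_zero (by rw [h7]; exact pow_ne_zero _ (by omega)), h7,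
      Int.natAbs_mul, Int.natAbs_pow, Int.natAbs_neg, Int.natAbs_natCast] at h5
    exact (Nat.le_mul_of_pos_right _ (Int.natAbs_pos.2 (mt trailingCoeff_eq_zero.1 hh0))).trans h5
  have h8 : max R S ^ v ≤ l1 G := by
    rcases le_total R S with h | h
    · rwa [max_eq_right h]
    · rwa [max_eq_left h]
  calc max R S ^ α ≤ max R S ^ (v * x) := Nat.pow_le_pow_right (le_max_of_le_left hR) hα
    _ = (max R S ^ v) ^ x := pow_mul _ _ _
    _ ≤ l1 G ^ x := Nat.pow_le_pow_left h8 x

end Pool.Agent.SX
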