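import Pool.Agent.Lib.SX.Blue

/-! Block EXT: extreme weights of a factor. -/

namespace Pool.Agent.SX

open Finset MvPolynomial

namespace Ext

variable {n : ℕ} {w : Fin n → ℤ} {a b : ℤ} {F G : MP n}

/-- `a` is the least weight of a monomial of `F` -/
def Att (w : Fin n → ℤ) (a : ℤ) (F : MP n) : Prop := Low w a F ∧ ∃ m ∈ F.support, Finsupp.weight w m = a

lemma weight_neg (w : Fin n → ℤ) (m : Fin n →₀ ℕ) : Finsupp.weight (-w) m = -Finsupp.weight w m := by
  rw [Finsupp.weight_apply, Finsupp.weight_apply, Finsupp.sum, Finsupp.sum, ← sum_neg_distrib]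
  exact sum_congr rfl fun l _ => by rw [Pi.neg_apply, smul_neg]

lemma exists_att (w : Fin n → ℤ) (h : F ≠ 0) : ∃ a, Att w a F := by
  obtain ⟨m, hm, h1⟩ := exists_min_image F.support (Finsupp.weight w) (support_nonempty.2 h)
  exact ⟨_, h1, m, hm, rfl⟩

lemma Att.split (h : Att w a F) : ∃ F0 F1 : MP n, F = F0 + F1 ∧ F0 ≠ 0 ∧ Low w a F0 ∧ Low (-w) (-a) F0 ∧
    Low w (a + 1) F1 := by
  have h0 : ∀ m ∈ (weightedHomogeneousComponent w a F).support, Finsupp.weight w m = a := fun m hm => by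
    by_contra hne
    rw [mem_support_iff, coeff_weightedHomogeneousComponent, if_neg hne] at hm
    exact hm rfl
  refine ⟨weightedHomogeneousComponent w a F, F - weightedHomogeneousComponent w a F, (add_sub_cancel _ _).symm, ?_,
    fun m hm => (h0 m hm).ge, fun m hm => by rw [weight_neg, h0 m hm], fun m hm => ?_⟩
  · obtain ⟨m, hm, h1⟩ := h.2
    refine ne_zero_iff.2 ⟨m, ?_⟩
    rw [coeff_weightedHomogeneousComponent, if_pos h1]
    exact mem_support_iff.1 hm
  · rw [mem_support_iff, coeff_sub, coeff_weightedHomogeneousComponent] at hm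
    split_ifs at hm with h1
    · exact absurd (sub_self _) hm
    · rw [sub_zero] at hm
      have := h.1 m (mem_support_iff.2 hm)
      omega

lemma Att.mul (h : Att w a F) (h' : Att w b G) : Att w (a + b) (F * G) := by
  refine ⟨h.1.mul h'.1, ?_⟩
  obtain ⟨F0, F1, hF, hF0, h1, h2, h3⟩ := h.split
  obtain ⟨G0, G1, hG, hG0, h4, h5, h6⟩ := h'.split
  obtain ⟨m, hm⟩ := support_nonempty.2 (mul_ne_zero hF0 hG0)
  have h7 := h1.mul h4 m hm
  have h8 := h2.mul h5 m hm
  rw [weight_neg] at h8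
  have h9 : Low w (a + b + 1) (F0 * G1 + F1 * G) :=
    ((h1.mul h6).mono (by omega)).add ((h3.mul h'.1).mono (by omega))
  refine ⟨m, ?_, by omega⟩
  have h10 : coeff m (F0 * G1 + F1 * G) = 0 := by
    by_contra hne
    have := h9 m (mem_support_iff.2 hne)
    omega
  have h11 : F * G = F0 * G0 + (F0 * G1 + F1 * G) := by
    rw [hF, add_mul, ← add_assoc, ← mul_add, ← hG]
  rw [mem_support_iff, h11, coeff_add, h10, add_zero]
  exact mem_support_iff.1 hm

lemma Att.pow (h : Att w a F) (e : ℕ) : Att w (e * a) (F ^ e) := by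
  induction e with
  | zero =>
    rw [pow_zero, Nat.cast_zero, zero_mul]
    exact ⟨low_one, 0, by simp, map_zero _⟩
  | succ e ih =>
    rw [pow_succ, Nat.cast_succ, add_mul, one_mul]
    exact ih.mul h

lemma Att.le (h : Att w a F) (h' : Low w b F) : b ≤ a := by
  obtain ⟨m, hm, h1⟩ := h.2
  exact h1 ▸ h' m hm

lemma weight_le (m : Fin n →₀ ℕ) (l : Fin n) : Finsupp.weight (fun _ => (-1 : ℤ)) m ≤ -(m l : ℤ) := by
  rw [Finsupp.weight_apply, Finsupp.sum_fintype _ _ (fun _ => zero_smul ℕ (-1 : ℤ))]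
  simp only [smul_neg, nsmul_eq_mul, mul_one, sum_neg_distrib, neg_le_neg_iff]
  exact single_le_sum (f := fun i => (m i : ℤ)) (fun i _ => Int.natCast_nonneg _) (mem_univ l)

end Ext

open Ext in
theorem st_ext : St_EXT := by
  intro n g h e hne
  have hh : h ≠ 0 := right_ne_zero_of_mul hne
  obtain ⟨m0, hm0⟩ := support_nonempty.2 hh
  refine ⟨fun w E om h1 h2 m hm m' hm' => ?_, fun D h1 m hm l => ?_⟩
  · have hg : g ≠ 0 := support_nonempty.1 ⟨m, hm⟩
    obtain ⟨a, ha⟩ := exists_att w hg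
    obtain ⟨A, hA⟩ := exists_att (-w) hg
    obtain ⟨b, hb⟩ := exists_att w hh
    obtain ⟨B, hB⟩ := exists_att (-w) hh
    have h3 := ((ha.pow e).mul hb).le h1
    have h4 := ((hA.pow e).mul hB).le h2
    have h5 := hb.1 m0 hm0
    have h6 := hB.1 m0 hm0
    have h7 := ha.1 m' hm'
    have h8 := hA.1 m hm
    rw [weight_neg] at h6 h8
    have h9 : (e : ℤ) * (Finsupp.weight w m - Finsupp.weight w m') ≤ e * (-A - a) :=
      mul_le_mul_of_nonneg_left (by omega) (Int.natCast_nonneg e)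
    linarith
  · have hg : g ≠ 0 := support_nonempty.1 ⟨m, hm⟩
    obtain ⟨A, hA⟩ := exists_att (fun _ => -1) hg
    obtain ⟨B, hB⟩ := exists_att (fun _ => -1) hh
    have h3 := ((hA.pow e).mul hB).le h1
    have h4 := (hB.1 m0 hm0).trans (weight_le m0 l)
    have h5 := (hA.1 m hm).trans (weight_le m l)
    have h6 : (e : ℤ) * (m l : ℤ) ≤ e * (-A) := mul_le_mul_of_nonneg_left (by omega) (Int.natCast_nonneg e)
    have h7 : (e : ℤ) * (m l : ℤ) ≤ D := by
      have := Int.natCast_nonneg (m0 l)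
      linarith
    exact_mod_cast h7

end Pool.Agent.SX
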