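import Pool.Agent.Lib.SX.Blue

/-! Subexponential abc: the dictionary for `finSuccEquiv`. -/

namespace Pool.Agent.SX

open Finset Polynomial

namespace FS

lemma weight_cons {n : ℕ} (w : Fin (n + 1) → ℤ) (c : ℕ) (m : Fin n →₀ ℕ) :
    Finsupp.weight w (m.cons c) = c * w 0 + Finsupp.weight (Fin.tail w) m := by
  rw [Finsupp.weight_eq_sum, Finsupp.weight_eq_sum, Fin.sum_univ_succ]
  simp [Fin.tail]

lemma sh_back {σ K : Type*} [CommRing K] (pt : σ → K) (F : MvPolynomial σ ℤ) :
    MvPolynomial.aeval (R := K) (fun i => MvPolynomial.X i - MvPolynomial.C (pt i)) (sh pt F) =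
      MvPolynomial.map (Int.castRingHom K) F := by
  have : (MvPolynomial.aeval (R := K) (S₁ := MvPolynomial σ K)
      (fun i => MvPolynomial.X i - MvPolynomial.C (pt i))).toRingHom.comp (sh pt) =
      MvPolynomial.map (Int.castRingHom K) :=
    MvPolynomial.ringHom_ext (fun r => by simp) fun i => by simp [sh]
  exact RingHom.congr_fun this F

end FS

theorem st_fs : St_FS := by
  refine ⟨fun R _ n w a F => ⟨fun h c m hm => ?_, fun h m hm => ?_⟩, fun n F => ?_,
    fun K _ n pt F => ?_, fun K _ _ n pt F G h => ?_⟩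
  · have := h _ (MvPolynomial.mem_support_coeff_finSuccEquiv.1 hm)
    rw [FS.weight_cons] at this
    omega
  · have := h (m 0) m.tail (MvPolynomial.mem_support_coeff_finSuccEquiv.2 (by rwa [Finsupp.cons_tail]))
    rw [← Finsupp.cons_tail m, FS.weight_cons]
    omega
  · rw [pl1, l1, ← sum_fiberwise_of_maps_to (g := fun m : Fin (n + 1) →₀ ℕ => m 0)
      (t := (MvPolynomial.finSuccEquiv ℤ n F).support)
      fun m hm => MvPolynomial.mem_support_finSuccEquiv.2 ⟨m, hm, rfl⟩]
    refine sum_congr rfl fun c _ => ?_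
    rw [← MvPolynomial.image_support_finSuccEquiv,
      sum_image fun x _ y _ e => (Finsupp.cons_injective2 e).2, l1]
    exact sum_congr rfl fun m _ => by rw [MvPolynomial.finSuccEquiv_coeff_coeff]
  · have : (MvPolynomial.finSuccEquiv K n).toRingEquiv.toRingHom.comp (sh pt) =
        (taylorAlgHom (MvPolynomial.C (pt 0))).toRingHom.comp
          ((mapRingHom (sh (Fin.tail pt))).comp
            (MvPolynomial.finSuccEquiv ℤ n).toRingEquiv.toRingHom) := by
      refine MvPolynomial.ringHom_ext (fun r => by simp) fun i => ?_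
      refine Fin.cases ?_ (fun j => ?_) i
      · simp [sh, MvPolynomial.finSuccEquiv_apply]
      · simp [sh, MvPolynomial.finSuccEquiv_apply, Fin.tail]
    exact RingHom.congr_fun this F
  · refine MvPolynomial.map_injective (Int.castRingHom K) Int.cast_injective ?_
    rw [← FS.sh_back pt, ← FS.sh_back pt, h]

end Pool.Agent.SX
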