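import Pool.Agent.Lib.SX.Blue

/-! Greedy choice of non-resonant exponents. -/

namespace Pool.Agent.SX

open Finset

namespace Greedy

lemma step {m : ℕ} (B : ℕ) (wt : Fin m → ℤ) (h : NonRes wt B) (Js : Finset ℕ)
    (hc : (2 * B + 1) ^ (m + 1) < Js.card) :
    ∃ j ∈ Js, NonRes (Fin.cons (α := fun _ => ℤ) (j : ℤ) wt) B := by
  classical
  set box : Finset (Fin (m + 1) → ℤ) := Fintype.piFinset fun _ => Icc (-(B : ℤ)) B with hbox
  set φ : (Fin (m + 1) → ℤ) → ℕ := fun i => ((-∑ l, i (Fin.succ l) * wt l) / i 0).toNat with hφ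
  have hcard : (box.image φ).card < Js.card := by
    refine card_image_le.trans_lt (lt_of_eq_of_lt ?_ hc)
    rw [hbox, Fintype.card_piFinset, prod_const, card_univ, Fintype.card_fin, Int.card_Icc]
    have : ((B : ℤ) + 1 - -(B : ℤ)).toNat = 2 * B + 1 := by omega
    rw [this]
  obtain ⟨j, hj, hnj⟩ := exists_mem_notMem_of_card_lt_card hcard
  refine ⟨j, hj, fun i hi hs => ?_⟩
  rw [Fin.sum_univ_succ] at hs
  simp only [Fin.cons_zero, Fin.cons_succ] at hs
  by_cases h0 : i 0 = 0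
  · have h1 : (fun l => i (Fin.succ l)) = 0 := h _ (fun l => hi _) (by rw [h0, zero_mul, zero_add] at hs; exact hs)
    funext l
    refine Fin.cases h0 (fun l' => ?_) l
    exact congrFun h1 l'
  · exfalso
    refine hnj (mem_image.2 ⟨i, ?_, ?_⟩)
    · rw [hbox, Fintype.mem_piFinset]
      exact fun l => mem_Icc.2 (abs_le.1 (hi l))
    · have e : (-∑ l, i (Fin.succ l) * wt l) = i 0 * j := by linarith
      simp only [hφ]
      rw [e, Int.mul_ediv_cancel_left _ h0, Int.toNat_natCast]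

end Greedy

theorem st_greedy : St_GREEDY := by
  intro k B
  refine ⟨(2 * B + 1) ^ (k + 1) + 1, fun n Js hn hc => ?_⟩
  induction k with
  | zero =>
    refine ⟨Fin.elim0, fun l => l.elim0, fun i _ hs => ?_⟩
    rw [Fin.sum_univ_succ, Fin.sum_univ_zero, add_zero] at hs
    have e : (Fin.snoc (α := fun _ => ℤ) (fun l : Fin 0 => ((Fin.elim0 l : ℕ) : ℤ)) (n : ℤ) : Fin (0 + 1) → ℤ) 0 = n :=
      Fin.snoc_last (α := fun _ => ℤ) _ _
    rw [e] at hs
    have h0 : i 0 = 0 := (mul_eq_zero.1 hs).resolve_right (by omega)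
    funext l
    rw [Subsingleton.elim (α := Fin 1) l 0]
    exact h0
  | succ k ih =>
    have hle : (2 * B + 1) ^ (k + 1) ≤ (2 * B + 1) ^ (k + 1 + 1) := Nat.pow_le_pow_right (by omega) (by omega)
    obtain ⟨J, hJ, hN⟩ := ih (by omega)
    obtain ⟨j, hj, hN'⟩ := Greedy.step B _ hN Js (by omega)
    refine ⟨Fin.cons j J, fun l => Fin.cases hj hJ l, ?_⟩
    have e : (fun l : Fin (k + 1) => ((Fin.cons (α := fun _ => ℕ) j J l : ℕ) : ℤ)) =
        Fin.cons (α := fun _ => ℤ) (j : ℤ) fun l => (J l : ℤ) := by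
      funext l
      refine Fin.cases rfl (fun _ => rfl) l
    rw [e, ← Fin.cons_snoc_eq_snoc_cons]
    exact hN'

end Pool.Agent.SX
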