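import Pool.Agent.Lib.SX.Blue

/-! Liouville estimate for the Taylor coefficients at a point congruent to one. -/

namespace Pool.Agent.SX

open MvPolynomial Finset

namespace Liou

variable {n : ℕ}

/-- rationals whose denominator is prime to `P` -/
def Rg (P : ℕ) : Subring ℚ where
  carrier := {z | z.den.Coprime P}
  mul_mem' := fun {a b} ha hb =>
    Nat.Coprime.coprime_dvd_left (Rat.mul_den_dvd a b) (Nat.Coprime.mul_left ha hb)
  add_mem' := fun {a b} ha hb =>
    Nat.Coprime.coprime_dvd_left (Rat.add_den_dvd a b) (Nat.Coprime.mul_left ha hb)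
  one_mem' := by simp
  zero_mem' := by simp
  neg_mem' := fun {a} ha => by simpa using ha

/-- rescaling of the variables -/
noncomputable def sc (t : Fin n → ℚ) : MvPolynomial (Fin n) ℚ →+* MvPolynomial (Fin n) ℚ :=
  eval₂Hom C fun l => C (t l) * X l

lemma sc_C (t : Fin n → ℚ) (a : ℚ) : sc t (C a) = C a := by simp [sc]

lemma sc_X (t : Fin n → ℚ) (l : Fin n) : sc t (X l) = C (t l) * X l := by simp [sc]

lemma coeff_sc (t : Fin n → ℚ) (H : MvPolynomial (Fin n) ℚ) (τ : Fin n →₀ ℕ) :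
    coeff τ (sc t H) = (∏ l, t l ^ τ l) * coeff τ H := by
  induction H using MvPolynomial.induction_on' with
  | monomial m a =>
    have h : sc t (monomial m a) = monomial m ((∏ l, t l ^ m l) * a) := by
      rw [monomial_eq, monomial_eq, Finsupp.prod_fintype _ _ (by simp), map_mul, map_prod, sc_C, map_mul,
        map_prod]
      simp only [map_pow, sc_X, mul_pow, prod_mul_distrib]
      ring
    rw [h, coeff_monomial, coeff_monomial]
    split_ifs with hm
    · rw [hm]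
    · simp
  | add p q hp hq => rw [map_add, coeff_add, coeff_add, hp, hq, mul_add]

lemma hom_eq {A : Type} [CommRing A] (ψ : MP n →+* A) (F : MP n) :
    ψ F = ∑ m ∈ F.support, ((F.coeff m : ℤ) : A) * ∏ l, ψ (X l) ^ m l := by
  have h : ψ = eval₂Hom (Int.castRingHom A) fun l => ψ (X l) := by
    refine ringHom_ext (fun r => ?_) fun l => ?_
    · rw [eval₂Hom_C]
      exact eq_intCast (ψ.comp C) r
    · simp
  conv_lhs => rw [h]
  rw [coe_eval₂Hom, eval₂_eq']
  rfl

lemma sh_X {K : Type} [CommRing K] (pt : Fin n → K) (l : Fin n) : sh pt (X l) = X l + C (pt l) := by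
  simp [sh]

lemma sh_one (pt : Fin n → ℚ) (F : MP n) : sh (fun l => pt l - 1) (sh (fun _ => (1 : ℤ)) F) = sh pt F := by
  have h : (sh fun l => pt l - 1).comp (sh fun _ => (1 : ℤ)) = sh pt := by
    refine ringHom_ext (fun r => ?_) fun l => ?_
    · exact (eq_intCast (((sh fun l => pt l - 1).comp (sh fun _ => (1 : ℤ))).comp C) r).trans
        (eq_intCast ((sh pt).comp C) r).symm
    · rw [RingHom.comp_apply, sh_X, sh_X, map_add, sh_X, C_1, map_one, map_sub, C_1]
      ring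
  exact DFunLike.congr_fun h F

/-- the normalised Taylor coefficient is a small integer -/
lemma small (D B : ℕ) (pt : Fin n → ℚ) (μ : ℚ) (F : MP n)
    (hB : ∀ m ∈ F.support, ∃ y : ℤ, μ * ∏ l, pt l ^ m l = y ∧ y.natAbs ≤ B)
    (hD : Low (fun _ => -1) (-(D : ℤ)) F) (τ : Fin n →₀ ℕ) :
    ∃ y : ℤ, μ * ((∏ l, pt l ^ τ l) * coeff τ (sh pt F)) = y ∧ y.natAbs ≤ l1 F * 2 ^ D * B := by
  classical
  choose! y hy hyB using hB
  set W : (Fin n →₀ ℕ) → MP n := fun m => ∏ l, (X l + 1) ^ m l with hW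
  refine ⟨∑ m ∈ F.support, F.coeff m * y m * coeff τ (W m), ?_, ?_⟩
  · rw [← coeff_sc, ← RingHom.comp_apply, hom_eq, coeff_sum, mul_sum]
    push_cast
    refine sum_congr rfl fun m hm => ?_
    have h1 : ∏ l, ((sc pt).comp (sh pt)) (X l) ^ m l =
        C (∏ l, pt l ^ m l) * map (Int.castRingHom ℚ) (W m) := by
      rw [hW]
      simp only [map_prod, map_pow, map_add, map_X, map_one, ← prod_mul_distrib, ← mul_pow]
      refine prod_congr rfl fun l _ => ?_
      rw [RingHom.comp_apply, sh_X, map_add, sc_X, sc_C]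
      ring
    rw [h1, ← map_intCast (C : ℚ →+* MvPolynomial (Fin n) ℚ), coeff_C_mul, coeff_C_mul, coeff_map, ← hy m hm]
    simp only [eq_intCast]
    ring
  · refine (Int.natAbs_sum_le _ _).trans ?_
    rw [l1, sum_mul, sum_mul]
    refine sum_le_sum fun m hm => ?_
    rw [Int.natAbs_mul, Int.natAbs_mul, mul_right_comm]
    refine Nat.mul_le_mul (Nat.mul_le_mul_left _ ?_) (hyB m hm)
    refine (coeff_le_l1 _ _).trans ((l1_prod_le _ _).trans ?_)
    have h2 : ∀ l : Fin n, l1 ((X l + 1 : MP n) ^ m l) ≤ 2 ^ m l := fun l =>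
      (l1_pow_le _ _).trans (Nat.pow_le_pow_left ((l1_add_le _ _).trans (by simp)) _)
    refine (prod_le_prod' fun l _ => h2 l).trans ?_
    rw [prod_pow_eq_pow_sum]
    refine Nat.pow_le_pow_right (by norm_num) ?_
    have h3 := hD m hm
    rw [Finsupp.weight_apply, Finsupp.sum_fintype _ _ (by simp)] at h3
    simp only [smul_neg, nsmul_eq_mul, mul_one, sum_neg_distrib, neg_le_neg_iff] at h3
    exact_mod_cast h3

/-- the Taylor coefficient is divisible by a high power of `P` -/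
lemma divis (P d : ℕ) (ow : Fin n → ℕ) (z : Fin n → ℚ) (hz : ∀ l, z l ∈ Rg P) (G : MP n)
    (hG : Low (fun l => (ow l : ℤ)) d G) (τ : Fin n →₀ ℕ) :
    ∃ c ∈ Rg P, (P : ℚ) ^ (∑ l, ow l * τ l) * coeff τ (sh (fun l => (P : ℚ) ^ ow l * z l) G) = (P : ℚ) ^ d * c := by
  classical
  set T : Subring (MvPolynomial (Fin n) ℚ) := (map (Rg P).subtype).range with hT
  have hC : ∀ a ∈ Rg P, C a ∈ T := fun a ha => ⟨C ⟨a, ha⟩, by simp⟩
  have hX : ∀ l, X l ∈ T := fun l => ⟨X l, by simp⟩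
  set H : MvPolynomial (Fin n) ℚ := ∑ m ∈ G.support, ((G.coeff m : ℤ) : MvPolynomial (Fin n) ℚ) *
    (C ((P : ℚ) ^ (∑ l, ow l * m l - d)) * ∏ l, (X l + C (z l)) ^ m l) with hH
  have hHT : H ∈ T := by
    refine T.sum_mem fun m _ => T.mul_mem (intCast_mem T _) (T.mul_mem (hC _ ?_) ?_)
    · exact pow_mem (natCast_mem (Rg P) P) _
    · exact T.prod_mem fun l _ => pow_mem (T.add_mem (hX l) (hC _ (hz l))) _
  obtain ⟨H', hH'⟩ := hHT
  refine ⟨coeff τ H, ?_, ?_⟩
  · rw [← hH', coeff_map]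
    exact (coeff τ H').2
  · have h0 : (P : ℚ) ^ (∑ l, ow l * τ l) = ∏ l, ((P : ℚ) ^ ow l) ^ τ l := by
      simp only [← pow_mul, prod_pow_eq_pow_sum]
    rw [h0, ← coeff_sc, ← RingHom.comp_apply, hom_eq, ← coeff_C_mul, hH, mul_sum]
    refine congrArg _ (sum_congr rfl fun m hm => ?_)
    have h3 := hG m hm
    rw [Finsupp.weight_apply, Finsupp.sum_fintype _ _ (by simp)] at h3
    simp only [nsmul_eq_mul] at h3
    have h4 : d ≤ ∑ l, ow l * m l := by
      have : ((∑ l, ow l * m l : ℕ) : ℤ) = ∑ l, (m l : ℤ) * ow l := by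
        push_cast
        exact sum_congr rfl fun l _ => mul_comm _ _
      omega
    have h1 : ∏ l, ((sc fun l => (P : ℚ) ^ ow l).comp (sh fun l => (P : ℚ) ^ ow l * z l)) (X l) ^ m l =
        C ((P : ℚ) ^ (∑ l, ow l * m l)) * ∏ l, (X l + C (z l)) ^ m l := by
      rw [← prod_pow_eq_pow_sum, map_prod, ← prod_mul_distrib]
      refine prod_congr rfl fun l _ => ?_
      rw [RingHom.comp_apply, sh_X, map_add, sc_X, sc_C, pow_mul, map_pow _ ((P : ℚ) ^ ow l), ← mul_pow, map_mul,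
        mul_add]
    have h5 : (P : ℚ) ^ (∑ l, ow l * m l) = (P : ℚ) ^ d * (P : ℚ) ^ (∑ l, ow l * m l - d) := by
      rw [← pow_add, Nat.add_sub_cancel' h4]
    rw [h1, h5, map_mul]
    ring

lemma le_of_eq (P d w : ℕ) (y : ℤ) (c : ℚ) (hc : c ∈ Rg P) (hy : y ≠ 0) (hP : 1 ≤ P)
    (h : (P : ℚ) ^ w * y = (P : ℚ) ^ d * c) : P ^ d ≤ P ^ w * y.natAbs := by
  have h1 : ((P : ℤ) ^ w * y * c.den : ℤ) = (P : ℤ) ^ d * c.num := by
    have h2 : ((P : ℚ) ^ w * y) * c.den = (P : ℚ) ^ d * c.num := by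
      rw [h, mul_assoc, Rat.mul_den_eq_num]
    exact_mod_cast h2
  have h3 : P ^ w * y.natAbs * c.den = P ^ d * c.num.natAbs := by
    have := congrArg Int.natAbs h1
    simpa [Int.natAbs_mul, Int.natAbs_pow] using this
  have h4 : P ^ d ∣ P ^ w * y.natAbs :=
    (Nat.Coprime.pow_left d (Nat.Coprime.symm hc)).dvd_of_dvd_mul_right ⟨_, h3⟩
  exact Nat.le_of_dvd (Nat.mul_pos (Nat.pow_pos hP) (Int.natAbs_pos.2 hy)) h4

end Liou

open Liou in
theorem st_liou : St_LIOU := by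
  intro n P d D B ow pt μ F hP hpt hz how hμ hμP hB hD hL τ hτ
  choose z hzP hz using hz
  obtain ⟨y, hy, hyB⟩ := small D B pt μ F hB hD τ
  obtain ⟨c, hc, hcd⟩ := divis P d ow z hzP _ hL τ
  have h1 : (fun l => (P : ℚ) ^ ow l * z l) = fun l => pt l - 1 := funext fun l => (hz l).symm
  rw [h1, sh_one] at hcd
  have hptR : ∀ l, pt l ∈ Rg P := fun l => by
    have : pt l = (P : ℚ) ^ ow l * z l + 1 := by rw [← hz l]; ring
    rw [this]
    exact add_mem (mul_mem (pow_mem (natCast_mem (Rg P) P) _) (hzP l)) (one_mem _)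
  have hy0 : y ≠ 0 := by
    have h2 : (y : ℚ) ≠ 0 := by
      rw [← hy]
      exact mul_ne_zero hμ (mul_ne_zero (prod_ne_zero_iff.2 fun l _ => pow_ne_zero _ (hpt l))
        (mem_support_iff.1 hτ))
    exact_mod_cast h2
  have h3 : (P : ℚ) ^ (∑ l, ow l * τ l) * y = (P : ℚ) ^ d * (μ * (∏ l, pt l ^ τ l) * c) := by
    rw [← hy]
    linear_combination (μ * ∏ l, pt l ^ τ l) * hcd
  have h4 : μ * (∏ l, pt l ^ τ l) * c ∈ Rg P :=
    mul_mem (mul_mem hμP (prod_mem fun l _ => pow_mem (hptR l) _)) hc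
  exact (le_of_eq P d _ y _ h4 hy0 hP h3).trans (Nat.mul_le_mul_left _ hyB)

end Pool.Agent.SX
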