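import Pool.Agent.Lib.SX.Blue

/-! Block MOD: the modulus lemma. -/

namespace Pool.Agent.SX

open Finset

namespace Modl

lemma weight_eq {k : ℕ} (w : Fin (k + 1) → ℤ) (m : Fin (k + 1) →₀ ℕ) :
    Finsupp.weight w m = ∑ l : Fin k, (m l.castSucc : ℤ) * w l.castSucc + (m (Fin.last k) : ℤ) * w (Fin.last k) := by
  rw [Finsupp.weight_apply, Finsupp.sum_fintype _ _ (fun i => zero_smul ℕ (w i)), Fin.sum_univ_castSucc]
  simp only [nsmul_eq_mul]

lemma coprime_of_modEq {R S P x : ℕ} (h : R.Coprime S) (hx : 1 ≤ x) (hm : R ≡ S [MOD P ^ x]) :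
    (R * S).Coprime P := by
  have h1 : R ≡ S [MOD P] := hm.of_dvd (dvd_pow_self P (by omega))
  have h2 : R.Coprime P := by
    refine Nat.Coprime.eq_one_of_dvd (h.coprime_dvd_left (Nat.gcd_dvd_left R P)) ?_
    exact ((h1.of_dvd (Nat.gcd_dvd_right R P)).dvd_iff dvd_rfl).1 (Nat.gcd_dvd_left R P)
  have h3 : S.Coprime P := by
    have := h1.gcd_eq
    rw [Nat.Coprime, ← this]
    exact h2
  exact Nat.Coprime.mul_left h2 h3

lemma pow_le_max {R S Q : ℕ} (hne : R ≠ S) (hm : R ≡ S [MOD Q]) : Q ≤ max R S := by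
  rcases lt_or_gt_of_ne hne with h | h
  · have := (Nat.modEq_iff_dvd' h.le).1 hm
    have := Nat.le_of_dvd (by omega) this
    omega
  · have := (Nat.modEq_iff_dvd' h.le).1 hm.symm
    have := Nat.le_of_dvd (by omega) this
    omega

lemma le_of_pow_le {P a e : ℕ} (he : 1 ≤ e) (h : P ^ e ≤ 2 ^ (a * e)) : P ≤ 2 ^ a := by
  rw [pow_mul] at h
  exact (Nat.pow_le_pow_iff_left (by omega)).1 h

lemma liou_num {k x P Y L R S r : ℕ} (hx : 1 ≤ x) (hP : 1 ≤ P) (hY : P ^ 38 ≤ Y ^ k) (hL : L ≤ 2 ^ (6 * (k * x) + 12))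
    (hR : R ≤ P ^ (4 * x)) (hS : S ≤ P ^ (4 * x)) (hr : r ≤ P)
    (h : Y ^ (k * x) ≤ P ^ x * (L * 2 ^ (2 * (k * x) + 4) * (R ^ 4 * S ^ 4 * r ^ (4 * x)))) : P ≤ 2 ^ (8 * k + 16) := by
  have h1 : P ^ (37 * x) * P ^ x ≤ Y ^ (k * x) := by
    rw [← pow_add, pow_mul Y, show 37 * x + x = 38 * x by ring, pow_mul]
    exact Nat.pow_le_pow_left hY x
  have h2 : P ^ x * (L * 2 ^ (2 * (k * x) + 4) * (R ^ 4 * S ^ 4 * r ^ (4 * x))) ≤
      P ^ x * (2 ^ (6 * (k * x) + 12) * 2 ^ (2 * (k * x) + 4) * ((P ^ (4 * x)) ^ 4 * (P ^ (4 * x)) ^ 4 * P ^ (4 * x))) := by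
    gcongr
  have h3 : P ^ x * (2 ^ (6 * (k * x) + 12) * 2 ^ (2 * (k * x) + 4) *
      ((P ^ (4 * x)) ^ 4 * (P ^ (4 * x)) ^ 4 * P ^ (4 * x))) = P ^ (37 * x) * 2 ^ (8 * (k * x) + 16) := by
    rw [← pow_mul, ← pow_add, ← pow_add, ← pow_add, mul_left_comm, ← pow_add, mul_comm,
      show x + (4 * x * 4 + 4 * x * 4 + 4 * x) = 37 * x by ring,
      show 6 * (k * x) + 12 + (2 * (k * x) + 4) = 8 * (k * x) + 16 by ring]
  have h4 : P ^ x ≤ 2 ^ (8 * (k * x) + 16) :=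
    Nat.le_of_mul_le_mul_left ((h1.trans h).trans (h2.trans h3.le)) (by positivity)
  refine le_of_pow_le hx (h4.trans (Nat.pow_le_pow_right (by norm_num) ?_))
  nlinarith

end Modl

theorem st_mod (hZL : St_ZL) (hEND : St_END) (hSIEG : St_SIEG) (hCELL : St_CELL) (hGREEDY : St_GREEDY)
    (hMODA : St_MODA) : St_MOD := by
  intro k hk
  obtain ⟨S', H', hZ⟩ := hZL k (2 * k + 4) 3
  obtain ⟨M, hM⟩ := hGREEDY k (2 * S')
  obtain ⟨C, hC1, hC2, hC3, hC4⟩ : ∃ C : ℕ, k ≤ C ∧ 8 * S' * (2 * M + 1) ≤ C ∧ 2 ^ (8 * k + 16) < C ∧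
      2 ^ (H' * S') < C := by
    generalize 8 * S' * (2 * M + 1) = a
    generalize 2 ^ (8 * k + 16) = b
    generalize 2 ^ (H' * S') = c
    exact ⟨k + a + b + c + 1, by omega, by omega, by omega, by omega⟩
  refine ⟨C, ?_⟩
  intro R S P x Y hR hS hRS hne hC hm hRP hSP hrad hY2 hYP hY
  by_contra hx
  rw [not_le] at hx
  set t := (R * S).primeFactors.card with ht
  have hx1 : 1 ≤ x := by omega
  have hP1 : 1 ≤ P := by omega
  replace hC3 := hC3.trans_le hC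
  replace hC4 := hC4.trans_le hC
  have hcop := Modl.coprime_of_modEq hRS hx1 hm
  set T := P / Y with hT
  have hT1 : 1 ≤ T := Nat.div_pos hYP (by omega)
  have hTY : T * Y ≤ P := Nat.div_mul_le_self P Y
  have hTP : T < P := Nat.div_lt_self (by omega) (by omega)
  have hP2 : P ≤ 2 * (Y * T) := by
    have := Nat.lt_mul_div_succ P (show 0 < Y by omega)
    rw [← hT] at this
    nlinarith
  set n := 2 * (M * k ^ t) * Y + 1 with hn
  have hn1 : 1 ≤ n := by omega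
  have hkt : 1 ≤ k ^ t := Nat.one_le_pow _ _ hk
  have hnx : 8 * n * S' ≤ x := by
    refine le_trans ?_ hx.le
    have h1 : n ≤ (2 * M + 1) * (k ^ t * Y) := by
      have : 1 ≤ k ^ t * Y := Nat.mul_pos hkt (by omega)
      rw [hn]
      nlinarith
    calc 8 * n * S' = 8 * S' * n := by ring
      _ ≤ 8 * S' * ((2 * M + 1) * (k ^ t * Y)) := Nat.mul_le_mul_left _ h1
      _ = 8 * S' * (2 * M + 1) * (k ^ t * Y) := by ring
      _ ≤ C * (C ^ t * Y) := by gcongr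
      _ = C ^ (t + 1) * Y := by ring
  have hcell : M * k ^ t * P < n * T := by
    have : M * k ^ t * P ≤ M * k ^ t * (2 * (Y * T)) := Nat.mul_le_mul_left _ hP2
    rw [hn]
    nlinarith
  obtain ⟨Js, u0, u, ρ, ς, hJs, hu0, hu0T, hJ⟩ := hCELL R S P T k n M hR hS hRS hcop hTP hk hn1 hcell
  obtain ⟨J, hJm, hNR⟩ := hM n Js hn1 hJs
  obtain ⟨F, hF0, hFl, hFs, hFo⟩ := hSIEG k x n J hk hx1 hn1 fun l => (hJ _ (hJm l)).1
  have hA := hMODA k x n R S P T Y u0 J (fun l => u (J l)) (fun l => ρ (J l)) (fun l => ς (J l)) F hk hx1 hn1 hR hS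
    hP1 hcop hm hTY hu0 hu0T (fun l => (hJ _ (hJm l)).2) hFs hFo
  set pt : Fin (k + 1) → ℚ :=
    Fin.snoc (α := fun _ => ℚ) (fun l => (u (J l) * ρ (J l) : ℚ) / (u0 * ς (J l))) ((R : ℚ) / S) with hpt
  set wt : Fin (k + 1) → ℤ := Fin.snoc (α := fun _ => ℤ) (fun l => (J l : ℤ)) (n : ℤ) with hwt
  have hw : ∀ m : Fin (k + 1) →₀ ℕ, Finsupp.weight wt m =
      ((∑ l : Fin k, J l * m l.castSucc + n * m (Fin.last k) : ℕ) : ℤ) := by
    intro m
    rw [Modl.weight_eq, hwt]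
    simp only [Fin.snoc_castSucc, Fin.snoc_last]
    push_cast
    simp only [mul_comm]
  have hw' : ∀ m : Fin (k + 1) →₀ ℕ, Finsupp.weight (-wt) m = -Finsupp.weight wt m := by
    intro m
    rw [Modl.weight_eq, Modl.weight_eq]
    simp only [Pi.neg_apply, mul_neg, sum_neg_distrib]
    ring
  have hSt : St wt (owt k x) pt (2 * (k * x) + 4) (4 * n) 3 x F := by
    refine ⟨hF0, fun m hm' => ?_, ⟨(n * (k * x) : ℕ), fun m hm' => ?_, fun m hm' => ?_⟩, ?_, fun τ hτ => ?_⟩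
    · obtain ⟨h1, h2, -, -⟩ := hFs m hm'
      rw [Modl.weight_eq]
      simp only [mul_neg, mul_one, sum_neg_distrib]
      have h1' : ∑ l : Fin k, (m l.castSucc : ℤ) ≤ (k * x : ℕ) := by exact_mod_cast h1
      have h2' : (m (Fin.last k) : ℤ) ≤ (k * x + 4 : ℕ) := by exact_mod_cast h2
      push_cast at h1' h2' ⊢
      linarith
    · rw [hw]
      exact_mod_cast (hFs m hm').2.2.1
    · rw [hw', hw, neg_le_neg_iff]
      have h := (hFs m hm').2.2.2
      rw [mul_add, mul_comm n 4] at h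
      exact_mod_cast h
    · rwa [show 3 * (2 * (k * x) + 4) = 6 * (k * x) + 12 by ring]
    · by_contra hlt
      exact absurd (Modl.liou_num hx1 hP1 hY hFl hRP hSP hrad (hA τ hτ (not_le.1 hlt))) (not_le.2 hC3)
  have hpt0 : ∀ l, pt l ≠ 0 := by
    intro l
    rw [hpt]
    refine Fin.lastCases ?_ (fun i => ?_) l
    · rw [Fin.snoc_last]
      positivity
    · rw [Fin.snoc_castSucc]
      obtain ⟨-, h1, -, h2, h3, -⟩ := hJ _ (hJm i)
      have := Nat.pos_of_ne_zero h2.1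
      have := Nat.pos_of_ne_zero h3.1
      positivity
  have hkx : x ≤ k * x := Nat.le_mul_of_pos_left x hk
  obtain ⟨G, D', α', hG0, hGl, hGo, hD1, hD2⟩ := hZ ℚ x wt pt (2 * (k * x) + 4) (4 * n) x F hpt0 hSt (by omega)
    (by omega) (by nlinarith) (by nlinarith) hNR
  have hlast : pt (Fin.last k) = (R : ℚ) / S := by rw [hpt, Fin.snoc_last]
  rw [hlast] at hGo
  have hE := hEND R S x α' G hR hS hRS hG0 hGo
  have hα : 1 ≤ α' := by
    rcases Nat.eq_zero_or_pos α' with h | h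
    · rw [h] at hD2; omega
    · exact h
  have h1 : P ^ (x * α') ≤ 2 ^ (H' * S' * (x * α')) := by
    calc P ^ (x * α') = (P ^ x) ^ α' := pow_mul _ _ _
      _ ≤ max R S ^ α' := Nat.pow_le_pow_left (Modl.pow_le_max hne hm) _
      _ ≤ l1 G ^ x := hE
      _ ≤ (2 ^ (H' * D')) ^ x := Nat.pow_le_pow_left hGl _
      _ ≤ (2 ^ (H' * (S' * α'))) ^ x := by gcongr; norm_num
      _ = 2 ^ (H' * S' * (x * α')) := by rw [← pow_mul]; congr 1; ring
  exact absurd (Modl.le_of_pow_le (Nat.mul_pos hx1 hα) h1) (not_le.2 hC4)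

end Pool.Agent.SX
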