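import Pool.Agent.Lib.SX.Blue

/-! Subexponential abc: block MODA (Liouville estimate at the anchor point). -/

namespace Pool.Agent.SX

open Finset

namespace MODA

lemma apx_coprime {R n Q J ρ P : ℕ} (h : Apx R n Q J ρ) (hP : R.Coprime P) : ρ.Coprime P := by
  refine Nat.coprime_of_dvd fun q hq hρ hqP => ?_
  have h1 : ρ.factorization q ≠ 0 := (hq.factorization_pos_of_dvd h.1 hρ).ne'
  have h2 : R.factorization q ≠ 0 := fun h0 => h1 ((h.2 q).2 h0)
  have h3 : q ∣ R := Nat.dvd_of_factorization_pos h2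
  exact hq.one_lt.ne' (Nat.eq_one_of_dvd_coprimes hP h3 hqP)

lemma den_cop (t : ℤ) {b P : ℕ} (h : b.Coprime P) : ((t : ℚ) / (b : ℚ)).den.Coprime P := by
  have h1 : ((t : ℚ) / (b : ℚ)).den ∣ b := by
    have h2 := Rat.den_dvd t b
    rw [Rat.divInt_eq_div, Int.cast_natCast] at h2
    exact Int.natCast_dvd_natCast.1 h2
  exact Nat.Coprime.coprime_dvd_left h1 h

lemma near_one {a b N c P : ℕ} (hb : b ≠ 0) (h : b.Coprime P) (hab : a ≡ b [MOD N * c]) :
    ∃ z : ℚ, z.den.Coprime P ∧ (a : ℚ) / b - 1 = (N : ℚ) * z := by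
  obtain ⟨t, ht⟩ := hab.symm.dvd
  refine ⟨((c * t : ℤ) : ℚ) / (b : ℚ), den_cop _ h, ?_⟩
  have hb' : (b : ℚ) ≠ 0 := by exact_mod_cast hb
  have ht' : (a : ℚ) - b = N * c * t := by exact_mod_cast ht
  push_cast
  field_simp
  linear_combination ht'

lemma weight_owt (k x : ℕ) (τ : Fin (k + 1) →₀ ℕ) :
    Finsupp.weight (owt k x) τ = ((∑ l, (if l = Fin.last k then x else 1) * τ l : ℕ) : ℤ) := by
  rw [Finsupp.weight_apply, Finsupp.sum_fintype _ _ (by simp)]
  push_cast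
  refine sum_congr rfl fun l _ => ?_
  simp only [owt, nsmul_eq_mul]
  ring

lemma quot_le {A B c e : ℕ} (hA : 0 < A) (h : A * c ≤ A * e * B) : c ≤ e * B := by
  rw [mul_assoc] at h
  exact Nat.le_of_mul_le_mul_left h hA

end MODA

open MODA in
theorem st_moda (hL : St_LIOU) (hS : St_SIZE) : St_MODA := by
  intro k x n R S P T Y u0 J u ρ ς F hk hx hn hR hS1 hP hco hRS hTY hu0 hu0T hl hsupp hord τ hτ hw
  set d := k * x with hd
  have hRP : R.Coprime P := Nat.Coprime.coprime_mul_right hco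
  have hSP : S.Coprime P := Nat.Coprime.coprime_mul_left hco
  obtain ⟨g, u1, P1, hg, hc, rfl, rfl⟩ : ∃ g u1 P1 : ℕ, 0 < g ∧ u1.Coprime P1 ∧ u0 = g * u1 ∧ P = g * P1 := by
    obtain ⟨g, a, b, h1, h2, h3, h4⟩ := Nat.exists_coprime' (Nat.gcd_pos_of_pos_left P hu0)
    exact ⟨g, a, b, h1, h2, by rw [h3, mul_comm], by rw [h4, mul_comm]⟩
  have hgu : ∀ l, ∃ v, u l = g * v := fun l => by
    obtain ⟨_, _, h1, _, h2⟩ := hl l
    have h3 : g ∣ u l * ρ l :=
      (h2.dvd_iff (Dvd.intro _ rfl)).2 (Dvd.dvd.mul_right (Dvd.intro _ rfl) _)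
    exact ((apx_coprime h1 hRP).coprime_mul_right_right.symm).dvd_of_dvd_mul_right h3
  choose v hv using hgu
  have hP1 : 1 ≤ P1 := Nat.pos_of_mul_pos_left hP
  have hu1 : 1 ≤ u1 := Nat.pos_of_mul_pos_left hu0
  have hv1 : ∀ l, 1 ≤ v l := fun l => Nat.pos_of_mul_pos_left (hv l ▸ (hl l).1)
  have hu1T : u1 ≤ T / g := (Nat.le_div_iff_mul_le hg).2 (by rwa [mul_comm])
  have hvT : ∀ l, v l ≤ T / g := fun l => (Nat.le_div_iff_mul_le hg).2 (by rw [mul_comm, ← hv l]; exact (hl l).2.1)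
  have hρ : ∀ l, ρ l ≠ 0 := fun l => (hl l).2.2.1.1
  have hς : ∀ l, ς l ≠ 0 := fun l => (hl l).2.2.2.1.1
  have hRS0 : R * S ≠ 0 := by positivity
  have hrad : rad (R * S) ≠ 0 := prod_ne_zero_iff.2 fun q hq => (Nat.prime_of_mem_primeFactors hq).ne_zero
  have hq : ∀ q ∈ (R * S).primeFactors, q ∣ rad (R * S) := fun q hq => dvd_prod_of_mem _ hq
  set Δ := rad (R * S) ^ x with hΔ
  have hΔ0 : 0 < Δ := by positivity
  have hpt : (fun l => (u l * ρ l : ℚ) / ((g * u1 : ℕ) * ς l)) = fun l => ((v l * ρ l : ℕ) : ℚ) / (u1 * ς l : ℕ) := by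
    funext l
    have : (g : ℚ) ≠ 0 := by positivity
    rw [hv l]
    push_cast
    rw [mul_assoc, mul_assoc, mul_div_mul_left _ _ this]
  rw [hpt] at hτ
  have key := hL (k + 1) P1 d (2 * d + 4) ((T / g) ^ d * (R ^ 4 * S ^ 4 * Δ ^ 4))
    (fun l => if l = Fin.last k then x else 1) _ (((u1 ^ d * Δ ^ 2 * S ^ (d + 4) : ℕ) : ℤ) / ((R ^ d : ℕ) : ℚ)) F hP1
    ?_ ?_ ?_ ?_ ?_ ?_ ?_ ?_ τ hτ
  · rw [weight_owt] at hw
    have hw' : ∑ l, (if l = Fin.last k then x else 1) * τ l ≤ x := by exact_mod_cast hw.le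
    have h1 : P1 ^ (∑ l, (if l = Fin.last k then x else 1) * τ l) ≤ (g * P1) ^ x :=
      (Nat.pow_le_pow_right hP1 hw').trans (Nat.pow_le_pow_left (Nat.le_mul_of_pos_left _ hg) _)
    have h2 : T / g * Y ≤ P1 := by
      refine Nat.le_of_mul_le_mul_left (le_trans ?_ hTY) hg
      rw [← mul_assoc]
      exact Nat.mul_le_mul_right _ (Nat.mul_div_le T g)
    have h3 : 0 < (T / g) ^ d := pow_pos (hu1.trans hu1T) _
    refine Nat.le_of_mul_le_mul_left ?_ h3
    rw [← mul_pow, mul_comm 4 x, pow_mul (rad (R * S)), ← hΔ]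
    refine ((Nat.pow_le_pow_left h2 d).trans key).trans ((Nat.mul_le_mul_right _ h1).trans (le_of_eq ?_))
    ring
  · intro l
    refine Fin.lastCases ?_ (fun l => ?_) l
    · rw [Fin.snoc_last]; positivity
    · rw [Fin.snoc_castSucc]
      have := hv1 l
      have := hρ l
      have := hς l
      positivity
  · intro l
    refine Fin.lastCases ?_ (fun l => ?_) l
    · rw [Fin.snoc_last]
      simp only [if_true]
      have := near_one (a := R) (b := S) (N := P1 ^ x) (c := g ^ x) (P := P1) (by omega) hSP.coprime_mul_left_right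
        (by rwa [← mul_pow, mul_comm P1 g])
      rwa [Nat.cast_pow] at this
    · rw [Fin.snoc_castSucc]
      simp only [(Fin.castSucc_lt_last l).ne, if_false, pow_one]
      refine near_one (c := 1) (by have := hς l; positivity)
        (Nat.Coprime.mul_left hc (apx_coprime (hl l).2.2.2.1 hSP).coprime_mul_left_right) ?_
      have h := (hl l).2.2.2.2
      rw [hv l, mul_assoc, mul_assoc] at h
      rw [mul_one]
      exact Nat.ModEq.mul_left_cancel' hg.ne' h
  · intro l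
    split_ifs
    exacts [hx, le_rfl]
  · positivity
  · exact den_cop _ (Nat.Coprime.pow_left _ hRP.coprime_mul_left_right)
  · intro m hm
    obtain ⟨h1, h2, h3, h4⟩ := hsupp m hm
    obtain ⟨⟨a, ha⟩, ha'⟩ := hS k R n k d x (rad (R * S)) (m (Fin.last k)) J ρ (fun l => m l.castSucc) hR hn hk hrad
      (fun q h => hq q (Nat.primeFactors_mono (Dvd.intro _ rfl) hRS0 h)) (fun l => (hl l).2.2.1) h1 le_rfl h3 h4
    obtain ⟨hb', ⟨b, hb⟩⟩ := hS k S n k d x (rad (R * S)) (m (Fin.last k)) J ς (fun l => m l.castSucc) hS1 hn hk hrad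
      (fun q h => hq q (Nat.primeFactors_mono (Dvd.intro_left _ rfl) hRS0 h)) (fun l => (hl l).2.2.2.1) h1 le_rfl h3 h4
    rw [← hΔ] at ha ha' hb hb'
    obtain ⟨c, hc'⟩ := Nat.exists_eq_add_of_le h1
    have hA : 0 < ∏ l : Fin k, ς l ^ m l.castSucc := prod_pos fun l _ => pow_pos (Nat.pos_of_ne_zero (hς l)) _
    refine ⟨((∏ l : Fin k, v l ^ m l.castSucc) * u1 ^ c * (a * b) : ℕ), ?_, ?_⟩
    · rw [Fin.prod_univ_castSucc]
      simp only [Fin.snoc_castSucc, Fin.snoc_last, div_pow, Nat.cast_mul, mul_pow, prod_div_distrib, prod_mul_distrib,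
        prod_pow_eq_pow_sum, Int.cast_natCast, Nat.cast_pow, Nat.cast_prod, Int.cast_mul, Int.cast_pow, Int.cast_prod]
      have ha2 : (∏ l : Fin k, (ρ l : ℚ) ^ m l.castSucc) * R ^ m (Fin.last k) * Δ = R ^ d * a := by exact_mod_cast ha
      have hb2 : (S : ℚ) ^ (d + 4) * Δ = (∏ l : Fin k, (ς l : ℚ) ^ m l.castSucc) * S ^ m (Fin.last k) * b := by
        exact_mod_cast hb
      have hA2 : (∏ l : Fin k, (ς l : ℚ) ^ m l.castSucc) ≠ 0 := by exact_mod_cast hA.ne'
      have hu : (u1 : ℚ) ^ d = u1 ^ (∑ l : Fin k, m l.castSucc) * u1 ^ c := by rw [← pow_add, ← hc']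
      have hR0 : (R : ℚ) ≠ 0 := by positivity
      have hS0 : (S : ℚ) ≠ 0 := by positivity
      have hu0' : (u1 : ℚ) ≠ 0 := by positivity
      rw [hu]
      generalize (∏ l : Fin k, (ς l : ℚ) ^ m l.castSucc) = A at *
      generalize (∏ l : Fin k, (ρ l : ℚ) ^ m l.castSucc) = A' at *
      generalize (∏ l : Fin k, (v l : ℚ) ^ m l.castSucc) = V at *
      field_simp
      linear_combination V * (S ^ (d + 4) * Δ * ha2 + R ^ d * a * hb2)
    · rw [Int.natAbs_natCast]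
      have e1 : a ≤ R ^ 4 * Δ ^ 2 := by
        refine quot_le (pow_pos hR d) ?_
        rw [← ha, ← pow_add, sq, ← mul_assoc]
        exact Nat.mul_le_mul_right _ (Nat.le_of_dvd (by positivity) ha')
      have e2 : b ≤ S ^ 4 * Δ ^ 2 := by
        refine quot_le (pow_pos hS1 d) ?_
        rw [← pow_add, sq, ← mul_assoc, hb, mul_right_comm _ b]
        exact Nat.mul_le_mul_right _ (Nat.le_of_dvd (by positivity) hb')
      have e3 : ∏ l : Fin k, v l ^ m l.castSucc ≤ (T / g) ^ ∑ l : Fin k, m l.castSucc := by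
        rw [← prod_pow_eq_pow_sum]
        exact prod_le_prod' fun l _ => Nat.pow_le_pow_left (hvT l) _
      calc _ ≤ (T / g) ^ (∑ l : Fin k, m l.castSucc) * (T / g) ^ c * (R ^ 4 * Δ ^ 2 * (S ^ 4 * Δ ^ 2)) :=
            Nat.mul_le_mul (Nat.mul_le_mul e3 (Nat.pow_le_pow_left hu1T c)) (Nat.mul_le_mul e1 e2)
        _ = _ := by rw [← pow_add, ← hc']; ring
  · intro m hm
    obtain ⟨h1, h2, -⟩ := hsupp m hm
    rw [Finsupp.weight_apply, Finsupp.sum_fintype _ _ (by simp), Fin.sum_univ_castSucc]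
    simp only [smul_neg, nsmul_eq_mul, mul_one, sum_neg_distrib, ← Nat.cast_sum]
    omega
  · have : (fun l : Fin (k + 1) => (((if l = Fin.last k then x else 1 : ℕ)) : ℤ)) = owt k x := by
      funext l
      simp [owt]
    rw [this]
    exact hord

end Pool.Agent.SX
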