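import Pool.Agent.Lib.SX.Blue

/-! Block MULT: a prime dividing all Hasse derivatives divides to a high power. -/

namespace Pool.Agent.SX

open Polynomial

namespace Mult

lemma iter {R : Type} [CommRing R] [IsDomain R] [CharZero R] (g : R[X]) (hg : Prime g) (hd : 0 < g.natDegree) (j0 : ℕ) :
    ∀ f : R[X], (∀ j ≤ j0, g ∣ derivative^[j] f) → g ^ (j0 + 1) ∣ f := by
  induction j0 with
  | zero => exact fun f h => by simpa using h 0 le_rfl
  | succ j0 ih =>
    intro f h
    obtain ⟨q, rfl⟩ := ih f fun j hj => h j (by omega)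
    have h1 := ih (derivative (g ^ (j0 + 1) * q)) fun j hj => by
      rw [← Function.iterate_succ_apply]
      exact h (j + 1) (by omega)
    rw [derivative_mul, derivative_pow_succ, dvd_add_left (dvd_mul_right _ _), pow_succ,
      show C ((j0 : R) + 1) * g ^ j0 * derivative g * q = g ^ j0 * (C ((j0 : R) + 1) * derivative g * q) by ring,
      mul_dvd_mul_iff_left (pow_ne_zero _ hg.ne_zero)] at h1
    rcases hg.dvd_or_dvd h1 with h2 | h2
    · exfalso
      have h3 : derivative g ≠ 0 := fun h0 => hd.ne' (derivative_eq_zero.1 h0)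
      have h4 : (j0 : R) + 1 ≠ 0 := Nat.cast_add_one_ne_zero j0
      have h5 := natDegree_le_of_dvd h2 (mul_ne_zero (C_ne_zero.2 h4) h3)
      rw [natDegree_C_mul h4] at h5
      exact absurd (natDegree_derivative_lt hd.ne') (not_lt.2 h5)
    · rw [pow_succ]
      exact mul_dvd_mul_left _ h2

end Mult

theorem st_mult : St_MULT := by
  intro R _ _ _ f g j0 hg hd h
  refine Mult.iter g hg hd j0 f fun j hj => ?_
  rw [← factorial_smul_hasseDeriv, LinearMap.smul_apply, nsmul_eq_mul]
  exact (h j hj).mul_left _

end Pool.Agent.SX
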