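import Pool.Agent.Lib.SX.Blue

/-! Subexponential abc, block NOG: no prime of positive degree divides all `X ^ j * hasseDeriv j f`. -/

namespace Pool.Agent.SX

open Finset Polynomial

namespace NOG

lemma exists_mem {n : ℕ} (G : MP (n + 1)) (c : ℕ) (h : (MvPolynomial.finSuccEquiv ℤ n G).coeff c ≠ 0) :
    ∃ m ∈ G.support, m 0 = c := by
  obtain ⟨a, ha⟩ := MvPolynomial.ne_zero_iff.1 h
  rw [MvPolynomial.finSuccEquiv_coeff_coeff] at ha
  exact ⟨a.cons c, MvPolynomial.mem_support_iff.2 ha, Finsupp.cons_zero _ _⟩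

lemma weight_eq {n : ℕ} (w : Fin n → ℤ) (m : Fin n →₀ ℕ) : Finsupp.weight w m = ∑ l, (m l : ℤ) * w l := by
  rw [Finsupp.weight_apply, Finsupp.sum_fintype _ (fun i c => c • w i) fun _ => zero_smul _ _]
  exact sum_congr rfl fun l _ => nsmul_eq_mul _ _

end NOG

theorem st_nog (hE : St_EXT) (hM : St_MULT) : St_NOG := by
  intro n wt D om S j0 E F h0 hD hlo hhi hom hDS hN g hg hdeg hgf
  by_contra hcon
  have hall : ∀ j ≤ j0, g ∣ X ^ j * hasseDeriv j (MvPolynomial.finSuccEquiv ℤ n F) := fun j hj => by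
    by_contra h
    exact hcon ⟨j, hj, h⟩
  have hg0 : g.coeff 0 ≠ 0 := fun h => h0 (X_dvd_iff.1 ((X_dvd_iff.2 h).trans hgf))
  have hX : ¬g ∣ X := fun h =>
    hg0 (X_dvd_iff.1 (hg.irreducible.associated_of_dvd irreducible_X h).symm.dvd)
  obtain ⟨h, hh⟩ := hM (MP n) _ g j0 hg hdeg fun j hj =>
    (hg.dvd_or_dvd (hall j hj)).resolve_left fun h => hX (hg.dvd_of_dvd_pow h)
  obtain ⟨G, rfl⟩ := (MvPolynomial.finSuccEquiv ℤ n).surjective g
  obtain ⟨H, rfl⟩ := (MvPolynomial.finSuccEquiv ℤ n).surjective h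
  rw [← map_pow, ← map_mul] at hh
  obtain rfl := (MvPolynomial.finSuccEquiv ℤ n).injective hh
  have hne : G ^ (j0 + 1) * H ≠ 0 := fun h => h0 (by rw [h, map_zero, coeff_zero])
  obtain ⟨h1, h2⟩ := hE (n + 1) G H (j0 + 1) hne
  have hw : ∀ m ∈ G.support, ∀ m' ∈ G.support, Finsupp.weight wt m ≤ Finsupp.weight wt m' := fun m hm m' hm' => by
    have h3 := h1 wt E om hlo hhi m hm m' hm'
    have h4 : (om : ℤ) < ((j0 + 1 : ℕ) : ℤ) := Nat.cast_lt.2 hom
    have h5 : (0 : ℤ) ≤ ((j0 + 1 : ℕ) : ℤ) := Nat.cast_nonneg _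
    by_contra h6
    have h7 : 1 ≤ Finsupp.weight wt m - Finsupp.weight wt m' := by omega
    have := mul_le_mul_of_nonneg_left h7 h5
    omega
  have hS : ∀ m ∈ G.support, ∀ l, m l ≤ S := fun m hm l =>
    Nat.le_of_mul_le_mul_left ((h2 D hD m hm l).trans (hDS.trans_eq (mul_comm _ _))) j0.succ_pos
  obtain ⟨m, hm, hm0⟩ := NOG.exists_mem G 0 hg0
  obtain ⟨m', hm', hm0'⟩ := NOG.exists_mem G _ (leadingCoeff_ne_zero.2 hg.ne_zero)
  have hz := hN (fun l => (m l : ℤ) - m' l) (fun l => by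
    have := hS m hm l
    have := hS m' hm' l
    rw [abs_le]
    constructor <;> omega) (by
    have h3 := le_antisymm (hw m hm m' hm') (hw m' hm' m hm)
    rw [NOG.weight_eq, NOG.weight_eq] at h3
    simp only [sub_mul, sum_sub_distrib, h3, sub_self])
  have h8 : (m 0 : ℤ) - m' 0 = 0 := congrFun hz 0
  omega

end Pool.Agent.SX
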