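import Pool.Agent.Lib.SX.Blue

/-! Subexponential abc: choice of the modulus. -/

namespace Pool.Agent.SX

open Finset

theorem st_pick : St_PICK := by
  intro c N hN hrad hc
  have hN2 : 1 < N ^ 2 := Nat.one_lt_pow (by norm_num) (by omega)
  have hc0 : c ≠ 0 := by omega
  set y := Nat.log (N ^ 2) c with hy
  have hy1 : 1 ≤ y := Nat.log_pos hN2 hc
  have hlo : (N ^ 2) ^ y ≤ c := Nat.pow_log_le_self _ hc0
  have hhi : c < (N ^ 2) ^ (y + 1) := Nat.lt_pow_succ_log_self hN2 c
  have hc4 : c ≤ N ^ (4 * y) := by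
    refine hhi.le.trans ?_
    rw [← pow_mul]
    exact Nat.pow_le_pow_right (by omega) (by omega)
  have hcp : c = ∏ p ∈ c.primeFactors, p ^ c.factorization p := by
    conv_lhs => rw [← Nat.prod_factorization_pow_eq_self hc0]
    rfl
  set P := ∏ p ∈ c.primeFactors, p ^ (c.factorization p / y) with hP
  have hPy : P ^ y = ∏ p ∈ c.primeFactors, p ^ (c.factorization p / y * y) := by
    rw [hP, ← prod_pow]
    exact prod_congr rfl fun p _ => (pow_mul _ _ _).symm
  have hdvd : P ^ y ∣ c := by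
    rw [hPy]
    conv_rhs => rw [hcp]
    exact prod_dvd_prod_of_dvd _ _ fun p _ => pow_dvd_pow _ (Nat.div_mul_le_self _ _)
  have hle : c ≤ P ^ y * N ^ y := by
    calc c = ∏ p ∈ c.primeFactors, p ^ c.factorization p := hcp
      _ ≤ ∏ p ∈ c.primeFactors, p ^ (c.factorization p / y * y) * p ^ y := by
        refine prod_le_prod' fun p hp => ?_
        rw [← pow_add]
        refine Nat.pow_le_pow_right (Nat.prime_of_mem_primeFactors hp).pos ?_
        have h1 := Nat.div_add_mod (c.factorization p) y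
        have h2 := Nat.mod_lt (c.factorization p) hy1
        rw [mul_comm] at h1
        omega
      _ = P ^ y * rad c ^ y := by rw [prod_mul_distrib, ← hPy, rad, prod_pow]
      _ ≤ P ^ y * N ^ y := Nat.mul_le_mul_left _ (Nat.pow_le_pow_left hrad _)
  have hNP : N ≤ P := by
    have h1 : N ^ y * N ^ y ≤ P ^ y * N ^ y := by
      refine le_trans (le_of_eq ?_) (hlo.trans hle)
      rw [← mul_pow, sq]
    have h2 : N ^ y ≤ P ^ y := Nat.le_of_mul_le_mul_right h1 (Nat.pow_pos (by omega))
    exact (Nat.pow_le_pow_iff_left (by omega)).1 h2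
  refine ⟨P, y, hy1, hdvd, ?_, hNP, ?_, hc4⟩
  · refine hle.trans ?_
    rw [two_mul, pow_add]
    exact Nat.mul_le_mul_left _ (Nat.pow_le_pow_left hNP _)
  · have h1 : P ^ y ≤ (N ^ 4) ^ y := by
      rw [← pow_mul]
      exact (Nat.le_of_dvd (Nat.pos_of_ne_zero hc0) hdvd).trans hc4
    exact (Nat.pow_le_pow_iff_left (by omega)).1 h1

end Pool.Agent.SX
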