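import Pool.Agent.Lib.SX.Blue

/-! Block RESB: weights, order and size of a resultant. -/

namespace Pool.Agent.SX

open Finset Polynomial

namespace Resb

lemma entry {σ R : Type*} [CommRing R] {w : σ → ℤ} {w0 a : ℤ} {g : (MvPolynomial σ R)[X]} (hg : PLow w w0 a g)
    (i j n : ℕ) : Low w (a - i * w0 + j * w0) (if i ∈ Set.Icc j (j + n) then g.coeff (i - j) else 0) := by
  split_ifs with h
  · refine (hg (i - j)).mono (le_of_eq ?_)
    rw [Nat.cast_sub h.1]
    ring
  · exact low_zero

lemma entry2 {σ R : Type*} [CommRing R] {w : σ → ℤ} {β : ℕ} {g : (MvPolynomial σ R)[X]} (hw : ∀ l, 0 ≤ w l)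
    (hg : PLow w 1 β g) (i j n : ℕ) :
    Low w (((β - i : ℕ) : ℤ) + 0) (if i ∈ Set.Icc j (j + n) then g.coeff (i - j) else 0) := by
  rcases le_total β i with h | h
  · exact low_of_nonneg hw (by omega) _
  · exact (entry hg i j n).mono (by omega)

lemma tri (β : ℕ) : 2 * ∑ i ∈ range β, (β - i) = β * (β + 1) := by
  induction β with
  | zero => simp
  | succ β ih =>
    rw [sum_range_succ']
    simp only [Nat.add_sub_add_right, Nat.sub_zero]
    rw [mul_add, ih]
    ring

lemma l1_det {σ ι : Type*} [Fintype ι] [DecidableEq ι] (M : Matrix ι ι (MvPolynomial σ ℤ)) :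
    l1 M.det ≤ ∏ j, ∑ i, l1 (M i j) := by
  rw [Matrix.det_apply, prod_univ_sum]
  refine (l1_sum_le _ _).trans ?_
  have h1 : ∀ p : Equiv.Perm ι, l1 (Equiv.Perm.sign p • ∏ j, M (p j) j) ≤ ∏ j, l1 (M (p j) j) := fun p => by
    rcases Int.units_eq_one_or (Equiv.Perm.sign p) with h | h
    · rw [h, one_smul]
      exact l1_prod_le _ _
    · rw [h, Units.neg_smul, one_smul, l1_neg]
      exact l1_prod_le _ _
  refine (sum_le_sum fun p _ => h1 p).trans ?_
  rw [← sum_image (s := univ) (g := fun p : Equiv.Perm ι => (p : ι → ι)) (f := fun p : ι → ι => ∏ j, l1 (M (p j) j))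
    fun p _ q _ h => DFunLike.coe_injective h]
  exact sum_le_sum_of_subset fun p _ => by simp

lemma col {σ : Type*} (g : (MvPolynomial σ ℤ)[X]) (N j n : ℕ) :
    ∑ i : Fin N, l1 (if (i : ℕ) ∈ Set.Icc j (j + n) then g.coeff (i - j) else 0) ≤ pl1 g := by
  classical
  have h1 : ∑ i : Fin N, l1 (if (i : ℕ) ∈ Set.Icc j (j + n) then g.coeff (i - j) else 0) =
      ∑ i ∈ univ.filter fun i : Fin N => (i : ℕ) ∈ Set.Icc j (j + n), l1 (g.coeff (i - j)) := by
    rw [sum_filter]
    refine sum_congr rfl fun i _ => ?_
    split_ifs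
    · rfl
    · exact l1_zero
  rw [h1, ← sum_image (g := fun i : Fin N => (i : ℕ) - j) (f := fun c => l1 (g.coeff c))]
  · exact sum_le_pl1 _ _
  · intro a ha b hb h
    have h2 := (mem_filter.1 ha).2.1
    have h3 := (mem_filter.1 hb).2.1
    simp only at h
    exact Fin.ext (by omega)

end Resb

theorem st_resb : St_RESB := by
  refine ⟨fun m n => ?_, fun R _ k w β γ m n f g hw hf hg hβ hγ => ?_, fun k m n B f g hf hg => ?_⟩
  · let c : Fin (m + n) → ℤ := fun j => j.addCases (fun j => (j : ℕ)) fun j => (j : ℕ)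
    refine ⟨∑ j, c j - ∑ i : Fin (m + n), ((i : ℕ) : ℤ), fun R _ k w w0 a f g hf hg => ?_⟩
    refine (low_det (sylvester f g m n) (fun i => a - (i : ℕ) * w0) (fun j => c j * w0) fun i j => ?_).mono (le_of_eq ?_)
    · induction j using Fin.addCases with
      | left j =>
        simp only [sylvester, Matrix.of_apply, Fin.addCases_left, c]
        exact Resb.entry hg _ _ _
      | right j =>
        simp only [sylvester, Matrix.of_apply, Fin.addCases_right, c]
        exact Resb.entry hf _ _ _
    · rw [sum_sub_distrib, ← sum_mul, ← sum_mul, sum_const, card_univ, Fintype.card_fin, nsmul_eq_mul]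
      push_cast
      ring
  · refine (low_det (sylvester f g m n) (fun i => ((β - i : ℕ) : ℤ)) (fun _ => 0) fun i j => ?_).mono ?_
    · induction j using Fin.addCases with
      | left j =>
        simp only [sylvester, Matrix.of_apply, Fin.addCases_left]
        exact Resb.entry2 hw hg _ _ _
      | right j =>
        simp only [sylvester, Matrix.of_apply, Fin.addCases_right]
        exact Resb.entry2 hw hf _ _ _
    · rw [sum_const_zero, add_zero, ← Nat.cast_sum, Nat.cast_le, Fin.sum_univ_eq_sum_range (fun i => β - i)]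
      have h1 := Resb.tri β
      have h2 : ∑ i ∈ range β, (β - i) ≤ ∑ i ∈ range (m + n), (β - i) :=
        sum_le_sum_of_subset (range_mono hβ)
      omega
  · refine (Resb.l1_det (sylvester f g m n)).trans ?_
    refine (prod_le_pow_card _ _ B fun j _ => ?_).trans (by rw [card_univ, Fintype.card_fin])
    induction j using Fin.addCases with
    | left j =>
      simp only [sylvester, Matrix.of_apply, Fin.addCases_left]
      exact (Resb.col g _ _ _).trans hg
    | right j =>
      simp only [sylvester, Matrix.of_apply, Fin.addCases_right]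
      exact (Resb.col f _ _ _).trans hf

end Pool.Agent.SX
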