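import Pool.Agent.Lib.SX.Blue

/-! Block RESNE: nonvanishing of the resultant and invariance under a Taylor shift. -/

namespace Pool.Agent.SX

open Polynomial

namespace RESNE

lemma res_prime {R : Type} [CommRing R] [IsDomain R] (p G : R[X]) (D : ℕ) (hp : Prime p) (hG : G.natDegree ≤ D)
    (h : ¬p ∣ G) : resultant p G p.natDegree D ≠ 0 := by
  classical
  intro h0
  rw [resultant] at h0
  obtain ⟨v, hv, hM⟩ := Matrix.exists_mulVec_eq_zero_iff.2 h0
  let b₁ := ((degreeLT.basis R p.natDegree).prod (degreeLT.basis R D)).reindex finSumFinEquiv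
  let b₂ := degreeLT.basis R (p.natDegree + D)
  have hT : (sylvesterMap p G le_rfl hG).toMatrix b₁ b₂ = sylvester p G p.natDegree D :=
    toMatrix_sylvesterMap' p G le_rfl hG
  let x := b₁.equivFun.symm v
  have hx : (b₁.repr x : _ → R) = v := by
    have := b₁.equivFun.apply_symm_apply v
    rwa [Module.Basis.equivFun_apply] at this
  have h1 := LinearMap.toMatrix_mulVec_repr b₁ b₂ (sylvesterMap p G le_rfl hG) x
  rw [hT, hx, hM] at h1
  have h2 : sylvesterMap p G le_rfl hG x = 0 := by
    apply b₂.repr.injective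
    rw [map_zero]
    exact DFunLike.coe_injective (h1.symm.trans Finsupp.coe_zero.symm)
  have h3 : p * (x.2 : R[X]) + G * (x.1 : R[X]) = 0 := congrArg Subtype.val h2
  have h4 : p ∣ G * (x.1 : R[X]) := ⟨-(x.2 : R[X]), by linear_combination h3⟩
  have h5 : p ∣ (x.1 : R[X]) := (hp.dvd_or_dvd h4).resolve_left h
  have h6 : (x.1 : R[X]) = 0 := by
    refine eq_zero_of_dvd_of_degree_lt h5 ?_
    rw [degree_eq_natDegree hp.ne_zero]
    exact mem_degreeLT.1 x.1.2
  have h7 : (x.2 : R[X]) = 0 := by
    rw [h6, mul_zero, add_zero] at h3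
    exact (mul_eq_zero.1 h3).resolve_left hp.ne_zero
  have h8 : x = 0 := Prod.ext (Subtype.ext h6) (Subtype.ext h7)
  apply hv
  rw [← hx, h8, map_zero]
  rfl

lemma res_const {R : Type} [CommRing R] [IsDomain R] (f G : R[X]) (D : ℕ) (hf : f ≠ 0) (h0 : f.natDegree = 0) :
    resultant f G f.natDegree D ≠ 0 := by
  have hc : f.coeff 0 ≠ 0 := by
    rw [← h0]
    exact leadingCoeff_ne_zero.2 hf
  rw [h0, resultant_zero_left_deg]
  exact pow_ne_zero _ hc

end RESNE

theorem st_resne : St_RESNE := by
  refine ⟨fun R _ _ _ f G D hf hG h => ?_, fun R _ f G r D hG => ?_⟩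
  · induction f using UniqueFactorizationMonoid.induction_on_prime with
    | h₁ => exact absurd rfl hf
    | h₂ u hu => exact RESNE.res_const u G D hf (natDegree_eq_zero_of_isUnit hu)
    | h₃ a p ha hp ih =>
      rw [natDegree_mul hp.ne_zero ha, resultant_mul_left p a G D hG]
      refine mul_ne_zero ?_ (ih ha fun g hg hd hga => h g hg hd (hga.mul_left p))
      rcases Nat.eq_zero_or_pos p.natDegree with h0 | h0
      · exact RESNE.res_const p G D hp.ne_zero h0
      · exact RESNE.res_prime p G D hp hG (h p hp h0 (dvd_mul_right p a))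
  · obtain ⟨k, rfl⟩ := Nat.exists_eq_add_of_le hG
    rw [resultant_add_right_deg f G _ _ k le_rfl,
      resultant_add_right_deg (taylor r f) (taylor r G) _ _ k (natDegree_taylor G r).le]
    have h1 := resultant_taylor f G r
    rw [natDegree_taylor, natDegree_taylor] at h1
    rw [h1]
    have h2 : (taylor r f).coeff f.natDegree = f.coeff f.natDegree := by
      have := leadingCoeff_taylor r f
      rwa [leadingCoeff, leadingCoeff, natDegree_taylor] at this
    rw [h2]

end Pool.Agent.SX
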