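import Pool.Agent.Lib.SX.Blue

/-! Block SIEG: the Siegel polynomial on the slab. -/

namespace Pool.Agent.SX

open Finset MvPolynomial

namespace Sieg

attribute [local instance] Matrix.seminormedAddCommGroup in
lemma siegel {α β : Type} [Fintype α] [Fintype β] (A : Matrix α β ℤ) (B : ℕ) (hB : 1 ≤ B)
    (hA : ∀ i j, (A i j).natAbs ≤ B) (hm : 0 < Fintype.card α) (h : 2 * Fintype.card α ≤ Fintype.card β) :
    ∃ t : β → ℤ, t ≠ 0 ∧ A.mulVec t = 0 ∧ ∀ j, (t j).natAbs ≤ Fintype.card β * B := by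
  obtain ⟨t, ht, hAt, hn⟩ := Int.Matrix.exists_ne_zero_int_vec_norm_le A (by omega) hm
  refine ⟨t, ht, hAt, fun j => ?_⟩
  have hB' : (1 : ℝ) ≤ B := by exact_mod_cast hB
  have h1 : ‖A‖ ≤ B := by
    rw [Matrix.norm_le_iff (by positivity)]
    intro i j
    rw [Int.norm_eq_abs, ← Int.cast_abs, ← Int.natCast_natAbs]
    exact_mod_cast hA i j
  have hm' : (1 : ℝ) ≤ Fintype.card α := by exact_mod_cast hm
  have h' : (2 : ℝ) * Fintype.card α ≤ Fintype.card β := by exact_mod_cast h
  have h2 : (1 : ℝ) ≤ Fintype.card β * max 1 ‖A‖ :=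
    one_le_mul_of_one_le_of_one_le (by linarith) (le_max_left _ _)
  have h3 : (Fintype.card α : ℝ) / (Fintype.card β - Fintype.card α) ≤ 1 := by
    rw [div_le_one (by linarith)]
    linarith
  have h4 := hn.trans (Real.rpow_le_rpow_of_exponent_le h2 h3)
  rw [Real.rpow_one] at h4
  have h5 : ‖t j‖ ≤ Fintype.card β * (B : ℝ) :=
    (norm_le_pi_norm t j).trans (h4.trans (mul_le_mul_of_nonneg_left (max_le hB' h1) (by positivity)))
  rw [Int.norm_eq_abs, ← Int.cast_abs, ← Int.natCast_natAbs] at h5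
  exact_mod_cast h5

/-- number of points of the simplex -/
def N (k m : ℕ) : ℕ := (k + m).choose m

lemma card_N (k m : ℕ) : #((univ : Finset (Fin (k + 1))).finsuppAntidiag m) = N k m := by
  rw [card_finsuppAntidiag_nat_eq_choose, card_univ, Fintype.card_fin, N, show k + 1 + m - 1 = k + m by omega]

lemma N_pos (k m : ℕ) : 0 < N k m := Nat.choose_pos (by omega)

lemma N_step {k x m : ℕ} (h : m + 1 ≤ k * x) : (x + 1) * N k m ≤ x * N k (m + 1) := by
  have h1 : (k + m + 1) * N k m = N k (m + 1) * (m + 1) := Nat.add_one_mul_choose_eq (k + m) m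
  refine Nat.le_of_mul_le_mul_right (c := m + 1) ?_ (by omega)
  rw [mul_assoc x, ← h1]
  have h2 : (x + 1) * (m + 1) ≤ x * (k + m + 1) := by nlinarith
  calc (x + 1) * N k m * (m + 1) = (x + 1) * (m + 1) * N k m := by ring
    _ ≤ x * (k + m + 1) * N k m := Nat.mul_le_mul_right _ h2
    _ = x * ((k + m + 1) * N k m) := by ring

lemma N_steps {k x m : ℕ} (hx : 1 ≤ x) (j : ℕ) (h : m + j ≤ k * x) : (x + j) * N k m ≤ x * N k (m + j) := by
  induction j with
  | zero => simp
  | succ j ih =>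
    have h1 := ih (by omega)
    have h2 := N_step (k := k) (x := x) (m := m + j) (by omega)
    have h3 : N k m ≤ N k (m + j) :=
      Nat.le_of_mul_le_mul_left ((Nat.mul_le_mul_right _ (Nat.le_add_right x j)).trans h1) hx
    rw [← add_assoc, ← add_assoc]
    nlinarith

lemma N_double {k x m : ℕ} (hx : 1 ≤ x) (h : m + x ≤ k * x) : 2 * N k m ≤ N k (m + x) := by
  have h1 := N_steps hx x h
  refine Nat.le_of_mul_le_mul_left (c := x) ?_ hx
  nlinarith

lemma N_sum {k x : ℕ} (hx : 1 ≤ x) (j : ℕ) (h : j ≤ k) : ∑ w ∈ range j, N k ((w + 1) * x) ≤ 2 * N k (j * x) := by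
  induction j with
  | zero => simp
  | succ j ih =>
    have h1 := ih (by omega)
    have h2 := N_double (k := k) (m := j * x) hx (by nlinarith)
    rw [sum_range_succ, add_mul j 1 x, one_mul]
    omega

lemma l1_sh (k : ℕ) (m : Fin k →₀ ℕ) : l1 (sh (fun _ => (1 : ℤ)) (monomial m 1)) ≤ 2 ^ ∑ l, m l := by
  rw [sh, eval₂Hom_monomial, map_one, one_mul, Finsupp.prod_fintype _ _ (fun i => pow_zero _), ← prod_pow_eq_pow_sum]
  refine (l1_prod_le _ _).trans (prod_le_prod' fun l _ => (l1_pow_le _ _).trans (Nat.pow_le_pow_left ?_ _))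
  refine (l1_add_le _ _).trans ?_
  simp

lemma weight_owt {k x : ℕ} (m : Fin (k + 1) →₀ ℕ) :
    Finsupp.weight (owt k x) m = ((∑ l : Fin k, m l.castSucc + m (Fin.last k) * x : ℕ) : ℤ) := by
  rw [Finsupp.weight_apply, Finsupp.sum_fintype _ _ (fun i => zero_smul ℕ (owt k x i)), Fin.sum_univ_castSucc]
  simp [owt, Fin.castSucc_ne_last]

lemma upd_cast {k : ℕ} (g : Fin (k + 1) →₀ ℕ) (e : ℕ) (l : Fin k) :
    g.update (Fin.last k) e l.castSucc = g l.castSucc := by
  rw [Finsupp.coe_update, Function.update_of_ne (Fin.castSucc_ne_last l)]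

lemma upd_last {k : ℕ} (g : Fin (k + 1) →₀ ℕ) (e : ℕ) : g.update (Fin.last k) e (Fin.last k) = e := by
  rw [Finsupp.coe_update, Function.update_self]

lemma mem_iff {k m : ℕ} {g : Fin (k + 1) →₀ ℕ} :
    g ∈ (univ : Finset (Fin (k + 1))).finsuppAntidiag m ↔ ∑ l : Fin k, g l.castSucc + g (Fin.last k) = m := by
  rw [mem_finsuppAntidiag, Fin.sum_univ_castSucc]
  exact and_iff_left (subset_univ _)

end Sieg

open Sieg in
theorem st_sieg : St_SIEG := by
  classical
  intro k x n J hk hx hn hJ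
  set d := k * x with hd
  let β := (univ : Finset (Fin (k + 1))).finsuppAntidiag d × Fin 4
  let α := Σ w : Fin k, (univ : Finset (Fin (k + 1))).finsuppAntidiag ((w + 1) * x)
  have hβ : Fintype.card β = N k d * 4 := by
    rw [Fintype.card_prod, Fintype.card_coe, card_N, Fintype.card_fin]
  have hα : Fintype.card α = ∑ w ∈ range k, N k ((w + 1) * x) := by
    rw [Fintype.card_sigma, ← Fin.sum_univ_eq_sum_range (fun w => N k ((w + 1) * x))]
    exact sum_congr rfl fun w _ => by rw [Fintype.card_coe, card_N]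
  have hα0 : 0 < Fintype.card α := by
    rw [hα]
    exact sum_pos (fun w _ => N_pos _ _) ⟨0, mem_range.2 hk⟩
  have hαβ : 2 * Fintype.card α ≤ Fintype.card β := by
    have := N_sum hx k le_rfl
    rw [← hd] at this
    rw [hα, hβ]
    omega
  let e0 : (Fin (k + 1) →₀ ℕ) → ℕ := fun g => (n * d - ∑ l : Fin k, J l * g l.castSucc + (n - 1)) / n
  let ex : β → (Fin (k + 1) →₀ ℕ) := fun j => j.1.1.update (Fin.last k) (e0 j.1.1 + j.2)
  have hex : ∀ j, ∑ l : Fin k, ex j l.castSucc ≤ d ∧ ex j (Fin.last k) ≤ d + 4 ∧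
      n * d ≤ ∑ l : Fin k, J l * ex j l.castSucc + n * ex j (Fin.last k) ∧
      ∑ l : Fin k, J l * ex j l.castSucc + n * ex j (Fin.last k) ≤ n * (d + 4) := by
    rintro ⟨⟨g, hg⟩, s⟩
    have h1 := mem_iff.1 hg
    simp only [ex, upd_cast, upd_last]
    have h2 : ∑ l : Fin k, J l * g l.castSucc ≤ n * d := by
      calc ∑ l : Fin k, J l * g l.castSucc ≤ ∑ l : Fin k, n * g l.castSucc :=
            sum_le_sum fun l _ => Nat.mul_le_mul_right _ (hJ l)
        _ = n * ∑ l : Fin k, g l.castSucc := (mul_sum _ _ _).symm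
        _ ≤ n * d := Nat.mul_le_mul_left _ (by omega)
    have h3 : n * e0 g ≤ n * d - ∑ l : Fin k, J l * g l.castSucc + (n - 1) := Nat.mul_div_le _ _
    have h4 : n * d - ∑ l : Fin k, J l * g l.castSucc + (n - 1) < n * (e0 g + 1) := Nat.lt_mul_div_succ _ hn
    have h5 : n * (s : ℕ) ≤ n * 3 := Nat.mul_le_mul_left _ (by omega)
    have h6 : ∑ l : Fin k, J l * g l.castSucc + n * (e0 g + s) ≤ n * (d + 4) := by
      rw [mul_add, mul_add]
      omega
    refine ⟨by omega, Nat.le_of_mul_le_mul_left (le_trans (Nat.le_add_left _ _) h6) hn, ?_, h6⟩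
    rw [mul_add] at h4 ⊢
    omega
  have hinj : Function.Injective ex := by
    rintro ⟨⟨g, hg⟩, s⟩ ⟨⟨g', hg'⟩, s'⟩ h
    have h1 : ∀ l : Fin k, g l.castSucc = g' l.castSucc := fun l => by
      have := DFunLike.congr_fun h l.castSucc
      simpa only [ex, upd_cast] using this
    have h2 : g = g' := by
      ext l
      refine Fin.lastCases ?_ h1 l
      have h3 := mem_iff.1 hg
      have h4 := mem_iff.1 hg'
      simp only [h1] at h3
      omega
    subst h2
    have h3 := DFunLike.congr_fun h (Fin.last k)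
    simp only [ex, upd_last] at h3
    have h4 : s = s' := Fin.ext (by omega)
    rw [h4]
  let A : Matrix α β ℤ := fun i j =>
    coeff (i.2.1.update (Fin.last k) (k - 1 - i.1)) (sh (fun _ => (1 : ℤ)) (monomial (ex j) 1))
  have hA : ∀ i j, (A i j).natAbs ≤ 2 ^ (2 * d + 4) := fun i j => by
    refine (coeff_le_l1 _ _).trans ((l1_sh _ _).trans (Nat.pow_le_pow_right (by norm_num) ?_))
    have := hex j
    rw [Fin.sum_univ_castSucc]
    omega
  obtain ⟨t, ht, hAt, htb⟩ := siegel A _ Nat.one_le_two_pow hA hα0 hαβ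
  refine ⟨∑ j, monomial (ex j) (t j), ?_, ?_, fun m hm => ?_, fun τ hτ => ?_⟩
  · intro h0
    apply ht
    funext j
    have h1 := congrArg (coeff (ex j)) h0
    rw [coeff_sum, sum_eq_single j (fun i _ hi => by rw [coeff_monomial, if_neg (hinj.ne hi)])
      (fun h => absurd (mem_univ j) h), coeff_monomial, if_pos rfl, coeff_zero] at h1
    exact h1
  · have h1 : Fintype.card β ≤ 2 ^ (2 * d + 2) := by
      have h2 : N k d ≤ 2 ^ (k + d) := Nat.choose_le_two_pow _ _
      have h3 : k ≤ d := Nat.le_mul_of_pos_right k hx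
      have h4 : 2 ^ (k + d) ≤ 2 ^ (2 * d) := Nat.pow_le_pow_right (by norm_num) (by omega)
      rw [hβ, pow_add]
      omega
    calc l1 (∑ j, monomial (ex j) (t j)) ≤ ∑ j, l1 (monomial (ex j) (t j)) := l1_sum_le _ _
      _ ≤ ∑ _j : β, Fintype.card β * 2 ^ (2 * d + 4) := sum_le_sum fun j _ => by rw [l1_monomial]; exact htb j
      _ = Fintype.card β * (Fintype.card β * 2 ^ (2 * d + 4)) := by rw [sum_const, card_univ, smul_eq_mul]
      _ ≤ 2 ^ (2 * d + 2) * (2 ^ (2 * d + 2) * 2 ^ (2 * d + 4)) := by gcongr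
      _ ≤ 2 ^ (6 * d + 12) := by
        rw [← pow_add, ← pow_add]
        exact Nat.pow_le_pow_right (by norm_num) (by omega)
  · obtain ⟨j, -, hj⟩ := mem_biUnion.1 (support_sum hm)
    rw [mem_singleton.1 (support_monomial_subset hj)]
    exact hex j
  · by_contra hlt
    rw [not_le, weight_owt] at hlt
    have h1 : ∑ l : Fin k, τ l.castSucc + τ (Fin.last k) * x < d := by exact_mod_cast hlt
    have h2 : τ (Fin.last k) < k := lt_of_mul_lt_mul_right (a := x) (by omega) (Nat.zero_le _)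
    obtain ⟨w, hw⟩ : ∃ w, k = τ (Fin.last k) + (w + 1) := ⟨k - 1 - τ (Fin.last k), by omega⟩
    have h3 : d = τ (Fin.last k) * x + (w + 1) * x := by rw [← add_mul, ← hw]
    have h4 : τ.update (Fin.last k) ((w + 1) * x - ∑ l : Fin k, τ l.castSucc) ∈
        (univ : Finset (Fin (k + 1))).finsuppAntidiag ((w + 1) * x) := by
      rw [mem_iff]
      simp only [upd_cast, upd_last]
      omega
    have h5 := congrFun hAt ⟨⟨w, by omega⟩, ⟨_, h4⟩⟩
    have h6 : (τ.update (Fin.last k) ((w + 1) * x - ∑ l : Fin k, τ l.castSucc)).update (Fin.last k) (k - 1 - w) = τ := by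
      ext l
      refine Fin.lastCases ?_ (fun i => ?_) l
      · rw [upd_last]; omega
      · rw [upd_cast, upd_cast]
    simp only [Matrix.mulVec, dotProduct, A, h6, Pi.zero_apply] at h5
    apply mem_support_iff.1 hτ
    rw [map_sum, coeff_sum, ← h5]
    refine sum_congr rfl fun j _ => ?_
    rw [← mul_one (t j), ← C_mul_monomial, map_mul, mul_one, mul_comm _ (t j), ← coeff_C_mul]
    simp [sh]

end Pool.Agent.SX
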