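import Pool.Agent.Lib.SX.Blue

namespace Pool.Agent.SX

open Finset

namespace Size

theorem core (k n Q d δ e r t : ℕ) (J p i : Fin k → ℕ) (hn : 1 ≤ n) (hQ : 1 ≤ Q) (ht : 1 ≤ t)
    (h : ∀ l, (Q : ℤ) * |(n : ℤ) * p l - J l * r| ≤ n) (hi : ∑ l, i l ≤ d) (hd : d ≤ Q * δ)
    (h1 : n * d ≤ ∑ l, J l * i l + n * e) (h2 : ∑ l, J l * i l + n * e ≤ n * (d + 4)) :
    d * r ≤ ∑ l, i l * p l + e * r + δ * t ∧ ∑ l, i l * p l + e * r ≤ (d + 4) * r + δ * t := by
  have hA : (Q : ℤ) * |(n : ℤ) * ∑ l, (i l : ℤ) * p l - (∑ l, (J l : ℤ) * i l) * r| ≤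
      Q * (n * δ) := by
    have e1 : (n : ℤ) * ∑ l, (i l : ℤ) * p l - (∑ l, (J l : ℤ) * i l) * r =
        ∑ l, (i l : ℤ) * ((n : ℤ) * p l - J l * r) := by
      rw [mul_sum, sum_mul, ← sum_sub_distrib]
      exact sum_congr rfl fun l _ => by ring
    rw [e1]
    calc (Q : ℤ) * |∑ l, (i l : ℤ) * ((n : ℤ) * p l - J l * r)|
        ≤ Q * ∑ l, |(i l : ℤ) * ((n : ℤ) * p l - J l * r)| :=
          mul_le_mul_of_nonneg_left (abs_sum_le_sum_abs _ _) (by positivity)
      _ = ∑ l, (i l : ℤ) * (Q * |(n : ℤ) * p l - J l * r|) := by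
          rw [mul_sum]
          refine sum_congr rfl fun l _ => ?_
          rw [abs_mul, Nat.abs_cast]; ring
      _ ≤ ∑ l, (i l : ℤ) * n :=
          sum_le_sum fun l _ => mul_le_mul_of_nonneg_left (h l) (by positivity)
      _ = (∑ l, (i l : ℤ)) * n := by rw [sum_mul]
      _ ≤ (Q * δ : ℤ) * n := by
          refine mul_le_mul_of_nonneg_right ?_ (by positivity)
          exact_mod_cast hi.trans hd
      _ = Q * (n * δ) := by ring
  have hB := abs_le.1 (le_of_mul_le_mul_left hA (by exact_mod_cast hQ))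
  have h1' : (n : ℤ) * d ≤ ∑ l, (J l : ℤ) * i l + n * e := by exact_mod_cast h1
  have h2' : ∑ l, (J l : ℤ) * i l + n * e ≤ (n : ℤ) * (d + 4) := by exact_mod_cast h2
  have hn' : (0 : ℤ) < n := by exact_mod_cast hn
  have hr : (0 : ℤ) ≤ r := by positivity
  have hδ : (n : ℤ) * δ ≤ n * (δ * t) := by
    refine mul_le_mul_of_nonneg_left ?_ hn'.le
    exact_mod_cast Nat.le_mul_of_pos_right δ ht
  have g1 := mul_le_mul_of_nonneg_right h1' hr
  have g2 := mul_le_mul_of_nonneg_right h2' hr
  generalize (∑ l, (J l : ℤ) * i l) = B at hB g1 g2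
  constructor
  · have : (d : ℤ) * r ≤ ∑ l, (i l : ℤ) * p l + e * r + δ * t := by
      refine le_of_mul_le_mul_left ?_ hn'
      generalize (∑ l, (i l : ℤ) * p l) = A at hB
      nlinarith [hB.1]
    exact_mod_cast this
  · have : ∑ l, (i l : ℤ) * p l + e * r ≤ ((d : ℤ) + 4) * r + δ * t := by
      refine le_of_mul_le_mul_left ?_ hn'
      generalize (∑ l, (i l : ℤ) * p l) = A at hB
      nlinarith [hB.2]
    exact_mod_cast this

end Size

theorem st_size : St_SIZE := by
  intro k R n Q d δ Rad e J ρ i hR hn hQ hRad hq hA hi hd h1 h2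
  have hR0 : R ≠ 0 := by omega
  have hP : (∏ l, ρ l ^ i l) ≠ 0 := prod_ne_zero_iff.2 fun l _ => pow_ne_zero _ (hA l).1
  have hf : ∀ q, (∏ l, ρ l ^ i l).factorization q = ∑ l, i l * (ρ l).factorization q := by
    intro q
    rw [Nat.factorization_prod fun l _ => pow_ne_zero _ (hA l).1, Finsupp.finsetSum_apply]
    exact sum_congr rfl fun l _ => by rw [Nat.factorization_pow]; rfl
  have key : ∀ q, d * R.factorization q ≤ ∑ l, i l * (ρ l).factorization q +
        e * R.factorization q + δ * Rad.factorization q ∧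
      ∑ l, i l * (ρ l).factorization q + e * R.factorization q ≤
        (d + 4) * R.factorization q + δ * Rad.factorization q := by
    intro q
    by_cases h0 : R.factorization q = 0
    · have : ∀ l, (ρ l).factorization q = 0 := fun l => ((hA l).2 q).2 h0
      simp [h0, this]
    · have hm : q ∈ R.primeFactors := by
        rw [← Nat.support_factorization]; exact Finsupp.mem_support_iff.2 h0
      have ht : 1 ≤ Rad.factorization q :=
        (Nat.prime_of_mem_primeFactors hm).factorization_pos_of_dvd hRad (hq q hm)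
      exact Size.core k n Q d δ e _ _ J (fun l => (ρ l).factorization q) i hn hQ ht
        (fun l => ((hA l).2 q).1) hi hd h1 h2
  have hRe := pow_ne_zero e hR0
  have hD := pow_ne_zero δ hRad
  constructor
  · rw [← Nat.factorization_le_iff_dvd (pow_ne_zero _ hR0) (mul_ne_zero (mul_ne_zero hP hRe) hD),
      Nat.factorization_mul (mul_ne_zero hP hRe) hD, Nat.factorization_mul hP hRe]
    intro q
    simpa [Nat.factorization_pow, hf] using (key q).1
  · rw [← Nat.factorization_le_iff_dvd (mul_ne_zero hP hRe) (mul_ne_zero (pow_ne_zero _ hR0) hD),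
      Nat.factorization_mul (pow_ne_zero _ hR0) hD, Nat.factorization_mul hP hRe]
    intro q
    simpa [Nat.factorization_pow, hf] using (key q).2

end Pool.Agent.SX
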