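import Pool.Agent.Lib.SX.Blue

/-! Block STEP: one elimination step of the zero lemma. -/

namespace Pool.Agent.SX

open Finset Polynomial

namespace Step

lemma natDegree_le {n D : ℕ} {f : (MP n)[X]} (h : PLow (fun _ => -1) (-1) (-(D : ℤ)) f) : f.natDegree ≤ D := by
  rw [natDegree_le_iff_coeff_eq_zero]
  intro c hc
  by_contra h0
  obtain ⟨m, hm⟩ := MvPolynomial.support_nonempty.2 h0
  have h1 := h c m hm
  have h2 : Finsupp.weight (fun _ : Fin n => (-1 : ℤ)) m ≤ 0 := by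
    rw [Finsupp.weight_apply]
    exact Finset.sum_nonpos fun l _ => smul_nonpos_of_nonneg_of_nonpos (Nat.zero_le _) (by norm_num)
  omega

lemma plow_zero {R : Type} [CommRing R] {k : ℕ} (w : Fin k → ℤ) (w0 a : ℤ) :
    PLow w w0 a (0 : (MvPolynomial (Fin k) R)[X]) := fun c => by simpa using low_zero

lemma hasseDeriv_map {R S : Type*} [CommRing R] [CommRing S] (φ : R →+* S) (j : ℕ) (f : R[X]) :
    hasseDeriv j (f.map φ) = (hasseDeriv j f).map φ := by
  ext c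
  simp [hasseDeriv_coeff]

lemma size {D H B p : ℕ} (hB : B ≤ D ^ 2) (hp : p ≤ B * (2 ^ D * 2 ^ (H * D))) : p ≤ 2 ^ ((H + 3) * D) := by
  have h1 : D ≤ 2 ^ D := Nat.lt_two_pow_self.le
  calc p ≤ (2 ^ D) ^ 2 * (2 ^ D * 2 ^ (H * D)) := hp.trans (by gcongr; exact hB.trans (by gcongr))
    _ = _ := by ring

end Step

open Step in
theorem st_step (hF : St_FS) (hA : St_AVOID) (hN : St_RESNE) (hB : St_RESB) (hO : St_OPS) (hD : St_DIV)
    (hG : St_NOG) : St_STEP := by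
  intro K _ _ n wt ow pt D om H α S F0 ow0 hw hp hst hD1 hαD hS hom hnr
  obtain ⟨F, ⟨hne, hdeg, ⟨E, hlo, hhi⟩, hht, hord⟩, h0⟩ := hD K n wt ow pt D om H α F0 ow0 hp hst
  obtain ⟨f1, f2, f3, f4⟩ := hF
  obtain ⟨o1, o2, o3, -, o5, o6⟩ := hO
  set f := MvPolynomial.finSuccEquiv ℤ n F with hf
  set φ := sh (Fin.tail pt)
  set r : MvPolynomial (Fin n) K := MvPolynomial.C (pt 0)
  have hw' : ∀ l, 0 ≤ Fin.tail ow l := fun l => hw _
  have fdeg : PLow (fun _ => -1) (-1) (-(D : ℤ)) f := (f1 ℤ n _ _ F).1 hdeg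
  have flo : PLow (Fin.tail wt) (wt 0) E f := (f1 ℤ n _ _ F).1 hlo
  have fhi : PLow (-Fin.tail wt) (-wt 0) (-(E + om)) f := (f1 ℤ n _ _ F).1 hhi
  have fht : pl1 f ≤ 2 ^ (H * D) := (f2 n F).trans_le hht
  have ford : PLow (Fin.tail ow) 1 α (taylor r (f.map φ)) := by
    have := (f1 K n _ _ _).1 hord
    rwa [f3, ow0] at this
  have hm := natDegree_le fdeg
  have hf0 : f ≠ 0 := fun h => h0 (by rw [h, coeff_zero])
  set j0 := α / 2 with hj0
  set β := α - j0 with hβ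
  obtain ⟨B, G, hBD, ⟨g1, g2, g3, g4, g5⟩, hav⟩ := hA (MP n) f j0 (fun j => X ^ j * hasseDeriv j f)
    (fun B G => PLow (fun _ => -1) (-1) (-(D : ℤ)) G ∧ PLow (Fin.tail wt) (wt 0) E G ∧
      PLow (-Fin.tail wt) (-wt 0) (-(E + om)) G ∧ pl1 G ≤ B * (2 ^ D * 2 ^ (H * D)) ∧
      PLow (Fin.tail ow) 1 β (taylor r (G.map φ))) hf0
    ⟨plow_zero _ _ _, plow_zero _ _ _, plow_zero _ _ _, by simp [pl1], by simpa using plow_zero _ _ _⟩
    (by
      rintro B c j G hj ⟨g1, g2, g3, g4, g5⟩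
      refine ⟨o6 _ _ _ _ _ _ _ _ g1 (o1 _ _ _ _ _ _ _ fdeg), o6 _ _ _ _ _ _ _ _ g2 (o1 _ _ _ _ _ _ _ flo),
        o6 _ _ _ _ _ _ _ _ g3 (o1 _ _ _ _ _ _ _ fhi), ?_, ?_⟩
      · refine (o5 _ _ _ _).trans ?_
        rw [add_mul]
        gcongr
        exact (o2 _ f j).2.trans (by gcongr; norm_num)
      · have e : taylor r ((G + (c : (MP n)[X]) * (X ^ j * hasseDeriv j f)).map φ) = taylor r (G.map φ) +
            (c : (MvPolynomial (Fin n) K)[X]) * taylor r (X ^ j * hasseDeriv j (f.map φ)) := by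
          rw [Polynomial.map_add, Polynomial.map_mul, Polynomial.map_mul, Polynomial.map_natCast, Polynomial.map_pow,
            map_X, map_add, taylor_mul, ← hasseDeriv_map, ← map_natCast (C : MvPolynomial (Fin n) K →+* _), taylor_C]
        rw [e]
        refine o6 _ _ _ _ _ _ _ _ g5 fun c => (o3 _ _ _ _ _ _ j hw' ford c).mono ?_
        omega)
    (hG n wt D om (2 * S) j0 E F h0 hdeg hlo hhi (by omega)
      (hS.trans (by rw [mul_comm 2 S, mul_assoc]; gcongr; omega)) hnr)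
  have hG' := natDegree_le g1
  obtain ⟨⟨s, b1⟩, b2, b3⟩ := And.imp_left (fun h => h f.natDegree D) hB
  have hmz : (f.natDegree : ℤ) ≤ D := by exact_mod_cast hm
  have hev : 2 * (β * (β + 1) / 2) = β * (β + 1) := Nat.mul_div_cancel' (Nat.even_mul_succ_self β).two_dvd
  refine ⟨resultant f G f.natDegree D, β * (β + 1) / 2, ⟨hN.1 _ f G D hf0 hG' hav, ?_,
    ⟨_, b1 _ _ _ _ _ _ _ flo g2, (b1 _ _ _ _ _ _ _ fhi g3).mono ?_⟩, ?_, ?_⟩, ?_, ?_⟩
  · refine (b1 ℤ n (fun _ => -1) 0 (-(D : ℤ)) f G (fun c => (fdeg c).mono (by omega))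
      fun c => (g1 c).mono (by omega)).mono ?_
    push_cast
    nlinarith
  · push_cast
    nlinarith [Int.natCast_nonneg om]
  · refine (b3 n _ _ (2 ^ ((H + 3) * D)) f G (size (B := 1) (Nat.one_le_pow _ _ hD1) ?_)
      (size (hBD.trans (by gcongr)) g4)).trans ?_
    · exact fht.trans (by rw [one_mul]; exact Nat.le_mul_of_pos_left _ (by positivity))
    · rw [← pow_mul]
      refine Nat.pow_le_pow_right (by norm_num) ?_
      calc _ ≤ (H + 3) * D * (D + D) := by gcongr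
        _ = _ := by ring
  · have e : (f.map φ).natDegree = f.natDegree := natDegree_map_eq_of_injective (f4 K n _) f
    rw [← resultant_map_map, ← e, ← hN.2 _ _ _ r D (natDegree_map_le.trans hG')]
    exact b2 _ _ _ β _ _ _ _ _ hw' (fun c => (ford c).mono (by omega)) g5 (by omega) hev.le
  · have : α ≤ 2 * β := by omega
    nlinarith
  · have : β ≤ D := by omega
    nlinarith

end Pool.Agent.SX
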