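import Pool.Agent.Lib.SX.Blue

/-! The zero lemma by induction on the number of variables. -/

namespace Pool.Agent.SX

namespace ZL

lemma nonres_mono {n : ℕ} {wt : Fin n → ℤ} {B B' : ℕ} (h : NonRes wt B) (hB : B' ≤ B) : NonRes wt B' :=
  fun i hi hs => h i (fun l => (hi l).trans (by exact_mod_cast hB)) hs

lemma nonres_tail {n : ℕ} {wt : Fin (n + 1) → ℤ} {B : ℕ} (h : NonRes wt B) : NonRes (Fin.tail wt) B := by
  intro i hi hs
  have h1 := h (Fin.cons 0 i) (fun l => by
    refine Fin.cases ?_ (fun l => ?_) l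
    · simp
    · simpa using hi l) (by
    rw [Fin.sum_univ_succ]
    simpa [Fin.tail] using hs)
  funext l
  simpa using congrFun h1 l.succ

lemma tail_owt (k x : ℕ) : Fin.tail (owt (k + 1) x) = owt k x := by
  funext l
  simp only [Fin.tail, owt, ← Fin.succ_last, Fin.succ_inj]

lemma owt_zero (k x : ℕ) : owt (k + 1) x 0 = 1 := by
  have : (0 : Fin (k + 2)) ≠ Fin.last (k + 1) := by
    rw [← Fin.succ_last]; exact (Fin.succ_ne_zero _).symm
  simp only [owt, if_neg this]

lemma owt_nonneg (k x : ℕ) (l : Fin (k + 1)) : 0 ≤ owt k x l := by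
  unfold owt
  split_ifs
  · exact Int.natCast_nonneg x
  · exact zero_le_one

end ZL

open ZL in
theorem st_zl (h : St_STEP) : St_ZL := by
  intro k
  induction k with
  | zero =>
    intro S H
    refine ⟨S, H, fun K _ _ x wt pt D om α F _ hst hD _ hDS _ _ => ⟨F, D, α, hst.ne, hst.ht, ?_, hD, hDS⟩⟩
    have h1 : owt 0 x = fun _ => (x : ℤ) := by
      funext l
      have : l = Fin.last 0 := Subsingleton.elim (α := Fin 1) _ _
      simp only [owt, if_pos this]
    have h2 : pt = fun _ => pt (Fin.last 0) := by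
      funext l
      rw [Subsingleton.elim (α := Fin 1) l (Fin.last 0)]
    have := hst.ord
    rwa [h1, h2] at this
  | succ k ih =>
    intro S H
    obtain ⟨S2, H2, h2⟩ := ih (16 * S ^ 2) (H + 3)
    refine ⟨S + S2, H2, fun K _ _ x wt pt D om α F hpt hst hD hα hDS hom hnr => ?_⟩
    have hS : 0 < S := by
      rcases Nat.eq_zero_or_pos S with h0 | h0
      · rw [h0, zero_mul] at hDS; omega
      · exact h0
    have hom' : 2 * om ≤ α := by
      have h3 : S * (2 * om) ≤ S * α := by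
        calc S * (2 * om) = 2 * om * S := by ring
          _ ≤ 2 * om * (S + S2) := Nat.mul_le_mul_left _ (Nat.le_add_right _ _)
          _ ≤ S * α := hom.trans hDS
      exact Nat.le_of_mul_le_mul_left h3 hS
    obtain ⟨R, α', hR, ha1, ha2⟩ := h K (k + 1) wt (owt (k + 1) x) pt D om H α S F (owt_zero k x)
      (owt_nonneg _ x) (hpt 0) hst hD hα hDS hom' (nonres_mono hnr (by omega))
    rw [tail_owt] at hR
    have hD2 : 1 ≤ 2 * D ^ 2 := by nlinarith
    have hDS2 : 2 * D ^ 2 ≤ 16 * S ^ 2 * α' := by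
      calc 2 * D ^ 2 ≤ 2 * (S * α) ^ 2 := Nat.mul_le_mul_left _ (Nat.pow_le_pow_left hDS 2)
        _ = 2 * S ^ 2 * α ^ 2 := by ring
        _ ≤ 2 * S ^ 2 * (8 * α') := Nat.mul_le_mul_left _ ha1
        _ = 16 * S ^ 2 * α' := by ring
    have hom2 : 2 * (2 * D * om) * S2 ≤ 2 * D ^ 2 := by
      have h3 : 2 * om * S2 ≤ D := (Nat.mul_le_mul_left _ (Nat.le_add_left _ _)).trans hom
      calc 2 * (2 * D * om) * S2 = 2 * D * (2 * om * S2) := by ring
        _ ≤ 2 * D * D := Nat.mul_le_mul_left _ h3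
        _ = 2 * D ^ 2 := by ring
    obtain ⟨G, D', α'', hG, hl, hlow, hD', hS'⟩ := h2 K x (Fin.tail wt) (Fin.tail pt) (2 * D ^ 2) (2 * D * om) α' R
      (fun l => hpt l.succ) hR hD2 ha2 hDS2 hom2 (nonres_tail (nonres_mono hnr (by omega)))
    refine ⟨G, D', α'', hG, hl, ?_, hD', hS'.trans (Nat.mul_le_mul_right _ (Nat.le_add_left _ _))⟩
    have h4 : Fin.tail pt (Fin.last k) = pt (Fin.last (k + 1)) := by
      simp only [Fin.tail, Fin.succ_last]
    rwa [h4] at hlow

end Pool.Agent.SX
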