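import Pool.Agent.Lib.SX.B_ABC
import Pool.Agent.Lib.SX.B_AVOID
import Pool.Agent.Lib.SX.B_CELL
import Pool.Agent.Lib.SX.B_DIV
import Pool.Agent.Lib.SX.B_ELL
import Pool.Agent.Lib.SX.B_END
import Pool.Agent.Lib.SX.B_EXT
import Pool.Agent.Lib.SX.B_FS
import Pool.Agent.Lib.SX.B_GREEDY
import Pool.Agent.Lib.SX.B_LIOU
import Pool.Agent.Lib.SX.B_MOD
import Pool.Agent.Lib.SX.B_MODA
import Pool.Agent.Lib.SX.B_MULT
import Pool.Agent.Lib.SX.B_NOG
import Pool.Agent.Lib.SX.B_OPS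
import Pool.Agent.Lib.SX.B_PICK
import Pool.Agent.Lib.SX.B_RESB
import Pool.Agent.Lib.SX.B_RESNE
import Pool.Agent.Lib.SX.B_SIEG
import Pool.Agent.Lib.SX.B_SIZE
import Pool.Agent.Lib.SX.B_STEP
import Pool.Agent.Lib.SX.B_ZL

/-! Subexponential abc: assembly. -/

namespace Pool.Agent.SX

open Pool.Agent.Lib.MP_cafdd5_nt

theorem zl : St_ZL :=
  st_zl (st_step st_fs st_avoid st_resne st_resb st_ops (st_div st_fs st_ops) (st_nog st_ext st_mult))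

/-- the modulus lemma -/
theorem modulus : St_MOD := st_mod zl (st_end st_fs) st_sieg st_cell st_greedy (st_moda st_liou st_size)

/-- subexponential abc -/
theorem abc : St_ABC := st_abc modulus st_pick

theorem main_full (ε : ℝ) (hε : 0 < ε) : ∃ C : ℝ, ∀ a b : ℤ, disc a b ≠ 0 → IsMinimalShort a b →
    (∃ x y : ℚ, x ≠ y ∧ x ^ 3 - a * x - b = 0 ∧ y ^ 3 - a * y - b = 0) →
    Real.log (max (|(a : ℝ)| ^ 3) ((b : ℝ) ^ 2)) ≤ C * (Szpiro98.cond a b : ℝ) ^ ε :=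
  ell abc ε hε

end Pool.Agent.SX
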