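import Pool.Agent.Lib.SX.Blue

/-! Subexponential abc: from the modulus lemma to the abc bound. -/

namespace Pool.Agent.SX

open Finset

namespace Abc

lemma omega_bd (C : ℕ) (hC : 1 ≤ C) (δ : ℝ) (hδ : 0 < δ) :
    ∃ C1 : ℝ, 0 ≤ C1 ∧ ∀ s : Finset ℕ, (∀ p ∈ s, 1 ≤ p) → (C : ℝ) ^ s.card ≤ C1 * ((∏ p ∈ s, p : ℕ) : ℝ) ^ δ := by
  have hC' : (1 : ℝ) ≤ C := by exact_mod_cast hC
  obtain ⟨B, hB⟩ := exists_nat_ge ((C : ℝ) ^ (1 / δ))
  refine ⟨(C : ℝ) ^ B, by positivity, fun s hs => ?_⟩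
  have h1 : (C : ℝ) ^ s.card ≤ ∏ p ∈ s, ((if p < B then (C : ℝ) else 1) * (p : ℝ) ^ δ) := by
    rw [← prod_const]
    refine prod_le_prod (fun _ _ => by positivity) fun p hp => ?_
    have hp1 : (1 : ℝ) ≤ p := by exact_mod_cast hs p hp
    split_ifs with h
    · exact le_mul_of_one_le_right (by positivity) (Real.one_le_rpow hp1 hδ.le)
    · have h2 : (C : ℝ) ^ (1 / δ) ≤ p := hB.trans (by exact_mod_cast not_lt.1 h)
      have h3 := Real.rpow_le_rpow (by positivity) h2 hδ.le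
      rw [← Real.rpow_mul (by positivity), one_div_mul_cancel hδ.ne', Real.rpow_one] at h3
      simpa using h3
  rw [prod_mul_distrib, Real.finsetProd_rpow _ _ (fun p _ => by positivity)] at h1
  refine h1.trans ?_
  push_cast
  refine mul_le_mul_of_nonneg_right ?_ (by positivity)
  rw [prod_ite, prod_const_one, mul_one, prod_const]
  refine pow_le_pow_right₀ hC' ?_
  calc (s.filter fun p => p < B).card ≤ (range B).card :=
        card_le_card fun p hp => mem_range.2 (mem_filter.1 hp).2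
    _ = B := card_range B

lemma rad_pos (n : ℕ) : 1 ≤ rad n :=
  Nat.pos_of_ne_zero (prod_ne_zero_iff.2 fun _ hq => (Nat.prime_of_mem_primeFactors hq).ne_zero)

lemma rad_le_of_subset {m n : ℕ} (h : m.primeFactors ⊆ n.primeFactors) : rad m ≤ rad n :=
  Nat.le_of_dvd (rad_pos n) (prod_dvd_prod_of_subset _ _ _ h)

end Abc

open Abc in
theorem st_abc (hM : St_MOD) (hP : St_PICK) : St_ABC := by
  intro ε hε
  obtain ⟨δ, hδ, rfl⟩ : ∃ δ : ℝ, 0 < δ ∧ ε = δ + δ + δ := ⟨ε / 3, by positivity, by ring⟩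
  obtain ⟨k0, hk0⟩ := exists_nat_ge (152 / δ)
  obtain ⟨k, hk38, hk⟩ : ∃ k : ℕ, 38 ≤ k ∧ 152 / δ ≤ k :=
    ⟨k0 + 38, by omega, hk0.trans (by push_cast; linarith)⟩
  have hkp : (0 : ℝ) < k := by exact_mod_cast (by omega : 0 < k)
  obtain ⟨C', hC'⟩ := hM k (by omega)
  obtain ⟨C, hC2, hCC⟩ : ∃ C : ℕ, 2 ≤ C ∧ C' ≤ C := ⟨C' + 2, by omega, by omega⟩
  obtain ⟨C1, hC1, hom⟩ := omega_bd C (by omega) δ hδ
  have hCr : (2 : ℝ) ≤ C := by exact_mod_cast hC2
  refine ⟨2 * (C : ℝ) ^ δ / δ + 8 * C * C1 * (C : ℝ) ^ δ * (C : ℝ) ^ δ / δ, fun a b ha hb hab => ?_⟩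
  set c := a + b with hc
  set r := rad (a * b * c) with hr
  have hr1 : 1 ≤ r := rad_pos _
  have hrr : (1 : ℝ) ≤ r := by exact_mod_cast hr1
  have habc : a * b * c ≠ 0 := by positivity
  set N := C * r with hN
  have hNC : C ≤ N := Nat.le_mul_of_pos_right _ hr1
  have hNr : r ≤ N := Nat.le_mul_of_pos_left _ (by omega)
  have hN2 : 2 ≤ N := hC2.trans hNC
  have hN1 : (1 : ℝ) ≤ N := by exact_mod_cast (by omega : 1 ≤ N)
  have hNδ : (N : ℝ) ^ δ = (C : ℝ) ^ δ * (r : ℝ) ^ δ := by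
    rw [hN]; push_cast; exact Real.mul_rpow (by positivity) (by positivity)
  have hlog : Real.log N ≤ (C : ℝ) ^ δ * (r : ℝ) ^ δ / δ := by
    rw [← hNδ]; exact Real.log_le_rpow_div (by positivity) hδ
  have ht1 : (1 : ℝ) ≤ (r : ℝ) ^ δ := Real.one_le_rpow hrr hδ.le
  have h3 : (r : ℝ) ^ (δ + δ + δ) = (r : ℝ) ^ δ * (r : ℝ) ^ δ * (r : ℝ) ^ δ := by
    rw [Real.rpow_add (by positivity), Real.rpow_add (by positivity)]
  rw [h3]
  generalize ht : (r : ℝ) ^ δ = t at *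
  have hu : 0 < (C : ℝ) ^ δ := by positivity
  generalize (C : ℝ) ^ δ = u at *
  have hc0 : (0 : ℝ) < c := by exact_mod_cast (by omega : 0 < c)
  have hl0 : 0 ≤ Real.log N := Real.log_nonneg hN1
  have hA : 0 ≤ 2 * u / δ * (t * t * t) := by positivity
  have hB : 0 ≤ 8 * C * C1 * u * u / δ * (t * t * t) := by positivity
  rw [add_mul]
  by_cases hcN : N ^ 2 ≤ c
  · have hrc : rad c ≤ N :=
      (rad_le_of_subset (Nat.primeFactors_mono (Dvd.intro_left _ rfl) habc)).trans hNr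
    obtain ⟨P, y, hy, hdvd, hcP, hNP, hPN, hcy⟩ := hP c N hN2 hrc hcN
    have hP1 : (1 : ℝ) < P := by exact_mod_cast (by omega : 1 < P)
    set Y := ⌈(P : ℝ) ^ ((38 : ℝ) / k)⌉₊ with hY
    have hz1 : 1 < (P : ℝ) ^ ((38 : ℝ) / k) := Real.one_lt_rpow hP1 (by positivity)
    have hY2 : 2 ≤ Y := by
      have : 1 < Y := Nat.lt_ceil.2 (by exact_mod_cast hz1)
      omega
    have hYP : Y ≤ P := by
      refine Nat.ceil_le.2 ?_
      calc (P : ℝ) ^ ((38 : ℝ) / k) ≤ (P : ℝ) ^ (1 : ℝ) :=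
            Real.rpow_le_rpow_of_exponent_le hP1.le (by rw [div_le_one hkp]; exact_mod_cast hk38)
        _ = P := Real.rpow_one _
    have hYk : P ^ 38 ≤ Y ^ k := by
      have h1 : ((P : ℝ) ^ ((38 : ℝ) / k)) ^ k ≤ (Y : ℝ) ^ k := pow_le_pow_left₀ (by positivity) (Nat.le_ceil _) k
      rw [← Real.rpow_natCast, ← Real.rpow_mul (by positivity), div_mul_cancel₀ _ hkp.ne'] at h1
      have h2 : (P : ℝ) ^ (38 : ℝ) = (P : ℝ) ^ (38 : ℕ) := by exact_mod_cast Real.rpow_natCast (P : ℝ) 38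
      rw [h2] at h1
      exact_mod_cast h1
    have hYb : (Y : ℝ) ≤ 2 * (u * t) := by
      have h1 : (Y : ℝ) < (P : ℝ) ^ ((38 : ℝ) / k) + 1 := Nat.ceil_lt_add_one (by positivity)
      have h2 : (P : ℝ) ^ ((38 : ℝ) / k) ≤ (N : ℝ) ^ δ := by
        calc (P : ℝ) ^ ((38 : ℝ) / k) ≤ ((N : ℝ) ^ (4 : ℕ)) ^ ((38 : ℝ) / k) :=
              Real.rpow_le_rpow (by positivity) (by exact_mod_cast hPN) (by positivity)
          _ = (N : ℝ) ^ ((152 : ℝ) / k) := by
              rw [← Real.rpow_natCast, ← Real.rpow_mul (by positivity)]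
              congr 1
              push_cast
              ring
          _ ≤ (N : ℝ) ^ δ := by
              refine Real.rpow_le_rpow_of_exponent_le hN1 ?_
              rw [div_le_iff₀ hkp]
              rw [div_le_iff₀ hδ] at hk
              linarith
      rw [hNδ] at h2
      linarith
    have hsub : (a ^ 2 * b ^ 2).primeFactors ⊆ (a * b * c).primeFactors := by
      rw [← mul_pow, Nat.primeFactors_pow _ two_ne_zero]
      exact Nat.primeFactors_mono (Dvd.intro _ rfl) habc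
    have hrad : rad (a ^ 2 * b ^ 2) ≤ r := rad_le_of_subset hsub
    have hne : a ^ 2 ≠ b ^ 2 := by
      intro h
      have h1 : a = b := Nat.pow_left_injective two_ne_zero h
      subst h1
      have h2 : a = 1 := by simpa using hab
      have h4 : 2 ^ 2 ≤ N ^ 2 := Nat.pow_le_pow_left hN2 2
      omega
    have hmod : a ^ 2 ≡ b ^ 2 [MOD P ^ y] := by
      have h1 : a * c ≡ 0 [MOD P ^ y] := (Nat.modEq_zero_iff_dvd).2 (Dvd.dvd.mul_left hdvd a)
      have h2 : b * c ≡ 0 [MOD P ^ y] := (Nat.modEq_zero_iff_dvd).2 (Dvd.dvd.mul_left hdvd b)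
      have h4 : a ^ 2 + a * b ≡ b ^ 2 + a * b [MOD P ^ y] := by
        have e1 : a ^ 2 + a * b = a * c := by rw [hc]; ring
        have e2 : b ^ 2 + a * b = b * c := by rw [hc]; ring
        rw [e1, e2]
        exact h1.trans h2.symm
      exact Nat.ModEq.add_right_cancel' _ h4
    have hsq : ∀ z, z ≤ c → z ^ 2 ≤ P ^ (4 * y) := fun z hz => by
      calc z ^ 2 ≤ (P ^ (2 * y)) ^ 2 := Nat.pow_le_pow_left (hz.trans hcP) 2
        _ = P ^ (4 * y) := by rw [← pow_mul]; congr 1; ring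
    have hy2 := hC' (a ^ 2) (b ^ 2) P y Y (Nat.one_le_pow _ _ ha) (Nat.one_le_pow _ _ hb) (Nat.Coprime.pow 2 2 hab) hne
      (hCC.trans (hNC.trans hNP)) hmod (hsq a (by omega)) (hsq b (by omega)) (hrad.trans (hNr.trans hNP)) hY2 hYP hYk
    have hy3 : y ≤ C ^ ((a ^ 2 * b ^ 2).primeFactors.card + 1) * Y :=
      hy2.trans (Nat.mul_le_mul_right _ (Nat.pow_le_pow_left hCC _))
    have hw : (C : ℝ) ^ (a ^ 2 * b ^ 2).primeFactors.card ≤ C1 * t := by
      refine (hom _ fun p hp => (Nat.prime_of_mem_primeFactors hp).one_le).trans ?_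
      refine mul_le_mul_of_nonneg_left ?_ hC1
      rw [← ht]
      exact Real.rpow_le_rpow (by positivity) (by exact_mod_cast hrad) hδ.le
    have hy4 : (y : ℝ) ≤ C1 * t * C * (2 * (u * t)) := by
      have h1 : (y : ℝ) ≤ (C : ℝ) ^ (a ^ 2 * b ^ 2).primeFactors.card * C * Y := by
        rw [← pow_succ]; exact_mod_cast hy3
      refine h1.trans ?_
      have ht0 : 0 ≤ t := by linarith
      exact mul_le_mul (mul_le_mul_of_nonneg_right hw (by positivity)) hYb (by positivity) (by positivity)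
    have h5 : Real.log c ≤ 4 * y * Real.log N := by
      have h1 : (c : ℝ) ≤ (N : ℝ) ^ (4 * y) := by exact_mod_cast hcy
      have h2 := Real.log_le_log hc0 h1
      rw [Real.log_pow] at h2
      push_cast at h2
      exact h2
    have h6 : 4 * y * Real.log N ≤ 4 * (C1 * t * C * (2 * (u * t))) * (u * t / δ) := by
      have ht0 : 0 ≤ t := by linarith
      exact mul_le_mul (by linarith) hlog hl0 (by positivity)
    have h7 : 4 * (C1 * t * C * (2 * (u * t))) * (u * t / δ) = 8 * C * C1 * u * u / δ * (t * t * t) := by ring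
    linarith
  · have h1 : (c : ℝ) ≤ (N : ℝ) ^ 2 := by exact_mod_cast (not_le.1 hcN).le
    have h2 := Real.log_le_log hc0 h1
    rw [Real.log_pow] at h2
    push_cast at h2
    have h4 : t ≤ t * t * t := by nlinarith [mul_nonneg (sub_nonneg.2 ht1) (sub_nonneg.2 ht1)]
    have h5 : 2 * u / δ * t ≤ 2 * u / δ * (t * t * t) := mul_le_mul_of_nonneg_left h4 (by positivity)
    have h6 : 2 * (u * t / δ) = 2 * u / δ * t := by ring
    linarith

end Pool.Agent.SX
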