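import Pool.Agent.Lib.SX.Blue

/-! Block OPS: the operators `X ^ j * hasseDeriv j` and division by `X`. -/

namespace Pool.Agent.SX

open Polynomial

namespace OPS

lemma coeff_op {A : Type*} [CommRing A] (f : A[X]) (j c : ℕ) :
    (X ^ j * hasseDeriv j f).coeff c = (c.choose j : A) * f.coeff c := by
  rw [coeff_X_pow_mul']
  split_ifs with h
  · rw [hasseDeriv_coeff, Nat.sub_add_cancel h]
  · rw [Nat.choose_eq_zero_of_lt (not_le.1 h), Nat.cast_zero, zero_mul]

lemma taylor_hasse {A : Type*} [CommRing A] (r : A) (f : A[X]) (j c : ℕ) :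
    (taylor r (hasseDeriv j f)).coeff c = ((c + j).choose c : A) * (taylor r f).coeff (c + j) := by
  rw [taylor_coeff, taylor_coeff]
  have h := LinearMap.congr_fun (hasseDeriv_comp (R := A) c j) f
  rw [LinearMap.comp_apply] at h
  rw [h, LinearMap.smul_apply, nsmul_eq_mul, eval_mul, eval_natCast]

lemma plow_mul {σ R : Type*} [CommRing R] {w : σ → ℤ} (hw : ∀ l, 0 ≤ w l) {a : ℤ} (g h : (MvPolynomial σ R)[X])
    (hh : PLow w 1 a h) : PLow w 1 a (g * h) := by
  intro c
  rw [coeff_mul]
  refine low_sum fun p hp => ?_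
  have h1 : p.2 ≤ c := by have := Finset.HasAntidiagonal.mem_antidiagonal.1 hp; omega
  have h2 := (low_of_nonneg hw le_rfl (g.coeff p.1)).mul (hh p.2)
  refine h2.mono ?_
  have : (p.2 : ℤ) ≤ c := by exact_mod_cast h1
  linarith

lemma low_div {σ K : Type*} [Field K] {w : σ → ℤ} {a : ℤ} {r : K} (hr : r ≠ 0) {F : MvPolynomial σ K}
    (h : Low w a (MvPolynomial.C r * F)) : Low w a F := by
  have := h.C_mul r⁻¹
  rwa [← mul_assoc, ← map_mul, inv_mul_cancel₀ hr, map_one, one_mul] at this

end OPS

open OPS in
theorem st_ops : St_OPS := by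
  refine ⟨?_, ?_, ?_, ?_, ?_, ?_⟩
  · intro R _ k w w0 a f j h c
    rw [coeff_op]
    exact (h c).natCast_mul _
  · intro k f j
    have hs : (X ^ j * hasseDeriv j f).support ⊆ f.support := fun c hc => by
      rw [mem_support_iff] at hc ⊢
      intro h0
      exact hc (by rw [coeff_op, h0, mul_zero])
    refine ⟨?_, ?_⟩
    · rw [natDegree_le_iff_coeff_eq_zero]
      intro c hc
      rw [coeff_op, coeff_eq_zero_of_natDegree_lt hc, mul_zero]
    · rw [pl1_eq_sum hs, pl1, Finset.mul_sum]
      refine Finset.sum_le_sum fun c hc => ?_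
      rw [coeff_op]
      refine (l1_natCast_mul_le _ _).trans (Nat.mul_le_mul_right _ ?_)
      exact (Nat.choose_le_two_pow c j).trans (Nat.pow_le_pow_right (by norm_num) (le_natDegree_of_mem_supp c hc))
  · intro R _ k w a r f j hw h
    rw [taylor_mul]
    refine plow_mul hw _ _ fun c => ?_
    rw [taylor_hasse]
    refine ((h (c + j)).natCast_mul _).mono (le_of_eq ?_)
    push_cast
    ring
  · intro K _ k w a r f hr h c
    rw [taylor_mul, taylor_X, add_mul] at h
    induction c with
    | zero =>
      have h0 := h 0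
      rw [coeff_add, coeff_X_mul_zero, zero_add, coeff_C_mul] at h0
      exact low_div hr h0
    | succ c ih =>
      have h0 := h (c + 1)
      rw [coeff_add, coeff_X_mul, coeff_C_mul] at h0
      have h1 := h0.sub (ih.mono (b := a - ((c + 1 : ℕ) : ℤ) * 1) (by push_cast; linarith))
      rw [add_sub_cancel_left] at h1
      exact low_div hr h1
  · intro k f g c
    have hs1 : (f + (c : (MP k)[X]) * g).support ⊆ f.support ∪ g.support := fun m hm => by
      rw [mem_support_iff] at hm
      by_contra hn
      rw [Finset.mem_union, not_or, notMem_support_iff, notMem_support_iff] at hn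
      exact hm (by rw [coeff_add, ← nsmul_eq_mul, coeff_smul, hn.1, hn.2, smul_zero, add_zero])
    rw [pl1_eq_sum hs1, pl1_eq_sum (f := f) (s := f.support ∪ g.support) Finset.subset_union_left,
      pl1_eq_sum (f := g) (s := f.support ∪ g.support) Finset.subset_union_right, Finset.mul_sum,
      ← Finset.sum_add_distrib]
    refine Finset.sum_le_sum fun m _ => ?_
    rw [coeff_add, ← nsmul_eq_mul, coeff_smul, nsmul_eq_mul]
    exact (l1_add_le _ _).trans (Nat.add_le_add_left (l1_natCast_mul_le _ _) _)
  · intro R _ k w w0 a f g c hf hg m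
    rw [coeff_add, coeff_natCast_mul]
    exact (hf m).add ((hg m).natCast_mul c)

end Pool.Agent.SX
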