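import Pool.Agent.Lib.SX.Defs

/-! Subexponential abc: block statements (paper: team-store sx_PAPER.md). -/

namespace Pool.Agent.SX

open Finset Polynomial

/-- dictionary for `finSuccEquiv` -/
def St_FS : Prop :=
  (∀ (R : Type) [CommRing R] (n : ℕ) (w : Fin (n + 1) → ℤ) (a : ℤ) (F : MvPolynomial (Fin (n + 1)) R),
    Low w a F ↔ PLow (Fin.tail w) (w 0) a (MvPolynomial.finSuccEquiv R n F)) ∧
  (∀ (n : ℕ) (F : MP (n + 1)), pl1 (MvPolynomial.finSuccEquiv ℤ n F) = l1 F) ∧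
  (∀ (K : Type) [CommRing K] (n : ℕ) (pt : Fin (n + 1) → K) (F : MP (n + 1)),
    MvPolynomial.finSuccEquiv K n (sh pt F) =
      taylor (MvPolynomial.C (pt 0)) ((MvPolynomial.finSuccEquiv ℤ n F).map (sh (Fin.tail pt)))) ∧
  (∀ (K : Type) [CommRing K] [CharZero K] (n : ℕ) (pt : Fin n → K), Function.Injective (sh pt))

/-- extreme weights of a factor -/
def St_EXT : Prop :=
  ∀ (n : ℕ) (g h : MP n) (e : ℕ), g ^ e * h ≠ 0 →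
    (∀ (w : Fin n → ℤ) (E om : ℤ), Low w E (g ^ e * h) → Low (-w) (-(E + om)) (g ^ e * h) →
      ∀ m ∈ g.support, ∀ m' ∈ g.support, e * (Finsupp.weight w m - Finsupp.weight w m') ≤ om) ∧
    (∀ D : ℕ, Low (fun _ => -1) (-(D : ℤ)) (g ^ e * h) → ∀ m ∈ g.support, ∀ l, e * m l ≤ D)

/-- a prime dividing all Hasse derivatives divides to a high power -/
def St_MULT : Prop :=
  ∀ (R : Type) [CommRing R] [IsDomain R] [CharZero R] (f g : R[X]) (j0 : ℕ), Prime g → 0 < g.natDegree →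
    (∀ j ≤ j0, g ∣ hasseDeriv j f) → g ^ (j0 + 1) ∣ f

/-- prime avoidance with small natural coefficients -/
def St_AVOID : Prop :=
  ∀ (R : Type) [CommRing R] [IsDomain R] [CharZero R] [UniqueFactorizationMonoid R[X]] (f : R[X]) (j0 : ℕ)
    (F : ℕ → R[X]) (Good : ℕ → R[X] → Prop), f ≠ 0 → Good 0 0 →
    (∀ (B c j : ℕ) (G : R[X]), j ≤ j0 → Good B G → Good (B + c) (G + (c : R[X]) * F j)) →
    (∀ g, Prime g → 0 < g.natDegree → g ∣ f → ∃ j ≤ j0, ¬g ∣ F j) →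
    ∃ B G, B ≤ f.natDegree ^ 2 ∧ Good B G ∧ ∀ g, Prime g → 0 < g.natDegree → g ∣ f → ¬g ∣ G

/-- the resultant does not vanish; invariance under Taylor shift -/
def St_RESNE : Prop :=
  (∀ (R : Type) [CommRing R] [IsDomain R] [UniqueFactorizationMonoid R[X]] (f G : R[X]) (D : ℕ), f ≠ 0 →
    G.natDegree ≤ D → (∀ g, Prime g → 0 < g.natDegree → g ∣ f → ¬g ∣ G) → resultant f G f.natDegree D ≠ 0) ∧
  (∀ (R : Type) [CommRing R] (f G : R[X]) (r : R) (D : ℕ), G.natDegree ≤ D →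
    resultant (taylor r f) (taylor r G) f.natDegree D = resultant f G f.natDegree D)

/-- weights, order and size of a resultant -/
def St_RESB : Prop :=
  (∀ m n : ℕ, ∃ s : ℤ, ∀ (R : Type) [CommRing R] (k : ℕ) (w : Fin k → ℤ) (w0 a : ℤ) (f g : (MvPolynomial (Fin k) R)[X]),
    PLow w w0 a f → PLow w w0 a g → Low w ((m + n) * a + s * w0) (resultant f g m n)) ∧
  (∀ (R : Type) [CommRing R] (k : ℕ) (w : Fin k → ℤ) (β γ m n : ℕ) (f g : (MvPolynomial (Fin k) R)[X]),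
    (∀ l, 0 ≤ w l) → PLow w 1 β f → PLow w 1 β g → β ≤ m + n → 2 * γ ≤ β * (β + 1) → Low w γ (resultant f g m n)) ∧
  (∀ (k m n B : ℕ) (f g : (MP k)[X]), pl1 f ≤ B → pl1 g ≤ B → l1 (resultant f g m n) ≤ B ^ (m + n))

/-- the operators `X ^ j * hasseDeriv j` and division by `X` -/
def St_OPS : Prop :=
  (∀ (R : Type) [CommRing R] (k : ℕ) (w : Fin k → ℤ) (w0 a : ℤ) (f : (MvPolynomial (Fin k) R)[X]) (j : ℕ),
    PLow w w0 a f → PLow w w0 a (X ^ j * hasseDeriv j f)) ∧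
  (∀ (k : ℕ) (f : (MP k)[X]) (j : ℕ), (X ^ j * hasseDeriv j f).natDegree ≤ f.natDegree ∧
    pl1 (X ^ j * hasseDeriv j f) ≤ 2 ^ f.natDegree * pl1 f) ∧
  (∀ (R : Type) [CommRing R] (k : ℕ) (w : Fin k → ℤ) (a : ℤ) (r : MvPolynomial (Fin k) R)
    (f : (MvPolynomial (Fin k) R)[X]) (j : ℕ), (∀ l, 0 ≤ w l) →
    PLow w 1 a (taylor r f) → PLow w 1 (a - j) (taylor r (X ^ j * hasseDeriv j f))) ∧
  (∀ (K : Type) [Field K] (k : ℕ) (w : Fin k → ℤ) (a : ℤ) (r : K) (f : (MvPolynomial (Fin k) K)[X]), r ≠ 0 →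
    PLow w 1 a (taylor (MvPolynomial.C r) (X * f)) → PLow w 1 a (taylor (MvPolynomial.C r) f)) ∧
  (∀ (k : ℕ) (f g : (MP k)[X]) (c : ℕ), pl1 (f + (c : (MP k)[X]) * g) ≤ pl1 f + c * pl1 g) ∧
  (∀ (R : Type) [CommRing R] (k : ℕ) (w : Fin k → ℤ) (w0 a : ℤ) (f g : (MvPolynomial (Fin k) R)[X]) (c : ℕ),
    PLow w w0 a f → PLow w w0 a g → PLow w w0 a (f + (c : (MvPolynomial (Fin k) R)[X]) * g))

/-- division by the power of the variable `0` -/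
def St_DIV : Prop :=
  ∀ (K : Type) [Field K] (n : ℕ) (wt ow : Fin (n + 1) → ℤ) (pt : Fin (n + 1) → K) (D om H α : ℕ) (F : MP (n + 1)),
    ow 0 = 1 → pt 0 ≠ 0 → St wt ow pt D om H α F →
    ∃ F1, St wt ow pt D om H α F1 ∧ (MvPolynomial.finSuccEquiv ℤ n F1).coeff 0 ≠ 0

/-- no prime of positive degree divides all `X ^ j * hasseDeriv j f` -/
def St_NOG : Prop :=
  ∀ (n : ℕ) (wt : Fin (n + 1) → ℤ) (D om S j0 : ℕ) (E : ℤ) (F : MP (n + 1)),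
    (MvPolynomial.finSuccEquiv ℤ n F).coeff 0 ≠ 0 → Low (fun _ => -1) (-(D : ℤ)) F → Low wt E F →
    Low (-wt) (-(E + om)) F → om < j0 + 1 → D ≤ S * (j0 + 1) → NonRes wt S →
    ∀ g : (MP n)[X], Prime g → 0 < g.natDegree → g ∣ MvPolynomial.finSuccEquiv ℤ n F →
      ∃ j ≤ j0, ¬g ∣ X ^ j * hasseDeriv j (MvPolynomial.finSuccEquiv ℤ n F)

/-- one elimination step -/
def St_STEP : Prop :=
  ∀ (K : Type) [Field K] [CharZero K] (n : ℕ) (wt ow : Fin (n + 1) → ℤ) (pt : Fin (n + 1) → K) (D om H α S : ℕ)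
    (F : MP (n + 1)), ow 0 = 1 → (∀ l, 0 ≤ ow l) → pt 0 ≠ 0 → St wt ow pt D om H α F → 1 ≤ D → α ≤ D → D ≤ S * α →
    2 * om ≤ α → NonRes wt (2 * S) →
    ∃ R α', St (Fin.tail wt) (Fin.tail ow) (Fin.tail pt) (2 * D ^ 2) (2 * D * om) (H + 3) α' R ∧ α ^ 2 ≤ 8 * α' ∧
      α' ≤ 2 * D ^ 2

/-- zero lemma -/
def St_ZL : Prop :=
  ∀ k S H : ℕ, ∃ S' H' : ℕ, ∀ (K : Type) [Field K] [CharZero K] (x : ℕ) (wt : Fin (k + 1) → ℤ) (pt : Fin (k + 1) → K)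
    (D om α : ℕ) (F : MP (k + 1)), (∀ l, pt l ≠ 0) → St wt (owt k x) pt D om H α F → 1 ≤ D → α ≤ D → D ≤ S * α →
    2 * om * S' ≤ D → NonRes wt (2 * S') →
    ∃ (G : MP 1) (D' α' : ℕ), G ≠ 0 ∧ l1 G ≤ 2 ^ (H' * D') ∧ Low (fun _ => (x : ℤ)) α' (sh (fun _ => pt (Fin.last k)) G) ∧
      1 ≤ D' ∧ D' ≤ S' * α'

/-- end of the zero lemma at a rational point -/
def St_END : Prop :=
  ∀ (R S x α : ℕ) (G : MP 1), 1 ≤ R → 1 ≤ S → R.Coprime S → G ≠ 0 →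
    Low (fun _ => (x : ℤ)) α (sh (fun _ => (R : ℚ) / S) G) → max R S ^ α ≤ l1 G ^ x

/-- Siegel polynomial on the slab -/
def St_SIEG : Prop :=
  ∀ (k x n : ℕ) (J : Fin k → ℕ), 1 ≤ k → 1 ≤ x → 1 ≤ n → (∀ l, J l ≤ n) →
    ∃ F : MP (k + 1), F ≠ 0 ∧ l1 F ≤ 2 ^ (6 * (k * x) + 12) ∧
      (∀ m ∈ F.support, ∑ l : Fin k, m l.castSucc ≤ k * x ∧ m (Fin.last k) ≤ k * x + 4 ∧
        n * (k * x) ≤ ∑ l : Fin k, J l * m l.castSucc + n * m (Fin.last k) ∧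
        ∑ l : Fin k, J l * m l.castSucc + n * m (Fin.last k) ≤ n * (k * x + 4)) ∧
      Low (owt k x) (k * x : ℕ) (sh (fun _ => (1 : ℤ)) F)

/-- Liouville estimate for the Taylor coefficients at a point congruent to `1` -/
def St_LIOU : Prop :=
  ∀ (n P d D B : ℕ) (ow : Fin n → ℕ) (pt : Fin n → ℚ) (μ : ℚ) (F : MP n), 1 ≤ P → (∀ l, pt l ≠ 0) →
    (∀ l, ∃ z : ℚ, z.den.Coprime P ∧ pt l - 1 = (P : ℚ) ^ ow l * z) → (∀ l, 1 ≤ ow l) → μ ≠ 0 → μ.den.Coprime P →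
    (∀ m ∈ F.support, ∃ y : ℤ, μ * ∏ l, pt l ^ m l = y ∧ y.natAbs ≤ B) → Low (fun _ => -1) (-(D : ℤ)) F →
    Low (fun l => (ow l : ℤ)) d (sh (fun _ => (1 : ℤ)) F) →
    ∀ τ ∈ (sh pt F).support, P ^ d ≤ P ^ (∑ l, ow l * τ l) * (l1 F * 2 ^ D * B)

/-- pigeonhole: many exponents in one cell -/
def St_CELL : Prop :=
  ∀ R S P T Q n M : ℕ, 1 ≤ R → 1 ≤ S → R.Coprime S → (R * S).Coprime P → T < P → 1 ≤ Q → 1 ≤ n →
    M * Q ^ (R * S).primeFactors.card * P < n * T →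
    ∃ (Js : Finset ℕ) (u0 : ℕ) (u ρ ς : ℕ → ℕ), M ≤ Js.card ∧ 1 ≤ u0 ∧ u0 ≤ T ∧ ∀ J ∈ Js, J ≤ n ∧ 1 ≤ u J ∧ u J ≤ T ∧
      Apx R n Q J (ρ J) ∧ Apx S n Q J (ς J) ∧ u J * ρ J ≡ u0 * ς J [MOD P]

/-- greedy choice of non-resonant exponents -/
def St_GREEDY : Prop :=
  ∀ k B : ℕ, ∃ M : ℕ, ∀ (n : ℕ) (Js : Finset ℕ), 1 ≤ n → M ≤ Js.card →
    ∃ J : Fin k → ℕ, (∀ l, J l ∈ Js) ∧ NonRes (Fin.snoc (α := fun _ => ℤ) (fun l => (J l : ℤ)) (n : ℤ)) B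

/-- divisibility on the slab -/
def St_SIZE : Prop :=
  ∀ (k R n Q d δ Rad e : ℕ) (J ρ i : Fin k → ℕ), 1 ≤ R → 1 ≤ n → 1 ≤ Q → Rad ≠ 0 → (∀ q ∈ R.primeFactors, q ∣ Rad) →
    (∀ l, Apx R n Q (J l) (ρ l)) → ∑ l, i l ≤ d → d ≤ Q * δ → n * d ≤ ∑ l, J l * i l + n * e →
    ∑ l, J l * i l + n * e ≤ n * (d + 4) →
    R ^ d ∣ (∏ l, ρ l ^ i l) * R ^ e * Rad ^ δ ∧ (∏ l, ρ l ^ i l) * R ^ e ∣ R ^ (d + 4) * Rad ^ δ

/-- the Siegel polynomial has small Taylor coefficients only in high order at the anchor point -/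
def St_MODA : Prop :=
  ∀ (k x n R S P T Y u0 : ℕ) (J u ρ ς : Fin k → ℕ) (F : MP (k + 1)), 1 ≤ k → 1 ≤ x → 1 ≤ n → 1 ≤ R → 1 ≤ S → 1 ≤ P →
    (R * S).Coprime P → R ≡ S [MOD P ^ x] → T * Y ≤ P → 1 ≤ u0 → u0 ≤ T →
    (∀ l, 1 ≤ u l ∧ u l ≤ T ∧ Apx R n k (J l) (ρ l) ∧ Apx S n k (J l) (ς l) ∧ u l * ρ l ≡ u0 * ς l [MOD P]) →
    (∀ m ∈ F.support, ∑ l : Fin k, m l.castSucc ≤ k * x ∧ m (Fin.last k) ≤ k * x + 4 ∧
      n * (k * x) ≤ ∑ l : Fin k, J l * m l.castSucc + n * m (Fin.last k) ∧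
      ∑ l : Fin k, J l * m l.castSucc + n * m (Fin.last k) ≤ n * (k * x + 4)) →
    Low (owt k x) (k * x : ℕ) (sh (fun _ => (1 : ℤ)) F) →
    ∀ τ ∈ (sh (Fin.snoc (α := fun _ => ℚ) (fun l => (u l * ρ l : ℚ) / (u0 * ς l)) ((R : ℚ) / S)) F).support,
      Finsupp.weight (owt k x) τ < x →
      Y ^ (k * x) ≤ P ^ x * (l1 F * 2 ^ (2 * (k * x) + 4) * (R ^ 4 * S ^ 4 * rad (R * S) ^ (4 * x)))

/-- modulus lemma -/
def St_MOD : Prop :=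
  ∀ k : ℕ, 1 ≤ k → ∃ C : ℕ, ∀ R S P x Y : ℕ, 1 ≤ R → 1 ≤ S → R.Coprime S → R ≠ S → C ≤ P → R ≡ S [MOD P ^ x] →
    R ≤ P ^ (4 * x) → S ≤ P ^ (4 * x) → rad (R * S) ≤ P → 2 ≤ Y → Y ≤ P → P ^ 38 ≤ Y ^ k →
    x ≤ C ^ ((R * S).primeFactors.card + 1) * Y

/-- choice of the modulus -/
def St_PICK : Prop :=
  ∀ c N : ℕ, 2 ≤ N → rad c ≤ N → N ^ 2 ≤ c →
    ∃ P y : ℕ, 1 ≤ y ∧ P ^ y ∣ c ∧ c ≤ P ^ (2 * y) ∧ N ≤ P ∧ P ≤ N ^ 4 ∧ c ≤ N ^ (4 * y)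

/-- subexponential abc for positive triples -/
def St_ABC : Prop :=
  ∀ ε : ℝ, 0 < ε → ∃ C : ℝ, ∀ a b : ℕ, 1 ≤ a → 1 ≤ b → a.Coprime b →
    Real.log (a + b : ℕ) ≤ C * (rad (a * b * (a + b)) : ℝ) ^ ε

end Pool.Agent.SX
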