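import Pool.Agent.Lib.SX.Blue2

/-! Phase 3 (quadratic fields, one rational 2-torsion point): definitions and block statements. -/

namespace Pool.Agent.SX3

open Finset MvPolynomial NumberField Module Pool.Agent.SX Pool.Agent.SX2 Pool.Agent.Szpiro98 Pool.Agent.Lib.MP_cafdd5_nt

/-- one coefficient with respect to block `0`, times `Z_0 ^ d` -/
def St_EXT : Prop :=
  ∀ (κ n d d' x : ℕ) (J : Fin κ → ℤ) (F : AP κ), 1 ≤ n → F ≠ 0 → SlabF n d J F → Diag x d' F →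
    ∃ G : AP κ, G ≠ 0 ∧ SlabF n d J G ∧ l1 G ≤ l1 F ∧ Low (uw 1 x) d' (dg 1 2 G) ∧ Low (uw 2 x) d' (dg 2 1 G) ∧
      ∀ (E : Type) [CommRing E] (ξ : Fin 3 → Fin κ → E) (z z1 z2 : E),
        Low (fun _ => 1) x (mf ξ ![1, z1, z2] G) → Low (fun _ => 1) x (mf ξ ![z, z1, z2] G)

def St_VANQ : Prop :=
  ∀ (K : Type) [Field K] (p : ℕ) [Fact p.Prime] (σ1 σ2 : K →+* Qb) (τ : Fin 3 → K →+* ℂ_[p])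
    (κ n d d' x P : ℕ) (J : Fin κ → ℤ) (F : AP κ) (δ w0 Λ : K) (w : Fin κ → K) (Mx : ℝ),
    (∀ ψ : Qb →+* ℂ_[p], (ψ.comp σ1 = τ 1 ∧ ψ.comp σ2 = τ 2) ∨ (ψ.comp σ1 = τ 2 ∧ ψ.comp σ2 = τ 1)) → 1 ≤ P → 1 ≤ n →
    (∀ k, |J k| ≤ n) → SlabF n d J F → Low (uw 1 x) d' (dg 1 2 F) → Low (uw 2 x) d' (dg 2 1 F) → x ≤ d' →
    ‖τ 1 δ‖ = 1 → ‖τ 2 δ‖ = 1 → ‖τ 1 δ - τ 2 δ‖ * (P : ℝ) ^ x ≤ 1 →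
    w0 ≠ 0 → IsIntegral ℤ w0 → Λ ≠ 0 → IsIntegral ℤ (Λ * δ ^ (2 * d)) →
    (∀ k, mu τ (w k) ≤ mu τ w0 ∧ ‖τ 1 (w k) * τ 2 w0 - τ 2 (w k) * τ 1 w0‖ * P ≤ mu τ (w k) * mu τ w0) →
    (∀ m e, Slab n d J m e → IsIntegral ℤ (Λ * (∏ k, w k ^ m k) * w0 ^ (d - ∑ k, m k) * δ ^ e) ∧
      ∀ φ : K →+* ℂ, ‖φ (Λ * (∏ k, w k ^ m k) * w0 ^ (d - ∑ k, m k) * δ ^ e)‖ ^ 2 ≤ Mx) →
    (l1 F : ℝ) * 2 ^ (15 * d) * Mx < (P : ℝ) ^ (d' - x) →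
    Low (fun _ => 1) x (mf ![fun _ => 1, fun k => σ1 (w k / w0), fun k => σ2 (w k / w0)] ![1, σ1 δ, σ2 δ] F)

/-! ### Anchors in the quadratic field -/

def BoxQ {K : Type} [Field K] (I : Ideal (𝓞 K)) (g : (K →+* ℂ) → ℝ) (w : K) : Prop :=
  (∃ y ∈ I, (y : K) = w) ∧ ∀ φ : K →+* ℂ, ‖φ w‖ ^ 2 ≤ g φ

def MinkQ (C0 : ℝ) : Prop :=
  ∀ (K : Type) [Field K] [NumberField K], finrank ℚ K = 2 → ∀ (I : Ideal (𝓞 K)) (g : (K →+* ℂ) → ℝ), I ≠ ⊥ → Shape g →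
    (∀ (l : ℕ) (χ : I →+ ZMod l), 1 ≤ l → (C0 * l * √(dk K) * Ideal.absNorm I) ^ 2 ≤ ∏ φ, g φ →
      ∃ y : I, y ≠ 0 ∧ χ y = 0 ∧ ∀ φ : K →+* ℂ, ‖φ ((y : 𝓞 K) : K)‖ ^ 2 ≤ g φ) ∧
    ((C0 * √(dk K)) ^ 2 ≤ (Ideal.absNorm I : ℝ) ^ 2 * ∏ φ, g φ →
      ∃ Λ : K, Λ ≠ 0 ∧ (∀ y ∈ I, IsIntegral ℤ (Λ * (y : K))) ∧ ∀ φ : K →+* ℂ, ‖φ Λ‖ ^ 2 ≤ g φ)

def St_MINKQ : Prop := ∃ C0 : ℝ, 1 ≤ C0 ∧ MinkQ C0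

def St_CLSQ : Prop :=
  ∃ C1 : ℝ, 1 ≤ C1 ∧ ∀ (K : Type) [Field K] [NumberField K], finrank ℚ K = 2 → ∀ (p : ℕ) [Fact p.Prime]
    (τ : Fin 3 → K →+* ℂ_[p]) (r : ℚ_[p]) (k : ℕ), 5 ≤ p → τ 1 ≠ τ 2 → Rho (τ 1) (τ 2) r → Even r.valuation →
    ¬(p : ℤ) ∣ discr K → 1 ≤ k →
    ∃ (nc : ℕ) (cls : K → Fin nc), nc ≤ 2 * p ^ k ∧
      (∀ w w', w ≠ 0 → w' ≠ 0 → cls w = cls w' →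
        ‖τ 1 w * τ 2 w' - τ 2 w * τ 1 w'‖ * ((p ^ k : ℕ) : ℝ) ≤ mu τ w * mu τ w') ∧
      ∀ (I : Ideal (𝓞 K)) (g : (K →+* ℂ) → ℝ) (T : ℝ), (∃ u ∈ I, ‖τ 1 u‖ = 1 ∧ ‖τ 2 u‖ = 1) → Shape g →
        ∏ φ, g φ = (T * Ideal.absNorm I) ^ 2 → C1 * dk K ≤ T → C1 * T ≤ (p : ℝ) ^ k →
        ∃ W : Finset K, (∀ w ∈ W, w ≠ 0 ∧ BoxQ I g w) ∧ Set.InjOn cls W ∧ T ≤ C1 * √(dk K) * W.card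

def St_FACTQ : Prop :=
  ∀ (K : Type) [Field K] [NumberField K], finrank ℚ K = 2 → ∀ (δ : 𝓞 K) (D : ℤ), D ≠ 0 → Algebra.norm ℚ (δ : K) = D →
    ∃ (S : Finset (Ideal (𝓞 K))) (v : Ideal (𝓞 K) → ℕ), (∀ q ∈ S, q ≠ ⊥) ∧ ∏ q ∈ S, q ^ v q = Ideal.span {δ} ∧
      S.card ≤ 2 * D.natAbs.primeFactors.card ∧ ∏ q ∈ S, Ideal.absNorm q ≤ rad D.natAbs ^ 2

/-- the box of the anchors of index `j` -/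
noncomputable def gq {K : Type} [Field K] [NumberField K] (S : Finset (Ideal (𝓞 K))) (v : Ideal (𝓞 K) → ℕ) (δ : K) (T : ℝ)
    (n j : ℕ) (φ : K →+* ℂ) : ℝ :=
  T * Ideal.absNorm (aj S v n j) * ‖φ δ‖ ^ (2 * (j : ℝ) / n) / |((Algebra.norm ℚ δ : ℚ) : ℝ)| ^ ((j : ℝ) / n)

def St_BOXQ : Prop :=
  ∀ (K : Type) [Field K] [NumberField K], finrank ℚ K = 2 → ∀ (δ : 𝓞 K) (S : Finset (Ideal (𝓞 K))) (v : Ideal (𝓞 K) → ℕ)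
    (T : ℝ) (n j : ℕ), δ ≠ 0 → ∏ q ∈ S, q ^ v q = Ideal.span {δ} → (∀ q ∈ S, q ≠ ⊥) → 0 < T → j < n →
    Shape (gq S v δ T n j) ∧ ∏ φ, gq S v δ T n j φ = (T * Ideal.absNorm (aj S v n j)) ^ 2 ∧ δ ∈ aj S v n j

def St_ETAQ : Prop :=
  ∀ C0 : ℝ, 1 ≤ C0 → MinkQ C0 → ∀ (K : Type) [Field K] [NumberField K], finrank ℚ K = 2 → ∀ (δ : 𝓞 K)
    (S : Finset (Ideal (𝓞 K))) (v : Ideal (𝓞 K) → ℕ) (T A : ℝ) (κ n Q d x j0 : ℕ) (j : Fin κ → ℕ) (w0 : K) (w : Fin κ → K),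
    δ ≠ 0 → ∏ q ∈ S, q ^ v q = Ideal.span {δ} → (∀ q ∈ S, q ≠ ⊥) → 0 < T → 1 ≤ A → (∀ φ : K →+* ℂ, ‖φ δ‖ ≤ A) →
    1 ≤ Q → d ≤ Q * x → j0 < n → (∀ k, j k < n ∧ ∀ q ∈ S, Q * (j k * v q % n) / n = Q * (j0 * v q % n) / n) →
    BoxQ (aj S v n j0) (gq S v δ T n j0) w0 → (∀ k, BoxQ (aj S v n (j k)) (gq S v δ T n (j k)) (w k)) →
    ∃ Λ : K, Λ ≠ 0 ∧ IsIntegral ℤ (Λ * (δ : K) ^ (2 * d)) ∧ ∀ m e, Slab n d (fun k => (j k : ℤ) - j0) m e →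
      IsIntegral ℤ (Λ * (∏ k, w k ^ m k) * w0 ^ (d - ∑ k, m k) * (δ : K) ^ e) ∧
      ∀ φ : K →+* ℂ, ‖φ (Λ * (∏ k, w k ^ m k) * w0 ^ (d - ∑ k, m k) * (δ : K) ^ e)‖ ^ 2 ≤
        C0 * √(dk K) * T ^ d * ((∏ q ∈ S, Ideal.absNorm q : ℕ) : ℝ) ^ (x + 1) * A ^ 2

/-- `α` is an irrational root of `X ^ 2 + A X + B` in the quadratic field `K` -/
def Rq (A B : ℤ) {K : Type} [Field K] [NumberField K] (α : K) : Prop :=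
  finrank ℚ K = 2 ∧ α ^ 2 + A * α + B = 0 ∧ ∀ x : ℚ, α ≠ x

def St_SETQ : Prop :=
  ∀ (A B : ℤ) (K : Type) [Field K] [NumberField K] (α : K) (p : ℕ) [Fact p.Prime], Rq A B α → 5 ≤ p →
    (p : ℤ) ∣ A ^ 2 - 4 * B → ¬(p : ℤ) ∣ A → Even (padicValInt p (A ^ 2 - 4 * B)) →
    B ≠ 0 ∧ Algebra.norm ℚ (α ^ 2) = ((B ^ 2 : ℤ) : ℚ) ∧
    ∃ (σ1 σ2 : K →+* Qb) (ι : Qb →+* ℂ_[p]) (τ : Fin 3 → K →+* ℂ_[p]) (r : ℚ_[p]), τ 1 = ι.comp σ1 ∧ τ 2 = ι.comp σ2 ∧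
      τ 1 ≠ τ 2 ∧ (∀ ψ : Qb →+* ℂ_[p], (ψ.comp σ1 = τ 1 ∧ ψ.comp σ2 = τ 2) ∨ (ψ.comp σ1 = τ 2 ∧ ψ.comp σ2 = τ 1)) ∧
      Rho (τ 1) (τ 2) r ∧ Even r.valuation ∧ ∃ s lam : ℂ_[p], s ≠ 0 ∧ 1 + lam ≠ 0 ∧
        τ 1 (α ^ 2) = (s * lam) ^ 2 ∧ τ 2 (α ^ 2) = s ^ 2 ∧ ‖τ 1 (α ^ 2)‖ = 1 ∧ ‖τ 2 (α ^ 2)‖ = 1 ∧
        ‖τ 1 (α ^ 2) - τ 2 (α ^ 2)‖ ≤ ‖1 + lam‖ ∧ ‖1 + lam‖ ^ 2 * (p : ℝ) ^ padicValInt p (A ^ 2 - 4 * B) ≤ 1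

/-- shape of the new local bound at the prime `p` with exponent `v` -/
def Nw (G L C p v R t : ℕ) (D H : ℝ) : Prop :=
  ∀ k x Y : ℕ, 1 ≤ k → 2 * k * x ≤ v → C ≤ p ^ k → R ^ 3 ≤ p ^ k → (C * D) ^ 2 ≤ (p : ℝ) ^ k → Y ^ 2 ≤ p ^ k →
    (p ^ k) ^ (3 * G + 7) ≤ Y ^ L → H ≤ ((p : ℝ) ^ k) ^ (G * x) → (x : ℝ) ≤ C ^ (t + 1) * Y * √D

def St_NEWQ : Prop :=
  ∀ G L : ℕ, 2 ≤ L → ∃ C : ℕ, 1 ≤ C ∧ ∀ (A B : ℤ) (K : Type) [Field K] [NumberField K] (α : K) (p : ℕ) (H : ℝ), p.Prime →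
    Rq A B α → 5 ≤ p → ¬(p : ℤ) ∣ A → Even (padicValInt p (A ^ 2 - 4 * B)) → ¬(p : ℤ) ∣ discr K →
    (∀ φ : K →+* ℂ, ‖φ (α ^ 2)‖ ≤ H) →
    Nw G L C p (padicValInt p (A ^ 2 - 4 * B)) (rad B.natAbs) B.natAbs.primeFactors.card (dk K) H

/-! ### Glue -/

/-- the prime-to-square part bounds the discriminant -/
def Ker (d c : ℤ) : Prop :=
  ∀ p : ℕ, p.Prime → padicValInt p d ≤ 3 ∧ (p ≠ 2 → padicValInt p d ≤ padicValInt p c % 2)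

/-- the old local bounds, for the integer `c` -/
def Old (C : ℝ) (S : Finset ℕ) (c : ℤ) (D 𝓛 : ℝ) : Prop :=
  (bnd C S D 1 𝓛 < 𝓛 → 𝓛 ≤ 6 * Real.log |(c : ℝ)| + 12 * bnd C S D 1 𝓛 + 100) ∧
    ∀ p : ℕ, p.Prime → 30 < padicValInt p c → bnd C S D (kap p (padicValInt p c)) 𝓛 < 𝓛 →
      padicValInt p c * Real.log p ≤ 30 * Real.log p + 2 * bnd C S D (kap p (padicValInt p c)) 𝓛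

noncomputable def LQ (A B : ℤ) : ℝ := Real.log (max ((A : ℝ) ^ 2) |(B : ℝ)|) + 6

def Min48 (A B : ℤ) : Prop := ∀ p : ℕ, p.Prime → ¬((p : ℤ) ^ 4 ∣ A ∧ (p : ℤ) ^ 8 ∣ B)

def Prim (A B : ℤ) : Prop := ∀ p : ℕ, p.Prime → 5 ≤ p → ¬((p : ℤ) ∣ A ∧ (p : ℤ) ^ 2 ∣ B)

def St_QUA : Prop :=
  ∃ C : ℝ, 10 ≤ C ∧ ∀ (A B : ℤ) (S : Finset ℕ), ¬IsSquare (A ^ 2 - 4 * B) → B ≠ 0 → Min48 A B → (∀ q ∈ S, q.Prime) →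
    B.natAbs.primeFactors ⊆ S → ∃ (K : Type) (_ : Field K) (_ : NumberField K) (α : K), Rq A B α ∧
      (∀ φ : K →+* ℂ, ‖φ (α ^ 2)‖ ≤ Real.exp (LQ A B)) ∧ Ker (discr K) (A ^ 2 - 4 * B) ∧
      Old C S (A ^ 2 - 4 * B) (dk K) (LQ A B)

/-- a prime with the new local bound cannot carry a fixed share of the height -/
def St_BIGN : Prop :=
  ∀ (ε c : ℝ) (M : ℕ), 0 < ε → 0 < c → ∃ G L : ℕ, 2 ≤ L ∧ ∀ C : ℕ, 1 ≤ C → ∃ C' : ℝ, ∀ (p v R R' : ℕ) (s : Finset ℕ)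
    (D 𝓛 : ℝ), 2 ≤ p → p ≤ R → R' ≤ R → (∀ q ∈ s, 1 ≤ q) → ∏ q ∈ s, q ≤ R → 1 ≤ D → D ≤ M * (R : ℝ) ^ 2 →
    c * 𝓛 ≤ v * Real.log p → Nw G L C p v R' s.card D (Real.exp 𝓛) → 𝓛 ≤ C' * (R : ℝ) ^ ε * √D

/-- old bounds and the bound at large primes give the global bound -/
def St_GL : Prop :=
  ∀ (C ε : ℝ) (M : ℕ), 10 ≤ C → 0 < ε → ∃ c : ℝ, 0 < c ∧ ∀ C1 : ℝ, ∃ C' : ℝ, ∀ (c0 : ℤ) (S : Finset ℕ) (R : ℕ) (D 𝓛 : ℝ),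
    c0 ≠ 0 → (∀ q ∈ S, q.Prime) → c0.natAbs.primeFactors ⊆ S → ∏ q ∈ S, q ≤ R → 1 ≤ D → D ≤ M * (R : ℝ) ^ 2 → 6 ≤ 𝓛 →
    Old C S c0 D 𝓛 →
    (∀ p : ℕ, p.Prime → 5 ≤ p → 30 < padicValInt p c0 → Even (padicValInt p c0) →
      c * 𝓛 ≤ padicValInt p c0 * Real.log p → 𝓛 ≤ C1 * (R : ℝ) ^ ε * √D) →
    𝓛 ≤ C' * (R : ℝ) ^ ε * √D

/-- the bound in terms of the discriminant of the quadratic field -/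
def St_QD : Prop :=
  ∀ ε : ℝ, 0 < ε → ∃ C : ℝ, ∀ A B : ℤ, ¬IsSquare (A ^ 2 - 4 * B) → B ≠ 0 → Min48 A B → Prim A B →
    ∃ (K : Type) (_ : Field K) (_ : NumberField K) (α : K), Rq A B α ∧ Ker (discr K) (A ^ 2 - 4 * B) ∧
      LQ A B ≤ C * (rad (6 * B * (A ^ 2 - 4 * B)).natAbs : ℝ) ^ ε * √(dk K)

/-- the split case, from subexponential abc -/
def St_SQ : Prop :=
  ∀ ε : ℝ, 0 < ε → ∃ C : ℝ, ∀ A B : ℤ, IsSquare (A ^ 2 - 4 * B) → A ^ 2 - 4 * B ≠ 0 → B ≠ 0 → Min48 A B → Prim A B →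
    LQ A B ≤ C * (rad (6 * B * (A ^ 2 - 4 * B)).natAbs : ℝ) ^ ε

/-- removing the additive primes of type `I_n^*` by a quadratic twist -/
def St_TW : Prop :=
  ∀ a b e : ℤ, disc a b ≠ 0 → MinP a b → e ^ 3 - a * e - b = 0 → ∃ (g : ℕ) (A B : ℤ), 1 ≤ g ∧ g ≤ Szpiro98.cond a b ∧
    3 * e = g * A ∧ 3 * e ^ 2 - a = g ^ 2 * B ∧ B ≠ 0 ∧ A ^ 2 - 4 * B ≠ 0 ∧ Min48 A B ∧ Prim A B ∧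
    Min48 (-2 * A) (A ^ 2 - 4 * B) ∧ Prim (-2 * A) (A ^ 2 - 4 * B) ∧
    rad (6 * B * (A ^ 2 - 4 * B)).natAbs ≤ 6 * Szpiro98.cond a b ∧
    rad (6 * (A ^ 2 - 4 * B) * (16 * B)).natAbs ≤ 6 * Szpiro98.cond a b ∧
    LL a b ≤ 3 * LQ A B + 6 * Real.log g ∧ LQ A B ≤ LQ (-2 * A) (A ^ 2 - 4 * B) ∧
    ∀ d1 d2 : ℤ, d1 ≠ 0 → d2 ≠ 0 → Ker d1 (A ^ 2 - 4 * B) → Ker d2 (16 * B) →
      |d1| * |d2| ≤ 576 * (Szpiro98.cond a b : ℤ)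

/-- all curves with a rational 2-torsion point -/
def St_TWO : Prop :=
  ∀ ε : ℝ, 0 < ε → ∃ C : ℝ, ∀ a b e : ℤ, disc a b ≠ 0 → MinP a b → e ^ 3 - a * e - b = 0 →
    LL a b ≤ C * (Szpiro98.cond a b : ℝ) ^ (1 / 4 + ε)

end Pool.Agent.SX3
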