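import Pool.Agent.Lib.SX.Blue3
import Pool.Agent.Lib.SX.B_ABC

/-! A prime with the new local bound cannot carry a fixed share of the height (pure numerics). -/

namespace Pool.Agent.SX3

open Finset Pool.Agent.SX Pool.Agent.SX2

namespace Bign

lemma pickY {P m L : ℕ} (hP : 16 ≤ P) (hm : 1 ≤ m) (hL : 4 * m ≤ L) :
    ∃ Y : ℕ, Y ^ 2 ≤ P ∧ P ^ m ≤ Y ^ L ∧ (Y : ℝ) ≤ 2 * (P : ℝ) ^ ((m : ℝ) / L) := by
  have hP' : (16 : ℝ) ≤ P := by exact_mod_cast hP
  have hL0 : (0 : ℝ) < L := by exact_mod_cast (by omega : 0 < L)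
  have hL' : 4 * (m : ℝ) ≤ L := by exact_mod_cast hL
  have h1 : 1 ≤ (P : ℝ) ^ ((m : ℝ) / L) := Real.one_le_rpow (by linarith) (by positivity)
  have h2 : (⌈(P : ℝ) ^ ((m : ℝ) / L)⌉₊ : ℝ) ≤ 2 * (P : ℝ) ^ ((m : ℝ) / L) := by
    linarith [Nat.ceil_lt_add_one (zero_le_one.trans h1)]
  refine ⟨_, ?_, ?_, h2⟩
  · have h3 : (P : ℝ) ^ ((m : ℝ) / L) ≤ (P : ℝ) ^ ((1 : ℝ) / 4) :=
      Real.rpow_le_rpow_of_exponent_le (by linarith) (by rw [div_le_div_iff₀ hL0 (by norm_num)]; linarith)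
    have h4 : ((P : ℝ) ^ ((1 : ℝ) / 4)) ^ 4 = P := by
      rw [← Real.rpow_natCast, ← Real.rpow_mul (by positivity)]; norm_num
    set u := (P : ℝ) ^ ((1 : ℝ) / 4)
    have h5 : 2 ≤ u := le_of_pow_le_pow_left₀ (n := 4) (by norm_num) (by positivity) (by rw [h4]; linarith)
    have h6 := pow_le_pow_left₀ (Nat.cast_nonneg _) (h2.trans (mul_le_mul_of_nonneg_left h3 zero_le_two)) 2
    have h7 : (2 * u) ^ 2 ≤ u ^ 4 := by
      rw [show u ^ 4 = (u * u) ^ 2 by ring]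
      exact pow_le_pow_left₀ (by positivity) (by nlinarith) 2
    exact_mod_cast h6.trans (h7.trans h4.le)
  · have h3 := pow_le_pow_left₀ (by positivity) (Nat.le_ceil ((P : ℝ) ^ ((m : ℝ) / L))) L
    rw [← Real.rpow_natCast, ← Real.rpow_mul (by positivity), div_mul_cancel₀ _ hL0.ne', Real.rpow_natCast] at h3
    exact_mod_cast h3

end Bign

theorem st_bign : St_BIGN := by
  intro ε c M hε hc
  obtain ⟨δ, hδ, rfl⟩ : ∃ δ : ℝ, 0 < δ ∧ ε = δ + δ + δ := ⟨ε / 3, by positivity, by ring⟩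
  obtain ⟨G, hG⟩ := exists_nat_ge (4 / c)
  obtain ⟨L0, hL0⟩ := exists_nat_ge (5 * ((3 * G + 7 : ℕ) : ℝ) / δ)
  obtain ⟨L, hL1, hL2⟩ : ∃ L : ℕ, 4 * (3 * G + 7) ≤ L ∧ 5 * ((3 * G + 7 : ℕ) : ℝ) / δ ≤ L :=
    ⟨L0 + 4 * (3 * G + 7), by omega, hL0.trans (by exact_mod_cast Nat.le_add_right _ _)⟩
  have hLp : (0 : ℝ) < L := by exact_mod_cast (by omega : 0 < L)
  refine ⟨G, L, by omega, fun C hC1 => ?_⟩
  obtain ⟨C1, hC10, hom⟩ := Abc.omega_bd C hC1 δ hδ
  obtain ⟨A, hA⟩ : ∃ A : ℕ, A = (C * (M + 4)) ^ 2 := ⟨_, rfl⟩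
  have hA0 : 4 * C ≤ C * (M + 4) := by nlinarith
  have hA1 : 16 * C ≤ A := by
    rw [hA, sq]
    calc 16 * C = 4 * (4 * C) := by ring
      _ ≤ _ := Nat.mul_le_mul (by omega) hA0
  have hAr : (1 : ℝ) ≤ A := by exact_mod_cast (by omega : 1 ≤ A)
  have hlA := Real.log_nonneg hAr
  refine ⟨G * (1 + C1 * C * (2 * A)) * (Real.log A + 5 / δ),
    fun p v N R' s D 𝓛 hp hpN hR' hs hsN hD1 hDM hsh hC => ?_⟩
  have hN1 : 1 ≤ N := by omega
  have hNr : (1 : ℝ) ≤ N := by exact_mod_cast hN1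
  have hex : ∃ k, A * N ^ 4 ≤ p ^ k := ⟨_, (Nat.lt_pow_self (by omega)).le⟩
  set k := Nat.find hex with hk
  have hk1 : A * N ^ 4 ≤ p ^ k := Nat.find_spec hex
  have hN3 : 1 ≤ N ^ 4 := Nat.one_le_pow _ _ hN1
  have hAP : A ≤ p ^ k := (Nat.le_mul_of_pos_right _ hN3).trans hk1
  have hk0 : 1 ≤ k := by
    by_contra h0
    rw [show k = 0 by omega, pow_zero] at hAP
    omega
  have hk2 : p ^ k ≤ A * N ^ 5 := by
    have h1 := not_le.1 (Nat.find_min hex (show k - 1 < k by omega))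
    calc p ^ k = p ^ (k - 1) * p := by rw [← pow_succ, Nat.sub_add_cancel hk0]
      _ ≤ A * N ^ 4 * N := Nat.mul_le_mul h1.le hpN
      _ = _ := by ring
  have hk2' : (p : ℝ) ^ k ≤ A * N ^ 5 := by exact_mod_cast hk2
  have hp0 : (1 : ℝ) ≤ p := by exact_mod_cast (by omega : 1 ≤ p)
  have hP1 : (1 : ℝ) ≤ (p : ℝ) ^ k := one_le_pow₀ hp0
  have hlp := Real.log_nonneg hp0
  have ht1 : (1 : ℝ) ≤ (N : ℝ) ^ δ := Real.one_le_rpow hNr hδ.le
  have hs1 : (1 : ℝ) ≤ √D := Real.one_le_sqrt.2 hD1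
  have h3 : (N : ℝ) ^ (δ + δ + δ) = (N : ℝ) ^ δ * (N : ℝ) ^ δ * (N : ℝ) ^ δ := by
    rw [Real.rpow_add (by positivity), Real.rpow_add (by positivity)]
  have hlog : k * Real.log p ≤ (Real.log A + 5 / δ) * (N : ℝ) ^ δ := by
    have h1 := Real.log_le_log (by positivity) hk2'
    rw [Real.log_pow, Real.log_mul (by positivity) (by positivity), Real.log_pow] at h1
    have h2 := Real.log_le_rpow_div (show (0 : ℝ) ≤ N by positivity) hδ
    have h4 := mul_le_mul_of_nonneg_left ht1 hlA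
    have h5 : (Real.log A + 5 / δ) * (N : ℝ) ^ δ = Real.log A * (N : ℝ) ^ δ + 5 * ((N : ℝ) ^ δ / δ) := by ring
    push_cast at h1
    linarith
  have hGc : 4 ≤ G * c := (div_le_iff₀ hc).1 hG
  have hmain : ∀ y : ℕ, v ≤ 4 * k * y → 𝓛 ≤ G * y * (k * Real.log p) := by
    intro y hy
    have h1 : (v : ℝ) ≤ 4 * k * y := by exact_mod_cast hy
    have h2 := mul_le_mul_of_nonneg_right h1 hlp
    have h4 := mul_le_mul_of_nonneg_right hGc (show 0 ≤ y * (k * Real.log p) by positivity)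
    exact le_of_mul_le_mul_left (a := c) (by linarith) hc
  have hx1 : 2 * k * (v / (2 * k)) ≤ v := Nat.mul_div_le _ _
  have hx2 : v < 2 * k * (v / (2 * k) + 1) := Nat.lt_mul_div_succ _ (by omega)
  set x := v / (2 * k) with hx
  have key : ∃ y : ℕ, v ≤ 4 * k * y ∧
      (y : ℝ) ≤ (1 + C1 * C * (2 * A)) * (√D * ((N : ℝ) ^ δ * (N : ℝ) ^ δ)) := by
    have w1 : (1 : ℝ) ≤ √D * ((N : ℝ) ^ δ * (N : ℝ) ^ δ) :=
      one_le_mul_of_one_le_of_one_le hs1 (one_le_mul_of_one_le_of_one_le ht1 ht1)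
    have w2 : 0 ≤ C1 * C * (2 * A) := by positivity
    rcases Nat.eq_zero_or_pos x with h0 | h0
    · refine ⟨1, by rw [h0] at hx2; omega, ?_⟩
      rw [Nat.cast_one]
      exact one_le_mul_of_one_le_of_one_le (by linarith) w1
    have hy : v ≤ 4 * k * x := by nlinarith
    refine ⟨x, hy, ?_⟩
    obtain ⟨Y, hY1, hY2, hY3⟩ := Bign.pickY (P := p ^ k) (by omega) (show 1 ≤ 3 * G + 7 by omega) hL1
    have hx := hC k x Y hk0 hx1 (by omega)
      (by
        calc _ ≤ N ^ 3 := Nat.pow_le_pow_left hR' 3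
          _ ≤ N ^ 4 := Nat.pow_le_pow_right hN1 (by norm_num)
          _ ≤ A * N ^ 4 := Nat.le_mul_of_pos_left _ (by omega)
          _ ≤ _ := hk1)
      (by
        have h1 : (A : ℝ) * N ^ 4 ≤ (p : ℝ) ^ k := by exact_mod_cast hk1
        have h2 : (A : ℝ) = (C * (M + 4)) ^ 2 := by rw [hA]; push_cast; ring
        have h4 : D ≤ (M + 4) * (N : ℝ) ^ 2 :=
          hDM.trans (mul_le_mul_of_nonneg_right (by linarith) (by positivity))
        calc _ ≤ (C * ((M + 4) * (N : ℝ) ^ 2)) ^ 2 := pow_le_pow_left₀ (by positivity)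
              (mul_le_mul_of_nonneg_left h4 (by positivity)) 2
          _ = A * N ^ 4 := by rw [h2]; ring
          _ ≤ _ := h1)
      hY1 hY2 (by
        rw [← Real.exp_log (show 0 < ((p : ℝ) ^ k) ^ (G * x) by positivity), Real.log_pow, Real.log_pow]
        push_cast
        exact Real.exp_le_exp.2 (hmain x hy))
    have u1 : (C : ℝ) ^ s.card ≤ C1 * (N : ℝ) ^ δ := by
      refine (hom _ hs).trans (mul_le_mul_of_nonneg_left ?_ hC10)
      exact Real.rpow_le_rpow (by positivity) (by exact_mod_cast hsN) hδ.le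
    have u2 : (Y : ℝ) ≤ 2 * (A * (N : ℝ) ^ δ) := by
      refine hY3.trans (mul_le_mul_of_nonneg_left ?_ zero_le_two)
      have hL1' : 4 * ((3 * G + 7 : ℕ) : ℝ) ≤ L := by exact_mod_cast hL1
      have e0 : (0 : ℝ) ≤ ((3 * G + 7 : ℕ) : ℝ) := Nat.cast_nonneg _
      generalize ((3 * G + 7 : ℕ) : ℝ) = m at *
      refine (Real.rpow_le_rpow (by positivity) (show ((p ^ k : ℕ) : ℝ) ≤ A * N ^ 5 by exact_mod_cast hk2)
        (by positivity)).trans ?_
      rw [Real.mul_rpow (by positivity) (by positivity), ← Real.rpow_natCast, ← Real.rpow_mul (by positivity)]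
      refine mul_le_mul ((Real.rpow_le_rpow_of_exponent_le hAr ?_).trans (Real.rpow_one _).le)
        (Real.rpow_le_rpow_of_exponent_le hNr ?_) (by positivity) (by positivity)
      · rw [div_le_one hLp]; linarith
      · rw [div_le_iff₀ hδ] at hL2
        rw [← mul_div_assoc, div_le_iff₀ hLp]
        push_cast
        linarith
    rw [pow_succ] at hx
    have u4 := mul_le_mul_of_nonneg_right (mul_le_mul (mul_le_mul_of_nonneg_right u1 (Nat.cast_nonneg C)) u2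
      (by positivity) (by positivity)) (Real.sqrt_nonneg D)
    nlinarith
  obtain ⟨y, hy1, hy2⟩ := key
  rw [h3]
  refine (hmain y hy1).trans ((mul_le_mul (mul_le_mul_of_nonneg_left hy2 (Nat.cast_nonneg G)) hlog (by positivity)
    (by positivity)).trans (le_of_eq (by ring)))

end Pool.Agent.SX3
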