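import Pool.Agent.Lib.SX.Blue3
import Pool.Agent.Lib.SX.C_BOX

/-! The boxes of the anchors in a quadratic field. -/

namespace Pool.Agent.SX3

open Finset NumberField Module Pool.Agent.SX2

theorem st_boxq : St_BOXQ := by
  intro K _ _ h3 δ S v T n j hδ hS hq hT hj
  have hδ' : (δ : K) ≠ 0 := fun h => hδ (Subtype.ext h)
  have hN : 0 < |((Algebra.norm ℚ (δ : K) : ℚ) : ℝ)| :=
    abs_pos.mpr (Rat.cast_ne_zero.mpr (Algebra.norm_ne_zero_iff.mpr hδ'))
  have ha : aj S v n j ≠ ⊥ := by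
    unfold aj
    exact prod_ne_zero_iff.mpr fun q h => pow_ne_zero _ (hq q h)
  have ha' : (0 : ℝ) < Ideal.absNorm (aj S v n j) :=
    Nat.cast_pos.mpr (Nat.pos_of_ne_zero fun h => ha (Ideal.absNorm_eq_zero_iff.mp h))
  refine ⟨fun φ => ⟨?_, ?_⟩, ?_, ?_⟩
  · have : 0 < ‖φ (δ : K)‖ := norm_pos_iff.mpr ((map_ne_zero φ).mpr hδ')
    unfold gq
    positivity
  · unfold gq
    rw [RingHom.comp_apply, RCLike.norm_conj]
  · unfold gq
    have hc : Fintype.card (K →+* ℂ) = 2 := by rw [Embeddings.card, h3]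
    rw [prod_div_distrib, prod_mul_distrib, prod_const, prod_const, card_univ, hc,
      Real.finsetProd_rpow _ _ (fun _ _ => norm_nonneg _), Box.prod_norm, ← Real.rpow_natCast (_ ^ _) 2,
      ← Real.rpow_mul hN.le]
    have : (j : ℝ) / n * (2 : ℕ) = 2 * (j : ℝ) / n := by push_cast; ring
    rw [this, mul_div_assoc, div_self (by positivity), mul_one]
  · have h1 : aj S v n j ∣ Ideal.span {δ} := by
      rw [← hS]
      unfold aj
      refine prod_dvd_prod_of_dvd _ _ fun q _ => pow_dvd_pow _ ?_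
      exact Nat.div_le_of_le_mul (Nat.mul_le_mul_right _ hj.le)
    exact Ideal.le_of_dvd h1 (Ideal.mem_span_singleton_self δ)

end Pool.Agent.SX3
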