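import Pool.Agent.Lib.SX.Blue3
import Pool.Agent.Lib.SX.C_CLSb

/-! Class count in a quadratic field. -/

namespace Pool.Agent.SX3

open Finset NumberField Module Pool.Agent.SX2 Pool.Agent.SX2.Cls Pool.Agent.Szpiro98

namespace Clsq

noncomputable def dq {K E : Type} [Field K] [Field E] (σ : Fin 2 → K →+* E) (v : Fin 2 → 𝓞 K) : E :=
  (Matrix.of fun i j => σ i (v j)).det

variable {K : Type} [Field K] [NumberField K]

omit [NumberField K] in
lemma dq_eq {E : Type} [Field E] (σ : Fin 2 → K →+* E) (B : Basis (Fin 2) ℤ (𝓞 K)) (v : Fin 2 → 𝓞 K) :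
    dq σ v = (B.det v : ℤ) * dq σ B := by
  have h : (Matrix.of fun i j => σ i (v j)) =
      (Matrix.of fun i j => σ i (B j)) * (Int.castRingHom E).mapMatrix (B.toMatrix v) := by
    ext i j
    have h1 := congrArg (fun y : 𝓞 K => σ i (y : K)) (B.sum_repr (v j))
    simp only [Matrix.of_apply, Matrix.mul_apply, RingHom.mapMatrix_apply, Matrix.map_apply, Basis.toMatrix_apply,
      eq_intCast]
    rw [← h1]
    simp [mul_comm]
  rw [dq, h, Matrix.det_mul, ← RingHom.map_det, Basis.det_apply, mul_comm]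
  rfl

lemma dq_sq {E : Type} [Field E] [IsAlgClosed E] [CharZero E] (h2 : finrank ℚ K = 2) (σ : Fin 2 → K →+* E)
    (hσ : Function.Injective σ) (B : Basis (Fin 2) ℤ (𝓞 K)) : dq σ B ^ 2 = (discr K : ℤ) := by
  have hb : Function.Bijective fun i => (σ i).toRatAlgHom := by
    rw [Fintype.bijective_iff_injective_and_card]
    refine ⟨fun i j h => hσ ?_, by rw [AlgHom.card, h2, Fintype.card_fin]⟩
    ext x
    exact DFunLike.congr_fun h x
  have h1 := Algebra.discr_eq_det_embeddingsMatrixReindex_pow_two ℚ E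
    (B.localizationLocalization ℚ (nonZeroDivisors ℤ) K) (Equiv.ofBijective _ hb)
  rw [Algebra.discr_localizationLocalization, discr_eq_discr] at h1
  simp only [eq_intCast, map_intCast] at h1
  rw [h1, dq, ← Matrix.det_transpose]
  congr 2
  ext i j
  simp [Algebra.embeddingsMatrixReindex, Basis.localizationLocalization_apply]

lemma dvd_det (B : Basis (Fin 2) ℤ (𝓞 K)) (J : Ideal (𝓞 K)) (hJ : J ≠ ⊥) (v : Fin 2 → 𝓞 K) (hv : ∀ j, v j ∈ J) :
    (Ideal.absNorm J : ℤ) ∣ B.det v := by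
  let bJ := Ideal.selfBasis B J hJ
  have h1 := Ideal.natAbs_det_basis_change B J bJ
  have h2 : B.toMatrix v = B.toMatrix ((↑) ∘ bJ) * bJ.toMatrix fun j => ⟨v j, hv j⟩ := by
    ext i j
    have h3 := congrArg (fun y : J => B.repr (y : 𝓞 K) i) (bJ.sum_repr ⟨v j, hv j⟩)
    simp only [Matrix.mul_apply, Basis.toMatrix_apply, Function.comp_apply]
    simp only at h3
    rw [← h3]
    simp [-Basis.sum_repr, -zsmul_eq_mul, mul_comm]
  rw [← h1, Int.natCast_natAbs, abs_dvd, Basis.det_apply, Basis.det_apply, h2, Matrix.det_mul]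
  exact dvd_mul_right _ _

lemma prod_eq {E : Type} [Field E] [IsAlgClosed E] [CharZero E] (h2 : finrank ℚ K = 2) (σ : Fin 2 → K →+* E)
    (hσ : Function.Injective σ) (B : Basis (Fin 2) ℤ (𝓞 K)) (y : 𝓞 K) :
    σ 0 y * σ 1 y = (B.det fun j => y * B j : ℤ) := by
  have h0 : dq σ B ≠ 0 := by
    intro h
    have := dq_sq h2 σ hσ B
    rw [h, zero_pow two_ne_zero, eq_comm, Int.cast_eq_zero] at this
    exact discr_ne_zero K this
  apply mul_right_cancel₀ h0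
  rw [← dq_eq σ B]
  simp only [dq, Matrix.det_fin_two, Matrix.of_apply, map_mul]
  ring

lemma cross (B : Basis (Fin 2) ℤ (𝓞 K)) {I : Ideal (𝓞 K)} (bI : Basis (Fin 2) ℤ I) :
    ∃ e : ℤ, e.natAbs = Ideal.absNorm I ∧ ∀ (E : Type) [Field E] (σ : Fin 2 → K →+* E) (y y' : I),
      σ 0 (y : 𝓞 K) * σ 1 (y' : 𝓞 K) - σ 1 (y : 𝓞 K) * σ 0 (y' : 𝓞 K) =
        ((bI.repr y 0 * bI.repr y' 1 - bI.repr y 1 * bI.repr y' 0 : ℤ) : E) * (e * dq σ B) := by
  have h := Ideal.natAbs_det_basis_change B I bI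
  refine ⟨B.det (Subtype.val ∘ bI), by rw [← h], fun E _ σ y y' => ?_⟩
  rw [← dq_eq σ B (Subtype.val ∘ bI)]
  have h1 : ∀ (φ : K →+* E) (z : I), φ (z : 𝓞 K) = bI.repr z 0 * φ (bI 0 : 𝓞 K) + bI.repr z 1 * φ (bI 1 : 𝓞 K) := by
    intro φ z
    conv_lhs => rw [← bI.sum_repr z]
    simp [-Basis.sum_repr, Fin.sum_univ_two]
  rw [h1 (σ 0) y, h1 (σ 1) y, h1 (σ 0) y', h1 (σ 1) y']
  simp only [dq, Matrix.det_fin_two, Matrix.of_apply, Function.comp_apply]
  push_cast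
  ring

omit [NumberField K] in
lemma tau_le {F : Type} [NormedField F] [IsUltrametricDist F] (φ : K →+* F) (y : 𝓞 K) : ‖φ y‖ ≤ 1 :=
  int_le ((RingOfIntegers.isIntegral_coe y).map φ.toIntAlgHom)

end Clsq

open Clsq in
theorem st_clsq (h : St_MINKQ) : St_CLSQ := by
  classical
  obtain ⟨C0, hC0, hM⟩ := h
  refine ⟨4 * C0 ^ 2, by nlinarith, fun K _ _ h2 p _ τ r k hp hτ hρ he hd hk => ?_⟩
  obtain ⟨xc, hx1, hx2⟩ := coords τ r hp hρ he
  obtain ⟨cl, hc1, -⟩ := classes p k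
  have hcl : ∀ w w', cl (xc w) = cl (xc w') →
      ‖τ 1 w * τ 2 w' - τ 2 w * τ 1 w'‖ * (p : ℝ) ^ k ≤ mu τ w * mu τ w' := fun w w' h => by
    rw [hx2, hx1, hx1]
    exact hc1 _ _ h
  refine ⟨2 * p ^ k, fun w => cl (xc w), le_rfl, fun w w' _ _ h => by rw [Nat.cast_pow]; exact hcl w w' h,
    fun I g T hu hg hT hT1 hT2 => ?_⟩
  obtain ⟨u, hu, hu1, hu2⟩ := hu
  have hI : I ≠ ⊥ := by
    rintro rfl
    rw [Ideal.mem_bot.1 hu] at hu1
    simp at hu1
  let B : Basis (Fin 2) ℤ (𝓞 K) := finBasisOfFinrankEq ℤ (𝓞 K) ((RingOfIntegers.rank K).trans h2)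
  let bI := Ideal.selfBasis B I hI
  have hd1 : 1 ≤ dk K := by
    rw [dk]
    exact_mod_cast Int.one_le_abs (discr_ne_zero K)
  have hs1 : 1 ≤ √(dk K) := Real.one_le_sqrt.2 hd1
  have hs2 : √(dk K) ^ 2 = dk K := Real.sq_sqrt (by linarith)
  let σ : Fin 2 ≃ (K →+* ℂ) := (Fintype.equivFinOfCardEq ((Embeddings.card K ℂ).trans h2)).symm
  have hds : ‖dq σ B‖ = √(dk K) := by
    rw [← Real.sqrt_sq (norm_nonneg _), ← norm_pow, dq_sq h2 σ σ.injective B, Complex.norm_intCast, dk]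
  set s := √(dk K) with hs
  rw [← hs2] at hT1
  have hN0 : Ideal.absNorm I ≠ 0 := Ideal.absNorm_eq_zero_iff.not.2 hI
  have hN : (0 : ℝ) < Ideal.absNorm I := by positivity
  have hcs : 1 ≤ C0 * s := by nlinarith
  have hT0 : 4 * (C0 * s) ^ 2 ≤ T := by linarith
  have hT3 : 2 * C0 * s ≤ T := by nlinarith
  have hTp : 0 < T := by linarith
  have hL : ⌊T / (2 * C0 * s)⌋₊ ≠ 0 := by
    rw [← Nat.one_le_iff_ne_zero, Nat.one_le_floor_iff, le_div_iff₀ (by positivity)]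
    linarith
  obtain ⟨l, hl, hl1, hl2⟩ := Nat.exists_prime_lt_and_le_two_mul _ hL
  have hl3 : T < 2 * C0 * s * l := by
    have h1 := Nat.lt_floor_add_one (T / (2 * C0 * s))
    have h3 : ((⌊T / (2 * C0 * s)⌋₊ : ℕ) : ℝ) + 1 ≤ l := by exact_mod_cast hl1
    have h4 := h1.trans_le h3
    rwa [div_lt_iff₀ (by positivity), mul_comm] at h4
  have hl4 : C0 * l * s ≤ T := by
    have h1 := Nat.floor_le (a := T / (2 * C0 * s)) (by positivity)
    have h3 : (l : ℝ) ≤ 2 * ((⌊T / (2 * C0 * s)⌋₊ : ℕ) : ℝ) := by exact_mod_cast hl2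
    rw [le_div_iff₀ (by positivity)] at h1
    nlinarith
  have hl5 : T < (l : ℝ) ^ 2 := by
    have h1 : 2 * (C0 * s) < l := by
      apply lt_of_mul_lt_mul_left _ (show 0 ≤ 2 * C0 * s by positivity)
      nlinarith
    calc T < 2 * C0 * s * l := hl3
      _ ≤ l * l := mul_le_mul_of_nonneg_right (by linarith) (by linarith)
      _ = l ^ 2 := (sq _).symm
  have := Fact.mk hl
  let τ' : Fin 2 → K →+* ℂ_[p] := ![τ 1, τ 2]
  have hτ' : Function.Injective τ' := by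
    intro i j h
    fin_cases i <;> fin_cases j
    · rfl
    · exact absurd h hτ
    · exact absurd h.symm hτ
    · rfl
  have hdt : ‖dq τ' B‖ = 1 := by
    apply (pow_left_inj₀ (norm_nonneg _) zero_le_one two_ne_zero).1
    rw [← norm_pow, dq_sq h2 τ' hτ' B, nunit _ hd, one_pow]
  obtain ⟨e, he1, he2⟩ := cross B bI
  have hep : ‖(e : ℂ_[p])‖ = 1 := by
    obtain ⟨z, hz⟩ := dvd_det B I hI (fun j => u * B j) fun j => I.mul_mem_right _ hu
    have h1 := congrArg norm (prod_eq h2 τ' hτ' B u)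
    rw [hz, norm_mul, show τ' 0 = τ 1 from rfl, show τ' 1 = τ 2 from rfl, hu1, hu2, one_mul, ← he1, Int.natCast_natAbs,
      Int.cast_mul, norm_mul] at h1
    have h3 : ‖((|e| : ℤ) : ℂ_[p])‖ = ‖(e : ℂ_[p])‖ := by
      rcases abs_cases e with h | h <;> rw [h.1]
      rw [Int.cast_neg, norm_neg]
    rw [h3] at h1
    refine le_antisymm (IsUltrametricDist.norm_intCast_le_one _ _) (h1.le.trans ?_)
    exact mul_le_of_le_one_right (norm_nonneg _) (IsUltrametricDist.norm_intCast_le_one _ _)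
  have hec : ‖(e : ℂ)‖ = Ideal.absNorm I := by
    rw [Complex.norm_intCast, ← he1, Nat.cast_natAbs, Int.cast_abs]
  have hgp : g (σ 0) * g (σ 1) = (T * Ideal.absNorm I) ^ 2 := by rw [← hT, ← σ.prod_comp, Fin.prod_univ_two]
  have hbox : ∀ y y' : K, (∀ φ : K →+* ℂ, ‖φ y‖ ^ 2 ≤ g φ) → (∀ φ : K →+* ℂ, ‖φ y'‖ ^ 2 ≤ g φ) →
      ‖σ 0 y * σ 1 y'‖ ≤ T * Ideal.absNorm I := by
    intro y y' a1 a2
    apply le_of_pow_le_pow_left₀ two_ne_zero (by positivity)
    rw [norm_mul, mul_pow, ← hgp]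
    exact mul_le_mul (a1 _) (a2 _) (by positivity) (hg _).1.le
  have hy : ∀ a : ZMod l, ∃ y : I, y ≠ 0 ∧ (bI.repr y 0 : ZMod l) + a * bI.repr y 1 = 0 ∧ (bI.repr y 1 : ZMod l) ≠ 0 ∧
      ∀ φ : K →+* ℂ, ‖φ (y : 𝓞 K)‖ ^ 2 ≤ g φ := by
    intro a
    obtain ⟨y, y0, hy1, hy2⟩ := (hM K h2 I g hI hg).1 l
      (AddMonoidHom.mk' (fun y => (bI.repr y 0 : ZMod l) + a * bI.repr y 1) fun y y' => by
        simp only [map_add, Finsupp.add_apply, Int.cast_add]
        ring) hl.one_le (by rw [hT]; gcongr)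
    rw [AddMonoidHom.mk'_apply] at hy1
    refine ⟨y, y0, hy1, fun h1 => ?_, hy2⟩
    rw [h1, mul_zero, add_zero] at hy1
    rw [ZMod.intCast_zmod_eq_zero_iff_dvd] at h1 hy1
    obtain ⟨c0, hc0⟩ := hy1
    obtain ⟨c1, hc1⟩ := h1
    obtain ⟨y', hy'⟩ : ∃ y' : I, y = (l : ℤ) • y' := ⟨c0 • bI 0 + c1 • bI 1, by
      conv_lhs => rw [← bI.sum_repr y]
      rw [Fin.sum_univ_two, hc0, hc1, smul_add, mul_smul, mul_smul]⟩
    have h3 := prod_eq h2 σ σ.injective B y'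
    have h4 := dvd_det B I hI (fun j => (y' : 𝓞 K) * B j) fun j => I.mul_mem_right _ y'.2
    generalize (B.det fun j => (y' : 𝓞 K) * B j) = z at h3 h4
    have z0 : z ≠ 0 := by
      rintro rfl
      rw [Int.cast_zero, mul_eq_zero] at h3
      apply y0
      have : y' = 0 := by rcases h3 with h | h <;> simpa using h
      rw [hy', this, smul_zero]
    have h5 : (Ideal.absNorm I : ℝ) ≤ |(z : ℝ)| := by exact_mod_cast Int.le_of_dvd (abs_pos.2 z0) ((dvd_abs _ _).2 h4)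
    have h6 := hbox _ _ hy2 hy2
    have h7 : σ 0 (y : 𝓞 K) * σ 1 (y : 𝓞 K) = (l : ℂ) ^ 2 * z := by
      rw [← h3, hy']
      simp
      ring
    rw [h7, norm_mul, norm_pow, Complex.norm_natCast, Complex.norm_intCast] at h6
    have h8 : (l : ℝ) ^ 2 * Ideal.absNorm I ≤ T * Ideal.absNorm I := le_trans (by gcongr) h6
    nlinarith
  choose y hy0 hy1 hy2 hy3 using hy
  have hinj : ∀ a b, cl (xc (y a : 𝓞 K)) = cl (xc (y b : 𝓞 K)) → a = b := by
    intro a b h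
    by_contra hne
    have h1 := he2 _ τ' (y a) (y b)
    have h3 := he2 _ σ (y a) (y b)
    have z0 : bI.repr (y a) 0 * bI.repr (y b) 1 - bI.repr (y a) 1 * bI.repr (y b) 0 ≠ 0 := by
      intro h4
      have h5 := congrArg (Int.cast (R := ZMod l)) h4
      push_cast at h5
      apply mul_ne_zero (mul_ne_zero (sub_ne_zero.2 hne) (hy2 a)) (hy2 b)
      linear_combination (bI.repr (y b) 1 : ZMod l) * hy1 a - (bI.repr (y a) 1 : ZMod l) * hy1 b - h5
    generalize bI.repr (y a) 0 * bI.repr (y b) 1 - bI.repr (y a) 1 * bI.repr (y b) 0 = z at h1 h3 z0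
    have hmu : ∀ w : 𝓞 K, mu τ w ≤ 1 := fun w =>
      max_le (tau_le _ _) (tau_le _ _)
    have h4 := (hcl _ _ h).trans (mul_le_one₀ (hmu _) ((norm_nonneg _).trans (le_max_left _ _)) (hmu _))
    rw [show τ 1 = τ' 0 from rfl, show τ 2 = τ' 1 from rfl, h1, norm_mul, norm_mul, hep, hdt, mul_one, mul_one,
      nint] at h4
    have h5 : ‖(z : ℚ_[p])‖ ≤ (p : ℝ) ^ (-k : ℤ) := by
      rwa [zpow_neg, zpow_natCast, ← one_div, le_div_iff₀ (by positivity)]
    have h6 : (p : ℝ) ^ k ≤ |(z : ℝ)| := by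
      exact_mod_cast Int.le_of_dvd (abs_pos.2 z0) ((dvd_abs _ _).2 ((Padic.norm_int_le_pow_iff_dvd _ _).1 h5))
    have h7 := (norm_sub_le _ _).trans (add_le_add (hbox _ _ (hy3 a) (hy3 b))
      ((congrArg norm (mul_comm _ _)).le.trans (hbox _ _ (hy3 b) (hy3 a))))
    rw [h3, norm_mul, norm_mul, hec, hds, Complex.norm_intCast] at h7
    have h8 : 4 * C0 ^ 2 * T * (Ideal.absNorm I * 1) ≤ |(z : ℝ)| * (Ideal.absNorm I * s) := by
      gcongr
      exact hT2.trans h6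
    have h9 : 0 < T * Ideal.absNorm I := by positivity
    nlinarith [mul_le_mul_of_nonneg_right (one_le_pow₀ hC0 (n := 2)) h9.le]
  refine ⟨univ.image fun a => ((y a : 𝓞 K) : K), fun w hw => ?_, fun w hw w' hw' h => ?_, ?_⟩
  · obtain ⟨a, -, rfl⟩ := mem_image.1 hw
    exact ⟨by simpa using hy0 a, ⟨_, (y a).2, rfl⟩, hy3 a⟩
  · obtain ⟨a, -, rfl⟩ := mem_image.1 (mem_coe.1 hw)
    obtain ⟨b, -, rfl⟩ := mem_image.1 (mem_coe.1 hw')
    rw [hinj a b h]
  · rw [card_image_of_injective _ fun a b h => hinj a b (congrArg (fun w => cl (xc w)) h), card_univ, ZMod.card]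
    have : 0 ≤ C0 * s * l := by positivity
    nlinarith [mul_le_mul_of_nonneg_right hC0 this]

end Pool.Agent.SX3
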