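import Pool.Agent.Lib.SX.Blue3
import Pool.Agent.Lib.SX.C_ETA

/-! One Minkowski element makes all slab monomials integral and small (quadratic field). -/

namespace Pool.Agent.SX3

open Finset NumberField Module Pool.Agent.SX2 Pool.Agent.SX2.Eta Pool.Agent.Szpiro98

namespace Etaq

variable {K : Type} [Field K] [NumberField K]

lemma gq_eq (δ : 𝓞 K) (S : Finset (Ideal (𝓞 K))) (v : Ideal (𝓞 K) → ℕ) (hq : ∀ q ∈ S, q ≠ ⊥)
    (hS : ∏ q ∈ S, q ^ v q = Ideal.span {δ}) (hδ : δ ≠ 0) (T : ℝ) (n j : ℕ) (φ : K →+* ℂ) :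
    gq S v δ T n j φ = T * Real.exp (∑ q ∈ S, ((j * v q / n : ℕ) : ℝ) * Real.log (Ideal.absNorm q) +
      2 * (j : ℝ) / n * Real.log ‖φ δ‖ - (j : ℝ) / n * ∑ q ∈ S, v q * Real.log (Ideal.absNorm q)) := by
  have hδ' : (δ : K) ≠ 0 := fun h => hδ (Subtype.ext h)
  have ht : 0 < ‖φ (δ : K)‖ := norm_pos_iff.mpr ((map_ne_zero φ).mpr hδ')
  unfold gq aj
  rw [nrm S _ hq, nrm_delta δ S v hq hS, Real.rpow_def_of_pos ht, ← Real.exp_mul, Real.exp_sub, Real.exp_add,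
    mul_comm (Real.log _), mul_comm (∑ q ∈ S, _) ((j : ℝ) / n)]
  ring

/-- the statement with all anchors indexed by one finite type -/
lemma core {ι : Type} [Fintype ι] (C0 : ℝ) (hC : 1 ≤ C0) (hM : MinkQ C0) (h3 : finrank ℚ K = 2) (δ : 𝓞 K)
    (S : Finset (Ideal (𝓞 K))) (v b : Ideal (𝓞 K) → ℕ) (T A u : ℝ) (n Q d x : ℕ) (j : ι → ℕ) (w : ι → K)
    (hδ : δ ≠ 0) (hS : ∏ q ∈ S, q ^ v q = Ideal.span {δ}) (hq : ∀ q ∈ S, q ≠ ⊥) (hT : 0 < T) (hA : 1 ≤ A)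
    (hφ : ∀ φ : K →+* ℂ, ‖φ δ‖ ≤ A) (hQ : 1 ≤ Q) (hd : d ≤ Q * x) (hn : 0 < n) (hu : u ≤ 2 * d)
    (hb : ∀ k, ∀ q ∈ S, Q * (j k * v q % n) / n = b q)
    (hw : ∀ k, BoxQ (aj S v n (j k)) (gq S v δ T n (j k)) (w k)) :
    ∃ Λ : K, Λ ≠ 0 ∧ IsIntegral ℤ (Λ * (δ : K) ^ (2 * d)) ∧ ∀ (m : ι → ℕ) (e : ℕ), ∑ k, m k = d →
      u ≤ (∑ k, (m k : ℝ) * j k) / n + e → (∑ k, (m k : ℝ) * j k) / n + e ≤ u + 1 →
      IsIntegral ℤ (Λ * (∏ k, w k ^ m k) * (δ : K) ^ e) ∧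
      ∀ φ : K →+* ℂ, ‖φ (Λ * (∏ k, w k ^ m k) * (δ : K) ^ e)‖ ^ 2 ≤
        C0 * √(dk K) * T ^ d * ((∏ q ∈ S, Ideal.absNorm q : ℕ) : ℝ) ^ (x + 1) * A ^ 2 := by
  have hδ' : (δ : K) ≠ 0 := fun h => hδ (Subtype.ext h)
  have ht : ∀ φ : K →+* ℂ, 0 < ‖φ (δ : K)‖ := fun φ => norm_pos_iff.mpr ((map_ne_zero φ).mpr hδ')
  have hQ' : (0 : ℝ) < Q := Nat.cast_pos.mpr hQ
  have hdk : 0 < dk K := abs_pos.mpr (Int.cast_ne_zero.mpr (discr_ne_zero K))
  have hC' : 0 < C0 * √(dk K) := mul_pos (lt_of_lt_of_le one_pos hC) (Real.sqrt_pos.mpr hdk)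
  have hL : ∀ q ∈ S, 0 ≤ Real.log (Ideal.absNorm q) := fun q h => Real.log_nonneg (one_le (hq q h))
  obtain ⟨c, hc⟩ : ∃ c : Ideal (𝓞 K) → ℕ, ∀ q, c q = ⌊u * v q - d * (b q + 1) / Q⌋₊ := ⟨_, fun _ => rfl⟩
  obtain ⟨lN, hlN⟩ : ∃ lN : ℝ, lN = ∑ q ∈ S, v q * Real.log (Ideal.absNorm q) := ⟨_, rfl⟩
  obtain ⟨lI, hlI⟩ : ∃ lI : ℝ, lI = ∑ q ∈ S, c q * Real.log (Ideal.absNorm q) := ⟨_, rfl⟩
  have hI : ∏ q ∈ S, q ^ c q ≠ ⊥ := prod_ne_zero_iff.mpr fun q h => pow_ne_zero _ (hq q h)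
  have hsum : ∑ φ : K →+* ℂ, Real.log ‖φ (δ : K)‖ = lN := by
    rw [← Real.log_prod fun φ _ => (ht φ).ne', Box.prod_norm, nrm_delta δ S v hq hS, Real.log_exp, hlN]
  have hcard : Fintype.card (K →+* ℂ) = 2 := by rw [Embeddings.card, h3]
  obtain ⟨Λ, hΛ, hint, hbd⟩ := (hM K h3 (∏ q ∈ S, q ^ c q)
    (fun φ => C0 * √(dk K) * Real.exp (u * lN - lI - 2 * u * Real.log ‖φ (δ : K)‖)) hI
    (fun φ => ⟨mul_pos hC' (Real.exp_pos _), by simp only [RingHom.comp_apply, RCLike.norm_conj]⟩)).2 (by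
      rw [prod_mul_distrib, prod_const, card_univ, hcard, ← Real.exp_sum, sum_sub_distrib, sum_const, card_univ, hcard,
        ← mul_sum, hsum, nrm S c hq, ← hlI, ← Real.exp_nat_mul, mul_left_comm, ← Real.exp_add]
      have h0 : ((2 : ℕ) : ℝ) * lI + (2 • (u * lN - lI) - 2 * u * lN) = 0 := by
        rw [nsmul_eq_mul]
        push_cast
        ring
      rw [h0, Real.exp_zero, mul_one])
  refine ⟨Λ, hΛ, ?_, fun m e hm h1 h2 => ⟨?_, fun φ => ?_⟩⟩
  · have h4 : δ ^ (2 * d) ∈ ∏ q ∈ S, q ^ c q := by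
      have h5 := mem δ S v c hS n (2 * d) (ι := Empty) Empty.elim Empty.elim Empty.elim (fun k => k.elim) fun q _ => by
        rw [hc, univ_eq_empty, sum_empty, zero_add]
        refine Nat.floor_le_of_le ?_
        have h6 : (0 : ℝ) ≤ d * (b q + 1) / Q := by positivity
        have h7 := mul_le_mul_of_nonneg_right hu (Nat.cast_nonneg (α := ℝ) (v q))
        push_cast
        linarith
      rwa [univ_eq_empty, prod_empty, one_mul] at h5
    exact_mod_cast hint _ h4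
  · choose y hy hyw using fun k => (hw k).1
    have h4 := mem δ S v c hS n e j m y hy fun q h => by
      rw [hc]
      refine Nat.floor_le_of_le ?_
      have h6 := (ex n Q (v q) (b q) d j m hn hQ hm fun k => hb k q h).1
      have h7 := mul_le_mul_of_nonneg_right h1 (Nat.cast_nonneg (α := ℝ) (v q))
      rw [Nat.cast_add, Nat.cast_sum, Nat.cast_mul]
      simp only [Nat.cast_mul (_ / n)]
      linarith
    have h5 := hint _ h4
    have h6 : (((∏ k, y k ^ m k) * δ ^ e : 𝓞 K) : K) = (∏ k, w k ^ m k) * (δ : K) ^ e := by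
      simp only [← hyw, RingOfIntegers.coe_eq_algebraMap, map_mul, map_prod, map_pow]
    rwa [h6, ← mul_assoc] at h5
  · obtain ⟨lt, hlt⟩ : ∃ lt : ℝ, lt = Real.log ‖φ (δ : K)‖ := ⟨_, rfl⟩
    obtain ⟨U, hU⟩ : ∃ U : ℝ, U = (∑ k, (m k : ℝ) * j k) / n := ⟨_, rfl⟩
    obtain ⟨G, hG⟩ : ∃ G : ι → ℝ, ∀ k, G k = ∑ q ∈ S, ((j k * v q / n : ℕ) : ℝ) * Real.log (Ideal.absNorm q) +
      2 * (j k : ℝ) / n * lt - (j k : ℝ) / n * lN := ⟨_, fun _ => rfl⟩
    have h4 : ∀ k, ‖φ (w k)‖ ^ 2 ≤ T * Real.exp (G k) := fun k => by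
      rw [hG, hlt, hlN, ← gq_eq δ S v hq hS hδ]
      exact (hw k).2 φ
    have h5 : ‖φ (∏ k, w k ^ m k)‖ ^ 2 ≤ T ^ d * Real.exp (∑ k, m k * G k) := by
      rw [map_prod, norm_prod, ← prod_pow, ← hm, ← prod_pow_eq_pow_sum, Real.exp_sum, ← prod_mul_distrib]
      refine prod_le_prod (fun k _ => by positivity) fun k _ => ?_
      rw [map_pow, norm_pow, ← pow_mul, mul_comm (m k), pow_mul, Real.exp_nat_mul, ← mul_pow]
      exact pow_le_pow_left₀ (by positivity) (h4 k) _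
    have h6 : ‖φ ((δ : K) ^ e)‖ ^ 2 = Real.exp (2 * e * lt) := by
      rw [map_pow, norm_pow, ← pow_mul, hlt, ← Real.exp_log (pow_pos (ht φ) (e * 2)), Real.log_pow]
      congr 1
      push_cast
      ring
    have h7 : ∑ k, m k * G k = ∑ q ∈ S, (∑ k, ((j k * v q / n : ℕ) : ℝ) * m k) * Real.log (Ideal.absNorm q) +
        2 * U * lt - U * lN := by
      simp only [hG, hU, mul_sub, mul_add, sum_sub_distrib, sum_add_distrib, mul_sum, sum_mul, sum_div]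
      rw [sum_comm]
      congr 1
      · congr 1
        · exact sum_congr rfl fun _ _ => sum_congr rfl fun _ _ => by ring
        · exact sum_congr rfl fun _ _ => by ring
      · exact sum_congr rfl fun _ _ => by ring
    have h8 : ((∏ q ∈ S, Ideal.absNorm q : ℕ) : ℝ) ^ (x + 1) * A ^ 2 =
        Real.exp (∑ q ∈ S, (x + 1) * Real.log (Ideal.absNorm q) + 2 * Real.log A) := by
      have h9 := nrm S (fun _ => x + 1) hq
      rw [prod_pow, map_pow, map_prod, Nat.cast_pow, Nat.cast_add, Nat.cast_one] at h9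
      rw [Real.exp_add, ← h9, ← Real.exp_log (pow_pos (lt_of_lt_of_le one_pos hA) 2), Real.log_pow, Nat.cast_ofNat]
    have h9 : (U + e - u) * lt ≤ Real.log A := by
      have hA0 := Real.log_nonneg hA
      have hlA : lt ≤ Real.log A := hlt ▸ Real.log_le_log (ht φ) (hφ φ)
      rw [← hU] at h1 h2
      have := mul_le_mul_of_nonneg_left hlA (sub_nonneg.mpr h1)
      have := mul_le_mul_of_nonneg_right (show U + e - u ≤ 1 by linarith) hA0
      linarith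
    have h10 : (u - U) * lN - lI + ∑ q ∈ S, (∑ k, ((j k * v q / n : ℕ) : ℝ) * m k) * Real.log (Ideal.absNorm q) ≤
        ∑ q ∈ S, (x + 1) * Real.log (Ideal.absNorm q) := by
      rw [hlN, hlI, mul_sum, ← sum_sub_distrib, ← sum_add_distrib]
      refine sum_le_sum fun q h => ?_
      rw [← mul_assoc, ← sub_mul, ← add_mul]
      refine mul_le_mul_of_nonneg_right ?_ (hL q h)
      have h11 := (ex n Q (v q) (b q) d j m hn hQ hm fun k => hb k q h).2
      have h12 := Nat.lt_floor_add_one (u * v q - d * (b q + 1) / Q)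
      have h13 : (d : ℝ) / Q ≤ x := by
        rw [div_le_iff₀ hQ', mul_comm]
        exact_mod_cast hd
      have h14 : (d : ℝ) * (b q + 1) / Q = d * b q / Q + d / Q := by ring
      rw [← hc] at h12
      rw [← hU] at h11
      linarith
    have h11 := hbd φ
    rw [← hlt] at h11
    rw [map_mul, map_mul, norm_mul, norm_mul, mul_pow, mul_pow, h6, mul_assoc (_ * T ^ d), h8]
    calc _ ≤ C0 * √(dk K) * Real.exp (u * lN - lI - 2 * u * lt) * (T ^ d * Real.exp (∑ k, m k * G k)) *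
          Real.exp (2 * e * lt) :=
          mul_le_mul_of_nonneg_right (mul_le_mul h11 h5 (by positivity) (by positivity)) (Real.exp_pos _).le
      _ = C0 * √(dk K) * T ^ d * Real.exp (u * lN - lI - 2 * u * lt + ∑ k, m k * G k + 2 * e * lt) := by
          rw [Real.exp_add, Real.exp_add]
          ring
      _ ≤ _ := by
          refine mul_le_mul_of_nonneg_left (Real.exp_le_exp.mpr ?_) (by positivity)
          rw [h7]
          linarith

end Etaq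

theorem st_etaq : St_ETAQ := by
  intro C0 hC hM K _ _ h3 δ S v T A κ n Q d x j0 j w0 w hδ hS hq hT hA hφ hQ hd hj0 hj hw0 hw
  have hn : 0 < n := lt_of_le_of_lt (Nat.zero_le _) hj0
  have hn' : (0 : ℝ) < n := Nat.cast_pos.mpr hn
  obtain ⟨Λ, h1, h2, h4⟩ := Etaq.core (ι := Option (Fin κ)) C0 hC hM h3 δ S v (fun q => Q * (j0 * v q % n) / n) T A
    (j0 * d / n + d) n Q d x (fun k => k.elim j0 j) (fun k => k.elim w0 w) hδ hS hq hT hA hφ hQ hd hn (by
      have h5 : (j0 : ℝ) * d / n ≤ d := by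
        rw [div_le_iff₀ hn', mul_comm]
        exact mul_le_mul_of_nonneg_left (Nat.cast_le.mpr hj0.le) (Nat.cast_nonneg _)
      linarith)
    (fun k => k.casesOn (fun _ _ => rfl) fun k => (hj k).2) (fun k => k.casesOn hw0 hw)
  refine ⟨Λ, h1, h2, fun m e ⟨hm1, hm2, hm3⟩ => ?_⟩
  have h5 : ∑ k : Option (Fin κ), ((k.elim (d - ∑ k, m k) m : ℕ) : ℝ) * (k.elim j0 j : ℕ) =
      j0 * d + ((∑ k, ((j k : ℤ) - j0) * m k : ℤ) : ℝ) := by
    rw [Fintype.sum_option]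
    simp only [Option.elim]
    rw [Nat.cast_sub hm1]
    push_cast
    simp only [sub_mul, sum_sub_distrib, sum_mul, ← mul_sum, mul_comm ((m _ : ℕ) : ℝ)]
    ring
  have hm2' : (n : ℝ) * d ≤ ((∑ k, ((j k : ℤ) - j0) * m k : ℤ) : ℝ) + n * e := by exact_mod_cast hm2
  have hm3' : ((∑ k, ((j k : ℤ) - j0) * m k : ℤ) : ℝ) + n * e < n * d + n := by exact_mod_cast hm3
  have h6 := h4 (fun k => k.elim (d - ∑ k, m k) m) e (by
      rw [Fintype.sum_option]
      exact Nat.sub_add_cancel hm1) (by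
      rw [h5, add_div, add_assoc, add_le_add_iff_left, ← sub_le_iff_le_add, le_div_iff₀ hn']
      linarith) (by
      rw [h5, add_div, add_assoc, add_assoc, add_le_add_iff_left, ← le_sub_iff_add_le, div_le_iff₀ hn']
      linarith)
  rw [Fintype.prod_option] at h6
  simp only [Option.elim] at h6
  rwa [mul_comm (w0 ^ _), ← mul_assoc] at h6

end Pool.Agent.SX3
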