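import Pool.Agent.Lib.SX.Blue3
import Pool.Agent.Lib.SX.C_SIEG2

/-! Block EXT: one coefficient with respect to block `0`. -/

namespace Pool.Agent.SX3

open Finset MvPolynomial Pool.Agent.SX Pool.Agent.SX2

namespace Ext

variable {κ : ℕ}

/-- the part of an exponent in block `0` -/
noncomputable def b0 (m : VI κ →₀ ℕ) : VI κ →₀ ℕ := m.filter fun l => l.1 = 0

/-- the part of an exponent outside block `0` -/
noncomputable def r0 (m : VI κ →₀ ℕ) : VI κ →₀ ℕ := m.filter fun l => ¬l.1 = 0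

lemma split (m : VI κ →₀ ℕ) : b0 m + r0 m = m := Finsupp.filter_add_filter_not m _

lemma b0_in (m : VI κ →₀ ℕ) (s : Option (Fin κ)) : b0 m (0, s) = m (0, s) := by
  simp [b0]

lemma b0_out (m : VI κ →₀ ℕ) {l : VI κ} (h : l.1 ≠ 0) : b0 m l = 0 := by
  simp [b0, h]

lemma r0_in (m : VI κ →₀ ℕ) (s : Option (Fin κ)) : r0 m (0, s) = 0 := by
  simp [r0]

lemma b0_congr {m m' : VI κ →₀ ℕ} (h : ∀ s, m (0, s) = m' (0, s)) : b0 m = b0 m' := by
  ext ⟨i, s⟩
  by_cases hi : i = 0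
  · subst hi
    rw [b0_in, b0_in, h]
  · rw [b0_out _ hi, b0_out _ hi]

/-- the coefficient of the block-`0` monomial of `m0` -/
noncomputable def H0 (F : AP κ) (m0 : VI κ →₀ ℕ) : AP κ := by
  classical exact ∑ m ∈ F.support with b0 m = b0 m0, monomial (r0 m) (F.coeff m)

/-- ring maps that respect the grading by block `0` -/
def Keep (φ : AP κ →+* AP κ) : Prop :=
  (∀ s, φ (X (0, s)) = X (0, s)) ∧ ∀ m, ∀ μ ∈ (φ (monomial m 1)).support, ∀ s, μ (0, s) = m (0, s)

lemma mon (φ : AP κ →+* AP κ) (m : VI κ →₀ ℕ) (c : ℤ) : φ (monomial m c) = C c * φ (monomial m 1) := by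
  rw [← mul_one c, ← C_mul_monomial, map_mul, mul_one, eq_intCast (C : ℤ →+* AP κ), map_intCast]

lemma Keep.fix {φ : AP κ →+* AP κ} (h : Keep φ) (m : VI κ →₀ ℕ) : φ (monomial (b0 m) 1) = monomial (b0 m) 1 := by
  refine hom_congr_vars (f₂ := RingHom.id _) (RingHom.ext_int _ _) (fun l hl _ => ?_) rfl
  obtain ⟨μ, h1, h2⟩ := (mem_vars_iff_mem_support l).1 hl
  classical
  rw [mem_singleton.1 (support_monomial_subset h1), Finsupp.mem_support_iff] at h2
  obtain ⟨i, s⟩ := l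
  obtain rfl : i = 0 := by_contra fun hi => h2 (b0_out _ hi)
  exact h.1 s

lemma Keep.supp {φ : AP κ →+* AP κ} (h : Keep φ) {F : AP κ} {m0 ν : VI κ →₀ ℕ}
    (hν : ν ∈ (φ (H0 F m0)).support) (s : Option (Fin κ)) : ν (0, s) = 0 := by
  classical
  rw [mem_support_iff, H0, map_sum, coeff_sum] at hν
  obtain ⟨m, -, hm⟩ := exists_ne_zero_of_sum_ne_zero hν
  rw [mon, coeff_C_mul] at hm
  rw [h.2 _ _ (mem_support_iff.2 (right_ne_zero_of_mul hm)), r0_in]

lemma Keep.coef {φ : AP κ →+* AP κ} (h : Keep φ) (F : AP κ) (m0 : VI κ →₀ ℕ) {ν : VI κ →₀ ℕ}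
    (hν : ∀ s, ν (0, s) = 0) : (φ (H0 F m0)).coeff ν = (φ F).coeff (b0 m0 + ν) := by
  classical
  conv_rhs => rw [F.as_sum]
  rw [H0, map_sum, map_sum, coeff_sum, coeff_sum, sum_filter]
  refine sum_congr rfl fun m _ => ?_
  rw [mon φ m, coeff_C_mul]
  split_ifs with hm
  · have e : (monomial m 1 : AP κ) = monomial (b0 m) 1 * monomial (r0 m) 1 := by
      rw [monomial_mul, split, mul_one]
    rw [mon, coeff_C_mul, e, map_mul, h.fix, hm, coeff_monomial_mul, one_mul]
  · refine (mul_eq_zero_of_right _ (notMem_support_iff.1 fun h1 => hm (b0_congr fun s => ?_))).symm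
    rw [← h.2 _ _ h1, Finsupp.add_apply, hν, add_zero, b0_in]

lemma Keep.mem {φ : AP κ →+* AP κ} (h : Keep φ) {F : AP κ} {m0 ν : VI κ →₀ ℕ}
    (hν : ν ∈ (φ (H0 F m0)).support) : b0 m0 + ν ∈ (φ F).support := by
  rw [mem_support_iff, ← h.coef F m0 (h.supp hν)]
  exact mem_support_iff.1 hν

lemma keep_id : Keep (RingHom.id (AP κ)) := by
  classical
  refine ⟨fun _ => rfl, fun m μ h s => ?_⟩
  rw [mem_singleton.1 (support_monomial_subset h)]

lemma keep_dg {a b : Fin 3} (ha : 0 ≠ a) (hb : 0 ≠ b) : Keep (dg a b : AP κ →+* AP κ) :=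
  ⟨fun s => by rw [dg, eval₂Hom_X', if_neg ha], fun _ _ h s => Sieg2.hom_c ha hb h s⟩

lemma low_dg {a b : Fin 3} (ha : 0 ≠ a) (hb : 0 ≠ b) {x : ℕ} {d' : ℤ} {F : AP κ} (m0 : VI κ →₀ ℕ) (d : ℕ)
    (h : Low (uw a x) d' (dg a b F)) : Low (uw a x) d' (dg a b (H0 F m0 * X (0, none) ^ d)) := by
  have h1 : Low (uw a x) d' (dg a b (H0 F m0)) := fun ν hν => by
    have h2 := h _ ((keep_dg ha hb).mem hν)
    have h3 : Finsupp.weight (uw a x) (b0 m0) = 0 := by
      rw [Sieg2.w_uw]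
      simp [b0_out m0 (l := (a, _)) ha.symm]
    rwa [map_add, h3, zero_add] at h2
  rw [map_mul]
  simpa using h1.mul (low_of_nonneg (a := 0) (fun l => by
    obtain ⟨i, _ | k⟩ := l <;> simp only [uw] <;> split_ifs <;> simp) le_rfl _)

end Ext

open Ext in
theorem st_ext : St_EXT := by
  classical
  intro κ n d d' x J F hn hF hS hD
  obtain ⟨m0, hm0⟩ := ne_zero_iff.1 hF
  have e : (X (0, none) ^ d : AP κ) = monomial (Finsupp.single (0, none) d) 1 := X_pow_eq_monomial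
  refine ⟨H0 F m0 * X (0, none) ^ d, ?_, ?_, ?_, low_dg (by decide) (by decide) m0 d (hD 1 2 (by decide)),
    low_dg (by decide) (by decide) m0 d (hD 2 1 (by decide)), ?_⟩
  · refine ne_zero_iff.2 ⟨r0 m0 + Finsupp.single (0, none) d, ?_⟩
    have h := keep_id.coef F m0 (r0_in m0)
    rw [split] at h
    rw [e, coeff_mul_monomial, mul_one]
    exact h.trans_ne hm0
  · intro m hm i
    rw [e] at hm
    obtain ⟨ν, hν, μ, hμ, rfl⟩ := mem_add.1 (support_mul _ _ hm)
    obtain rfl := mem_singleton.1 (support_monomial_subset hμ)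
    have h0 := keep_id.supp (F := F) (m0 := m0) hν
    by_cases hi : i = 0
    · subst hi
      have n0 : 0 < n := hn
      simp [Slab, h0, n0]
    · have h1 := hS _ (keep_id.mem (F := F) (m0 := m0) hν) i
      simpa [b0_out m0 (l := (i, _)) hi, Finsupp.single_apply, Ne.symm hi] using h1
  · refine (l1_mul_le _ _).trans ?_
    rw [e, l1_monomial, Int.natAbs_one, mul_one, H0]
    refine (l1_sum_le _ _).trans ?_
    simp only [l1_monomial]
    exact sum_le_sum_of_subset (filter_subset _ _)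
  · intro E _ ξ z z1 z2 h
    have h1 : mf ξ ![z, z1, z2] (H0 F m0) = mf ξ ![1, z1, z2] (H0 F m0) := by
      refine hom_congr_vars (RingHom.ext_int _ _) (fun l hl _ => ?_) rfl
      obtain ⟨μ, h1, h2⟩ := (mem_vars_iff_mem_support l).1 hl
      obtain ⟨i, s⟩ := l
      have hi : i ≠ 0 := fun hi => by
        subst hi
        exact Finsupp.mem_support_iff.1 h2 (keep_id.supp (F := F) (m0 := m0) h1 s)
      rw [mf, mf, eval₂Hom_X', eval₂Hom_X']
      fin_cases i
      · exact absurd rfl hi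
      · rfl
      · rfl
    have h2 : mf ξ ![z, z1, z2] (H0 F m0 * X (0, none) ^ d)
        = C (z ^ d) * mf ξ ![1, z1, z2] (H0 F m0 * X (0, none) ^ d) := by
      rw [map_mul, map_mul, h1, map_pow, map_pow, map_pow, mf, mf, eval₂Hom_X', eval₂Hom_X']
      simp only [Option.elim_none, Matrix.cons_val_zero, map_one, one_mul, mul_pow]
      ring
    rw [h2]
    exact h.C_mul _

end Pool.Agent.SX3
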