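import Pool.Agent.Lib.SX.Blue3
import Pool.Agent.Lib.SX.C_FACT

/-! Prime factorisation of a principal ideal in a quadratic field, with the count and the norm of its primes. -/

namespace Pool.Agent.SX3

open Finset NumberField Module Pool.Agent.SX Pool.Agent.SX2 UniqueFactorizationMonoid

namespace FactQ

variable {K : Type} [Field K] [NumberField K]

lemma fib (hK : finrank ℚ K = 2) {p : ℕ} (hp : p.Prime) {U : Finset (Ideal (𝓞 K))}
    (h : ∀ q ∈ U, q.IsPrime ∧ q ≠ ⊥ ∧ p ∣ Ideal.absNorm q ∧ (p : 𝓞 K) ∈ q) :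
    U.card ≤ 2 ∧ ∏ q ∈ U, Ideal.absNorm q ≤ p ^ 2 := by
  have h0 : ∏ q ∈ U, q ∣ Ideal.span {(p : 𝓞 K)} := by
    refine prod_dvd_of_coprime (fun q hq q' hq' e => ?_) fun q hq => Ideal.dvd_span_singleton.2 (h q hq).2.2.2
    exact Ideal.isCoprime_iff_sup_eq.2 (((h q hq).1.isMaximal (h q hq).2.1).coprime_of_ne
      ((h q' hq').1.isMaximal (h q' hq').2.1) e)
  have h1 : ∏ q ∈ U, Ideal.absNorm q ∣ p ^ 2 := by
    have h2 := map_dvd Ideal.absNorm h0
    rwa [map_prod, Ideal.absNorm_span_natCast, RingOfIntegers.rank, hK] at h2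
  refine ⟨(Nat.pow_dvd_pow_iff_le_right hp.one_lt).1 (dvd_trans ?_ h1), Nat.le_of_dvd (pow_pos hp.pos 2) h1⟩
  rw [← prod_const]
  exact prod_dvd_prod_of_dvd _ _ fun q hq => (h q hq).2.2.1

end FactQ

open FactQ in
theorem st_factq : St_FACTQ := by
  classical
  intro K _ _ hK δ D hD hN
  have hn : Ideal.absNorm (Ideal.span {δ}) = D.natAbs := by
    rw [Ideal.absNorm_span_singleton]
    have h1 : ((Algebra.norm ℤ δ : ℤ) : ℚ) = D := by rw [Algebra.coe_norm_int, hN]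
    rw [Int.cast_injective h1]
  have hD' : D.natAbs ≠ 0 := Int.natAbs_ne_zero.2 hD
  have hI : (Ideal.span {δ} : Ideal (𝓞 K)) ≠ ⊥ := fun h => hD' (by rw [← hn, h, Ideal.absNorm_bot])
  set S := (normalizedFactors (Ideal.span {δ} : Ideal (𝓞 K))).toFinset with hS
  have hp : ∀ q ∈ S, Prime q ∧ q ∣ Ideal.span {δ} := fun q hq =>
    ⟨prime_of_normalized_factor q (Multiset.mem_toFinset.1 hq),
      dvd_of_mem_normalizedFactors (Multiset.mem_toFinset.1 hq)⟩
  have hb : ∀ q : Ideal (𝓞 K), ∃ p : ℕ, q ∈ S → p.Prime ∧ p ∣ Ideal.absNorm q ∧ (p : 𝓞 K) ∈ q := fun q => by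
    by_cases hq : q ∈ S
    · obtain ⟨p, h⟩ := SX2.FactB.below (Ideal.isPrime_of_prime (hp q hq).1) (hp q hq).1.ne_zero
      exact ⟨p, fun _ => h⟩
    · exact ⟨0, fun h => (hq h).elim⟩
  choose bl hbl using hb
  have hm : ∀ q ∈ S, bl q ∈ D.natAbs.primeFactors := fun q hq =>
    Nat.mem_primeFactors.2 ⟨(hbl q hq).1, (hbl q hq).2.1.trans (hn ▸ map_dvd Ideal.absNorm (hp q hq).2), hD'⟩
  have hf : ∀ p ∈ D.natAbs.primeFactors, (S.filter fun q => bl q = p).card ≤ 2 ∧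
      ∏ q ∈ S.filter fun q => bl q = p, Ideal.absNorm q ≤ p ^ 2 := fun p hp' =>
    fib hK (Nat.prime_of_mem_primeFactors hp') fun q hq => by
      obtain ⟨h1, h2⟩ := mem_filter.1 hq
      exact ⟨Ideal.isPrime_of_prime (hp q h1).1, (hp q h1).1.ne_zero, h2 ▸ (hbl q h1).2.1, h2 ▸ (hbl q h1).2.2⟩
  refine ⟨S, fun q => (normalizedFactors (Ideal.span {δ} : Ideal (𝓞 K))).count q, fun q hq => (hp q hq).1.ne_zero, ?_,
    card_le_mul_card_image_of_maps_to hm 2 fun p hp' => (hf p hp').1, ?_⟩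
  · rw [hS, ← prod_multiset_count]
    exact Ideal.prod_normalizedFactors_eq_self hI
  · rw [← prod_fiberwise_of_maps_to hm, rad, ← prod_pow]
    exact prod_le_prod' fun p hp' => (hf p hp').2

end Pool.Agent.SX3
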