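import Pool.Agent.Lib.SX.Blue3
import Pool.Agent.Lib.Szpiro98.GLUE
import Pool.Agent.Lib.Szpiro98.Sum

/-! Block GL: the old bounds and the bound at large primes give the global bound. -/

namespace Pool.Agent.SX3

open Finset Pool.Agent.Szpiro98 Pool.Agent.Szpiro98.GLUE Pool.Agent.Szpiro98.SumB

namespace Gl

lemma one_le_prod {C : ℝ} (hC : 10 ≤ C) {S : Finset ℕ} (hS : ∀ q ∈ S, q.Prime) :
    1 ≤ ∏ q ∈ S, C * Real.log q ^ 3 := by
  calc (1 : ℝ) = ∏ _q ∈ S, (1 : ℝ) := by simp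
    _ ≤ _ := Finset.prod_le_prod (fun _ _ => zero_le_one) fun q hq => (fac_ge hC (hS q hq)).1

lemma log_le {C : ℝ} (hC : 10 ≤ C) {S : Finset ℕ} (hS : ∀ q ∈ S, q.Prime) {p : ℕ} (hp : p ∈ S) :
    Real.log p ≤ ∏ q ∈ S, C * Real.log q ^ 3 := by
  rw [← Finset.mul_prod_erase _ _ hp]
  have h1 := one_le_prod hC (S := S.erase p) fun q hq => hS q (Finset.mem_of_mem_erase hq)
  obtain ⟨h2, h3⟩ := fac_ge hC (hS p hp)
  nlinarith

lemma card_le {η : ℝ} {R : ℕ} {S T : Finset ℕ} (hS : ∀ q ∈ S, q.Prime) (hR : ∏ q ∈ S, q ≤ R)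
    (hT : T ⊆ S) (h : ∀ p ∈ T, (R : ℝ) ^ η ≤ p) : T.card * η ≤ 1 := by
  rcases T.eq_empty_or_nonempty with rfl | ⟨q, hq⟩
  · simp
  have h1 : ∏ p ∈ T, p ≤ R :=
    (Finset.prod_le_prod_of_subset_of_one_le' hT fun p hp _ => (hS p hp).one_lt.le).trans hR
  have h2 : 2 ≤ ∏ p ∈ T, p := (hS q (hT hq)).two_le.trans
    (Finset.single_le_prod' (f := fun p : ℕ => p) (fun p hp => (hS p (hT hp)).one_lt.le) hq)
  have h3 : (1 : ℝ) < R := by exact_mod_cast (by omega : 1 < R)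
  have h4 : ((R : ℝ) ^ η) ^ T.card ≤ R := by
    rw [← Finset.prod_const]
    refine (Finset.prod_le_prod (fun _ _ => by positivity) h).trans ?_
    rw [← Nat.cast_prod]
    exact Nat.cast_le.2 h1
  rw [← Real.rpow_natCast, ← Real.rpow_mul (by linarith)] at h4
  have h5 := (Real.rpow_le_rpow_left_iff h3).1 (h4.trans (Real.rpow_one _).ge)
  linarith

lemma log_ge {L : ℝ} (hL : 6 ≤ L) : 1 ≤ Real.log L := by
  rw [Real.le_log_iff_exp_le (by linarith)]
  have := Real.exp_one_lt_d9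
  linarith

lemma bnd_mono {C D κ κ' L : ℝ} (hC : 10 ≤ C) {S : Finset ℕ} (hS : ∀ q ∈ S, q.Prime) (hD : 1 ≤ D)
    (hL : 6 ≤ L) (h : κ ≤ κ') : bnd C S D κ L ≤ bnd C S D κ' L := by
  have h1 := one_le_prod hC hS
  have h2 := log_ge hL
  unfold bnd
  gcongr

lemma prod_le_bnd {C D κ L : ℝ} (hC : 10 ≤ C) {S : Finset ℕ} (hS : ∀ q ∈ S, q.Prime) (hD : 1 ≤ D)
    (hL : 6 ≤ L) (h : 1 ≤ κ) : ∏ q ∈ S, C * Real.log q ^ 3 ≤ bnd C S D κ L := by
  have h1 := one_le_prod hC hS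
  have h2 : 1 ≤ Real.log L ^ 3 := one_le_pow₀ (log_ge hL)
  have h3 : 1 ≤ √D * (1 + Real.log D) ^ 4 := one_le_mul_of_one_le_of_one_le (Real.one_le_sqrt.2 hD)
    (one_le_pow₀ (by linarith [Real.log_nonneg hD]))
  calc ∏ q ∈ S, C * Real.log q ^ 3 = 1 * (∏ q ∈ S, C * Real.log q ^ 3) * 1 * 1 * 1 := by ring
    _ ≤ _ := by
      unfold bnd
      gcongr
      linarith

/-- the final numerical summation -/
lemma num {C η : ℝ} (M : ℕ) (hC : 10 ≤ C) (hη : 0 < η) (η1 : η ≤ 1 / 4) :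
    ∃ B : ℝ, 0 ≤ B ∧ ∀ (S : Finset ℕ) (R : ℕ) (D L : ℝ), (∀ q ∈ S, q.Prime) → ∏ q ∈ S, q ≤ R →
      1 ≤ D → D ≤ M * (R : ℝ) ^ 2 → 6 ≤ L →
      L ≤ (S.card + 1) * (384 * bnd C S D (4 * (R : ℝ) ^ η) L) → L ≤ B * (R : ℝ) ^ (8 * η) * √D := by
  obtain ⟨K, K1, hK⟩ := prod_le (C := 2 * C) (by linarith) hη
  obtain ⟨B, hB⟩ : ∃ B : ℝ,
      B = 1536 * C * K * (1 + 4 / η) ^ 4 * (M : ℝ) ^ η * ((3 : ℕ) / η) ^ 3 := ⟨_, rfl⟩
  have B0 : 0 ≤ B := by rw [hB]; positivity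
  refine ⟨B * (B ^ 2 * M) ^ η, by positivity, fun S R D L hS hR hD hDM hL h => ?_⟩
  have hS1 : ∀ q ∈ S, 1 ≤ q := fun q hq => (hS q hq).one_lt.le
  have N1 : (1 : ℝ) ≤ R := by exact_mod_cast (Finset.one_le_prod' hS1).trans hR
  set N : ℝ := (R : ℝ) with hN
  have h1 : ((S.card : ℝ) + 1) * ∏ q ∈ S, C * Real.log q ^ 3 ≤ K * N ^ η := by
    have e1 : (S.card : ℝ) + 1 ≤ 2 ^ S.card := by exact_mod_cast Nat.lt_two_pow_self
    have e2 : ((∏ q ∈ S, q : ℕ) : ℝ) ≤ N := by rw [hN]; exact_mod_cast hR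
    calc _ ≤ 2 ^ S.card * ∏ q ∈ S, C * Real.log q ^ 3 :=
          mul_le_mul_of_nonneg_right e1 (by linarith [one_le_prod hC hS])
      _ = ∏ q ∈ S, 2 * C * Real.log q ^ 3 := by
          simp only [mul_assoc, prod_mul_distrib (f := fun _ => (2 : ℝ)), prod_const]
      _ ≤ _ := hK _ hS1
      _ ≤ _ := mul_le_mul_of_nonneg_left (Real.rpow_le_rpow (by positivity) e2 hη.le) (by linarith)
  have h2 : (1 + Real.log D) ^ 4 ≤ (1 + 4 / η) ^ 4 * ((M : ℝ) ^ η * (N ^ η * N ^ η)) := by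
    refine (one_add_log_le hD hη).trans (mul_le_mul_of_nonneg_left ?_ (by positivity))
    rw [← Real.mul_rpow (by linarith) (by linarith), ← Real.mul_rpow (by positivity) (by positivity),
      ← pow_two]
    exact Real.rpow_le_rpow (by linarith) hDM hη.le
  have h3 := log_pow_le (by linarith : 1 ≤ L) hη 3 (by norm_num)
  have l1 := Real.log_nonneg hD
  have l2 := log_ge hL
  have h4 : L ≤ B * (N ^ (4 * η) * √D) * L ^ η := by
    have e : N ^ (4 * η) = N ^ η * N ^ η * N ^ η * N ^ η := by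
      rw [← Real.rpow_add (by linarith), ← Real.rpow_add (by linarith),
        ← Real.rpow_add (by linarith)]
      ring_nf
    calc L ≤ _ := h
      _ = 1536 * C * (((S.card : ℝ) + 1) * ∏ q ∈ S, C * Real.log q ^ 3) *
            (√D * (1 + Real.log D) ^ 4) * N ^ η * Real.log L ^ 3 := by
          rw [bnd]; ring
      _ ≤ 1536 * C * (K * N ^ η) *
            (√D * ((1 + 4 / η) ^ 4 * ((M : ℝ) ^ η * (N ^ η * N ^ η)))) * N ^ η *
            (((3 : ℕ) / η) ^ 3 * L ^ η) := by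
          gcongr
      _ = _ := by rw [e, hB]; ring
  have h5 := boot (by linarith) hη (by linarith) h4
  have h6 : (B * (N ^ (4 * η) * √D)) ^ 2 ≤ B ^ 2 * M * N ^ (4 : ℝ) := by
    have a1 : N ^ (4 * η) ≤ N :=
      (Real.rpow_le_rpow_of_exponent_le N1 (by linarith)).trans (Real.rpow_one _).le
    have a2 : N ^ (4 : ℝ) = N ^ 2 * N ^ 2 := by
      rw [show (4 : ℝ) = (4 : ℕ) by norm_num, Real.rpow_natCast]; ring
    rw [mul_pow, mul_pow, Real.sq_sqrt (by linarith), a2]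
    calc B ^ 2 * ((N ^ (4 * η)) ^ 2 * D) ≤ B ^ 2 * (N ^ 2 * (M * N ^ 2)) := by gcongr
      _ = _ := by ring
  have h7 : ((B * (N ^ (4 * η) * √D)) ^ 2) ^ η ≤ (B ^ 2 * M) ^ η * N ^ (4 * η) := by
    have a3 : N ^ (4 * η) = (N ^ (4 : ℝ)) ^ η := Real.rpow_mul (by linarith) _ _
    refine (Real.rpow_le_rpow (by positivity) h6 hη.le).trans (le_of_eq ?_)
    rw [a3, Real.mul_rpow (by positivity) (by positivity)]
  calc L ≤ _ := h5
    _ ≤ B * (N ^ (4 * η) * √D) * ((B ^ 2 * M) ^ η * N ^ (4 * η)) := by gcongr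
    _ = _ := by
        rw [show 8 * η = 4 * η + 4 * η by ring, Real.rpow_add (by linarith)]; ring

end Gl

open Gl in
theorem st_gl : St_GL := by
  intro C ε M hC hε
  obtain ⟨η, η0, η1, ηε⟩ : ∃ η : ℝ, 0 < η ∧ η ≤ 1 / 4 ∧ 8 * η ≤ ε :=
    ⟨min (1 / 4) (ε / 8), by positivity, min_le_left _ _, by linarith [min_le_right (1 / 4) (ε / 8)]⟩
  obtain ⟨B, B0, hB⟩ := num M hC η0 η1
  refine ⟨η / 12, by positivity, fun C1 => ⟨max C1 B, ?_⟩⟩
  intro c0 S R D L hc0 hS hSS hR hD hDM hL hO hbig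
  have N1 : (1 : ℝ) ≤ R := by
    exact_mod_cast (Finset.one_le_prod' fun q hq => (hS q hq).one_lt.le).trans hR
  obtain ⟨Q, hQd⟩ : ∃ Q : ℝ, Q = (R : ℝ) ^ η := ⟨_, rfl⟩
  have hQ : 1 ≤ Q := hQd ▸ Real.one_le_rpow N1 η0.le
  classical
  obtain ⟨T, hT⟩ : ∃ T : Finset ℕ, T = c0.natAbs.primeFactors.filter fun p : ℕ =>
      5 ≤ p ∧ Even (padicValInt p c0) ∧ 30 < padicValInt p c0 ∧ Q ≤ p := ⟨_, rfl⟩
  have hTs : T ⊆ c0.natAbs.primeFactors := hT ▸ Finset.filter_subset _ _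
  by_cases hb : ∃ p ∈ T, η / 12 * L ≤ padicValInt p c0 * Real.log p
  · obtain ⟨p, hp, h⟩ := hb
    rw [hT, Finset.mem_filter] at hp
    obtain ⟨h0, h1, h2, h3, -⟩ := hp
    refine (hbig p (Nat.prime_of_mem_primeFactors h0) h1 h3 h2 h).trans ?_
    gcongr
    exact le_max_left _ _
  push Not at hb
  refine (hB S R D L hS hR hD hDM hL ?_).trans ?_
  swap
  · exact mul_le_mul_of_nonneg_right (mul_le_mul (le_max_right _ _)
      (Real.rpow_le_rpow_of_exponent_le N1 ηε) (by positivity) (B0.trans (le_max_right _ _)))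
      (by positivity)
  rw [← hQd]
  have hTc : T.card * η ≤ 1 := card_le hS hR (hTs.trans hSS) fun p hp => by
    rw [hT, Finset.mem_filter] at hp
    exact hQd ▸ hp.2.2.2.2
  obtain ⟨U, hU⟩ : ∃ U : ℝ, U = bnd C S D (4 * Q) L := ⟨_, rfl⟩
  have hPU : ∏ q ∈ S, C * Real.log q ^ 3 ≤ U := hU ▸ prod_le_bnd hC hS hD hL (by linarith)
  have hU2 : 1 ≤ U := (one_le_prod hC hS).trans hPU
  have hcard : (0 : ℝ) ≤ S.card := Nat.cast_nonneg _
  rw [← hU]
  have b1 : bnd C S D 1 L ≤ U := hU ▸ bnd_mono hC hS hD hL (by linarith)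
  by_cases hLU : L ≤ U
  · nlinarith
  push Not at hLU
  have c1 := hO.1 (b1.trans_lt hLU)
  have c2 : ∀ p ∈ c0.natAbs.primeFactors, (padicValInt p c0 : ℝ) * Real.log p ≤
      32 * U + if p ∈ T then η / 12 * L else 0 := by
    intro p hp
    have hpp := Nat.prime_of_mem_primeFactors hp
    have l0 := Real.log_natCast_nonneg p
    have l1 : Real.log p ≤ U := (log_le hC hS (hSS hp)).trans hPU
    split_ifs with hpT
    · linarith [hb p hpT]
    by_cases hv : 30 < padicValInt p c0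
    · have b2 : bnd C S D (kap p (padicValInt p c0)) L ≤ U := by
        rw [hU]
        refine bnd_mono hC hS hD hL ?_
        unfold kap
        split_ifs with ho
        · linarith
        · have he : Even (padicValInt p c0) := by
            rw [Int.odd_coe_nat, Nat.not_odd_iff_even] at ho
            exact ho
          by_cases h5 : 5 ≤ p
          · by_contra hc
            exact hpT (hT ▸ Finset.mem_filter.2 ⟨hp, h5, he, hv, by linarith⟩)
          · have h4 : (p : ℝ) ≤ 4 := by exact_mod_cast (by omega : p ≤ 4)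
            linarith
      linarith [hO.2 p hpp hv (b2.trans_lt hLU)]
    · have h30 : (padicValInt p c0 : ℝ) ≤ 30 := by exact_mod_cast not_lt.1 hv
      nlinarith
  have c3 : Real.log |(c0 : ℝ)| ≤ S.card * (32 * U) + L / 12 := by
    rw [log_abs_eq]
    refine (Finset.sum_le_sum c2).trans ?_
    rw [Finset.sum_add_distrib, Finset.sum_ite_mem, Finset.inter_eq_right.2 hTs, Finset.sum_const,
      Finset.sum_const, nsmul_eq_mul, nsmul_eq_mul]
    refine add_le_add (mul_le_mul_of_nonneg_right (by exact_mod_cast Finset.card_le_card hSS)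
      (by linarith)) ?_
    nlinarith
  nlinarith

end Pool.Agent.SX3
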