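import Pool.Agent.Lib.SX.Blue3
import Pool.Agent.Lib.SX.C_MINK

/-! Minkowski's theorem for sublattices of ideal lattices in a quadratic field. -/

namespace Pool.Agent.SX3

open Finset NumberField Module MeasureTheory NumberField.mixedEmbedding NumberField.InfinitePlace
open Pool.Agent.Szpiro98 Pool.Agent.SX2
open scoped Pointwise ENNReal NNReal nonZeroDivisors

namespace MinkQ

variable {K : Type} [Field K] [NumberField K]

lemma core (h3 : finrank ℚ K = 2) (J : (FractionalIdeal (𝓞 K)⁰ K)ˣ) {α : Type} [Fintype α] (χ : K → α)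
    (f : InfinitePlace K → ℝ≥0)
    (h : (Fintype.card α : ℝ) * 8 * (FractionalIdeal.absNorm J.1 : ℝ) * √(dk K) < ∏ w, (f w : ℝ) ^ mult w) :
    ∃ a ∈ J.1, ∃ b ∈ J.1, a ≠ b ∧ χ a = χ b ∧ ∀ w : InfinitePlace K, w (a - b) < f w := by
  classical
  have hf := fundamentalDomain_idealLattice K J
  let L := (idealLattice K J).toAddSubgroup
  have hf' : IsAddFundamentalDomain L (ZSpan.fundamentalDomain (fractionalIdealLatticeBasis K J)) volume := hf
  have hch : ∀ x : L, ∃ y, y ∈ J.1 ∧ mixedEmbedding K y = x := fun x => (mem_idealLattice K J).1 x.2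
  choose y hy hy' using hch
  have : Countable L := by
    have : Function.Injective y := fun a b e => Subtype.ext (by rw [← hy', ← hy', e])
    have : Countable K := Countable.of_equiv _ (Module.finBasis ℚ K).equivFun.toEquiv.symm
    exact Function.Injective.countable ‹_›
  have hconv := convexBodyLT_convex K f
  have hvol : Fintype.card α * volume (ZSpan.fundamentalDomain (fractionalIdealLatticeBasis K J)) <
      volume ((2⁻¹ : ℝ) • convexBodyLT K f) := by
    rw [Measure.addHaar_smul_of_nonneg volume (by simp : 0 ≤ (2 : ℝ)⁻¹), mixedEmbedding.finrank, h3,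
      convexBodyLT_volume, volume_fundamentalDomain_fractionalIdealLatticeBasis,
      volume_fundamentalDomain_latticeBasis]
    have n0 : (0 : ℝ) ≤ (FractionalIdeal.absNorm J.1 : ℝ) := Rat.cast_nonneg.mpr (FractionalIdeal.absNorm_nonneg J.1)
    rw [← ENNReal.toReal_lt_toReal (by finiteness) (by finiteness)]
    simp only [ENNReal.toReal_mul, ENNReal.toReal_natCast, ENNReal.toReal_pow, ENNReal.toReal_inv,
      ENNReal.toReal_ofNat, ENNReal.coe_toReal, ENNReal.toReal_ofReal n0, Real.coe_sqrt, coe_nnnorm,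
      Int.norm_eq_abs, NNReal.coe_prod, NNReal.coe_pow]
    rw [ENNReal.toReal_ofReal (by positivity)]
    have h1 : (1 : ℝ) ≤ (convexBodyLTFactor K : ℝ) := by exact_mod_cast one_le_convexBodyLTFactor K
    have h2 : (2⁻¹ : ℝ) ^ nrComplexPlaces K ≤ 1 := pow_le_one₀ (by positivity) (by norm_num)
    have h4 : (0 : ℝ) ≤ ∏ w, (f w : ℝ) ^ mult w := by positivity
    have h5 : (0 : ℝ) ≤ (Fintype.card α : ℝ) * (FractionalIdeal.absNorm J.1 : ℝ) * √(dk K) := by positivity
    have h6 := mul_le_mul_of_nonneg_left h2 h5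
    have h7 := mul_le_mul_of_nonneg_right h1 h4
    unfold dk at h h5 h6
    nlinarith
  obtain ⟨x, x', hne, hχ, hd⟩ := Mink.blich hf' ((hconv.smul _).nullMeasurableSet _) (fun x => χ (y x)) hvol
  refine ⟨y x, hy x, y x', hy x', fun e => hne (Subtype.ext (by rw [← hy', ← hy', e])), hχ, ?_⟩
  rw [← convexBodyLT_mem, map_sub, hy', hy']
  obtain ⟨_, ⟨v, hv, rfl⟩, w, hw, hvw⟩ := Set.not_disjoint_iff.mp hd
  rw [Set.mem_inv_smul_set_iff₀ (two_ne_zero' ℝ)] at hv hw
  simp_rw [AddSubgroup.vadd_def, vadd_eq_add] at hvw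
  have e : (x : mixedSpace K) - x' = (2⁻¹ : ℝ) • ((2 : ℝ) • w) + (2⁻¹ : ℝ) • (-((2 : ℝ) • v)) := by
    rw [smul_neg, inv_smul_smul₀ two_ne_zero, inv_smul_smul₀ two_ne_zero, ← sub_eq_add_neg, sub_eq_sub_iff_add_eq_add,
      ← hvw, add_comm]
  rw [e]
  exact hconv hw (convexBodyLT_neg_mem K f _ hv) (by norm_num) (by norm_num) (by norm_num)

lemma core2 (h3 : finrank ℚ K = 2) (J : (FractionalIdeal (𝓞 K)⁰ K)ˣ) {α : Type} [Fintype α] [Nonempty α] (χ : K → α)
    (g : (K →+* ℂ) → ℝ) (hg : Shape g)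
    (h : (9 * (Fintype.card α : ℝ) * √(dk K) * (FractionalIdeal.absNorm J.1 : ℝ)) ^ 2 ≤ ∏ φ, g φ) :
    ∃ a ∈ J.1, ∃ b ∈ J.1, a ≠ b ∧ χ a = χ b ∧ ∀ φ : K →+* ℂ, ‖φ (a - b)‖ ^ 2 ≤ g φ := by
  classical
  have hm : ∀ φ, g (embedding (mk φ)) = g φ := fun φ => by
    rcases mk_eq_iff.1 (mk_embedding (mk φ)).symm with e | e
    · rw [← e]
    · rw [← e]; exact (hg φ).2
  let f : InfinitePlace K → ℝ≥0 := fun w => ⟨g (embedding w) ^ (2⁻¹ : ℝ), Real.rpow_nonneg (hg _).1.le _⟩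
  have hf : ∀ w, (f w : ℝ) ^ 2 = g (embedding w) := fun w => by
    have := Real.rpow_inv_natCast_pow (hg (embedding w)).1.le (n := 2) (by norm_num)
    rw [Nat.cast_ofNat] at this
    exact this
  have hp : (∏ w, (f w : ℝ) ^ mult w) ^ 2 = ∏ φ, g φ := by
    rw [← Finset.prod_pow, ← Finset.prod_fiberwise univ (fun φ : K →+* ℂ => mk φ) g]
    refine Finset.prod_congr rfl fun w _ => ?_
    rw [← pow_mul, mul_comm, pow_mul, hf, ← card_filter_mk_eq w, ← Finset.prod_const]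
    refine Finset.prod_congr rfl fun φ hφ => ?_
    rw [← (mem_filter.1 hφ).2, hm]
  have n0 : (0 : ℝ) < (FractionalIdeal.absNorm J.1 : ℝ) := by
    have h1 := FractionalIdeal.absNorm_nonneg J.1
    have h2 : FractionalIdeal.absNorm J.1 ≠ 0 := fun e => J.ne_zero (FractionalIdeal.absNorm_eq_zero_iff.1 e)
    exact_mod_cast lt_of_le_of_ne h1 h2.symm
  have d0 : 0 < √(dk K) := Real.sqrt_pos.2 (abs_pos.2 (Int.cast_ne_zero.2 (discr_ne_zero K)))
  have c0 : (0 : ℝ) < Fintype.card α := Nat.cast_pos.2 Fintype.card_pos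
  rw [← hp] at h
  have h' := le_of_pow_le_pow_left₀ two_ne_zero (by positivity) h
  have h8 : 0 < (Fintype.card α : ℝ) * (FractionalIdeal.absNorm J.1 : ℝ) * √(dk K) := by positivity
  obtain ⟨a, ha, b, hb, hab, hχ, hw⟩ := core h3 J χ f (by nlinarith)
  refine ⟨a, ha, b, hb, hab, hχ, fun φ => ?_⟩
  rw [← hm, ← hf, ← InfinitePlace.apply]
  exact pow_le_pow_left₀ (apply_nonneg _ _) (hw _).le 2

end MinkQ

theorem st_minkq : St_MINKQ := by
  classical
  refine ⟨9, by norm_num, fun K _ _ h3 I g hI hg => ⟨fun l χ hl h => ?_, fun h => ?_⟩⟩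
  · have : NeZero l := ⟨by omega⟩
    let J := FractionalIdeal.mk0 K ⟨I, mem_nonZeroDivisors_of_ne_zero hI⟩
    have hJ : ∀ a ∈ J.1, ∃ y : I, ((y : 𝓞 K) : K) = a := fun a ha => by
      obtain ⟨y, hy, e⟩ := (FractionalIdeal.mem_coeIdeal _).1 ha
      exact ⟨⟨y, hy⟩, e⟩
    obtain ⟨a, ha, b, hb, hab, hχ, hw⟩ := MinkQ.core2 h3 J
      (fun a => if h : ∃ y : I, ((y : 𝓞 K) : K) = a then χ h.choose else 0) g hg (by
        rwa [ZMod.card, FractionalIdeal.coe_mk0, FractionalIdeal.coeIdeal_absNorm, Rat.cast_natCast])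
    simp only [dif_pos (hJ a ha), dif_pos (hJ b hb)] at hχ
    have ea := (hJ a ha).choose_spec
    have eb := (hJ b hb).choose_spec
    refine ⟨(hJ a ha).choose - (hJ b hb).choose, fun e => hab ?_, by rw [map_sub, hχ, sub_self], fun φ => ?_⟩
    · rw [← ea, ← eb, sub_eq_zero.1 e]
    · have := hw φ
      rw [← ea, ← eb] at this
      simpa using this
  · let J := FractionalIdeal.mk0 K ⟨I, mem_nonZeroDivisors_of_ne_zero hI⟩
    have n0 : (0 : ℝ) < Ideal.absNorm I := Nat.cast_pos.2 (Nat.pos_of_ne_zero (mt Ideal.absNorm_eq_zero_iff.1 hI))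
    obtain ⟨a, ha, b, hb, hab, -, hw⟩ := MinkQ.core2 h3 J⁻¹ (fun _ => ()) g hg (by
      rw [Units.val_inv_eq_inv_val, map_inv₀, FractionalIdeal.coe_mk0, FractionalIdeal.coeIdeal_absNorm]
      simp only [Fintype.card_unique, Nat.cast_one, mul_one, Rat.cast_inv, Rat.cast_natCast]
      rw [mul_pow, inv_pow, ← div_eq_mul_inv, div_le_iff₀ (by positivity), mul_comm (∏ φ, g φ)]
      exact h)
    refine ⟨a - b, sub_ne_zero.2 hab, fun y hy => ?_, hw⟩
    have h1 : a - b ∈ (J⁻¹).1 := Submodule.sub_mem _ ha hb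
    have h2 : (y : K) ∈ J.1 := (FractionalIdeal.mem_coeIdeal _).2 ⟨y, hy, rfl⟩
    have h4 := FractionalIdeal.mul_mem_mul h1 h2
    rw [← Units.val_mul, inv_mul_cancel, Units.val_one, FractionalIdeal.mem_one_iff] at h4
    obtain ⟨z, hz⟩ := h4
    rw [← hz]
    exact z.isIntegral_coe

end Pool.Agent.SX3
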