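import Pool.Agent.Lib.SX.Blue3
import Pool.Agent.Lib.SX.C_NEWP

/-! Block NEWQ: assembly of the new local bound for quadratic fields. -/

namespace Pool.Agent.SX3

open Finset NumberField Module Pool.Agent.SX Pool.Agent.SX2 Pool.Agent.Szpiro98 Pool.Agent.Lib.MP_cafdd5_nt

open Newp in
theorem st_newq (hZL : St_ZL2) (hEND : St_END2) (hNR : St_NR) (hSUB : St_SUB) (hORD : St_ORD) (hSG : St_SIEG2)
    (hEXT : St_EXT) (hVAN : St_VANQ) (hMK : St_MINKQ) (hCLS : St_CLSQ) (hF : St_FACTQ) (hBOX : St_BOXQ)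
    (hETA : St_ETAQ) (hCELL : St_CELL2) (hSET : St_SETQ) : St_NEWQ := by
  intro G L hL
  obtain ⟨κ, hκ, hSG⟩ := hSG L hL
  obtain ⟨S', H', hZL⟩ := hZL (3 * κ + 1) (23 * L) 1
  obtain ⟨M, hCELL⟩ := hCELL κ (2 * (2 * S'))
  obtain ⟨C0, C01, hMK⟩ := hMK
  obtain ⟨C1, C11, hCLS⟩ := hCLS
  obtain ⟨c1, hc1⟩ : ∃ c1 : ℕ, C1 ≤ c1 := exists_nat_ge C1
  obtain ⟨c0, hc0⟩ : ∃ c0 : ℕ, C0 ≤ c0 := exists_nat_ge C0
  have c11 : 1 ≤ c1 := by exact_mod_cast C11.trans hc1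
  obtain ⟨C, k1, k2, k3, k4, k5, k6, k7⟩ := exists_C (c1 ^ L) c0 (2 ^ (31 * L)) (2 ^ ((H' + 1) * S')) (L ^ 3)
    (12 * S' * (2 * M * c1 + 1)) κ
  have hC1 : 1 ≤ C := Nat.one_le_two_pow.trans k3.le
  refine ⟨C, hC1, fun a b K _ _ θ p H hp hRq h5 ha hev hd hA0 k x Y hk hx hCP hrad hdP hY2 hYL hH => ?_⟩
  have hK : finrank ℚ K = 2 := hRq.1
  have hθ : θ ^ 2 + a * θ + b = 0 := hRq.2.1
  have hA := fun φ => (hA0 φ).trans hH
  have := Fact.mk hp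
  by_contra hcon
  push Not at hcon
  obtain ⟨t, ht⟩ : ∃ t, t = b.natAbs.primeFactors.card := ⟨_, rfl⟩
  obtain ⟨P, hP⟩ : ∃ P, P = p ^ k := ⟨_, rfl⟩
  have hPr : (p : ℝ) ^ k = P := by rw [hP]; push_cast; rfl
  rw [← ht] at hcon
  rw [hPr] at hdP hA
  rw [← hP] at hCP hrad hY2 hYL
  have P1 : 1 ≤ P := hC1.trans hCP
  have P1' : (1 : ℝ) ≤ P := by exact_mod_cast P1
  have hPY : P ≤ Y ^ L := (Nat.le_self_pow (by omega) P).trans hYL
  have hY1 : c1 ≤ Y := (Nat.pow_le_pow_iff_left (by omega)).1 (k1.trans (hCP.trans hPY))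
  have Y1 : 1 ≤ Y := c11.trans hY1
  have Y1' : (1 : ℝ) ≤ Y := by exact_mod_cast Y1
  have d1 := one_le_dk K
  have s1 : 1 ≤ √(dk K) := Real.one_le_sqrt.2 d1
  have Cr : (1 : ℝ) ≤ C := by exact_mod_cast hC1
  have hCt : (1 : ℝ) ≤ (C : ℝ) ^ t := one_le_pow₀ Cr
  have hCx : C ≤ x := by
    have : (C : ℝ) ≤ (C : ℝ) ^ (t + 1) * Y * √(dk K) :=
      (le_self_pow₀ Cr (by omega)).trans ((le_mul_of_one_le_right (by positivity) Y1').trans
        (le_mul_of_one_le_right (by positivity) s1))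
    exact_mod_cast (this.trans hcon.le)
  have x1 : 1 ≤ x := hC1.trans hCx
  have hpD : (p : ℤ) ∣ a ^ 2 - 4 * b := by
    have : 1 ≤ padicValInt p (a ^ 2 - 4 * b) := le_trans (Nat.mul_pos (by omega) x1) hx
    exact Int.natCast_dvd.2 (dvd_of_one_le_padicValNat this)
  obtain ⟨hB, hN, σ1, σ2, ι, τ, r, hτ1, hτ2, hinj, hperm, hrho, hre, s, lam, hs, hlam, z1, z2, u1, u2, u3, u4⟩ :=
    hSET a b K θ p hRq h5 hpD ha hev
  have θi : IsIntegral ℤ θ := by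
    refine ⟨Polynomial.X ^ 2 + (Polynomial.C a * Polynomial.X + Polynomial.C b), ?_, ?_⟩
    · exact Polynomial.monic_X_pow_add ((Polynomial.degree_linear_le).trans_lt (by norm_num))
    · rw [Polynomial.eval₂_add, Polynomial.eval₂_add, Polynomial.eval₂_mul, Polynomial.eval₂_X_pow,
        Polynomial.eval₂_C, Polynomial.eval₂_C, Polynomial.eval₂_X, eq_intCast, eq_intCast]
      linear_combination hθ
  obtain ⟨δ, hδ⟩ : ∃ δ : 𝓞 K, (δ : K) = θ ^ 2 := ⟨⟨_, θi.pow 2⟩, rfl⟩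
  rw [← hδ] at hN hA z1 z2 u1 u2 u3
  have hδ0 : δ ≠ 0 := by
    rintro rfl
    simp at u1
  have hl1 : ‖1 + lam‖ * (P : ℝ) ^ x ≤ 1 := by
    refine le_of_pow_le_pow_left₀ two_ne_zero zero_le_one ?_
    rw [one_pow, mul_pow, ← hPr, ← pow_mul, ← pow_mul]
    refine le_trans (mul_le_mul_of_nonneg_left (pow_le_pow_right₀ ?_ ?_) (by positivity)) u4
    · exact_mod_cast hp.one_le
    · exact le_trans (le_of_eq (by ring)) hx
  obtain ⟨S, v, hS0, hSv, hSc, hSR⟩ := hF K hK δ _ (pow_ne_zero 2 hB) hN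
  have epf : (b ^ 2).natAbs.primeFactors = b.natAbs.primeFactors := by
    rw [Int.natAbs_pow, Nat.primeFactors_pow _ two_ne_zero]
  have hSc' : S.card ≤ 3 * t := by
    rw [epf, ← ht] at hSc
    omega
  have hSR' : ∏ q ∈ S, Ideal.absNorm q ≤ P := by
    have e : rad (b ^ 2).natAbs = rad b.natAbs := by
      unfold rad
      rw [epf]
    rw [e] at hSR
    refine hSR.trans (le_trans ?_ hrad)
    rcases Nat.eq_zero_or_pos (rad b.natAbs) with h | h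
    · rw [h]; norm_num
    · exact Nat.pow_le_pow_right h (by norm_num)
  obtain ⟨nc, cls, hnc, hcl, hW⟩ := hCLS K hK p τ r k h5 hinj hrho hre hd hk
  rw [← hP] at hnc hcl
  obtain ⟨T, hT⟩ : ∃ T : ℝ, T = P / Y := ⟨_, rfl⟩
  have T0 : 0 < T := by rw [hT]; positivity
  have hT1 : C1 * dk K ≤ T := by
    have h1 : (Y : ℝ) ^ 2 ≤ P := by exact_mod_cast hY2
    have h2 : C1 ≤ C := hc1.trans (by exact_mod_cast (Nat.le_self_pow (by omega) c1).trans k1)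
    rw [hT, le_div_iff₀ (by positivity)]
    refine le_trans (by gcongr : C1 * dk K * Y ≤ C * dk K * Y)
      (le_of_pow_le_pow_left₀ two_ne_zero (by positivity) ?_)
    rw [mul_pow, sq (P : ℝ)]
    exact mul_le_mul hdP h1 (by positivity) (by positivity)
  have hT2 : C1 * T ≤ (p : ℝ) ^ k := by
    rw [hPr, hT, ← mul_div_assoc, div_le_iff₀ (by positivity), mul_comm]
    gcongr
    exact hc1.trans (by exact_mod_cast hY1)
  obtain ⟨n, hn⟩ : ∃ n : ℕ, n = ⌊2 * M * C1 * (L : ℝ) ^ (3 * t) * Y * √(dk K)⌋₊ + 1 := ⟨_, rfl⟩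
  have n1 : 1 ≤ n := by omega
  have hWj : ∀ j, ∃ W : Finset K, j < n → (∀ w ∈ W, w ≠ 0 ∧ BoxQ (aj S v n j) (gq S v δ T n j) w) ∧
      Set.InjOn cls W ∧ T ≤ C1 * √(dk K) * W.card := fun j => by
    by_cases hj : j < n
    · obtain ⟨b1, b2, b3⟩ := hBOX K hK δ S v T n j hδ0 hSv hS0 T0 hj
      obtain ⟨W, hW⟩ := hW _ _ T ⟨δ, b3, u1, u2⟩ b1 b2 hT1 hT2
      exact ⟨W, fun _ => hW⟩
    · exact ⟨∅, fun h => absurd h hj⟩
  choose W hW using hWj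
  obtain ⟨j0, w0, j, w, hj0, hw0, hj, hnr⟩ := hCELL K _ S v n L nc ⌈T / (C1 * √(dk K))⌉₊ cls W (mu τ) n1 (by omega)
    (fun j hj => ⟨(hW j hj).2.1, Nat.ceil_le.2 (by
      rw [div_le_iff₀ (by positivity), mul_comm]; exact (hW j hj).2.2)⟩)
    (numC hL hSc' hnc P1 Y1 C11 s1 hT hn)
  obtain ⟨J, hJ⟩ : ∃ J : Fin κ → ℤ, J = fun k => (j k : ℤ) - j0 := ⟨_, rfl⟩
  have hJn : ∀ k, |J k| ≤ n := fun k => by
    have := (hj k).1
    rw [hJ, abs_le]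
    constructor <;> simp only <;> omega
  obtain ⟨Λ, hΛ0, hΛ1, hΛ⟩ := hETA C0 C01 hMK K hK δ S v T ((P : ℝ) ^ (G * x)) κ n L (L * x) x j0 j w0 w hδ0 hSv hS0 T0
    (one_le_pow₀ P1') hA (by omega) le_rfl hj0 (fun k => ⟨(hj k).1, (hj k).2.2.2.2⟩) ((hW j0 hj0).1 w0 hw0).2
    fun k => ((hW _ (hj k).1).1 _ (hj k).2.1).2
  rw [← hJ] at hnr hΛ
  obtain ⟨F0, hF00, hFs0, hFd0, hFl0⟩ := hSG x n J (k7.trans hCx) n1 hJn
  obtain ⟨F, hF0, hFs, hFl1, hFa, hFb, hFz⟩ := hEXT κ n (L * x) ((L - 1) * x) x J F0 n1 hF00 hFs0 hFd0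
  have hFl : l1 F ≤ 2 ^ (16 * (L * x)) := hFl1.trans hFl0
  have w00 : w0 ≠ 0 := ((hW j0 hj0).1 w0 hw0).1
  have wk0 : ∀ k, w k ≠ 0 := fun k => ((hW _ (hj k).1).1 _ (hj k).2.1).1
  have hs0 : C0 * √(dk K) ≤ P := by
    have h2 : C0 ≤ C := hc0.trans (by exact_mod_cast k2)
    have h3 : √(dk K) ≤ dk K := Real.sqrt_le_iff.2 ⟨by linarith, by nlinarith⟩
    have h4 : 1 ≤ C * dk K := one_le_mul_of_one_le_of_one_le Cr d1
    exact (by gcongr : C0 * √(dk K) ≤ C * dk K).trans ((le_self_pow₀ h4 two_ne_zero).trans hdP)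
  have hA23 : ((P : ℝ) ^ (G * x)) ^ 2 ≤ ((P : ℝ) ^ (G * x)) ^ 3 :=
    pow_le_pow_right₀ (one_le_pow₀ P1') (by norm_num)
  have hC00 : 0 ≤ C0 := zero_le_one.trans C01
  have hv := hVAN K p σ1 σ2 τ κ n (L * x) ((L - 1) * x) x P J F δ w0 Λ w _ hperm P1 n1 hJn hFs hFa hFb
    (Nat.le_mul_of_pos_left _ (by omega)) u1 u2 (le_trans (by gcongr) hl1) w00
    (by obtain ⟨y, -, rfl⟩ := ((hW j0 hj0).1 w0 hw0).2.1; exact y.2) hΛ0 hΛ1
    (fun k => ⟨(hj k).2.2.2.1, hcl _ _ (wk0 k) w00 (hj k).2.2.1⟩) hΛ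
    (lt_of_le_of_lt (by gcongr) (numV hL x1 Y1 hT (k3.trans_le hCP) hYL hFl hSR' (by positivity) hs0))
  obtain ⟨ξ, hξ⟩ : ∃ ξ : Fin 3 → Fin κ → ℂ_[p],
      ξ = ![fun _ => 1, fun k => τ 1 (w k / w0), fun k => τ 2 (w k / w0)] := ⟨_, rfl⟩
  have hv' : Low (fun _ => 1) x (mf ξ ![1, (s * lam) ^ 2, s ^ 2] F) := by
    have e : mf ξ ![1, (s * lam) ^ 2, s ^ 2] F = MvPolynomial.map ι
        (mf ![fun _ => 1, fun k => σ1 (w k / w0), fun k => σ2 (w k / w0)] ![1, σ1 δ, σ2 δ] F) := by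
      rw [← map_mf]
      have e1 : ξ = fun i k => ι ((![fun _ => 1, fun k => σ1 (w k / w0), fun k => σ2 (w k / w0)] :
          Fin 3 → Fin κ → Qb) i k) := by
        rw [hξ, hτ1, hτ2]
        funext i k
        fin_cases i <;> simp
      have e2 : (![1, (s * lam) ^ 2, s ^ 2] : Fin 3 → ℂ_[p]) =
          fun i => ι ((![1, σ1 δ, σ2 δ] : Fin 3 → Qb) i) := by
        rw [← z1, ← z2, hτ1, hτ2]
        funext i
        fin_cases i <;> simp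
      rw [← e1, ← e2]
    rw [e]
    exact hv.of_support_subset (MvPolynomial.support_map_subset _ _)
  have ξ0 : ∀ i k, ξ i k ≠ 0 := fun i k => by
    have h1 : τ 1 (w k / w0) ≠ 0 := (map_ne_zero _).2 (div_ne_zero (wk0 k) w00)
    have h2 : τ 2 (w k / w0) ≠ 0 := (map_ne_zero _).2 (div_ne_zero (wk0 k) w00)
    rw [hξ]
    fin_cases i
    · exact one_ne_zero
    · exact h1
    · exact h2
  have ho := hORD _ κ x _ s lam F ξ0 hs (hFz _ ξ ((s * (1 + lam)) ^ 2) _ _ hv')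
  obtain ⟨b1, b2, b3, b4⟩ := hSUB κ n (L * x) J F n1 hJn hFs hF0
  obtain ⟨hpos, hnl⟩ := hNR κ n (2 * S') J n1
  obtain ⟨G', D', α', g0, g1, g2, g3, g4, g5⟩ := hZL ℂ_[p] x (wt2 J n) (c2 κ) (on3 ξ s lam)
    (23 * (L * x)) (6 * n) x (sb F)
    (fun l hl => ⟨on3_ne ξ0 hs l hl, (hnl l hl).1, (hnl l hl).2.1, (hnl l hl).2.2 hnr⟩) hpos
    ⟨b1, b2, b4, b3.trans ((Nat.mul_le_mul_right _ hFl).trans (by
      rw [← pow_add]; exact Nat.pow_le_pow_right (by norm_num) (by omega))), ho⟩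
    (Nat.mul_pos (by norm_num) (Nat.mul_pos (by omega) x1))
    ((Nat.le_mul_of_pos_left x (by omega : 0 < L)).trans (Nat.le_mul_of_pos_left _ (by norm_num)))
    (by rw [mul_assoc]) (numW hL Y1 C11 hc1 s1 hn k5 k6 hcon)
  have e : on3 ξ s lam (Fin.last _) = lam := by simp [on3]
  rw [e] at g3
  have := numE (hEND p P x α' D' lam G' P1 hlam hl1 g0 g2 g3) g1 g4 g5
  omega

end Pool.Agent.SX3
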