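import Pool.Agent.Lib.SX.Blue3

/-! Block `QD`: the bound in terms of the discriminant of the quadratic field. -/

namespace Pool.Agent.SX3

open Finset NumberField Module Pool.Agent.SX Pool.Agent.SX2 Pool.Agent.Szpiro98 Pool.Agent.Lib.MP_cafdd5_nt

namespace QDB

lemma rad_pos (n : ℕ) : 0 < rad n :=
  Finset.prod_pos fun _ hq => (Nat.prime_of_mem_primeFactors hq).pos

lemma rad_mono {m n : ℕ} (h : m.primeFactors ⊆ n.primeFactors) : rad m ≤ rad n :=
  Finset.prod_le_prod_of_subset_of_one_le' h fun _ hq _ => (Nat.prime_of_mem_primeFactors hq).one_le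

lemma dvd_rad {p n : ℕ} (h : p ∈ n.primeFactors) : p ∣ rad n := Finset.dvd_prod_of_mem _ h

lemma ker_le {d c : ℤ} (hd : d ≠ 0) (hc : c ≠ 0) (h : Ker d c) : d.natAbs ≤ 8 * rad c.natAbs := by
  have hr := rad_pos c.natAbs
  have hd' : d.natAbs ≠ 0 := Int.natAbs_ne_zero.2 hd
  refine Nat.le_of_dvd (by omega) ?_
  rw [← Nat.factorization_prime_le_iff_dvd hd' (by omega)]
  intro p hp
  have e : d.natAbs.factorization p = padicValInt p d := Nat.factorization_def _ hp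
  rw [e]
  by_cases h2 : p = 2
  · subst h2
    refine (h 2 hp).1.trans ?_
    rw [← Nat.Prime.pow_dvd_iff_le_factorization hp (by omega)]
    exact Dvd.intro _ rfl
  · have h1 := (h p hp).2 h2
    rcases Nat.mod_two_eq_zero_or_one (padicValInt p c) with h0 | h0
    · omega
    · refine (h1.trans h0.le).trans ?_
      rw [← Nat.Prime.pow_dvd_iff_le_factorization hp (by omega), pow_one]
      refine Dvd.dvd.mul_left (dvd_rad ?_) _
      refine Nat.mem_primeFactors.2 ⟨hp, ?_, Int.natAbs_ne_zero.2 hc⟩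
      exact dvd_of_one_le_padicValNat (by unfold padicValInt at h0; omega)

lemma not_dvd_A {A B : ℤ} {p : ℕ} (hp : p.Prime) (h5 : 5 ≤ p) (hP : Prim A B)
    (hv : 30 < padicValInt p (A ^ 2 - 4 * B)) : ¬(p : ℤ) ∣ A := by
  intro hA
  have : Fact p.Prime := ⟨hp⟩
  have h1 : (p : ℤ) ^ 2 ∣ A ^ 2 - 4 * B := (padicValInt_dvd_iff 2 _).2 (Or.inr (by omega))
  have h2 : (p : ℤ) ^ 2 ∣ 4 * B := by
    have := dvd_sub (pow_dvd_pow_of_dvd hA 2) h1
    rwa [sub_sub_cancel] at this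
  have h3 : IsCoprime ((p : ℤ) ^ 2) 4 := by
    have h4 : Nat.Coprime p 2 := (Nat.coprime_primes hp Nat.prime_two).2 (by omega)
    have h6 : IsCoprime (p : ℤ) (2 : ℤ) := by exact_mod_cast Nat.isCoprime_iff_coprime.2 h4
    have h7 : IsCoprime ((p : ℤ) ^ 2) ((2 : ℤ) ^ 2) := h6.pow
    simpa using h7
  exact hP p hp h5 ⟨hA, h3.dvd_of_dvd_mul_left h2⟩

end QDB

open QDB

theorem st_qd (hQ : St_QUA) (hN : St_NEWQ) (hB : St_BIGN) (hG : St_GL) : St_QD := by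
  intro ε hε
  obtain ⟨C, hC, hqua⟩ := hQ
  obtain ⟨c, hc, hgl⟩ := hG C ε 8 hC hε
  obtain ⟨G, L, hL, hbig⟩ := hB ε c 8 hε hc
  obtain ⟨Cn, hCn, hnew⟩ := hN G L hL
  obtain ⟨C1, hC1⟩ := hbig Cn hCn
  obtain ⟨C', hC'⟩ := hgl C1
  refine ⟨C', fun A B hsq hB0 hmin hprim => ?_⟩
  have hc0 : A ^ 2 - 4 * B ≠ 0 := fun h => hsq (h ▸ IsSquare.zero)
  have hN0 : (6 * B * (A ^ 2 - 4 * B)).natAbs ≠ 0 :=
    Int.natAbs_ne_zero.2 (mul_ne_zero (mul_ne_zero (by norm_num) hB0) hc0)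
  have hsB : B.natAbs.primeFactors ⊆ (6 * B * (A ^ 2 - 4 * B)).natAbs.primeFactors :=
    Nat.primeFactors_mono (Int.natAbs_dvd_natAbs.2 ((Dvd.intro_left 6 rfl).mul_right _)) hN0
  have hsc : (A ^ 2 - 4 * B).natAbs.primeFactors ⊆ (6 * B * (A ^ 2 - 4 * B)).natAbs.primeFactors :=
    Nat.primeFactors_mono (Int.natAbs_dvd_natAbs.2 (Dvd.intro_left _ rfl)) hN0
  obtain ⟨K, i1, i2, α, hR, hH, hK, hO⟩ := hqua A B _ hsq hB0 hmin
    (fun q hq => Nat.prime_of_mem_primeFactors hq) hsB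
  refine ⟨K, i1, i2, α, hR, hK, ?_⟩
  have hd0 : discr K ≠ 0 := discr_ne_zero K
  have hdk : dk K = ((discr K).natAbs : ℝ) := by
    rw [dk, Nat.cast_natAbs, Int.cast_abs]
  have hD1 : 1 ≤ dk K := by
    rw [hdk]
    exact_mod_cast Nat.one_le_iff_ne_zero.2 (Int.natAbs_ne_zero.2 hd0)
  have hD2 : dk K ≤ ((8 : ℕ) : ℝ) * (rad (6 * B * (A ^ 2 - 4 * B)).natAbs : ℝ) ^ 2 := by
    have a := ker_le hd0 hc0 hK
    have b := rad_mono hsc
    have e := rad_pos (6 * B * (A ^ 2 - 4 * B)).natAbs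
    have f : (discr K).natAbs ≤ 8 * rad (6 * B * (A ^ 2 - 4 * B)).natAbs ^ 2 := by nlinarith
    rw [hdk]
    exact_mod_cast f
  have hL6 : 6 ≤ LQ A B := by
    have a : (1 : ℝ) ≤ |(B : ℝ)| := by exact_mod_cast Int.one_le_abs hB0
    have b := Real.log_nonneg (a.trans (le_max_right ((A : ℝ) ^ 2) _))
    unfold LQ
    linarith
  refine hC' (A ^ 2 - 4 * B) _ _ (dk K) (LQ A B) hc0 (fun q hq => Nat.prime_of_mem_primeFactors hq)
    hsc le_rfl hD1 hD2 hL6 hO ?_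
  intro p hp h5 hv hev hcL
  have : Fact p.Prime := ⟨hp⟩
  have hpc : p ∈ (A ^ 2 - 4 * B).natAbs.primeFactors :=
    Nat.mem_primeFactors.2 ⟨hp, dvd_of_one_le_padicValNat (by unfold padicValInt at hv; omega),
      Int.natAbs_ne_zero.2 hc0⟩
  have hpd : ¬(p : ℤ) ∣ discr K := by
    intro h
    have a := (hK p hp).2 (by omega)
    have b := (padicValInt_dvd_iff 1 (discr K)).1 (by rwa [pow_one])
    have e := Nat.even_iff.1 hev
    rcases b with b | b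
    · exact hd0 b
    · omega
  exact hC1 p _ _ (rad B.natAbs) B.natAbs.primeFactors (dk K) (LQ A B) hp.two_le
    (Nat.le_of_dvd (rad_pos _) (dvd_rad (hsc hpc))) (rad_mono hsB)
    (fun q hq => (Nat.prime_of_mem_primeFactors hq).one_le) (rad_mono hsB) hD1 hD2 hcL
    (hnew A B K α p _ hp hR h5 (not_dvd_A hp h5 hprim hv) hev hpd hH)

end Pool.Agent.SX3
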