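import Pool.Agent.Lib.SX.Blue3
import Pool.Agent.Lib.Szpiro98.Main

/-! Block QUA: the old local bounds in a quadratic field, with the field made explicit. -/

namespace Pool.Agent.SX3

open Finset Module NumberField Pool.Agent.Lib.MP_cafdd5_nt Pool.Agent.Szpiro98 Pool.Agent.Szpiro98.QUAD

theorem st_qua : St_QUA := by
  obtain ⟨C1, l1⟩ := locp'
  obtain ⟨C2, l2⟩ := loci'
  obtain ⟨C, hC, hP, hI⟩ : ∃ C : ℝ, 10 ≤ C ∧ LocP C ∧ LocI C :=
    ⟨max 10 (max C1 C2), le_max_left _ _, l1 _ (le_max_of_le_right (le_max_left _ _)),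
      l2 _ (le_max_of_le_right (le_max_right _ _))⟩
  refine ⟨C, hC, fun A B S hs hB hm hS hBS => ?_⟩
  obtain ⟨c, hc⟩ : ∃ c : ℤ, c = A ^ 2 - 4 * B := ⟨_, rfl⟩
  rw [← hc] at hs ⊢
  obtain ⟨M, hM⟩ : ∃ M : ℝ, M = max ((A : ℝ) ^ 2) |(B : ℝ)| := ⟨_, rfl⟩
  have MA : (A : ℝ) ^ 2 ≤ M := hM ▸ le_max_left _ _
  have MB : |(B : ℝ)| ≤ M := hM ▸ le_max_right _ _
  have M1 : 1 ≤ M := le_trans (by exact_mod_cast Int.one_le_abs hB) MB
  obtain ⟨𝓛, hL⟩ : ∃ 𝓛 : ℝ, 𝓛 = LQ A B := ⟨_, rfl⟩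
  rw [← hL]
  rw [LQ, ← hM] at hL
  have h3 : 3 ≤ 𝓛 := by linarith [Real.log_nonneg M1]
  have hE : 7 * M ≤ Real.exp 𝓛 := by
    rw [hL, Real.exp_add, Real.exp_log (by linarith)]
    nlinarith [Real.add_one_le_exp 6]
  obtain ⟨K, _, _, w, hw, hK, hsp, hl⟩ := exists_field hs
  have c0 : c ≠ 0 := fun h => hs (h ▸ IsSquare.zero)
  obtain ⟨s, hs2⟩ := IsAlgClosed.exists_pow_nat_eq (c : Qb) two_pos
  have s0 : s ≠ 0 := fun h => c0 (by rw [h, zero_pow two_ne_zero] at hs2; exact_mod_cast hs2.symm)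
  obtain ⟨σ, hσ⟩ := hl s hs2
  obtain ⟨τ, hτ⟩ := hl (-s) (by rw [neg_sq, hs2])
  obtain ⟨β, hβ⟩ : ∃ β : K, β = (w - A) / 2 := ⟨_, rfl⟩
  have e0 : ∀ {E : Type} [Field E] (φ : K →+* E), φ β = (φ w - A) / 2 := fun φ => by
    simp [hβ, map_ofNat]
  have e1 : σ β - τ β = s := by rw [e0, e0, hσ, hτ]; ring
  have e2 : σ β + τ β = -A := by rw [e0, e0, hσ, hτ]; ring
  have e3 : σ β * τ β = B := by
    have : (c : Qb) = A ^ 2 - 4 * B := by exact_mod_cast hc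
    rw [e0, e0, hσ, hτ]
    linear_combination (-1 / 4 : Qb) * hs2 - (1 / 4 : Qb) * this
  have n1 : σ β ≠ τ β := sub_ne_zero.1 (e1 ▸ s0)
  have n2 : σ ≠ τ := fun h => n1 (by rw [h])
  have ht : Algebra.trace ℚ K w = 0 := (algebraMap ℚ Qb).injective (by
    rw [trace_eq_sum_embeddings Qb, map_zero]
    exact (univ_eq hK n2 fun φ => Multiplicative.ofAdd (φ w)).trans
      (show σ w + τ w = 0 by rw [hσ, hτ, add_neg_cancel]))
  have hn : Algebra.norm ℚ β = B := (algebraMap ℚ Qb).injective (by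
    rw [Algebra.norm_eq_prod_embeddings, univ_eq hK n2, map_intCast]
    exact e3)
  have hq : β ^ 2 + A * β + B = 0 := σ.injective (by
    simp only [map_add, map_mul, map_pow, map_intCast, map_zero]
    linear_combination σ β * e2 - e3)
  have hsq : ∀ φ : K →+* ℂ, ‖φ β‖ ^ 2 ≤ 3 * M := fun φ => by
    have a1 : ‖φ w‖ ^ 2 = |(c : ℝ)| := by
      rw [← Complex.norm_intCast, ← map_intCast φ, ← hw, map_pow, norm_pow]
    have a2 := norm_sub_le (φ w) A
    rw [Complex.norm_intCast] at a2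
    have a3 : |(c : ℝ)| ≤ 5 * M := by
      have : (c : ℝ) = A ^ 2 - 4 * B := by exact_mod_cast hc
      rw [this, abs_le]
      constructor <;> nlinarith [le_abs_self (B : ℝ), neg_abs_le (B : ℝ), sq_nonneg (A : ℝ)]
    have a4 : ‖φ w - A‖ ^ 2 ≤ (‖φ w‖ + |(A : ℝ)|) ^ 2 := pow_le_pow_left₀ (norm_nonneg _) a2 2
    rw [e0, norm_div, Complex.norm_two, div_pow]
    nlinarith [sq_abs (A : ℝ), sq_nonneg (‖φ w‖ - |(A : ℝ)|)]
  have hH : Hk β (Real.exp 𝓛) := by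
    refine ⟨⟨Polynomial.X ^ 2 + Polynomial.C A * Polynomial.X + Polynomial.C B, by monicity!, ?_⟩,
      fun φ => ?_⟩
    · rw [Polynomial.eval₂_add, Polynomial.eval₂_add, Polynomial.eval₂_mul, Polynomial.eval₂_X_pow,
        Polynomial.eval₂_C, Polynomial.eval₂_C, Polynomial.eval₂_X]
      simpa only [eq_intCast] using hq
    · nlinarith [hsq φ, sq_nonneg (‖φ β‖ - 1)]
  have K1 : (finrank ℚ K).Prime := hK ▸ Nat.prime_two
  have K3 : finrank ℚ K ≤ 3 := by omega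
  refine ⟨K, inferInstance, inferInstance, β, ⟨hK, hq, fun x hx => n1 (by rw [hx]; simp)⟩, fun φ => ?_, fun p hp => ?_, fun hb => ?_,
    fun p hp _ hb => ?_⟩
  · rw [map_pow, norm_pow]
    linarith [hsq φ]
  · have h1 := val_le hK c0 hw ht hp
    rcases eq_or_ne p 2 with rfl | h2
    · have : padicValInt 2 4 = 2 := padicValNat.prime_pow (p := 2) 2
      omega
    · have : padicValInt p 4 = 0 := padicValInt.eq_zero_of_not_dvd fun h => h2
        ((Nat.prime_dvd_prime_iff_eq hp Nat.prime_two).1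
          (hp.dvd_of_dvd_pow (n := 2) (by exact_mod_cast h)))
      omega
  · have a1 := hI emb K K1 K3 σ τ β B S 𝓛 n1 hn hS hBS h3 hH hb
    have a2 := hI emb K K1 K3 τ σ β B S 𝓛 n1.symm hn hS hBS h3 hH hb
    rw [norm_sub_rev] at a2
    rw [← map_sub, e1, Real.exp_neg, inv_mul_le_iff₀ (Real.exp_pos _)] at a1 a2
    have a3 : |(c : ℝ)| = ‖emb s‖ ^ 2 := by
      rw [← norm_pow, ← map_pow, hs2, map_intCast, Complex.norm_intCast]
    have a4 : |(A : ℝ)| ≤ ‖emb (σ β)‖ + ‖emb (τ β)‖ := by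
      rw [← Complex.norm_intCast, ← norm_neg, ← map_intCast emb, ← map_neg, ← e2, map_add]
      exact norm_add_le _ _
    have a5 : |(B : ℝ)| = ‖emb (σ β)‖ * ‖emb (τ β)‖ := by
      rw [← Complex.norm_intCast, ← map_intCast emb, ← e3, map_mul, norm_mul]
    have a6 : (0 : ℝ) < |(B : ℝ)| := abs_pos.2 (by exact_mod_cast hB)
    have a7 : (0 : ℝ) < |(c : ℝ)| := abs_pos.2 (by exact_mod_cast c0)
    have b0 : 0 ≤ bnd C S (dk K) 1 𝓛 := IRR.bnd_nonneg S (by linarith) zero_le_one (by linarith)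
    have b1 : 0 ≤ Real.log |(c : ℝ)| := Real.log_nonneg (by exact_mod_cast Int.one_le_abs c0)
    suffices h : Real.log M ≤ Real.log |(c : ℝ)| + 2 * bnd C S (dk K) 1 𝓛 + 2 by linarith
    rw [hM]
    generalize bnd C S (dk K) 1 𝓛 = b at a1 a2
    rw [Real.log_le_iff_le_exp (a6.trans_le (le_max_right _ _)), Real.exp_add, Real.exp_add,
      Real.exp_log a7, two_mul, Real.exp_add, a3]
    have a8 : 4 ≤ Real.exp 2 := by
      have := Real.add_one_le_exp 1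
      rw [show Real.exp 2 = Real.exp 1 * Real.exp 1 by rw [← Real.exp_add]; norm_num]
      nlinarith
    have a9 := mul_le_mul a2 a1 (norm_nonneg _) (by positivity)
    have a10 : (A : ℝ) ^ 2 ≤ (2 * (Real.exp b * ‖emb s‖)) ^ 2 := by
      rw [← sq_abs]
      exact pow_le_pow_left₀ (abs_nonneg _) (by linarith) 2
    have a11 := mul_le_mul_of_nonneg_left a8 (sq_nonneg (Real.exp b * ‖emb s‖))
    exact max_le (by nlinarith) (by nlinarith)
  · have := Fact.mk hp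
    let ι : Qb →+* ℂ_[p] := (IsAlgClosed.lift : Qb →ₐ[ℚ] ℂ_[p]).toRingHom
    have c1 : (c : ℚ_[p]) ≠ 0 := by exact_mod_cast c0
    have rho : ∀ σ τ : K →+* Qb, τ w = -σ w → Rho (ι.comp σ) (ι.comp τ) (c : ℚ_[p]) := fun σ τ h =>
      ⟨c1, ι (σ w), by rw [← map_pow, ← map_pow, hw]; simp, fun γ => by
        obtain ⟨u, v, rfl⟩ := hsp γ
        exact ⟨u, v, by simp, by simp [h, sub_eq_add_neg]⟩⟩
    have nm : ∀ n : ℤ, ‖ι n‖ = ‖(n : ℚ_[p])‖ := fun n => by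
      rw [map_intCast, ← norm_algebraMap' ℂ_[p] (n : ℚ_[p]), map_intCast]
    rw [← Padic.valuation_intCast] at hb ⊢
    have a1 := hP p ι K K1 K3 σ τ c (rho σ τ (by rw [hσ, hτ])) β B S 𝓛 n1 hn hS hBS h3 hH hb
    have a2 := hP p ι K K1 K3 τ σ c (rho τ σ (by rw [hσ, hτ, neg_neg])) β B S 𝓛 n1.symm hn hS hBS h3 hH hb
    rw [norm_sub_rev] at a2
    rw [← map_sub, e1, Real.exp_neg, inv_mul_le_iff₀ (Real.exp_pos _)] at a1 a2
    have p0 : (0 : ℝ) < p := by exact_mod_cast hp.pos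
    have a3 : (p : ℝ) ^ (-(c : ℚ_[p]).valuation) = ‖ι s‖ ^ 2 := by
      rw [← norm_pow, ← map_pow, hs2, nm, Padic.norm_eq_zpow_neg_valuation c1]
    have a4 : ‖(A : ℚ_[p])‖ ≤ max ‖ι (σ β)‖ ‖ι (τ β)‖ := by
      rw [← nm, ← norm_neg, ← map_neg, ← e2, map_add]
      exact IsUltrametricDist.norm_add_le_max _ _
    have a5 : ‖(B : ℚ_[p])‖ = ‖ι (σ β)‖ * ‖ι (τ β)‖ := by rw [← nm, ← e3, map_mul, norm_mul]
    change _ ≤ _ + 2 * bnd C S (dk K) _ 𝓛
    generalize bnd C S (dk K) _ 𝓛 = b at a1 a2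
    have a6 : (p : ℝ) ^ (-8 : ℤ) ≤ (Real.exp b * ‖ι s‖) ^ 2 := by
      rcases not_and_or.1 (hm p hp) with h | h <;> rw [← Padic.norm_int_le_pow_iff_dvd, not_le] at h
      · rw [show (-8 : ℤ) = -(4 : ℕ) * (2 : ℕ) by norm_num, zpow_mul, zpow_natCast]
        exact pow_le_pow_left₀ (by positivity) (h.le.trans (a4.trans (max_le a2 a1))) 2
      · exact h.le.trans (a5.trans_le (sq (Real.exp b * ‖ι s‖) ▸
          mul_le_mul a2 a1 (norm_nonneg _) (by positivity)))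
    have a7 := Real.log_le_log (by positivity) a6
    rw [mul_pow, ← a3, Real.log_mul (by positivity) (by positivity), Real.log_zpow, Real.log_zpow,
      Real.log_pow, Real.log_exp, Padic.valuation_intCast] at a7
    push_cast at a7
    linarith [Real.log_natCast_nonneg p]

end Pool.Agent.SX3
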