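import Pool.Agent.Lib.SX.Blue3
import Pool.Agent.Lib.SX.B_ELL

/-! Block SQ: the split case, from subexponential abc. -/

namespace Pool.Agent.SX3

open Finset Pool.Agent.SX

namespace SQ

lemma gcd_dvd {A B u : ℤ} {g : ℕ} (hu : A ^ 2 - 4 * B = u * u) (hm : Min48 A B) (hp : Prim A B)
    (h1 : (g : ℤ) ∣ A - u) (h2 : (g : ℤ) ∣ 2 * u) : g ∣ 432 := by
  have h3 : (g : ℤ) ∣ A + u := by
    have := h1.add h2
    rwa [show A - u + 2 * u = A + u by ring] at this
  have hA : (g : ℤ) ∣ 2 * A := by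
    have := h1.add h3
    rwa [show A - u + (A + u) = 2 * A by ring] at this
  have hB : (g : ℤ) ^ 2 ∣ 4 * B := by
    have := mul_dvd_mul h1 h3
    rwa [← sq, show (A - u) * (A + u) = 4 * B by linear_combination hu] at this
  refine (Nat.dvd_iff_prime_pow_dvd_dvd 432 g).2 fun p k pp hk => ?_
  have hk' : ∀ j ≤ k, (p : ℤ) ^ j ∣ 2 * A ∧ (p : ℤ) ^ (2 * j) ∣ 4 * B := fun j hj => by
    have e : (p : ℤ) ^ j ∣ g := by exact_mod_cast (pow_dvd_pow p hj).trans hk
    refine ⟨e.trans hA, ?_⟩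
    rw [mul_comm 2 j, pow_mul]
    exact (pow_dvd_pow_of_dvd e 2).trans hB
  by_cases p2 : p = 2
  · subst p2
    have : k ≤ 4 := by
      by_contra hc
      obtain ⟨⟨a, ha⟩, b, hb⟩ := hk' 5 (by omega)
      refine hm 2 pp ⟨⟨a, ?_⟩, b, ?_⟩
      · push_cast at ha ⊢; omega
      · push_cast at hb ⊢; omega
    exact (pow_dvd_pow 2 this).trans (by norm_num)
  have c2 : IsCoprime (p : ℤ) 2 := by
    have := (Nat.coprime_primes pp Nat.prime_two).2 p2
    exact_mod_cast Nat.isCoprime_iff_coprime.2 this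
  have c4 : IsCoprime (p : ℤ) 4 := by
    have := c2.mul_right c2
    norm_num at this
    exact this
  have hk2 : ∀ j ≤ k, (p : ℤ) ^ j ∣ A ∧ (p : ℤ) ^ (2 * j) ∣ B := fun j hj =>
    ⟨c2.pow_left.dvd_of_dvd_mul_left (hk' j hj).1, c4.pow_left.dvd_of_dvd_mul_left (hk' j hj).2⟩
  by_cases p3 : p = 3
  · subst p3
    have : k ≤ 3 := by
      by_contra hc
      exact hm 3 pp (hk2 4 (by omega))
    exact (pow_dvd_pow 3 this).trans (by norm_num)
  have p5 : 5 ≤ p := by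
    have := pp.two_le
    by_contra hc
    have : p = 4 := by omega
    subst this
    exact absurd pp (by norm_num)
  have : k = 0 := by
    by_contra hc
    have := hk2 1 (by omega)
    exact hp p pp p5 (by simpa using this)
  simp [this]

lemma rad_pos (n : ℕ) : 1 ≤ rad n :=
  Finset.prod_pos fun _ hq => (Nat.prime_of_mem_primeFactors hq).pos

lemma rad_mono {m n : ℕ} (h : m.primeFactors ⊆ n.primeFactors) : rad m ≤ rad n :=
  Finset.prod_le_prod_of_subset_of_one_le' h fun _ hq _ => (Nat.prime_of_mem_primeFactors hq).pos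

end SQ

theorem st_sq (h : St_ABC) : St_SQ := by
  intro ε hε
  obtain ⟨K, K0, habc⟩ := Ell.abc_int h ε hε
  refine ⟨2 * K + 2000, fun A B ⟨u, hu⟩ hc hB hm hp => ?_⟩
  have u0 : u ≠ 0 := fun e => hc (by rw [hu, e]; simp)
  have hg0 : 0 < Int.gcd (A - u) (2 * u) := Int.gcd_pos_of_ne_zero_right _ (mul_ne_zero two_ne_zero u0)
  obtain ⟨X, Y, hXY, hX, hY⟩ := Int.exists_gcd_one hg0
  have hg := SQ.gcd_dvd hu hm hp (Int.gcd_dvd_left _ _) (Int.gcd_dvd_right _ _)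
  set g := Int.gcd (A - u) (2 * u)
  have g432 : g ≤ 432 := Nat.le_of_dvd (by norm_num) hg
  have eP : 8 * B * u = (g : ℤ) ^ 3 * (X * Y * (X + Y)) := by
    have : 8 * B * u = (A - u) * (2 * u) * ((A - u) + 2 * u) := by linear_combination (-2 * u) * hu
    rw [this, hX, hY]; ring
  have hP : X * Y * (X + Y) ≠ 0 := fun e => by
    rw [e, mul_zero] at eP
    exact mul_ne_zero (mul_ne_zero (by norm_num) hB) u0 eP
  have key := habc X Y hP (Int.isCoprime_iff_gcd_eq_one.2 hXY)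
  have hN : 6 * B * (A ^ 2 - 4 * B) ≠ 0 := mul_ne_zero (mul_ne_zero (by norm_num) hB) hc
  have hR : rad (X * Y * (X + Y)).natAbs ≤ rad (6 * B * (A ^ 2 - 4 * B)).natAbs := by
    refine SQ.rad_mono fun q hq => ?_
    have qp := Nat.prime_of_mem_primeFactors hq
    refine Nat.mem_primeFactors.2 ⟨qp, ?_, Int.natAbs_ne_zero.2 hN⟩
    have h1 : (q : ℤ) ∣ X * Y * (X + Y) := Int.natCast_dvd.2 (Nat.dvd_of_mem_primeFactors hq)
    have h2 : (q : ℤ) ∣ (6 * B * (A ^ 2 - 4 * B)) ^ 3 := by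
      refine h1.trans ⟨(g : ℤ) ^ 3 * (27 * B ^ 2 * u ^ 5), ?_⟩
      rw [hu]
      linear_combination (27 * B ^ 2 * u ^ 5) * eP
    exact Int.natCast_dvd.1 ((Nat.prime_iff_prime_int.1 qp).dvd_of_dvd_pow h2)
  set R : ℝ := (rad (6 * B * (A ^ 2 - 4 * B)).natAbs : ℝ) with hRd
  have R1 : 1 ≤ R := by rw [hRd]; exact_mod_cast SQ.rad_pos _
  have Re : 1 ≤ R ^ ε := Real.one_le_rpow R1 hε.le
  set m : ℝ := max |(X : ℝ)| |(Y : ℝ)|
  have hm1 : 1 ≤ m := le_max_of_le_left (by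
    exact_mod_cast Int.one_le_abs (left_ne_zero_of_mul (left_ne_zero_of_mul hP)))
  have k1 : Real.log m ≤ K * R ^ ε :=
    key.trans (mul_le_mul_of_nonneg_left
      (Real.rpow_le_rpow (by positivity) (by rw [hRd]; exact_mod_cast hR) hε.le) K0)
  have hX' := abs_le.1 (le_max_left |(X : ℝ)| |(Y : ℝ)|)
  have hY' := abs_le.1 (le_max_right |(X : ℝ)| |(Y : ℝ)|)
  have eX : (A : ℝ) - u = X * g := by exact_mod_cast hX
  have eY : 2 * (u : ℝ) = Y * g := by exact_mod_cast hY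
  have eB : (A : ℝ) ^ 2 - 4 * B = u * u := by exact_mod_cast hu
  have g0 : (0 : ℝ) ≤ g := Nat.cast_nonneg _
  have g1 : (g : ℝ) ≤ 432 := by exact_mod_cast g432
  have a1 : |(A : ℝ) - u| ≤ 432 * m := by
    rw [eX, abs_mul, abs_of_nonneg g0, mul_comm]
    exact mul_le_mul g1 (le_max_left _ _) (abs_nonneg _) (by norm_num)
  have a2 : |2 * (u : ℝ)| ≤ 432 * m := by
    rw [eY, abs_mul, abs_of_nonneg g0, mul_comm]
    exact mul_le_mul g1 (le_max_right _ _) (abs_nonneg _) (by norm_num)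
  have a1' := abs_le.1 a1
  have a2' := abs_le.1 a2
  have b1 : (A : ℝ) ^ 2 ≤ (864 * m) ^ 2 := sq_le_sq' (by linarith) (by linarith)
  have b3 : (u : ℝ) ^ 2 ≤ (864 * m) ^ 2 := sq_le_sq' (by linarith) (by linarith)
  have b2 : |(B : ℝ)| ≤ (864 * m) ^ 2 :=
    abs_le.2 ⟨by nlinarith [sq_nonneg (A : ℝ)], by nlinarith [sq_nonneg (u : ℝ)]⟩
  have hpos : 0 < max ((A : ℝ) ^ 2) |(B : ℝ)| := lt_max_of_lt_right (abs_pos.2 (by exact_mod_cast hB))
  have k2 := Real.log_le_log hpos (max_le b1 b2)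
  rw [Real.log_pow, Real.log_mul (by norm_num) (by linarith)] at k2
  have k3 := Real.log_le_sub_one_of_pos (by norm_num : (0 : ℝ) < 864)
  unfold LQ
  push_cast at k2
  nlinarith

end Pool.Agent.SX3
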