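import Pool.Agent.Lib.SX.Blue3
import Pool.Agent.Lib.Szpiro98.GLUE
import Pool.Agent.Lib.Szpiro98.RED
import Pool.Agent.Lib.Szpiro98.Sum

/-! Block TW: the quadratic twist. -/

namespace Pool.Agent.SX3

open Finset Pool.Agent.SX Pool.Agent.Szpiro98 Pool.Agent.Lib.MP_cafdd5_nt

namespace Tw

lemma radle {a b x : ℤ} (hD : disc a b ≠ 0) (h : x ∣ 6 ^ 5 * disc a b) : rad x.natAbs ≤ 6 * Szpiro98.cond a b := by
  refine le_trans ?_ (SumB.rad_le a b)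
  refine prod_le_prod_of_subset_of_one_le' (fun p hp => ?_) fun q hq _ => (RED.SS_prime a b q hq).one_le
  have pp := Nat.prime_of_mem_primeFactors hp
  have pi := Nat.prime_iff_prime_int.1 pp
  have h1 : (p : ℤ) ∣ 6 ^ 5 * disc a b := (Int.natCast_dvd.2 (Nat.dvd_of_mem_primeFactors hp)).trans h
  simp only [SS, mem_insert, Nat.mem_primeFactors]
  rcases pi.dvd_or_dvd h1 with h2 | h2
  · have h3 : p ∣ 2 * 3 := by exact_mod_cast pi.dvd_of_dvd_pow h2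
    rcases (Nat.Prime.dvd_mul pp).1 h3 with h4 | h4
    · exact .inl ((Nat.prime_dvd_prime_iff_eq pp Nat.prime_two).1 h4)
    · exact .inr (.inl ((Nat.prime_dvd_prime_iff_eq pp Nat.prime_three).1 h4))
  · exact .inr (.inr ⟨pp, Int.natCast_dvd.1 h2, by simpa using hD⟩)

lemma cop6 {p : ℕ} (hp : p.Prime) (h5 : 5 ≤ p) (k i j : ℕ) : IsCoprime ((p : ℤ) ^ k) (2 ^ i * 3 ^ j) := by
  have c2 := RED.cop hp Nat.prime_two (by omega)
  have c3 := RED.cop hp Nat.prime_three (by omega)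
  exact (IsCoprime.mul_right (c2.pow_right (n := i)) (c3.pow_right (n := j))).pow_left

lemma prod_dvd (s : Finset ℕ) (hs : ∀ p ∈ s, p.Prime) (k : ℕ) (z : ℤ) (h : ∀ p ∈ s, (p : ℤ) ^ k ∣ z) :
    ((∏ p ∈ s, p : ℕ) : ℤ) ^ k ∣ z := by
  rw [Nat.cast_prod, ← prod_pow]
  refine Finset.prod_dvd_of_coprime (fun p hp q hq hne => ?_) h
  exact (RED.cop (hs p hp) (hs q hq) hne).pow

lemma height (g : ℕ) (hg : 1 ≤ g) (e B : ℤ) (hB : B ≠ 0) :
    LL (g ^ 2 * (3 * e ^ 2 - B)) (g ^ 3 * (e * (B - 2 * e ^ 2))) ≤ 3 * LQ (3 * e) B + 6 * Real.log g := by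
  unfold LL LQ
  set M : ℝ := max (((3 * e : ℤ) : ℝ) ^ 2) |(B : ℝ)| with hM
  have h1 : 9 * (e : ℝ) ^ 2 ≤ M := by
    refine le_trans (le_of_eq ?_) (le_max_left _ _)
    push_cast; ring
  have h2 : |(B : ℝ)| ≤ M := le_max_right _ _
  have hM1 : 1 ≤ M := le_trans (by exact_mod_cast Int.one_le_abs hB) h2
  have hg1 : (1 : ℝ) ≤ g := by exact_mod_cast hg
  obtain ⟨h3, h4⟩ := abs_le.1 h2
  have e0 := sq_nonneg (e : ℝ)
  have ha : |3 * (e : ℝ) ^ 2 - B| ≤ 2 * M := abs_le.2 ⟨by linarith, by linarith⟩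
  have hb : |(B : ℝ) - 2 * e ^ 2| ≤ 2 * M := abs_le.2 ⟨by linarith, by linarith⟩
  have hmax : max (|((g ^ 2 * (3 * e ^ 2 - B) : ℤ) : ℝ)| ^ 3) (((g ^ 3 * (e * (B - 2 * e ^ 2)) : ℤ) : ℝ) ^ 2) ≤
      8 * ((g : ℝ) ^ 6 * M ^ 3) := by
    push_cast
    refine max_le ?_ ?_
    · rw [abs_mul, abs_of_nonneg (by positivity : (0 : ℝ) ≤ (g : ℝ) ^ 2)]
      calc _ ≤ ((g : ℝ) ^ 2 * (2 * M)) ^ 3 := by gcongr
        _ = _ := by ring
    · calc _ = (g : ℝ) ^ 6 * ((e : ℝ) ^ 2 * |(B : ℝ) - 2 * e ^ 2| ^ 2) := by rw [sq_abs]; ring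
        _ ≤ (g : ℝ) ^ 6 * ((2 * M) * (2 * M) ^ 2) := by gcongr; linarith
        _ = _ := by ring
  have hlog : Real.log (max (|((g ^ 2 * (3 * e ^ 2 - B) : ℤ) : ℝ)| ^ 3)
      (((g ^ 3 * (e * (B - 2 * e ^ 2)) : ℤ) : ℝ) ^ 2)) ≤ Real.log (8 * ((g : ℝ) ^ 6 * M ^ 3)) := by
    rcases (le_max_of_le_right (sq_nonneg _) : 0 ≤ max (|((g ^ 2 * (3 * e ^ 2 - B) : ℤ) : ℝ)| ^ 3)
      (((g ^ 3 * (e * (B - 2 * e ^ 2)) : ℤ) : ℝ) ^ 2)).eq_or_lt with h | h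
    · rw [← h, Real.log_zero]
      refine Real.log_nonneg ?_
      nlinarith [one_le_mul_of_one_le_of_one_le (one_le_pow₀ (n := 6) hg1) (one_le_pow₀ (n := 3) hM1)]
    · exact Real.log_le_log h hmax
  rw [Real.log_mul (by norm_num) (by positivity), Real.log_mul (by positivity) (by positivity), Real.log_pow,
    Real.log_pow] at hlog
  push_cast at hlog ⊢
  linarith [Real.log_le_sub_one_of_pos (by norm_num : (0 : ℝ) < 8)]

lemma lq_le (A B : ℤ) (hB : B ≠ 0) : LQ A B ≤ LQ (-2 * A) (A ^ 2 - 4 * B) := by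
  unfold LQ
  have h0 : (0 : ℝ) < |(B : ℝ)| := abs_pos.2 (by exact_mod_cast hB)
  refine add_le_add_left (Real.log_le_log (lt_max_of_lt_right h0) ?_) 6
  push_cast
  have h1 := le_max_left ((-2 * (A : ℝ)) ^ 2) |(A : ℝ) ^ 2 - 4 * B|
  have h2 := abs_le.1 (le_max_right ((-2 * (A : ℝ)) ^ 2) |(A : ℝ) ^ 2 - 4 * B|)
  have h3 := sq_nonneg (A : ℝ)
  exact max_le (by nlinarith) (abs_le.2 ⟨by nlinarith, by nlinarith⟩)

end Tw

open Tw in
theorem st_tw : St_TW := by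
  intro a b e hD hm he
  obtain ⟨B0, rfl⟩ : ∃ B0, a = 3 * e ^ 2 - B0 := ⟨3 * e ^ 2 - a, by ring⟩
  obtain rfl : b = e * (B0 - 2 * e ^ 2) := by linear_combination -he
  have hd : disc (3 * e ^ 2 - B0) (e * (B0 - 2 * e ^ 2)) = B0 ^ 2 * (9 * e ^ 2 - 4 * B0) := by unfold disc; ring
  have K1 : ∀ p : ℕ, p.Prime → (p : ℤ) ^ 2 ∣ e → (p : ℤ) ^ 4 ∣ B0 → False := by
    rintro p hp ⟨u, rfl⟩ ⟨v, rfl⟩
    exact hm p hp ⟨⟨3 * u ^ 2 - v, by ring⟩, ⟨u * (v - 2 * u ^ 2), by ring⟩⟩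
  have hB0 : B0 ≠ 0 := fun h => hD (by rw [hd, h]; simp)
  set P := B0.natAbs.primeFactors.filter fun p : ℕ => 5 ≤ p ∧ (p : ℤ) ∣ e ∧ (p : ℤ) ^ 2 ∣ B0 with hP
  have Pp : ∀ p ∈ P, p.Prime := fun p hp => Nat.prime_of_mem_primeFactors (mem_filter.1 hp).1
  have hin : ∀ p : ℕ, p.Prime → 5 ≤ p → (p : ℤ) ∣ e → (p : ℤ) ^ 2 ∣ B0 → p ∣ ∏ q ∈ P, q := fun p hp h5 h1 h2 =>
    dvd_prod_of_mem _ (mem_filter.2 ⟨Nat.mem_primeFactors.2
      ⟨hp, Int.natCast_dvd.1 ((dvd_pow_self _ two_ne_zero).trans h2), Int.natAbs_ne_zero.2 hB0⟩, h5, h1, h2⟩)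
  have g1 : 1 ≤ ∏ q ∈ P, q := one_le_prod' fun q hq => (Pp q hq).one_le
  have gN : ∏ q ∈ P, q ≤ Szpiro98.cond (3 * e ^ 2 - B0) (e * (B0 - 2 * e ^ 2)) := by
    refine Nat.le_of_dvd (GLUE.cond_pos _ _) (Finset.prod_primes_dvd _ (fun p hp => (Pp p hp).prime) fun p hp => ?_)
    obtain ⟨-, h5, -, h2⟩ := mem_filter.1 hp
    refine (dvd_pow_self p ?_).trans (GLUE.pow_dvd_cond hD (Pp p hp) h5 ?_)
    · split_ifs <;> norm_num
    · rw [hd]
      exact ((dvd_pow_self _ two_ne_zero).trans h2 |>.trans (dvd_pow_self _ two_ne_zero)).mul_right _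
  obtain ⟨e', he'⟩ := prod_dvd P Pp 1 e fun p hp => by simpa using (mem_filter.1 hp).2.2.1
  obtain ⟨B, hB⟩ := prod_dvd P Pp 2 B0 fun p hp => (mem_filter.1 hp).2.2.2
  generalize ∏ q ∈ P, q = g at *
  clear hP Pp P
  rw [pow_one] at he'
  subst he' hB
  have hBn : B ≠ 0 := right_ne_zero_of_mul hB0
  have hd' : disc (3 * (g * e') ^ 2 - g ^ 2 * B) (g * e' * (g ^ 2 * B - 2 * (g * e') ^ 2)) =
      g ^ 6 * B * (B * ((3 * e') ^ 2 - 4 * B)) := by rw [hd]; ring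
  have hc : (3 * e') ^ 2 - 4 * B ≠ 0 := fun h => hD (by rw [hd', h]; simp)
  have K2 : ∀ p : ℕ, p.Prime → (p : ℤ) ^ 3 ∣ e' → (p : ℤ) ^ 4 ∣ B → False := fun p hp h1 h2 =>
    K1 p hp (((pow_dvd_pow _ (by norm_num)).trans h1).mul_left _) (h2.mul_left _)
  have K3 : ∀ p : ℕ, p.Prime → 5 ≤ p → (p : ℤ) ∣ e' → (p : ℤ) ^ 2 ∣ B → False := by
    intro p hp h5 h1 h2
    have h3 : (p : ℤ) ∣ g := Int.natCast_dvd_natCast.2 (hin p hp h5 (h1.mul_left _) (h2.mul_left _))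
    refine K1 p hp ?_ ?_
    · rw [sq]; exact mul_dvd_mul h3 h1
    · rw [show (p : ℤ) ^ 4 = p ^ 2 * p ^ 2 by ring]; exact mul_dvd_mul (pow_dvd_pow_of_dvd h3 2) h2
  have K4 : ∀ p : ℕ, p.Prime → 5 ≤ p → ∀ (k i j : ℕ) (z : ℤ), (p : ℤ) ^ k ∣ 2 ^ i * 3 ^ j * z → (p : ℤ) ^ k ∣ z :=
    fun p hp h5 k i j z h => (cop6 hp h5 k i j).dvd_of_dvd_mul_left h
  refine ⟨g, 3 * e', B, g1, gN, by ring, by ring, hBn, hc, ?_, ?_, ?_, ?_, ?_, ?_, ?_, lq_le _ _ hBn, ?_⟩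
  · rintro p hp ⟨h1, h2⟩
    refine K2 p hp (RED.dvd_six hp ?_) ((pow_dvd_pow _ (by norm_num)).trans h2)
    rw [show 6 * e' = 2 * (3 * e') by ring]
    exact h1.mul_left _
  · rintro p hp h5 ⟨h1, h2⟩
    refine K3 p hp h5 ?_ h2
    simpa using K4 p hp h5 1 0 1 e' (by simpa using h1)
  · rintro p hp ⟨h1, h2⟩
    have h3 : (p : ℤ) ^ 3 ∣ e' := RED.dvd_six hp (by
      rw [show 6 * e' = -(-2 * (3 * e')) by ring]; exact h1.neg_right)
    refine K2 p hp h3 (RED.dvd_four hp ?_)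
    rw [show 4 * B = 9 * e' ^ 2 - ((3 * e') ^ 2 - 4 * B) by ring]
    refine dvd_sub (Dvd.dvd.mul_left ?_ _) ((pow_dvd_pow _ (by norm_num)).trans h2)
    rw [show (p : ℤ) ^ 6 = (p ^ 3) ^ 2 by ring]
    exact pow_dvd_pow_of_dvd h3 2
  · rintro p hp h5 ⟨h1, h2⟩
    have h3 : (p : ℤ) ∣ e' := by
      simpa using K4 p hp h5 1 1 1 e' (by
        rw [show (2 : ℤ) ^ 1 * 3 ^ 1 * e' = -(-2 * (3 * e')) by ring, pow_one]; exact h1.neg_right)
    refine K3 p hp h5 h3 (K4 p hp h5 2 2 0 B ?_)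
    rw [show (2 : ℤ) ^ 2 * 3 ^ 0 * B = 9 * e' ^ 2 - ((3 * e') ^ 2 - 4 * B) by ring]
    exact dvd_sub ((pow_dvd_pow_of_dvd h3 2).mul_left _) h2
  · exact radle hD ⟨6 ^ 4 * g ^ 6 * B, by rw [hd']; ring⟩
  · exact radle hD ⟨81 * g ^ 6 * B, by rw [hd']; ring⟩
  · have := height g g1 e' B hBn
    rwa [show (g : ℤ) ^ 2 * (3 * e' ^ 2 - B) = 3 * (g * e') ^ 2 - g ^ 2 * B by ring,
      show (g : ℤ) ^ 3 * (e' * (B - 2 * e' ^ 2)) = g * e' * (g ^ 2 * B - 2 * (g * e') ^ 2) by ring] at this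
  · intro d1 d2 h1 h2 k1 k2
    have : (d1 * d2).natAbs ∣ 576 * Szpiro98.cond (3 * (g * e') ^ 2 - g ^ 2 * B)
        (g * e' * (g ^ 2 * B - 2 * (g * e') ^ 2)) := by
      rw [Nat.dvd_iff_prime_pow_dvd_dvd]
      intro p k hp hk
      have : Fact p.Prime := ⟨hp⟩
      have hk' : k ≤ padicValInt p (d1 * d2) :=
        (padicValNat_dvd_iff_le (Int.natAbs_ne_zero.2 (mul_ne_zero h1 h2))).1 hk
      rw [padicValInt.mul h1 h2] at hk'
      obtain ⟨a1, b1⟩ := k1 p hp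
      obtain ⟨a2, b2⟩ := k2 p hp
      by_cases h5 : 5 ≤ p
      · have b1 := b1 (by omega)
        have b2 := b2 (by omega)
        have c1 : 1 ≤ padicValInt p d1 → (p : ℤ) ∣ (3 * e') ^ 2 - 4 * B := fun h =>
          (RED.val_pos_iff hp hc).2 (by omega)
        have c2 : 1 ≤ padicValInt p d2 → (p : ℤ) ∣ B := fun h => by
          have := (RED.val_pos_iff hp (mul_ne_zero (by norm_num) hBn : 16 * B ≠ 0)).2 (by omega)
          simpa using K4 p hp h5 1 4 0 B (by simpa using this)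
        rcases Nat.eq_zero_or_pos k with rfl | hk0
        · simp
        refine Dvd.dvd.mul_left ((pow_dvd_pow p ?_).trans (GLUE.pow_dvd_cond hD hp h5 ?_)) _
        · split_ifs with h
          · omega
          · by_contra hlt
            have c1 := c1 (by omega)
            have c2 := c2 (by omega)
            have c3 : (p : ℤ) ∣ (3 * e') ^ 2 := by simpa using dvd_add c1 (c2.mul_left 4)
            have c4 : (p : ℤ) ∣ 3 * e' := (Nat.prime_iff_prime_int.1 hp).dvd_of_dvd_pow c3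
            refine h ?_
            rw [show 3 * ((g : ℤ) * e') ^ 2 = 3 * e' * (g ^ 2 * e') by ring]
            exact dvd_sub (c4.mul_right _) (c2.mul_left _)
        · rw [hd']
          by_cases h : 1 ≤ padicValInt p d1
          · exact ((c1 h).mul_left _).mul_left _
          · exact ((c2 (by omega)).mul_right _).mul_left _
      · have := hp.two_le
        have h4 : p ≠ 4 := by rintro rfl; norm_num at hp
        obtain rfl | rfl : p = 2 ∨ p = 3 := by omega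
        · exact ((pow_dvd_pow 2 (show k ≤ 6 by omega)).trans (by norm_num)).mul_right _
        · have b1 := b1 (by omega)
          have b2 := b2 (by omega)
          exact ((pow_dvd_pow 3 (show k ≤ 2 by omega)).trans (by norm_num)).mul_right _
    have := Nat.le_of_dvd (Nat.mul_pos (by norm_num) (GLUE.cond_pos _ _)) this
    rw [← abs_mul, ← Int.natCast_natAbs]
    exact_mod_cast this

end Pool.Agent.SX3
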