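import Pool.Agent.Lib.SX.Blue3

/-! Phase 3: all curves with a rational 2-torsion point. -/

namespace Pool.Agent.SX3

open NumberField Pool.Agent.SX Pool.Agent.Szpiro98 Pool.Agent.Lib.MP_cafdd5_nt

namespace Two

/-- the split and the non-split case together -/
theorem one (hQ : St_QD) (hS : St_SQ) (ε : ℝ) (hε : 0 < ε) : ∃ C : ℝ, 0 ≤ C ∧ ∀ A B : ℤ,
    A ^ 2 - 4 * B ≠ 0 → B ≠ 0 → Min48 A B → Prim A B → ∃ d : ℤ, d ≠ 0 ∧ Ker d (A ^ 2 - 4 * B) ∧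
      LQ A B ≤ C * (rad (6 * B * (A ^ 2 - 4 * B)).natAbs : ℝ) ^ ε * √|(d : ℝ)| := by
  obtain ⟨C1, h1⟩ := hQ ε hε
  obtain ⟨C2, h2⟩ := hS ε hε
  refine ⟨max (max C1 C2) 0, le_max_right _ _, fun A B hc hB hm hp => ?_⟩
  have hr : 0 ≤ (rad (6 * B * (A ^ 2 - 4 * B)).natAbs : ℝ) ^ ε := by positivity
  by_cases hs : IsSquare (A ^ 2 - 4 * B)
  · refine ⟨1, one_ne_zero, fun p _ => by simp, (h2 A B hs hc hB hm hp).trans ?_⟩
    simpa using mul_le_mul_of_nonneg_right ((le_max_right C1 C2).trans (le_max_left _ 0)) hr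
  · obtain ⟨K, _, _, α, -, h3, h4⟩ := h1 A B hs hB hm hp
    refine ⟨discr K, discr_ne_zero K, h3, h4.trans ?_⟩
    exact mul_le_mul_of_nonneg_right
      (mul_le_mul_of_nonneg_right ((le_max_left C1 C2).trans (le_max_left _ 0)) hr) (Real.sqrt_nonneg _)

theorem root {m N : ℝ} (hm : 0 ≤ m) (hN : 0 ≤ N) (h : m * m ≤ 576 * N) : √m ≤ 5 * N ^ (1 / 4 : ℝ) := by
  refine le_of_pow_le_pow_left₀ (n := 4) (by norm_num) (by positivity) ?_
  have e1 : √m ^ 4 = m * m := by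
    rw [show 4 = 2 * 2 from rfl, pow_mul, Real.sq_sqrt hm, sq]
  have e2 : (N ^ (1 / 4 : ℝ)) ^ 4 = N := by
    rw [← Real.rpow_natCast, ← Real.rpow_mul hN]; norm_num
  rw [e1, mul_pow, e2]
  linarith

theorem fin {C ε N m L : ℝ} {R : ℕ} (hC : 0 ≤ C) (hε : 0 < ε) (hN : 1 ≤ N) (hm : 0 ≤ m) (h : m * m ≤ 576 * N)
    (hR : (R : ℝ) ≤ 6 * N) (hL : L ≤ C * (R : ℝ) ^ ε * √m) : L ≤ 5 * C * 6 ^ ε * N ^ (1 / 4 + ε) := by
  have h1 : (R : ℝ) ^ ε ≤ 6 ^ ε * N ^ ε := by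
    rw [← Real.mul_rpow (by norm_num) (by linarith)]
    exact Real.rpow_le_rpow (Nat.cast_nonneg _) hR hε.le
  have h2 := root hm (by linarith) h
  rw [Real.rpow_add (by linarith)]
  calc L ≤ C * (R : ℝ) ^ ε * √m := hL
    _ ≤ C * (6 ^ ε * N ^ ε) * (5 * N ^ (1 / 4 : ℝ)) := by gcongr
    _ = _ := by ring

end Two

theorem st_two (hQ : St_QD) (hS : St_SQ) (hT : St_TW) : St_TWO := by
  intro ε hε
  obtain ⟨C, hC, h⟩ := Two.one hQ hS ε hε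
  refine ⟨15 * C * 6 ^ ε + 24, fun a b e hd hm he => ?_⟩
  obtain ⟨g, A, B, g1, g2, -, -, hB, hc, m1, p1, m2, p2, r1, r2, l1, l2, hk⟩ := hT a b e hd hm he
  have e1 : (-2 * A) ^ 2 - 4 * (A ^ 2 - 4 * B) = 16 * B := by ring
  obtain ⟨d1, n1, k1, b1⟩ := h A B hc hB m1 p1
  obtain ⟨d2, n2, k2, b2⟩ := h (-2 * A) (A ^ 2 - 4 * B) (by rw [e1]; omega) hc m2 p2
  rw [e1] at k2 b2
  have hN : (1 : ℝ) ≤ Szpiro98.cond a b := by exact_mod_cast g1.trans g2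
  have h1 : |(d1 : ℝ)| * |(d2 : ℝ)| ≤ 576 * (Szpiro98.cond a b : ℝ) := by exact_mod_cast hk d1 d2 n1 n2 k1 k2
  have h2 : LQ A B ≤ 5 * C * 6 ^ ε * (Szpiro98.cond a b : ℝ) ^ (1 / 4 + ε) := by
    rcases le_total |(d1 : ℝ)| |(d2 : ℝ)| with h3 | h3
    · exact Two.fin hC hε hN (abs_nonneg _) ((mul_le_mul_of_nonneg_left h3 (abs_nonneg _)).trans h1)
        (by exact_mod_cast r1) b1
    · exact l2.trans (Two.fin hC hε hN (abs_nonneg _) ((mul_le_mul_of_nonneg_right h3 (abs_nonneg _)).trans h1)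
        (by exact_mod_cast r2) b2)
  have h3 : Real.log g ≤ 4 * (Szpiro98.cond a b : ℝ) ^ (1 / 4 + ε) := by
    have h4 : Real.log g ≤ Real.log (Szpiro98.cond a b) :=
      Real.log_le_log (by exact_mod_cast g1) (by exact_mod_cast g2)
    have h5 := Real.log_le_rpow_div (x := (Szpiro98.cond a b : ℝ)) (by linarith) (show (0 : ℝ) < 1 / 4 by norm_num)
    have h6 := Real.rpow_le_rpow_of_exponent_le hN (show (1 / 4 : ℝ) ≤ 1 / 4 + ε by linarith)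
    linarith
  linarith

end Pool.Agent.SX3
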