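import Pool.Agent.Lib.SX.Blue3
import Pool.Agent.Lib.SX.C_VAN

/-! Block VANQ: the low coefficients of the multiplicative expansion vanish (quadratic field). -/

namespace Pool.Agent.SX3

open Finset MvPolynomial Pool.Agent.SX Pool.Agent.SX2 Pool.Agent.SX2.Van Pool.Agent.Szpiro98

namespace Vanq

lemma padic (hP : St_PAD) {K : Type} [Field K] {p : ℕ} [Fact p.Prime] (f g : K →+* ℂ_[p])
    {κ n d d' x P : ℕ} {J : Fin κ → ℤ} {F : AP κ} {δ w0 Λ : K} {w : Fin κ → K} (hP1 : 1 ≤ P)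
    (hF : SlabF n d J F) (hD1 : Low (uw 1 x) d' (dg 1 2 F)) (hD2 : Low (uw 2 x) d' (dg 2 1 F))
    (h1 : ‖f δ‖ = 1) (h2 : ‖g δ‖ = 1) (h12 : ‖f δ - g δ‖ * (P : ℝ) ^ x ≤ 1) (hw0 : w0 ≠ 0)
    (hiw0 : IsIntegral ℤ w0) (hiΛ : IsIntegral ℤ (Λ * δ ^ (2 * d)))
    (hw : ∀ k, max ‖f (w k)‖ ‖g (w k)‖ ≤ max ‖f w0‖ ‖g w0‖ ∧
      ‖f (w k) * g w0 - g (w k) * f w0‖ * P ≤ max ‖f w0‖ ‖g w0‖ ^ 2)
    (t : Option (Fin 3 × Fin κ) →₀ ℕ) :
    ‖f (Λ * w0 ^ d) * g (Λ * w0 ^ d) * coeff t (mf ![fun _ => 1, fun k => f (w k / w0),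
      fun k => g (w k / w0)] ![1, f δ, g δ] F)‖ * (P : ℝ)⁻¹ ^ (t.sum fun _ e => e) ≤
        (P : ℝ)⁻¹ ^ d' := by
  have hPpos : (0 : ℝ) < P := by exact_mod_cast hP1
  have hP1' : (1 : ℝ) ≤ P := by exact_mod_cast hP1
  have hρ0 : (0 : ℝ) < (P : ℝ)⁻¹ := inv_pos.2 hPpos
  have hρ1 : (P : ℝ)⁻¹ ≤ 1 := inv_le_one_of_one_le₀ hP1'
  have hl1 : ∀ j : K →+* ℂ_[p], ‖j δ‖ = 1 → ‖j Λ‖ ≤ 1 := by
    intro j hj
    have := nle j hiΛ
    rwa [map_mul, map_pow, norm_mul, norm_pow, hj, one_pow, mul_one] at this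
  obtain ⟨L, L0, L1, L2⟩ : ∃ L : Fin 3 → ℂ_[p], L 0 = 1 ∧ L 1 = f Λ ∧ L 2 = g Λ :=
    ⟨![1, f Λ, g Λ], rfl, rfl, rfl⟩
  obtain ⟨V, V0, V1, V2⟩ : ∃ V : Fin 3 → ℂ_[p], V 0 = 1 ∧ V 1 = f w0 ∧ V 2 = g w0 :=
    ⟨![1, f w0, g w0], rfl, rfl, rfl⟩
  obtain ⟨W, W0, W1, W2⟩ : ∃ W : Fin 3 → Fin κ → ℂ_[p], (∀ k, W 0 k = 1) ∧ (∀ k, W 1 k = f (w k)) ∧
      ∀ k, W 2 k = g (w k) :=
    ⟨![fun _ => 1, fun k => f (w k), fun k => g (w k)], fun _ => rfl, fun _ => rfl, fun _ => rfl⟩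
  obtain ⟨Z, hZ, Z0, Z1, Z2⟩ : ∃ Z : Fin 3 → ℂ_[p], ![1, f δ, g δ] = Z ∧ Z 0 = 1 ∧ Z 1 = f δ ∧
      Z 2 = g δ := ⟨_, rfl, rfl, rfl, rfl⟩
  have e1 : f (Λ * w0 ^ d) * g (Λ * w0 ^ d) = ∏ i, L i * V i ^ d := by
    rw [Fin.prod_univ_three, L0, L1, L2, V0, V1, V2, map_mul, map_mul, map_pow, map_pow]
    ring
  have e2 : (![fun _ => 1, fun k => f (w k / w0), fun k => g (w k / w0)] :
      Fin 3 → Fin κ → ℂ_[p]) = fun i k => W i k / V i := by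
    funext i k
    fin_cases i
    · change 1 = W 0 k / V 0
      rw [W0, V0, div_one]
    · change f (w k / w0) = W 1 k / V 1
      rw [W1, V1, map_div₀]
    · change g (w k / w0) = W 2 k / V 2
      rw [W2, V2, map_div₀]
  have hne : ∀ i, V i ≠ 0 := by
    intro i
    fin_cases i
    · change V 0 ≠ 0
      rw [V0]; exact one_ne_zero
    · change V 1 ≠ 0
      rw [V1]; exact (map_ne_zero f).2 hw0
    · change V 2 ≠ 0
      rw [V2]; exact (map_ne_zero g).2 hw0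
  have hx : ‖f δ - g δ‖ ≤ (P : ℝ)⁻¹ ^ x := by
    rw [inv_pow, ← one_div, le_div_iff₀ (pow_pos hPpos x)]
    exact h12
  have hk : ∀ k, ‖f (w k) * g w0 - g (w k) * f w0‖ ≤ (P : ℝ)⁻¹ * max ‖f w0‖ ‖g w0‖ ^ 2 := by
    intro k
    rw [← div_eq_inv_mul, le_div_iff₀ hPpos]
    exact (hw k).2
  have hc : ∀ m e, Slab n d J m e →
      ‖L 0 * (∏ k, W 0 k ^ m k) * V 0 ^ (d - ∑ k, m k) * Z 0 ^ e‖ ≤ 1 := by
    intro m e _
    simp only [L0, W0, V0, Z0, one_pow, prod_const_one, mul_one, norm_one, le_refl]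
  have a1 := hl1 f h1
  have a2 := hl1 g h2
  have a3 := nle f hiw0
  have a4 := nle g hiw0
  rw [e1, e2, hZ]
  simp only [← W1, ← W2, ← V1, ← V2] at hw hk
  rw [← Z1] at h1 hx
  rw [← Z2] at h2 hx
  rw [← L1] at a1
  rw [← L2] at a2
  rw [← V1] at a3
  rw [← V2] at a4
  rcases le_total ‖V 1‖ ‖V 2‖ with hle | hle
  · rw [max_eq_right hle] at hw hk
    exact hP p κ n d d' x J F W V L Z 1 2 0 (P : ℝ)⁻¹ (by decide) (by decide) (by decide) hρ0 hρ1 hF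
      hD1 hne a1 a2 h1.le h2.le hx a4 hle
      (fun k => ⟨(le_max_left _ _).trans (hw k).1, (le_max_right _ _).trans (hw k).1, hk k⟩) hc t
  · rw [max_eq_left hle] at hw hk
    exact hP p κ n d d' x J F W V L Z 2 1 0 (P : ℝ)⁻¹ (by decide) (by decide) (by decide) hρ0 hρ1 hF
      hD2 hne a2 a1 h2.le h1.le ((norm_sub_rev _ _).trans_le hx) a3 hle
      (fun k => ⟨(le_max_right _ _).trans (hw k).1, (le_max_left _ _).trans (hw k).1,
        (norm_sub_rev _ _).trans_le (hk k)⟩) hc t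

lemma sq2 {a b M : ℝ} (ha : a ^ 2 ≤ M) (hb : b ^ 2 ≤ M) : a * b ≤ M := by
  nlinarith [sq_nonneg (a - b)]

end Vanq

open Vanq in
theorem st_vanq (hS : St_SMALL) (hN : St_NRM) (hP : St_PAD) : St_VANQ := by
  intro K _ p _ σ1 σ2 τ κ n d d' x P J F δ w0 Λ w Mx hπ hP1 hn hJ hF hD1 hD2 hxd h1 h2 h12 hw0 hiw0
    hΛ hiΛ hw hη hM t ht
  by_contra hlt
  push Not at hlt
  have hwt : Finsupp.weight (fun _ : Option (Fin 3 × Fin κ) => (1 : ℤ)) t =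
      ((t.sum fun _ e => e : ℕ) : ℤ) := by
    rw [Finsupp.weight_apply]
    simp [Finsupp.sum]
  rw [hwt] at hlt
  have hlt' : (t.sum fun _ e => e) ≤ x := by exact_mod_cast hlt.le
  set cf := coeff t (mf ![fun _ => 1, fun k => σ1 (w k / w0), fun k => σ2 (w k / w0)]
    ![1, σ1 δ, σ2 δ] F) with hcf
  have hcf0 : cf ≠ 0 := mem_support_iff.1 ht
  obtain ⟨β, hβ, hsum⟩ := hS Qb κ n d J
    ![fun _ => 1, fun k => σ1 (w k / w0), fun k => σ2 (w k / w0)] ![1, σ1 δ, σ2 δ] F t hn hJ hF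
  set η : (VI κ →₀ ℕ) → Fin 3 → K := fun m i =>
    Λ * (∏ k, w k ^ m (i, some k)) * w0 ^ (d - ∑ k, m (i, some k)) * δ ^ m (i, none) with hηd
  set y : Qb := σ1 (Λ * w0 ^ d) * σ2 (Λ * w0 ^ d) * cf with hy
  have hy2 : y = ∑ m ∈ F.support, (β m : Qb) * (σ1 (η m 1) * σ2 (η m 2)) := by
    rw [hy, hcf, hsum, mul_sum]
    refine sum_congr rfl fun m hm => ?_
    rw [hηd]
    simp only
    rw [← eta_eq Λ w0 δ w _ _ hw0 (hF m hm 1).1, ← eta_eq Λ w0 δ w _ _ hw0 (hF m hm 2).1,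
      Fin.prod_univ_three]
    simp only [map_mul, map_pow, map_prod, Matrix.cons_val_zero, Matrix.cons_val_one,
      Matrix.cons_val_two, Matrix.head_cons, Matrix.tail_cons, one_pow, prod_const_one]
    ring
  have hPpos : (0 : ℝ) < P := by exact_mod_cast hP1
  have hP1' : (1 : ℝ) ≤ P := by exact_mod_cast hP1
  have hρ0 : (0 : ℝ) < (P : ℝ)⁻¹ := inv_pos.2 hPpos
  have hρ1 : (P : ℝ)⁻¹ ≤ 1 := inv_le_one_of_one_le₀ hP1'
  have hy0 : y = 0 := by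
    refine hN p y ((l1 F : ℝ) * 2 ^ (15 * d) * Mx) ((P : ℝ)⁻¹ ^ (d' - x)) ?_ ?_ ?_ ?_
    · rw [hy2]
      refine IsIntegral.sum _ fun m hm => IsIntegral.mul ?_ (IsIntegral.mul ?_ ?_)
      · exact isIntegral_algebraMap (R := ℤ) (x := β m)
      · exact (hη _ _ (hF m hm 1)).1.map σ1.toIntAlgHom
      · exact (hη _ _ (hF m hm 2)).1.map σ2.toIntAlgHom
    · intro φ
      have hne : F.support.Nonempty := by
        by_contra h
        rw [not_nonempty_iff_eq_empty] at h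
        rw [h, sum_empty] at hsum
        exact hcf0 hsum
      obtain ⟨m0, hm0⟩ := hne
      have hMx : 0 ≤ Mx := (sq_nonneg _).trans ((hη _ _ (hF m0 hm0 0)).2 (φ.comp σ1))
      rw [hy2, map_sum]
      refine (norm_sum_le _ _).trans ?_
      calc ∑ m ∈ F.support, ‖φ ((β m : Qb) * (σ1 (η m 1) * σ2 (η m 2)))‖
          ≤ ∑ m ∈ F.support, ((β m).natAbs : ℝ) * Mx := by
            refine sum_le_sum fun m hm => ?_
            rw [map_mul, norm_mul, map_intCast, Complex.norm_intCast, map_mul, norm_mul,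
              Nat.cast_natAbs, Int.cast_abs]
            refine mul_le_mul_of_nonneg_left ?_ (abs_nonneg _)
            exact sq2 ((hη _ _ (hF m hm 1)).2 (φ.comp σ1)) ((hη _ _ (hF m hm 2)).2 (φ.comp σ2))
        _ ≤ (l1 F : ℝ) * 2 ^ (15 * d) * Mx := by
            rw [← sum_mul]
            refine mul_le_mul_of_nonneg_right ?_ hMx
            exact_mod_cast hβ
    · intro ψ
      have hψy : ψ y = ψ.comp σ1 (Λ * w0 ^ d) * ψ.comp σ2 (Λ * w0 ^ d) *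
          coeff t (mf ![fun _ => 1, fun k => ψ.comp σ1 (w k / w0), fun k => ψ.comp σ2 (w k / w0)]
            ![1, ψ.comp σ1 δ, ψ.comp σ2 δ] F) := by
        have a1 : (fun i k => ψ ((![fun _ => 1, fun k => σ1 (w k / w0), fun k => σ2 (w k / w0)] :
            Fin 3 → Fin κ → Qb) i k)) =
            ![fun _ => 1, fun k => ψ.comp σ1 (w k / w0), fun k => ψ.comp σ2 (w k / w0)] := by
          funext i k
          fin_cases i <;> simp
        have a2 : (fun i => ψ ((![1, σ1 δ, σ2 δ] : Fin 3 → Qb) i)) =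
            ![1, ψ.comp σ1 δ, ψ.comp σ2 δ] := by
          funext i
          fin_cases i <;> simp
        rw [hy, map_mul, map_mul, hcf, map_mf, a1, a2]
        rfl
      have hmu : ∀ k, mu τ (w k) * mu τ w0 ≤ mu τ w0 ^ 2 := fun k => by
        rw [sq]
        exact mul_le_mul_of_nonneg_right (hw k).1 (le_max_of_le_left (norm_nonneg _))
      have hk : ‖ψ y‖ * (P : ℝ)⁻¹ ^ (t.sum fun _ e => e) ≤ (P : ℝ)⁻¹ ^ d' := by
        rw [hψy]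
        rcases hπ ψ with ⟨a1, a2⟩ | ⟨a1, a2⟩ <;> rw [a1, a2]
        · exact padic hP _ _ hP1 hF hD1 hD2 h1 h2 h12 hw0 hiw0 hiΛ
            (fun k => ⟨(hw k).1, (hw k).2.trans (hmu k)⟩) t
        · refine padic hP _ _ hP1 hF hD1 hD2 h2 h1 (by rwa [norm_sub_rev]) hw0 hiw0 hiΛ
            (fun k => ?_) t
          rw [max_comm ‖τ 2 w0‖, max_comm ‖τ 2 (w k)‖, norm_sub_rev]
          exact ⟨(hw k).1, (hw k).2.trans (hmu k)⟩
      have hx : (P : ℝ)⁻¹ ^ x ≤ (P : ℝ)⁻¹ ^ (t.sum fun _ e => e) :=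
        pow_le_pow_of_le_one hρ0.le hρ1 hlt'
      have h3 : ‖ψ y‖ * (P : ℝ)⁻¹ ^ x ≤ (P : ℝ)⁻¹ ^ (d' - x) * (P : ℝ)⁻¹ ^ x := by
        rw [← pow_add, Nat.sub_add_cancel hxd]
        exact (mul_le_mul_of_nonneg_left hx (norm_nonneg _)).trans hk
      exact le_of_mul_le_mul_right h3 (pow_pos hρ0 x)
    · rw [inv_pow, ← div_eq_mul_inv, div_lt_one (pow_pos hPpos _)]
      exact hM
  rcases mul_eq_zero.1 hy0 with h | h
  · exact mul_ne_zero ((map_ne_zero σ1).2 (mul_ne_zero hΛ (pow_ne_zero _ hw0)))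
      ((map_ne_zero σ2).2 (mul_ne_zero hΛ (pow_ne_zero _ hw0))) h
  · exact hcf0 h

end Pool.Agent.SX3
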