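import Mathlib

/-! Subexponential abc: definitions and basic lemmas (paper: team-store sx_PAPER.md). -/

namespace Pool.Agent.SX

open MvPolynomial Finset

abbrev MP (n : ℕ) := MvPolynomial (Fin n) ℤ

/-- every monomial of `F` has `w`-weight at least `a` -/
def Low {σ R : Type*} [CommSemiring R] (w : σ → ℤ) (a : ℤ) (F : MvPolynomial σ R) : Prop :=
  ∀ m ∈ F.support, a ≤ Finsupp.weight w m

/-- sum of the absolute values of the coefficients -/
noncomputable def l1 {σ : Type*} (F : MvPolynomial σ ℤ) : ℕ := ∑ m ∈ F.support, (F.coeff m).natAbs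

/-- Taylor shift to the point `pt` -/
noncomputable def sh {σ K : Type*} [CommRing K] (pt : σ → K) : MvPolynomial σ ℤ →+* MvPolynomial σ K :=
  eval₂Hom (Int.castRingHom _) fun i => X i + C (pt i)

/-- `Low` for a polynomial in one more variable of weight `w0` -/
def PLow {σ R : Type*} [CommSemiring R] (w : σ → ℤ) (w0 a : ℤ) (f : Polynomial (MvPolynomial σ R)) : Prop :=
  ∀ c : ℕ, Low w (a - c * w0) (f.coeff c)

noncomputable def pl1 {σ : Type*} (f : Polynomial (MvPolynomial σ ℤ)) : ℕ := ∑ c ∈ f.support, l1 (f.coeff c)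

/-- no short integer relation between the weights -/
def NonRes {n : ℕ} (wt : Fin n → ℤ) (B : ℕ) : Prop :=
  ∀ i : Fin n → ℤ, (∀ l, |i l| ≤ B) → ∑ l, i l * wt l = 0 → i = 0

/-- order weights: `1` on the first `k` variables, `x` on the last one -/
def owt (k x : ℕ) : Fin (k + 1) → ℤ := fun l => if l = Fin.last k then x else 1

/-- state of the zero lemma -/
structure St {K : Type*} [CommRing K] {n : ℕ} (wt ow : Fin n → ℤ) (pt : Fin n → K) (D om H α : ℕ) (F : MP n) :
    Prop where
  ne : F ≠ 0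
  deg : Low (fun _ => -1) (-(D : ℤ)) F
  win : ∃ E : ℤ, Low wt E F ∧ Low (-wt) (-(E + om)) F
  ht : l1 F ≤ 2 ^ (H * D)
  ord : Low ow α (sh pt F)

/-- `ρ` is an approximation of `R ^ (J / n)` with exponent errors at most `1 / Q` -/
def Apx (R n Q J ρ : ℕ) : Prop :=
  ρ ≠ 0 ∧ ∀ q : ℕ, (Q : ℤ) * |(n : ℤ) * ρ.factorization q - J * R.factorization q| ≤ n ∧
    (R.factorization q = 0 → ρ.factorization q = 0)

/-- radical -/
def rad (n : ℕ) : ℕ := ∏ q ∈ n.primeFactors, q

section LowLemmas

variable {σ R : Type*} [CommRing R] {w : σ → ℤ} {a b : ℤ} {F G : MvPolynomial σ R}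

lemma Low.mono (h : Low w a F) (hb : b ≤ a) : Low w b F := fun m hm => hb.trans (h m hm)

lemma low_zero : Low w a (0 : MvPolynomial σ R) := fun m hm => by simp at hm

lemma low_of_nonneg (hw : ∀ l, 0 ≤ w l) (ha : a ≤ 0) (F : MvPolynomial σ R) : Low w a F := fun m _ => by
  refine ha.trans ?_
  rw [Finsupp.weight_apply]
  exact Finset.sum_nonneg fun l _ => smul_nonneg (Nat.zero_le _) (hw l)

lemma Low.of_support_subset {S : Type*} [CommRing S] {G : MvPolynomial σ S} (h : Low w a F)
    (hs : G.support ⊆ F.support) : Low w a G := fun m hm => h m (hs hm)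

lemma Low.add (h : Low w a F) (h' : Low w a G) : Low w a (F + G) := by
  classical
  intro m hm
  rcases mem_union.1 (support_add hm) with h1 | h1
  exacts [h m h1, h' m h1]

lemma Low.neg (h : Low w a F) : Low w a (-F) := fun m hm => h m (by simpa using hm)

lemma Low.sub (h : Low w a F) (h' : Low w a G) : Low w a (F - G) := by
  rw [sub_eq_add_neg]; exact h.add h'.neg

lemma Low.mul (h : Low w a F) (h' : Low w b G) : Low w (a + b) (F * G) := by
  classical
  intro m hm
  obtain ⟨x, hx, y, hy, rfl⟩ := mem_add.1 (support_mul F G hm)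
  rw [map_add]
  exact add_le_add (h x hx) (h' y hy)

lemma low_C (r : R) : Low w 0 (C r : MvPolynomial σ R) := by
  classical
  intro m hm
  have := support_monomial_subset (s := (0 : σ →₀ ℕ)) (a := r) hm
  rw [mem_singleton.1 this, map_zero]

lemma low_one : Low w 0 (1 : MvPolynomial σ R) := low_C 1

lemma low_natCast (c : ℕ) : Low w 0 (c : MvPolynomial σ R) := by
  rw [← map_natCast (C : R →+* MvPolynomial σ R)]; exact low_C _

lemma low_intCast (c : ℤ) : Low w 0 (c : MvPolynomial σ R) := by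
  rw [← map_intCast (C : R →+* MvPolynomial σ R)]; exact low_C _

lemma Low.C_mul (h : Low w a F) (r : R) : Low w a (C r * F) := by
  simpa using (low_C r).mul h

lemma Low.natCast_mul (h : Low w a F) (c : ℕ) : Low w a ((c : MvPolynomial σ R) * F) := by
  simpa using (low_natCast c).mul h

lemma low_monomial (m : σ →₀ ℕ) (r : R) : Low w (Finsupp.weight w m) (monomial m r) := by
  classical
  intro m' hm
  rw [mem_singleton.1 (support_monomial_subset hm)]

lemma low_sum {ι : Type*} {s : Finset ι} {f : ι → MvPolynomial σ R} (h : ∀ i ∈ s, Low w a (f i)) :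
    Low w a (∑ i ∈ s, f i) :=
  Finset.sum_induction _ _ (fun _ _ => Low.add) low_zero h

lemma low_prod {ι : Type*} {s : Finset ι} {f : ι → MvPolynomial σ R} {c : ι → ℤ} (h : ∀ i ∈ s, Low w (c i) (f i)) :
    Low w (∑ i ∈ s, c i) (∏ i ∈ s, f i) := by
  classical
  induction s using Finset.induction_on with
  | empty => simpa using low_one
  | insert i s hi ih =>
    rw [sum_insert hi, prod_insert hi]
    exact (h i (mem_insert_self _ _)).mul (ih fun j hj => h j (mem_insert_of_mem hj))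

lemma Low.pow (h : Low w a F) (e : ℕ) : Low w (e * a) (F ^ e) := by
  simpa using low_prod (s := range e) (f := fun _ => F) (c := fun _ => a) fun _ _ => h

lemma low_det {ι : Type*} [Fintype ι] [DecidableEq ι] (M : Matrix ι ι (MvPolynomial σ R)) (r c : ι → ℤ)
    (h : ∀ i j, Low w (r i + c j) (M i j)) : Low w (∑ i, r i + ∑ j, c j) M.det := by
  rw [Matrix.det_apply']
  refine low_sum fun p _ => ?_
  have := (low_intCast (w := w) (R := R) (Equiv.Perm.sign p : ℤ)).mul
    (low_prod (s := univ) fun j _ => h (p j) j)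
  rwa [zero_add, sum_add_distrib, Equiv.sum_comp p r] at this

end LowLemmas

section L1Lemmas

variable {σ : Type*} {F G : MvPolynomial σ ℤ}

lemma l1_eq_sum {s : Finset (σ →₀ ℕ)} (h : F.support ⊆ s) : l1 F = ∑ m ∈ s, (F.coeff m).natAbs :=
  sum_subset h fun m _ hm => by rw [notMem_support_iff.1 hm]; rfl

@[simp] lemma l1_zero : l1 (0 : MvPolynomial σ ℤ) = 0 := by simp [l1]

@[simp] lemma l1_monomial (m : σ →₀ ℕ) (r : ℤ) : l1 (monomial m r) = r.natAbs := by
  classical
  rw [l1_eq_sum support_monomial_subset]; simp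

@[simp] lemma l1_C (r : ℤ) : l1 (C r : MvPolynomial σ ℤ) = r.natAbs := l1_monomial 0 r

@[simp] lemma l1_one : l1 (1 : MvPolynomial σ ℤ) = 1 := l1_C 1

@[simp] lemma l1_X (i : σ) : l1 (X i : MvPolynomial σ ℤ) = 1 := l1_monomial _ 1

@[simp] lemma l1_neg : l1 (-F) = l1 F := by simp [l1]

lemma coeff_le_l1 (F : MvPolynomial σ ℤ) (m : σ →₀ ℕ) : (F.coeff m).natAbs ≤ l1 F := by
  by_cases h : m ∈ F.support
  · exact single_le_sum (f := fun m => (F.coeff m).natAbs) (fun _ _ => Nat.zero_le _) h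
  · rw [notMem_support_iff.1 h]; exact Nat.zero_le _

lemma l1_pos (h : F ≠ 0) : 0 < l1 F := by
  obtain ⟨m, hm⟩ := ne_zero_iff.1 h
  exact (Int.natAbs_pos.2 hm).trans_le (coeff_le_l1 F m)

lemma l1_add_le (F G : MvPolynomial σ ℤ) : l1 (F + G) ≤ l1 F + l1 G := by
  classical
  rw [l1_eq_sum support_add, l1_eq_sum (F := F) subset_union_left, l1_eq_sum (F := G) subset_union_right,
    ← sum_add_distrib]
  exact sum_le_sum fun m _ => by rw [coeff_add]; exact Int.natAbs_add_le _ _

lemma l1_sum_le {ι : Type*} (s : Finset ι) (f : ι → MvPolynomial σ ℤ) : l1 (∑ i ∈ s, f i) ≤ ∑ i ∈ s, l1 (f i) :=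
  le_sum_of_subadditive l1 l1_zero.le l1_add_le s f

lemma l1_mul_le (F G : MvPolynomial σ ℤ) : l1 (F * G) ≤ l1 F * l1 G := by
  conv_lhs => rw [F.as_sum, G.as_sum, sum_mul_sum]
  refine (l1_sum_le _ _).trans ?_
  rw [l1, l1, sum_mul_sum]
  refine sum_le_sum fun m _ => (l1_sum_le _ _).trans (sum_le_sum fun m' _ => ?_)
  rw [monomial_mul, l1_monomial, Int.natAbs_mul]

lemma l1_prod_le {ι : Type*} (s : Finset ι) (f : ι → MvPolynomial σ ℤ) : l1 (∏ i ∈ s, f i) ≤ ∏ i ∈ s, l1 (f i) := by
  classical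
  induction s using Finset.induction_on with
  | empty => simp
  | insert i s hi ih =>
    rw [prod_insert hi, prod_insert hi]
    exact (l1_mul_le _ _).trans (Nat.mul_le_mul_left _ ih)

lemma l1_pow_le (F : MvPolynomial σ ℤ) (e : ℕ) : l1 (F ^ e) ≤ l1 F ^ e := by
  simpa using l1_prod_le (range e) fun _ => F

lemma l1_natCast_mul_le (c : ℕ) (F : MvPolynomial σ ℤ) : l1 ((c : MvPolynomial σ ℤ) * F) ≤ c * l1 F := by
  refine (l1_mul_le _ _).trans ?_
  rw [← map_natCast (C : ℤ →+* MvPolynomial σ ℤ), l1_C, Int.natAbs_natCast]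

lemma pl1_eq_sum {f : Polynomial (MvPolynomial σ ℤ)} {s : Finset ℕ} (h : f.support ⊆ s) :
    pl1 f = ∑ c ∈ s, l1 (f.coeff c) :=
  sum_subset h fun m _ hm => by rw [Polynomial.notMem_support_iff.1 hm, l1_zero]

lemma sum_le_pl1 (f : Polynomial (MvPolynomial σ ℤ)) (s : Finset ℕ) : ∑ c ∈ s, l1 (f.coeff c) ≤ pl1 f := by
  rw [pl1_eq_sum (s := f.support ∪ s) subset_union_left]
  exact sum_le_sum_of_subset subset_union_right

end L1Lemmas

end Pool.Agent.SX
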