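import Pool.Agent.Lib.SX.D_BIGN
import Pool.Agent.Lib.SX.D_BOXQ
import Pool.Agent.Lib.SX.D_CLSQ
import Pool.Agent.Lib.SX.D_ETAQ
import Pool.Agent.Lib.SX.D_EXT
import Pool.Agent.Lib.SX.D_FACTQ
import Pool.Agent.Lib.SX.D_GL
import Pool.Agent.Lib.SX.D_MINKQ
import Pool.Agent.Lib.SX.D_NEWQ
import Pool.Agent.Lib.SX.D_QD
import Pool.Agent.Lib.SX.D_QUA
import Pool.Agent.Lib.SX.D_SETQ
import Pool.Agent.Lib.SX.D_SQ
import Pool.Agent.Lib.SX.D_TW
import Pool.Agent.Lib.SX.D_TWO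
import Pool.Agent.Lib.SX.D_VANQ
import Pool.Agent.Lib.SX.Final
import Pool.Agent.Lib.SX.Final2

/-! Curves with a rational 2-torsion point, exponent one quarter: assembly. -/

namespace Pool.Agent.SX3

open Pool.Agent.SX2 Pool.Agent.Lib.MP_cafdd5_nt Pool.Agent.Szpiro98

/-- the new local bound over the quadratic field -/
theorem newq : St_NEWQ :=
  st_newq zl2 st_end2 st_nr st_sub st_ord (st_sieg2 st_cnt) st_ext (st_vanq st_small st_nrm st_pad) st_minkq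
    (st_clsq st_minkq) st_factq st_boxq st_etaq st_cell2 st_setq

theorem two : St_TWO := st_two (st_qd st_qua newq st_bign st_gl) (st_sq SX.abc) st_tw

theorem main (ε : ℝ) (hε : 0 < ε) : ∃ C : ℝ, ∀ a b : ℤ, disc a b ≠ 0 → IsMinimalShort a b →
    (∃ x : ℚ, x ^ 3 - a * x - b = 0) →
    Real.log (max (|(a : ℝ)| ^ 3) ((b : ℝ) ^ 2)) ≤ C * (Szpiro98.cond a b : ℝ) ^ (1 / 4 + ε) := by
  obtain ⟨C, h⟩ := two ε hε
  refine ⟨C, fun a b hD hm ⟨x, hx⟩ => ?_⟩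
  obtain ⟨e, -, he⟩ := SX.Ell.int_root hx
  have := h a b e hD (SX.Ell.minP hD hm) he
  unfold LL at this
  linarith

end Pool.Agent.SX3
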